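import Mathlib

/-!
Definitions for MP_cf0286_al, the relation algebra A_6([i,i,i+2]).
-/

namespace Pool.Agent.RA6

open Set

/-- The forbidden diversity cycles: the multisets `{i, i, i+2}`. -/
def Forbidden (s t u : ZMod 6) : Prop :=
  ∃ i : ZMod 6, ({s, t, u} : Multiset (ZMod 6)) = {i, i, i + 2}

instance (s t u : ZMod 6) : Decidable (Forbidden s t u) := by
  unfold Forbidden; infer_instance

/-- The atoms: `none` is the identity atom, `some s` the diversity atom `a_s`. -/
abbrev Atom : Type := Option (ZMod 6)

/-- Composition of two atoms, as a set of atoms. -/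
def atomComp : Atom → Atom → Set Atom
  | none, y => {y}
  | x, none => {x}
  | some s, some t =>
      {z | (∃ u, z = some u ∧ ¬ Forbidden s t u) ∨ (z = none ∧ s = t)}

/-- Composition of two elements of the algebra (sets of atoms), extended additively. -/
def algComp (A B : Set Atom) : Set Atom :=
  {z | ∃ a ∈ A, ∃ b ∈ B, z ∈ atomComp a b}

/-- Relational composition. -/
def relComp {U : Type} (R S : Set (U × U)) : Set (U × U) :=
  {p | ∃ w, (p.1, w) ∈ R ∧ (w, p.2) ∈ S}

/-- Relational converse. -/
def relConv {U : Type} (R : Set (U × U)) : Set (U × U) :=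
  {p | (p.2, p.1) ∈ R}

/-- A representation of `A_6([i,i,i+2])` on the set `U`: an injective map from the algebra
(the sets of atoms) to the binary relations on `U` which preserves the Boolean operations, with
unit `U x U`, the identity, converse (the atoms are symmetric) and composition. -/
structure IsRepresentation (U : Type) (r : Set Atom → Set (U × U)) : Prop where
  injective : Function.Injective r
  map_univ : r Set.univ = Set.univ
  map_union : ∀ A B, r (A ∪ B) = r A ∪ r B
  map_compl : ∀ A, r Aᶜ = (r A)ᶜ
  map_one : r {none} = {p | p.1 = p.2}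
  map_conv : ∀ A, r A = relConv (r A)
  map_comp : ∀ A B, r (algComp A B) = relComp (r A) (r B)

/-- The same in terms of edge colourings of the complete graph on `U`. -/
structure IsColouring {U : Type} (c : U → U → ZMod 6) : Prop where
  nontriv : ∃ x y : U, x ≠ y
  symm : ∀ x y, x ≠ y → c x y = c y x
  no_forb : ∀ x y z, x ≠ y → y ≠ z → x ≠ z → ¬ Forbidden (c x y) (c y z) (c x z)
  witness : ∀ x y, x ≠ y → ∀ s t, ¬ Forbidden (c x y) s t →
    ∃ w, w ≠ x ∧ w ≠ y ∧ c x w = s ∧ c w y = t

theorem forb_swap12 : ∀ s t u : ZMod 6, Forbidden s t u → Forbidden t s u := by decide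

theorem forb_swap23 : ∀ s t u : ZMod 6, Forbidden s t u → Forbidden s u t := by decide

theorem forb_iff (s t u : ZMod 6) :
    Forbidden s t u ↔ (s = t ∧ u = s + 2) ∨ (s = u ∧ t = s + 2) ∨ (t = u ∧ s = t + 2) := by
  revert s t u; decide

theorem exists_third : ∀ u s : ZMod 6, ∃ t, ¬ Forbidden u s t := by decide

open Classical in
/-- The atom of a pair. -/
noncomputable def atomOf {U : Type} (c : U → U → ZMod 6) (x y : U) : Atom :=
  if x = y then none else some (c x y)

/-- A colouring gives a representation. -/
theorem rep_of_colouring {U : Type} {c : U → U → ZMod 6} (h : IsColouring c) :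
    ∃ r : Set Atom → Set (U × U), IsRepresentation U r := by
  classical
  have hself : ∀ x, atomOf c x x = none := fun x => by simp [atomOf]
  have hne : ∀ x y, x ≠ y → atomOf c x y = some (c x y) := fun x y hxy => by simp [atomOf, hxy]
  have hsymm : ∀ x y, atomOf c x y = atomOf c y x := by
    intro x y
    by_cases hxy : x = y
    · subst hxy; rfl
    · rw [hne x y hxy, hne y x (Ne.symm hxy), h.symm x y hxy]
  -- every vertex has an edge of every colour
  have hdeg : ∀ x s, ∃ w, w ≠ x ∧ c x w = s := by
    intro x s
    obtain ⟨p, q, hpq⟩ := h.nontriv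
    have : ∃ y, x ≠ y := by
      by_cases hp : x = p
      · exact ⟨q, by rw [hp]; exact hpq⟩
      · exact ⟨p, hp⟩
    obtain ⟨y, hy⟩ := this
    obtain ⟨t, ht⟩ := exists_third (c x y) s
    obtain ⟨w, hw, _, h1, _⟩ := h.witness x y hy s t ht
    exact ⟨w, hw, h1⟩
  -- all atoms occur
  have hall : ∀ a : Atom, ∃ x y, atomOf c x y = a := by
    intro a
    obtain ⟨p, _, _⟩ := h.nontriv
    cases a with
    | none => exact ⟨p, p, hself p⟩
    | some s =>
      obtain ⟨w, hw, hs⟩ := hdeg p s
      exact ⟨p, w, by rw [hne p w (Ne.symm hw), hs]⟩
  refine ⟨fun A => {p | atomOf c p.1 p.2 ∈ A}, ?_, ?_, ?_, ?_, ?_, ?_, ?_⟩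
  · intro A B hAB
    ext a
    obtain ⟨x, y, hxy⟩ := hall a
    have := Set.ext_iff.mp hAB (x, y)
    simpa [hxy] using this
  · ext p; simp
  · intro A B; ext p; simp
  · intro A; ext p; simp
  · ext p
    obtain ⟨x, y⟩ := p
    simp only [mem_setOf_eq, mem_singleton_iff]
    constructor
    · intro hxy
      by_contra hne'
      rw [hne x y hne'] at hxy
      exact absurd hxy (by simp)
    · intro hxy
      subst hxy
      exact hself x
  · intro A; ext p
    obtain ⟨x, y⟩ := p
    simp only [mem_setOf_eq, relConv]
    rw [hsymm x y]
  · intro A B; ext p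
    obtain ⟨x, y⟩ := p
    simp only [mem_setOf_eq, relComp, algComp]
    constructor
    · rintro ⟨a, ha, b, hb, hab⟩
      cases a with
      | none =>
        refine ⟨x, by rw [hself]; exact ha, ?_⟩
        have : atomOf c x y = b := hab
        rw [this]; exact hb
      | some s =>
        cases b with
        | none =>
          refine ⟨y, ?_, by rw [hself]; exact hb⟩
          have : atomOf c x y = some s := hab
          rw [this]; exact ha
        | some t =>
          rcases hab with ⟨u, hu, hf⟩ | ⟨hn, hst⟩
          · by_cases hxy : x = y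
            · subst hxy; rw [hself] at hu; exact absurd hu (by simp)
            · rw [hne x y hxy] at hu
              have hu' : c x y = u := by simpa using hu
              have hf' : ¬ Forbidden (c x y) s t := by
                rw [hu']
                intro hc
                exact hf (forb_swap23 _ _ _ (forb_swap12 _ _ _ hc))
              obtain ⟨w, hwx, hwy, h1, h2⟩ := h.witness x y hxy s t hf'
              refine ⟨w, ?_, ?_⟩
              · rw [hne x w (Ne.symm hwx), h1]; exact ha
              · rw [hne w y hwy, h2]; exact hb
          · by_cases hxy : x = y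
            · subst hxy
              subst hst
              obtain ⟨w, hw, hs⟩ := hdeg x s
              refine ⟨w, ?_, ?_⟩
              · rw [hne x w (Ne.symm hw), hs]; exact ha
              · rw [hne w x hw, h.symm w x hw, hs]; exact hb
            · rw [hne x y hxy] at hn; exact absurd hn (by simp)
    · rintro ⟨w, hxw, hwy⟩
      refine ⟨atomOf c x w, hxw, atomOf c w y, hwy, ?_⟩
      by_cases h1 : x = w
      · subst h1
        rw [hself]
        show atomOf c x y ∈ ({atomOf c x y} : Set Atom)
        exact rfl
      · by_cases h2 : w = y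
        · subst h2
          rw [hself, hne x w h1]
          show _ ∈ ({some (c x w)} : Set Atom)
          exact rfl
        · rw [hne x w h1, hne w y h2]
          show atomOf c x y ∈ {z | _}
          by_cases h3 : x = y
          · subst h3
            right
            exact ⟨hself x, h.symm x w h1⟩
          · left
            exact ⟨c x y, hne x y h3, h.no_forb x w y h1 h2 h3⟩

end Pool.Agent.RA6
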