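import Mathlib

/-!
List colouring of a forest on the natural numbers in which every vertex has at most one older
neighbour; lists of values in `ZMod 3`.
-/

namespace Pool.Agent.RA6

section lists

variable {G : ℕ → ℕ → Prop} (hG : ∀ v u, G v u → u < v)
  (hu : ∀ v u u', G v u → G v u' → u = u') (κ : ℕ → ℕ → ZMod 3)

include hG hu

/-- Lists of size at least two, except one which is nonempty. -/
theorem list1 : ∀ (n : ℕ) (A : ℕ → Finset (ZMod 3)) (e : ℕ),
    (∀ v, v < n → v ≠ e → 2 ≤ (A v).card) → (A e).Nonempty →
    ∃ f : ℕ → ZMod 3, (∀ v, v < n → f v ∈ A v) ∧ ∀ v u, v < n → G v u → f v + f u ≠ κ v u := by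
  intro n
  induction n with
  | zero =>
    intro A e _ _
    exact ⟨fun _ => 0, fun v hv => absurd hv (Nat.not_lt_zero v),
      fun v u hv => absurd hv (Nat.not_lt_zero v)⟩
  | succ n ih =>
    intro A e h1 h2
    by_cases hn : n = e
    · obtain ⟨b, hb⟩ := h2
      by_cases hg : ∃ u, G n u
      · obtain ⟨u, hgu⟩ := hg
        have hun : u < n := hG _ _ hgu
        have hc : 2 ≤ (A u).card := h1 u (by omega) (by omega)
        have hne : ((A u).erase (κ n u - b)).Nonempty := by
          rw [← Finset.card_pos]
          have := Finset.pred_card_le_card_erase (s := A u) (a := κ n u - b)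
          omega
        obtain ⟨f, hf1, hf2⟩ := ih (Function.update A u ((A u).erase (κ n u - b))) u
          (by
            intro v hv hvu
            rw [Function.update_of_ne hvu]
            exact h1 v (by omega) (by omega))
          (by rw [Function.update_self]; exact hne)
        refine ⟨Function.update f n b, ?_, ?_⟩
        · intro v hv
          by_cases hvn : v = n
          · subst hvn
            rw [Function.update_self, hn]
            exact hb
          · rw [Function.update_of_ne hvn]
            have := hf1 v (by omega)
            by_cases hvu : v = u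
            · subst hvu
              rw [Function.update_self] at this
              exact Finset.mem_of_mem_erase this
            · rw [Function.update_of_ne hvu] at this
              exact this
        · intro v u' hv hgv
          have hlt := hG _ _ hgv
          by_cases hvn : v = n
          · subst hvn
            have e1 : u' = u := hu _ _ _ hgv hgu
            subst e1
            rw [Function.update_self, Function.update_of_ne (by omega)]
            have := hf1 u' hun
            rw [Function.update_self] at this
            have h3 := Finset.ne_of_mem_erase this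
            intro hsum
            exact h3 (by rw [← hsum]; ring)
          · rw [Function.update_of_ne hvn, Function.update_of_ne (by omega)]
            exact hf2 v u' (by omega) hgv
      · obtain ⟨f, hf1, hf2⟩ := ih A e (fun v hv hve => h1 v (by omega) hve) ⟨b, hb⟩
        refine ⟨Function.update f n b, ?_, ?_⟩
        · intro v hv
          by_cases hvn : v = n
          · subst hvn
            rw [Function.update_self, hn]
            exact hb
          · rw [Function.update_of_ne hvn]
            exact hf1 v (by omega)
        · intro v u' hv hgv
          have hlt := hG _ _ hgv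
          by_cases hvn : v = n
          · subst hvn
            exact absurd ⟨u', hgv⟩ hg
          · rw [Function.update_of_ne hvn, Function.update_of_ne (by omega)]
            exact hf2 v u' (by omega) hgv
    · obtain ⟨f, hf1, hf2⟩ := ih A e (fun v hv hve => h1 v (by omega) hve) h2
      have hc : 2 ≤ (A n).card := h1 n (by omega) hn
      obtain ⟨t, ht, ht2⟩ : ∃ t, t ∈ A n ∧ ∀ u, G n u → t + f u ≠ κ n u := by
        by_cases hg : ∃ u, G n u
        · obtain ⟨u, hgu⟩ := hg
          have hne : ((A n).erase (κ n u - f u)).Nonempty := by
            rw [← Finset.card_pos]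
            have := Finset.pred_card_le_card_erase (s := A n) (a := κ n u - f u)
            omega
          obtain ⟨t, ht⟩ := hne
          refine ⟨t, Finset.mem_of_mem_erase ht, ?_⟩
          intro u' hgu'
          have e1 : u' = u := hu _ _ _ hgu' hgu
          subst e1
          have h3 := Finset.ne_of_mem_erase ht
          intro hsum
          exact h3 (by rw [← hsum]; ring)
        · have hne : (A n).Nonempty := by
            rw [← Finset.card_pos]; omega
          obtain ⟨t, ht⟩ := hne
          exact ⟨t, ht, fun u hgu => absurd ⟨u, hgu⟩ hg⟩
      refine ⟨Function.update f n t, ?_, ?_⟩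
      · intro v hv
        by_cases hvn : v = n
        · subst hvn
          rw [Function.update_self]
          exact ht
        · rw [Function.update_of_ne hvn]
          exact hf1 v (by omega)
      · intro v u' hv hgv
        have hlt := hG _ _ hgv
        by_cases hvn : v = n
        · subst hvn
          rw [Function.update_self, Function.update_of_ne (by omega)]
          exact ht2 u' hgv
        · rw [Function.update_of_ne hvn, Function.update_of_ne (by omega)]
          exact hf2 v u' (by omega) hgv

/-- Two prescribed vertices, the first of which is the youngest vertex. -/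
theorem list2_top (n e : ℕ) (b1 b2 : ZMod 3) (hne : n ≠ e)
    (hc : G n e → b1 + b2 ≠ κ n e) :
    ∃ f : ℕ → ZMod 3, f n = b1 ∧ (e < n → f e = b2) ∧
      ∀ v u, v < n + 1 → G v u → f v + f u ≠ κ v u := by
  classical
  by_cases hg : ∃ u, G n u
  · obtain ⟨u, hgu⟩ := hg
    have hun : u < n := hG _ _ hgu
    obtain ⟨f, hf1, hf2⟩ := list1 hG hu κ n
      (fun v => if v = e then {b2} else if v = u then Finset.univ.erase (κ n u - b1)
        else Finset.univ) e
      (by
        intro v hv hve
        rw [if_neg hve]
        by_cases hvu : v = u
        · rw [if_pos hvu, Finset.card_erase_of_mem (Finset.mem_univ _)]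
          decide
        · rw [if_neg hvu]
          decide)
      (by rw [if_pos rfl]; exact Finset.singleton_nonempty b2)
    have hfe : e < n → f e = b2 := by
      intro hen
      have := hf1 e hen
      rw [if_pos rfl] at this
      exact Finset.mem_singleton.mp this
    refine ⟨Function.update f n b1, Function.update_self _ _ _, ?_, ?_⟩
    · intro hen
      rw [Function.update_of_ne (by omega)]
      exact hfe hen
    · intro v u' hv hgv
      have hlt := hG _ _ hgv
      by_cases hvn : v = n
      · subst hvn
        have e1 : u' = u := hu _ _ _ hgv hgu
        subst e1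
        rw [Function.update_self, Function.update_of_ne (by omega)]
        by_cases hue : u' = e
        · subst hue
          rw [hfe hun]
          exact hc hgv
        · have := hf1 u' hun
          rw [if_neg hue, if_pos rfl] at this
          have h3 := Finset.ne_of_mem_erase this
          intro hsum
          exact h3 (by rw [← hsum]; ring)
      · rw [Function.update_of_ne hvn, Function.update_of_ne (by omega)]
        exact hf2 v u' (by omega) hgv
  · obtain ⟨f, hf1, hf2⟩ := list1 hG hu κ n
      (fun v => if v = e then {b2} else Finset.univ) e
      (by
        intro v hv hve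
        rw [if_neg hve]
        decide)
      (by rw [if_pos rfl]; exact Finset.singleton_nonempty b2)
    refine ⟨Function.update f n b1, Function.update_self _ _ _, ?_, ?_⟩
    · intro hen
      rw [Function.update_of_ne (by omega)]
      have := hf1 e hen
      rw [if_pos rfl] at this
      exact Finset.mem_singleton.mp this
    · intro v u' hv hgv
      have hlt := hG _ _ hgv
      by_cases hvn : v = n
      · subst hvn
        exact absurd ⟨u', hgv⟩ hg
      · rw [Function.update_of_ne hvn, Function.update_of_ne (by omega)]
        exact hf2 v u' (by omega) hgv

/-- Two prescribed vertices, all other lists full. -/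
theorem list2 : ∀ (n e1 e2 : ℕ) (b1 b2 : ZMod 3), e1 ≠ e2 →
    (G e1 e2 → b1 + b2 ≠ κ e1 e2) → (G e2 e1 → b2 + b1 ≠ κ e2 e1) →
    ∃ f : ℕ → ZMod 3, (e1 < n → f e1 = b1) ∧ (e2 < n → f e2 = b2) ∧
      ∀ v u, v < n → G v u → f v + f u ≠ κ v u := by
  intro n
  induction n with
  | zero =>
    intro e1 e2 b1 b2 _ _ _
    exact ⟨fun _ => 0, fun h => absurd h (Nat.not_lt_zero _),
      fun h => absurd h (Nat.not_lt_zero _), fun v u hv => absurd hv (Nat.not_lt_zero v)⟩
  | succ n ih =>
    intro e1 e2 b1 b2 hne h1 h2
    by_cases hn1 : n = e1
    · subst hn1
      obtain ⟨f, hf1, hf2, hf3⟩ := list2_top hG hu κ n e2 b1 b2 hne h1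
      exact ⟨f, fun _ => hf1, fun h => hf2 (by omega), hf3⟩
    · by_cases hn2 : n = e2
      · subst hn2
        obtain ⟨f, hf1, hf2, hf3⟩ := list2_top hG hu κ n e1 b2 b1 hne.symm h2
        exact ⟨f, fun h => hf2 (by omega), fun _ => hf1, hf3⟩
      · obtain ⟨f, hf1, hf2, hf3⟩ := ih e1 e2 b1 b2 hne h1 h2
        obtain ⟨t, ht⟩ : ∃ t : ZMod 3, ∀ u, G n u → t + f u ≠ κ n u := by
          by_cases hg : ∃ u, G n u
          · obtain ⟨u, hgu⟩ := hg
            refine ⟨κ n u - f u + 1, ?_⟩
            intro u' hgu'
            have e1 : u' = u := hu _ _ _ hgu' hgu
            subst e1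
            intro hsum
            have h3 : (1 : ZMod 3) = 0 := by
              have h4 : κ n u' - f u' + 1 + f u' = κ n u' + 1 := by ring
              rw [h4] at hsum
              have h5 : κ n u' + 1 = κ n u' + 0 := by rw [hsum, add_zero]
              exact add_left_cancel h5
            exact absurd h3 (by decide)
          · exact ⟨0, fun u hgu => absurd ⟨u, hgu⟩ hg⟩
        refine ⟨Function.update f n t, ?_, ?_, ?_⟩
        · intro h
          rw [Function.update_of_ne (fun h => hn1 h.symm)]
          exact hf1 (by omega)
        · intro h
          rw [Function.update_of_ne (fun h => hn2 h.symm)]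
          exact hf2 (by omega)
        · intro v u' hv hgv
          have hlt := hG _ _ hgv
          by_cases hvn : v = n
          · subst hvn
            rw [Function.update_self, Function.update_of_ne (by omega)]
            exact ht u' hgv
          · rw [Function.update_of_ne hvn, Function.update_of_ne (by omega)]
            exact hf3 v u' (by omega) hgv

/-- One killed value at every vertex, and possibly one prescribed vertex. -/
theorem list_kill (n : ℕ) (k : ℕ → ZMod 3) (y : ℕ) (Q : Prop) (b : ZMod 3) :
    ∃ f : ℕ → ZMod 3, (∀ v, v < n → ¬ (v = y ∧ Q) → f v ≠ k v) ∧ (Q → y < n → f y = b) ∧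
      ∀ v u, v < n → G v u → f v + f u ≠ κ v u := by
  classical
  obtain ⟨f, hf1, hf2⟩ := list1 hG hu κ n
    (fun v => if v = y ∧ Q then {b} else Finset.univ.erase (k v)) y
    (by
      intro v hv hvy
      rw [if_neg (fun h => hvy h.1), Finset.card_erase_of_mem (Finset.mem_univ _)]
      decide)
    (by
      by_cases hQ : Q
      · rw [if_pos ⟨rfl, hQ⟩]; exact Finset.singleton_nonempty b
      · rw [if_neg (fun h => hQ h.2), ← Finset.card_pos,
          Finset.card_erase_of_mem (Finset.mem_univ _)]
        decide)
  refine ⟨f, ?_, ?_, hf2⟩
  · intro v hv hne
    have := hf1 v hv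
    rw [if_neg hne] at this
    exact Finset.ne_of_mem_erase this
  · intro hQ hy
    have := hf1 y hy
    rw [if_pos ⟨rfl, hQ⟩] at this
    exact Finset.mem_singleton.mp this

end lists

end Pool.Agent.RA6
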