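import Mathlib

/-!
Boolean `n x n` matrices as natural numbers (entry `(x, y)` is the bit `x * n + y`) and their
Boolean products, in a form which the kernel evaluates quickly.
-/

namespace Pool.Agent.RA6.BM

set_option autoImplicit false

/-- Evaluate the number first. -/
def force {α : Type} (x : ℕ) (k : ℕ → α) : α := Nat.rec (k 0) (fun n _ => k (Nat.succ n)) x

theorem force_eq {α : Type} (x : ℕ) (k : ℕ → α) : force x k = k x := by
  cases x <;> rfl

/-- The entry `(x, y)`. -/
def bit (n M x y : ℕ) : Bool := M.testBit (x * n + y)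

/-- Ones at the multiples `0, n, ..., (k - 1) * n`. -/
def comb (n : ℕ) (k : ℕ) : ℕ :=
  Nat.rec 0 (fun i c => Nat.lor (Nat.shiftLeft 1 (Nat.mul i n)) c) k

/-- One outer product: the column `z` of `A` times the row `z` of `B`; `cb` is the comb, `w = 2 ^ n`. -/
def outer (n cb w A B z : ℕ) : ℕ :=
  Nat.mul (Nat.land (Nat.shiftRight A z) cb) (Nat.mod (Nat.shiftRight B (Nat.mul z n)) w)

/-- Boolean product, summands `z < k`, added to `c`. -/
def mulAux (n cb w A B : ℕ) (k : ℕ) : ℕ → ℕ :=
  Nat.rec (fun c => c) (fun z ih c => force (Nat.lor (outer n cb w A B z) c) ih) k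

/-- At least one or at least two summands: `u` collects one, `v` collects two. -/
def mul2Aux {α : Type} (n cb w A B : ℕ) (fin : ℕ → ℕ → α) (k : ℕ) : ℕ → ℕ → α :=
  Nat.rec fin (fun z ih u v =>
    force (outer n cb w A B z) (fun o =>
      force (Nat.lor (Nat.land o u) v) (fun v' => force (Nat.lor o u) (fun u' => ih u' v')))) k

theorem shl_one_testBit (i j : ℕ) : (Nat.shiftLeft 1 i).testBit j = decide (j = i) := by
  show (1 <<< i).testBit j = _
  rw [Nat.shiftLeft_eq, one_mul, Nat.testBit_two_pow]
  by_cases h : i = j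
  · simp [h]
  · simp [h, Ne.symm h]

theorem comb_testBit {n : ℕ} : ∀ {k j : ℕ}, (comb n k).testBit j = true ↔ ∃ i, i < k ∧ j = i * n := by
  intro k
  induction k with
  | zero => intro j; simp [comb]
  | succ k ih =>
    intro j
    have h : comb n (k + 1) = (Nat.shiftLeft 1 (Nat.mul k n)) ||| comb n k := rfl
    rw [h, Nat.testBit_or, Bool.or_eq_true, shl_one_testBit, ih, decide_eq_true_eq]
    constructor
    · rintro (h1 | ⟨i, hi, h1⟩)
      · exact ⟨k, Nat.lt_succ_self k, h1⟩
      · exact ⟨i, Nat.lt_succ_of_lt hi, h1⟩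
    · rintro ⟨i, hi, h1⟩
      rcases Nat.lt_succ_iff_lt_or_eq.mp hi with h2 | h2
      · exact Or.inr ⟨i, h2, h1⟩
      · subst h2; exact Or.inl h1

/-- The product of a number with bits at multiples of `n` only and a number of `n` bits. -/
theorem testBit_mul_sparse {n : ℕ} (hn : 0 < n) {r : ℕ} (hr : r < 2 ^ n) :
    ∀ (x N y : ℕ), (∀ j, N.testBit j = true → n ∣ j) → y < n →
      (N * r).testBit (x * n + y) = (N.testBit (x * n) && r.testBit y) := by
  have hmod : ∀ N : ℕ, (∀ j, N.testBit j = true → n ∣ j) →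
      N % 2 ^ n = if N.testBit 0 = true then 1 else 0 := by
    intro N hN
    apply Nat.eq_of_testBit_eq
    intro j
    rw [Nat.testBit_mod_two_pow]
    by_cases hj : j = 0
    · subst hj
      by_cases h0 : N.testBit 0 = true
      · simp [h0, hn]
      · simp [h0]
    · have h1 : (decide (j < n) && N.testBit j) = false := by
        by_contra hcon
        rw [Bool.not_eq_false, Bool.and_eq_true, decide_eq_true_eq] at hcon
        have := Nat.le_of_dvd (Nat.pos_of_ne_zero hj) (hN j hcon.2)
        omega
      rw [h1]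
      by_cases h0 : N.testBit 0 = true
      · rw [if_pos h0]
        have : (1 : ℕ).testBit j = decide (j = 0) := by
          have := shl_one_testBit 0 j
          simpa using this
        rw [this]; simp [hj]
      · rw [if_neg h0, Nat.zero_testBit]
  have hsplit : ∀ N : ℕ, (∀ j, N.testBit j = true → n ∣ j) →
      N * r = 2 ^ n * (N / 2 ^ n * r) + (if N.testBit 0 = true then r else 0) := by
    intro N hN
    have h1 := Nat.div_add_mod N (2 ^ n)
    rw [hmod N hN] at h1
    conv_lhs => rw [← h1]
    split_ifs with h0 <;> ring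
  intro x
  induction x with
  | zero =>
    intro N y hN hy
    rw [hsplit N hN, Nat.testBit_two_pow_mul_add _ (by split_ifs; exact hr; positivity)]
    simp only [zero_mul, zero_add, hy, if_true]
    split_ifs with h0
    · simp [h0]
    · simp [h0]
  | succ x ih =>
    intro N y hN hy
    rw [hsplit N hN, Nat.testBit_two_pow_mul_add _ (by split_ifs; exact hr; positivity)]
    have h1 : ¬ ((x + 1) * n + y < n) := by
      rw [add_mul, one_mul]; omega
    rw [if_neg h1]
    have h2 : (x + 1) * n + y - n = x * n + y := by rw [add_mul, one_mul]; omega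
    rw [h2]
    have hb : ∀ j, (N / 2 ^ n).testBit j = N.testBit (n + j) := by
      intro j
      rw [Nat.testBit_div_two_pow, Nat.add_comm]
    rw [ih (N / 2 ^ n) y ?_ hy, hb]
    · congr 2
      ring
    · intro j hj
      rw [hb] at hj
      exact (Nat.dvd_add_right (dvd_refl n)).mp (hN _ hj)

theorem testBit_outer {n k : ℕ} (hn : 0 < n) {A B x y z : ℕ} (hx : x < k) (hy : y < n) :
    (outer n (comb n k) (2 ^ n) A B z).testBit (x * n + y) =
      (A.testBit (x * n + z) && B.testBit (z * n + y)) := by
  have h1 : outer n (comb n k) (2 ^ n) A B z =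
      ((A >>> z) &&& comb n k) * ((B >>> (z * n)) % 2 ^ n) := rfl
  rw [h1, testBit_mul_sparse hn (Nat.mod_lt _ (by positivity)) x _ y ?_ hy]
  · rw [Nat.testBit_and, Nat.testBit_shiftRight, Nat.testBit_mod_two_pow, Nat.testBit_shiftRight]
    have h2 : (comb n k).testBit (x * n) = true := comb_testBit.mpr ⟨x, hx, rfl⟩
    rw [h2]
    simp only [Bool.and_true, hy, decide_true, Bool.true_and]
    rw [Nat.add_comm z]
  · intro j hj
    rw [Nat.testBit_and, Bool.and_eq_true] at hj
    obtain ⟨i, -, hi⟩ := comb_testBit.mp hj.2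
    exact ⟨i, by rw [hi, mul_comm]⟩

/-- The Boolean product, with the summands `z < k`. -/
theorem testBit_mulAux {n m : ℕ} (hn : 0 < n) {A B x y : ℕ} (hx : x < m) (hy : y < n) :
    ∀ (k c : ℕ), (mulAux n (comb n m) (2 ^ n) A B k c).testBit (x * n + y) = true ↔
      c.testBit (x * n + y) = true ∨
        ∃ z, z < k ∧ A.testBit (x * n + z) = true ∧ B.testBit (z * n + y) = true := by
  intro k
  induction k with
  | zero => intro c; simp [mulAux]
  | succ k ih =>
    intro c
    have h : mulAux n (comb n m) (2 ^ n) A B (k + 1) c =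
        mulAux n (comb n m) (2 ^ n) A B k (outer n (comb n m) (2 ^ n) A B k ||| c) := by
      show force _ _ = _
      rw [force_eq]
      rfl
    rw [h, ih, Nat.testBit_or, testBit_outer hn hx hy, Bool.or_eq_true, Bool.and_eq_true]
    constructor
    · rintro ((⟨h1, h2⟩ | h1) | ⟨z, hz, h1⟩)
      · exact Or.inr ⟨k, Nat.lt_succ_self k, h1, h2⟩
      · exact Or.inl h1
      · exact Or.inr ⟨z, Nat.lt_succ_of_lt hz, h1⟩
    · rintro (h1 | ⟨z, hz, h1⟩)
      · exact Or.inl (Or.inr h1)
      · rcases Nat.lt_succ_iff_lt_or_eq.mp hz with h2 | h2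
        · exact Or.inr ⟨z, h2, h1⟩
        · subst h2; exact Or.inl (Or.inl h1)

end Pool.Agent.RA6.BM
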