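import Pool.Agent.RA6.BMat99

/-!
Boolean matrices as numbers: the relations they stand for.
-/

namespace Pool.Agent.RA6.BM

set_option autoImplicit false

/-- The number `P` stands for the relation `R` on the positions below `n`. -/
def Rep (n P : ℕ) (R : ℕ → ℕ → Prop) : Prop :=
  ∀ x y, x < n → y < n → (P.testBit (x * n + y) = true ↔ R x y)

theorem Rep.congr {n P : ℕ} {R S : ℕ → ℕ → Prop} (h : Rep n P R)
    (hRS : ∀ x y, x < n → y < n → (R x y ↔ S x y)) : Rep n P S :=
  fun x y hx hy => (h x y hx hy).trans (hRS x y hx hy)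

theorem Rep.land {n P Q : ℕ} {R S : ℕ → ℕ → Prop} (h : Rep n P R) (h' : Rep n Q S) :
    Rep n (Nat.land P Q) (fun x y => R x y ∧ S x y) := by
  intro x y hx hy
  show (P &&& Q).testBit _ = true ↔ _
  rw [Nat.testBit_and, Bool.and_eq_true, h x y hx hy, h' x y hx hy]

theorem Rep.lor {n P Q : ℕ} {R S : ℕ → ℕ → Prop} (h : Rep n P R) (h' : Rep n Q S) :
    Rep n (Nat.lor P Q) (fun x y => R x y ∨ S x y) := by
  intro x y hx hy
  show (P ||| Q).testBit _ = true ↔ _
  rw [Nat.testBit_or, Bool.or_eq_true, h x y hx hy, h' x y hx hy]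

theorem Rep.zero {n : ℕ} : Rep n 0 (fun _ _ => False) := by
  intro x y _ _
  simp

theorem pos_lt {n x y : ℕ} (hx : x < n) (hy : y < n) : x * n + y < n * n := by
  calc x * n + y < x * n + n := by omega
    _ = (x + 1) * n := by ring
    _ ≤ n * n := Nat.mul_le_mul_right _ hx

/-- All ones. -/
def full (n : ℕ) : ℕ := Nat.sub (Nat.pow 2 (Nat.mul n n)) 1

theorem testBit_full {n x y : ℕ} (hx : x < n) (hy : y < n) :
    (full n).testBit (x * n + y) = true := by
  show (2 ^ (n * n) - 1).testBit _ = true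
  rw [Nat.testBit_two_pow_sub_one]
  simpa using pos_lt hx hy

theorem Rep.xor {n P : ℕ} {R : ℕ → ℕ → Prop} (h : Rep n P R) :
    Rep n (Nat.xor (full n) P) (fun x y => ¬ R x y) := by
  intro x y hx hy
  show (full n ^^^ P).testBit _ = true ↔ _
  rw [Nat.testBit_xor, testBit_full hx hy]
  show _ ↔ ¬ R x y
  rw [← h x y hx hy]
  simp

/-- The Boolean product. -/
def prod (n cb w A B : ℕ) : ℕ := mulAux n cb w A B n 0

theorem Rep.prod {n A B : ℕ} (hn : 0 < n) {R S : ℕ → ℕ → Prop} (h : Rep n A R) (h' : Rep n B S) :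
    Rep n (prod n (comb n n) (2 ^ n) A B) (fun x y => ∃ z, z < n ∧ R x z ∧ S z y) := by
  intro x y hx hy
  unfold BM.prod
  rw [testBit_mulAux hn hx hy]
  constructor
  · rintro (h1 | ⟨z, hz, h1, h2⟩)
    · simp at h1
    · exact ⟨z, hz, (h x z hx hz).mp h1, (h' z y hz hy).mp h2⟩
  · rintro ⟨z, hz, h1, h2⟩
    exact Or.inr ⟨z, hz, (h x z hx hz).mpr h1, (h' z y hz hy).mpr h2⟩

/-- Disjoint relations. -/
def disj (P Q : ℕ) : Bool := Nat.beq (Nat.land P Q) 0

theorem disj_spec {n P Q : ℕ} {R S : ℕ → ℕ → Prop} (h : Rep n P R) (h' : Rep n Q S)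
    (hd : disj P Q = true) {x y : ℕ} (hx : x < n) (hy : y < n) (h1 : R x y) : ¬ S x y := by
  intro h2
  have h3 : P &&& Q = 0 := Nat.eq_of_beq_eq_true hd
  have h4 : (P &&& Q).testBit (x * n + y) = true := by
    rw [Nat.testBit_and, (h x y hx hy).mpr h1, (h' x y hx hy).mpr h2]; rfl
  rw [h3, Nat.zero_testBit] at h4
  exact absurd h4 (by decide)

/-- Inclusion of relations. -/
def subs (P Q : ℕ) : Bool := Nat.beq (Nat.land P Q) P

theorem subs_spec {n P Q : ℕ} {R S : ℕ → ℕ → Prop} (h : Rep n P R) (h' : Rep n Q S)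
    (hd : subs P Q = true) {x y : ℕ} (hx : x < n) (hy : y < n) (h1 : R x y) : S x y := by
  have h3 : P &&& Q = P := Nat.eq_of_beq_eq_true hd
  have h4 : (P &&& Q).testBit (x * n + y) = true := by
    rw [h3]; exact (h x y hx hy).mpr h1
  rw [Nat.testBit_and, Bool.and_eq_true] at h4
  exact (h' x y hx hy).mp h4.2

/-- The colour given by three planes of bits. -/
def colN (n p0 p1 p2 x y : ℕ) : ℕ :=
  (p0.testBit (x * n + y)).toNat + 2 * (p1.testBit (x * n + y)).toNat +
    4 * (p2.testBit (x * n + y)).toNat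

/-- The plane itself or its complement. -/
def sel (f : ℕ) (b : Bool) (p : ℕ) : ℕ := Bool.rec (Nat.xor f p) p b

/-- The plane of the pairs of colour `c`. -/
def plane (f p0 p1 p2 c : ℕ) : ℕ :=
  Nat.land (sel f (Nat.testBit c 0) p0)
    (Nat.land (sel f (Nat.testBit c 1) p1) (sel f (Nat.testBit c 2) p2))

theorem testBit_sel {n x y p : ℕ} (b : Bool) (hx : x < n) (hy : y < n) :
    (sel (full n) b p).testBit (x * n + y) = (b == p.testBit (x * n + y)) := by
  cases b
  · show (full n ^^^ p).testBit _ = _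
    rw [Nat.testBit_xor, testBit_full hx hy]
    cases p.testBit (x * n + y) <;> rfl
  · show p.testBit _ = _
    cases p.testBit (x * n + y) <;> rfl

theorem plane_rep {n p0 p1 p2 c : ℕ} (hc : c < 8) :
    Rep n (plane (full n) p0 p1 p2 c) (fun x y => colN n p0 p1 p2 x y = c) := by
  intro x y hx hy
  unfold plane colN
  show (sel (full n) (Nat.testBit c 0) p0 &&&
    (sel (full n) (Nat.testBit c 1) p1 &&& sel (full n) (Nat.testBit c 2) p2)).testBit
      (x * n + y) = true ↔ _
  rw [Nat.testBit_and, Nat.testBit_and, testBit_sel _ hx hy, testBit_sel _ hx hy,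
    testBit_sel _ hx hy]
  beta_reduce
  generalize p0.testBit (x * n + y) = b0
  generalize p1.testBit (x * n + y) = b1
  generalize p2.testBit (x * n + y) = b2
  revert b0 b1 b2
  interval_cases c <;> decide

/-- Loop over `i < k`. -/
def allR (k : ℕ) (f : ℕ → Bool) : Bool := Nat.rec true (fun i b => Bool.and (f i) b) k

theorem allR_spec {f : ℕ → Bool} : ∀ {k : ℕ}, allR k f = true → ∀ i, i < k → f i = true := by
  intro k
  induction k with
  | zero => intro _ i hi; omega
  | succ k ih =>
    intro h i hi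
    have h' : (f k && allR k f) = true := h
    rw [Bool.and_eq_true] at h'
    rcases Nat.lt_succ_iff_lt_or_eq.mp hi with h1 | h1
    · exact ih h'.2 i h1
    · rw [h1]; exact h'.1

/-- The plane is symmetric. -/
def symB (n p : ℕ) : Bool :=
  allR n (fun x => allR x (fun y =>
    Bool.rec (Bool.rec true false (Nat.testBit p (y * n + x)))
      (Nat.testBit p (y * n + x)) (Nat.testBit p (x * n + y))))

theorem symB_spec {n p : ℕ} (h : symB n p = true) {x y : ℕ} (hx : x < n) (hy : y < n) :
    p.testBit (x * n + y) = p.testBit (y * n + x) := by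
  have key : ∀ x y, x < n → y < x → p.testBit (x * n + y) = p.testBit (y * n + x) := by
    intro x y hx hyx
    have h1 := allR_spec (allR_spec h x hx) y hyx
    revert h1
    generalize p.testBit (x * n + y) = a
    generalize p.testBit (y * n + x) = b
    revert a b
    decide
  rcases lt_trichotomy x y with h1 | h1 | h1
  · exact (key y x hy h1).symm
  · subst h1; rfl
  · exact key x y hx h1

end Pool.Agent.RA6.BM
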