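import Pool.Agent.RA6.WorldSym99

/-!
Bit vector checks for finite worlds (MP_cf0286_al): loops, masks, the table of triangles and the
world given by it.
-/

namespace Pool.Agent.RA6.Chk

/-- All `i < n`. -/
def allB : ℕ → (ℕ → Bool) → Bool
  | 0, _ => true
  | k + 1, f => f k && allB k f

theorem allB_spec {f : ℕ → Bool} : ∀ {n : ℕ}, allB n f = true → ∀ i, i < n → f i = true := by
  intro n
  induction n with
  | zero => intro _ i hi; omega
  | succ k ih =>
    intro h i hi
    simp only [allB, Bool.and_eq_true] at h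
    rcases Nat.lt_succ_iff_lt_or_eq.mp hi with h1 | h1
    · exact ih h.2 i h1
    · rw [h1]; exact h.1

/-- Bitwise union of `g i`, `i < n`. -/
def orB : ℕ → (ℕ → ℕ) → ℕ
  | 0, _ => 0
  | k + 1, g => Nat.lor (g k) (orB k g)

theorem orB_spec {g : ℕ → ℕ} : ∀ {n i : ℕ} (j : ℕ), i < n → (g i).testBit j = true →
    (orB n g).testBit j = true := by
  intro n
  induction n with
  | zero => intro i j hi; omega
  | succ k ih =>
    intro i j hi h
    show (g k ||| orB k g).testBit j = true
    rw [Nat.testBit_or, Bool.or_eq_true]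
    rcases Nat.lt_succ_iff_lt_or_eq.mp hi with h1 | h1
    · exact Or.inr (ih j h1 h)
    · left; rw [← h1]; exact h

/-- Evaluate the number first. -/
def force {α : Type} (x : ℕ) (k : ℕ → α) : α := Nat.rec (k 0) (fun n _ => k (Nat.succ n)) x

theorem force_eq {α : Type} (x : ℕ) (k : ℕ → α) : force x k = k x := by
  cases x <;> rfl

theorem testBit_shl {x i j : ℕ} (h : x.testBit j = true) :
    (Nat.shiftLeft x i).testBit (i + j) = true := by
  show (x <<< i).testBit (i + j) = true
  rw [Nat.testBit_shiftLeft]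
  simp [h]

theorem testBit_shr {x i j : ℕ} (h : x.testBit (i + j) = true) :
    (Nat.shiftRight x i).testBit j = true := by
  show (x >>> i).testBit j = true
  rw [Nat.testBit_shiftRight]
  exact h

theorem testBit_shr' {x i j : ℕ} (h : (Nat.shiftRight x i).testBit j = true) :
    x.testBit (i + j) = true := by
  have h' : (x >>> i).testBit j = true := h
  rwa [Nat.testBit_shiftRight] at h'

theorem testBit_land {x y j : ℕ} (h : x.testBit j = true) (h' : y.testBit j = true) :
    (Nat.land x y).testBit j = true := by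
  show (x &&& y).testBit j = true
  rw [Nat.testBit_and, h, h']
  rfl

theorem testBit_land_left {x y j : ℕ} (h : (Nat.land x y).testBit j = true) :
    x.testBit j = true := by
  have h' : (x &&& y).testBit j = true := h
  rw [Nat.testBit_and, Bool.and_eq_true] at h'
  exact h'.1

theorem not_testBit_of_land {x y j : ℕ} (h : Nat.land x y = 0) (h1 : x.testBit j = true)
    (h2 : y.testBit j = true) : False := by
  have := testBit_land h1 h2
  rw [h, Nat.zero_testBit] at this
  exact absurd this (by decide)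

theorem testBit_mod {x s j : ℕ} (hj : j < s) (h : x.testBit j = true) :
    (x % 2 ^ s).testBit j = true := by
  rw [Nat.testBit_mod_two_pow, h]
  simp [hj]

theorem testBit_mod' {x s j : ℕ} (h : (x % 2 ^ s).testBit j = true) :
    x.testBit j = true := by
  rw [Nat.testBit_mod_two_pow, Bool.and_eq_true] at h
  exact h.2

/-- The data of a finite world: `n` labels with levels `lev` and promotion `pl`, `K` kinds with
colours `kc` and reversal `fl`, the triangle table `rows` and the edge table `edges`. -/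
structure Data where
  n : ℕ
  K : ℕ
  lev : List ℕ
  pl : List ℕ
  kc : List ℕ
  fl : List ℕ
  rows : List ℕ
  edges : List ℕ

/-- The triangle vector of labels `a, b` and kind `x` of the pair: bit `(c * K + z) * K ^ 2 + y`
belongs to the third label `c`, the kind `y` from `a` to `c` and `z` from `b` to `c`. -/
def TC (n K : ℕ) (R : List ℕ) (a b x : ℕ) : ℕ :=
  (Nat.shiftRight (R.getD a 0) ((b * K + x) * (n * (K * (K * K))))) %
    2 ^ (n * (K * (K * K)))

/-- The bit of a triangle. -/
def tb (n K : ℕ) (R : List ℕ) (a b c x y z : ℕ) : Bool :=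
  (TC n K R a b x).testBit ((c * K + z) * (K * K) + y)

theorem pos_lt {n K c z y : ℕ} (hc : c < n) (hz : z < K) (hy : y < K) :
    (c * K + z) * (K * K) + y < n * (K * (K * K)) := by
  have h1 : c * K + z + 1 ≤ n * K := by
    calc c * K + z + 1 ≤ c * K + K := by omega
      _ = (c + 1) * K := by ring
      _ ≤ n * K := Nat.mul_le_mul_right _ hc
  have hK : 0 < K := by omega
  have h2 : y < K * K := lt_of_lt_of_le hy (Nat.le_mul_of_pos_left K hK)
  calc (c * K + z) * (K * K) + y < (c * K + z) * (K * K) + K * K := by omega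
    _ = (c * K + z + 1) * (K * K) := by ring
    _ ≤ n * K * (K * K) := Nat.mul_le_mul_right _ h1
    _ = n * (K * (K * K)) := by ring

/-- Bits at all multiples of `s` below `m * s`. -/
def comb (m s : ℕ) : ℕ := orB m (fun i => Nat.shiftLeft 1 (i * s))

theorem comb_spec {m s i : ℕ} (hi : i < m) : (comb m s).testBit (i * s) = true := by
  unfold comb
  refine orB_spec _ hi ?_
  have : (Nat.shiftLeft 1 (i * s)).testBit (i * s + 0) = true := testBit_shl (by decide)
  simpa using this

/-- The forbidden triangles in terms of numbers below 6. -/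
def badN (a b c : ℕ) : Bool :=
  Nat.beq (a % 2) (b % 2) && Nat.beq (b % 2) (c % 2) && Nat.beq ((a / 2 + b / 2 + c / 2) % 3) 1

theorem badN_iff : ∀ a, a < 6 → ∀ b, b < 6 → ∀ c, c < 6 →
    (Forbidden ((a : ℕ) : ZMod 6) ((b : ℕ) : ZMod 6) ((c : ℕ) : ZMod 6) ↔ badN a b c = true) := by
  decide

theorem cast_inj6 {a b : ℕ} (ha : a < 6) (hb : b < 6)
    (h : ((a : ℕ) : ZMod 6) = ((b : ℕ) : ZMod 6)) : a = b := by
  rw [ZMod.natCast_eq_natCast_iff'] at h
  omega

/-! ### The checks of the table -/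

/-- The forbidden triangles with first kind `x`. -/
def forbMask (n K : ℕ) (kc : List ℕ) (x : ℕ) : ℕ :=
  orB n fun c => orB K fun z => orB K fun y =>
    if badN (kc.getD x 0) (kc.getD z 0) (kc.getD y 0) then
      Nat.shiftLeft 1 ((c * K + z) * (K * K) + y) else 0

def chkForb (n K : ℕ) (kc R : List ℕ) : Bool :=
  (allB K fun x => Nat.blt (kc.getD x 0) 6) && allB K fun x => force (forbMask n K kc x) fun m =>
    allB n fun a => allB n fun b => Nat.beq (Nat.land (TC n K R a b x) m) 0

theorem chkForb_spec {n K : ℕ} {kc R : List ℕ} (h : chkForb n K kc R = true) {a b c x y z : ℕ}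
    (ha : a < n) (hb : b < n) (hc : c < n) (hx : x < K) (hy : y < K) (hz : z < K)
    (ht : tb n K R a b c x y z = true) :
    ¬ Forbidden (((kc.getD x 0 : ℕ) : ZMod 6)) (((kc.getD z 0 : ℕ) : ZMod 6))
      (((kc.getD y 0 : ℕ) : ZMod 6)) := by
  intro hF
  unfold chkForb at h
  rw [Bool.and_eq_true] at h
  have h6 : ∀ x, x < K → kc.getD x 0 < 6 := by
    intro x hx
    have := allB_spec h.1 x hx
    simpa [Nat.blt_eq] using this
  rw [badN_iff _ (h6 x hx) _ (h6 z hz) _ (h6 y hy)] at hF
  have h1 := allB_spec h.2 x hx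
  rw [force_eq] at h1
  have h2 := allB_spec (allB_spec h1 a ha) b hb
  have h3 := Nat.eq_of_beq_eq_true h2
  refine not_testBit_of_land h3 ht ?_
  unfold forbMask
  refine orB_spec _ hc (orB_spec _ hz (orB_spec _ hy ?_))
  rw [if_pos hF]
  have : (Nat.shiftLeft 1 ((c * K + z) * (K * K) + y)).testBit
      ((c * K + z) * (K * K) + y + 0) = true := testBit_shl (by decide)
  simpa using this

/-- Exchange of the first two vertices. -/
def chkSwap12 (n K : ℕ) (fl R : List ℕ) : Bool :=
  force (comb n (K * (K * K))) fun sc =>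
    allB n fun a => allB n fun b => allB K fun x =>
      force (TC n K R a b x) fun u => force (TC n K R b a (fl.getD x x)) fun v =>
        allB K fun y => allB K fun z =>
          Nat.beq (Nat.land (Nat.shiftRight u (z * (K * K) + y)) sc)
            (Nat.land (Nat.shiftRight v (y * (K * K) + z)) sc)

theorem chkSwap12_spec {n K : ℕ} {fl R : List ℕ} (h : chkSwap12 n K fl R = true)
    {a b c x y z : ℕ} (ha : a < n) (hb : b < n) (hc : c < n) (hx : x < K) (hy : y < K)
    (hz : z < K) (ht : tb n K R a b c x y z = true) :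
    tb n K R b a c (fl.getD x x) z y = true := by
  unfold chkSwap12 at h
  rw [force_eq] at h
  have h1 := allB_spec (allB_spec (allB_spec h a ha) b hb) x hx
  rw [force_eq, force_eq] at h1
  have h2 := Nat.eq_of_beq_eq_true (allB_spec (allB_spec h1 y hy) z hz)
  have h3 : (Nat.land (Nat.shiftRight (TC n K R a b x) (z * (K * K) + y))
      (comb n (K * (K * K)))).testBit (c * (K * (K * K))) = true := by
    refine testBit_land (testBit_shr ?_) (comb_spec hc)
    unfold tb at ht
    have e : z * (K * K) + y + c * (K * (K * K)) = (c * K + z) * (K * K) + y := by ring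
    rw [e]; exact ht
  rw [h2] at h3
  have h4 := testBit_shr' (testBit_land_left h3)
  unfold tb
  have e : y * (K * K) + z + c * (K * (K * K)) = (c * K + y) * (K * K) + z := by ring
  rw [e] at h4
  exact h4

/-- Exchange of the last two vertices. -/
def chkSwap23 (n K : ℕ) (fl R : List ℕ) : Bool :=
  force (comb K (K * K)) fun sz =>
    allB n fun a => allB n fun b => allB K fun x =>
      force (TC n K R a b x) fun u =>
        allB n fun c => allB K fun y =>
          force (Nat.land (Nat.shiftRight u (c * (K * (K * K)) + y)) sz) fun u' =>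
            Nat.beq u' 0 ||
            force (Nat.shiftRight (TC n K R a c y) (b * (K * (K * K)) + x)) fun v =>
              allB K fun z => (! Nat.testBit u' (z * (K * K))) ||
                Nat.testBit v ((fl.getD z z) * (K * K))

theorem chkSwap23_spec {n K : ℕ} {fl R : List ℕ} (h : chkSwap23 n K fl R = true)
    {a b c x y z : ℕ} (ha : a < n) (hb : b < n) (hc : c < n) (hx : x < K) (hy : y < K)
    (hz : z < K) (ht : tb n K R a b c x y z = true) :
    tb n K R a c b y x (fl.getD z z) = true := by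
  unfold chkSwap23 at h
  rw [force_eq] at h
  have h1 := allB_spec (allB_spec (allB_spec h a ha) b hb) x hx
  rw [force_eq] at h1
  have h2 := allB_spec (allB_spec h1 c hc) y hy
  rw [force_eq, force_eq, Bool.or_eq_true] at h2
  have h3 : (Nat.land (Nat.shiftRight (TC n K R a b x) (c * (K * (K * K)) + y))
      (comb K (K * K))).testBit (z * (K * K)) = true := by
    refine testBit_land (testBit_shr ?_) (comb_spec hz)
    unfold tb at ht
    have e : c * (K * (K * K)) + y + z * (K * K) = (c * K + z) * (K * K) + y := by ring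
    rw [e]; exact ht
  rcases h2 with h2 | h2
  · rw [Nat.eq_of_beq_eq_true h2, Nat.zero_testBit] at h3
    exact absurd h3 (by decide)
  · have h4 := allB_spec h2 z hz
    rw [Bool.or_eq_true, h3] at h4
    rcases h4 with h4 | h4
    · exact absurd h4 (by decide)
    · have h5 := testBit_shr' h4
      unfold tb
      have e : b * (K * (K * K)) + x + (fl.getD z z) * (K * K) =
          (b * K + fl.getD z z) * (K * K) + x := by ring
      rw [e] at h5
      exact h5

/-- The block of the third label `c`. -/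
def blk (K u c : ℕ) : ℕ := (Nat.shiftRight u (c * (K * (K * K)))) % 2 ^ (K * (K * K))

theorem blk_spec {K u c z y : ℕ} (hz : z < K) (hy : y < K) :
    (blk K u c).testBit (z * (K * K) + y) = true ↔
      u.testBit ((c * K + z) * (K * K) + y) = true := by
  have e : c * (K * (K * K)) + (z * (K * K) + y) = (c * K + z) * (K * K) + y := by ring
  have hlt : z * (K * K) + y < K * (K * K) := by
    have := pos_lt (n := 1) (c := 0) (by decide) hz hy
    simpa using this
  unfold blk
  constructor
  · intro h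
    have := testBit_shr' (testBit_mod' h)
    rwa [e] at this
  · intro h
    refine testBit_mod hlt (testBit_shr ?_)
    rw [e]; exact h

/-- Closure under the map `f` of the labels. -/
def chkMap (n K : ℕ) (f R : List ℕ) : Bool :=
  allB n fun a => allB n fun b => allB K fun x =>
    force (TC n K R a b x) fun u => force (TC n K R (f.getD a a) (f.getD b b) x) fun v =>
      Nat.beq u 0 || allB n fun c =>
        force (blk K u c) fun u' => force (blk K v (f.getD c c)) fun v' =>
          Nat.beq (Nat.lor u' v') v'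

theorem chkMap_spec {n K : ℕ} {f R : List ℕ} (h : chkMap n K f R = true)
    {a b c x y z : ℕ} (ha : a < n) (hb : b < n) (hc : c < n) (hx : x < K) (hy : y < K)
    (hz : z < K) (ht : tb n K R a b c x y z = true) :
    tb n K R (f.getD a a) (f.getD b b) (f.getD c c) x y z = true := by
  unfold chkMap at h
  have h1 := allB_spec (allB_spec (allB_spec h a ha) b hb) x hx
  rw [force_eq, force_eq, Bool.or_eq_true] at h1
  unfold tb at ht
  rcases h1 with h1 | h1
  · rw [Nat.eq_of_beq_eq_true h1, Nat.zero_testBit] at ht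
    exact absurd ht (by decide)
  · have h2 := allB_spec h1 c hc
    rw [force_eq, force_eq] at h2
    have h3 := Nat.eq_of_beq_eq_true h2
    have h4 : (blk K (TC n K R (f.getD a a) (f.getD b b) x) (f.getD c c)).testBit
        (z * (K * K) + y) = true := by
      rw [← h3]
      show (blk K (TC n K R a b x) c ||| _).testBit _ = true
      rw [Nat.testBit_or, Bool.or_eq_true]
      exact Or.inl ((blk_spec hz hy).mpr ht)
    exact (blk_spec hz hy).mp h4

/-- The bit of an edge. -/
def eb (K : ℕ) (E : List ℕ) (a b x : ℕ) : Bool := (E.getD a 0).testBit (b * K + x)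

def chkEdgeTri (n K : ℕ) (R E : List ℕ) : Bool :=
  allB n fun a => allB n fun b => allB K fun x => eb K E a b x || Nat.beq (TC n K R a b x) 0

theorem chkEdgeTri_spec {n K : ℕ} {R E : List ℕ} (h : chkEdgeTri n K R E = true)
    {a b c x y z : ℕ} (ha : a < n) (hb : b < n) (hx : x < K)
    (ht : tb n K R a b c x y z = true) : eb K E a b x = true := by
  unfold chkEdgeTri at h
  have h1 := allB_spec (allB_spec (allB_spec h a ha) b hb) x hx
  rw [Bool.or_eq_true] at h1
  rcases h1 with h1 | h1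
  · exact h1
  · unfold tb at ht
    rw [Nat.eq_of_beq_eq_true h1, Nat.zero_testBit] at ht
    exact absurd ht (by decide)

/-- Closure of the edges under reversal and under a map of the labels. -/
def chkEdgeFlip (n K : ℕ) (fl E : List ℕ) : Bool :=
  allB n fun a => allB n fun b => allB K fun x => (! eb K E a b x) || eb K E b a (fl.getD x x)

def chkEdgeMap (n K : ℕ) (f E : List ℕ) : Bool :=
  allB n fun a => allB n fun b => allB K fun x =>
    (! eb K E a b x) || eb K E (f.getD a a) (f.getD b b) x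

theorem chkEdgeFlip_spec {n K : ℕ} {fl E : List ℕ} (h : chkEdgeFlip n K fl E = true)
    {a b x : ℕ} (ha : a < n) (hb : b < n) (hx : x < K) (he : eb K E a b x = true) :
    eb K E b a (fl.getD x x) = true := by
  unfold chkEdgeFlip at h
  have h1 := allB_spec (allB_spec (allB_spec h a ha) b hb) x hx
  rw [he] at h1
  simpa using h1

theorem chkEdgeMap_spec {n K : ℕ} {f E : List ℕ} (h : chkEdgeMap n K f E = true)
    {a b x : ℕ} (ha : a < n) (hb : b < n) (hx : x < K) (he : eb K E a b x = true) :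
    eb K E (f.getD a a) (f.getD b b) x = true := by
  unfold chkEdgeMap at h
  have h1 := allB_spec (allB_spec (allB_spec h a ha) b hb) x hx
  rw [he] at h1
  simpa using h1

/-- A map of `{0, ..., m - 1}` to itself given by a list. -/
def chkRange (m : ℕ) (f : List ℕ) : Bool :=
  Nat.beq f.length m && allB m fun a => Nat.blt (f.getD a a) m

theorem chkRange_spec {m : ℕ} {f : List ℕ} (h : chkRange m f = true) {a : ℕ} (ha : a < m) :
    f.getD a a < m := by
  unfold chkRange at h
  rw [Bool.and_eq_true] at h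
  have := allB_spec h.2 a ha
  simpa [Nat.blt_eq] using this

theorem chkRange_ge {m : ℕ} {f : List ℕ} (h : chkRange m f = true) {a : ℕ} (ha : m ≤ a) :
    f.getD a a = a := by
  unfold chkRange at h
  rw [Bool.and_eq_true] at h
  have h1 := Nat.eq_of_beq_eq_true h.1
  exact List.getD_eq_default _ _ (by omega)

/-- `f` is an involution of the kinds preserving the colours. -/
def chkFl (K : ℕ) (fl kc : List ℕ) : Bool :=
  chkRange K fl && allB K fun x => Nat.beq (fl.getD (fl.getD x x) (fl.getD x x)) x &&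
    Nat.beq (kc.getD (fl.getD x x) 0) (kc.getD x 0)

def chkLev (n : ℕ) (lev pl : List ℕ) : Bool :=
  chkRange n pl && allB n fun a => Nat.beq (lev.getD (pl.getD a a) 0) (plev (lev.getD a 0))

/-- The check of the base of a world. -/
def Data.base (D : Data) : Bool :=
  chkFl D.K D.fl D.kc && chkLev D.n D.lev D.pl && chkEdgeFlip D.n D.K D.fl D.edges &&
  chkEdgeMap D.n D.K D.pl D.edges && chkEdgeTri D.n D.K D.rows D.edges &&
  chkForb D.n D.K D.kc D.rows && chkMap D.n D.K D.pl D.rows &&
  chkSwap12 D.n D.K D.fl D.rows && chkSwap23 D.n D.K D.fl D.rows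

/-- The triangles. -/
def Data.Tri (D : Data) (p q r : ℕ × ℕ × ℕ) : Prop :=
  (p.1 = q.1 ∧ p.2.1 = r.1 ∧ q.2.1 = r.2.1) ∧ (p.1 < D.n ∧ p.2.1 < D.n ∧ q.2.1 < D.n) ∧
  (p.2.2 < D.K ∧ q.2.2 < D.K ∧ r.2.2 < D.K) ∧
  tb D.n D.K D.rows p.1 p.2.1 q.2.1 p.2.2 q.2.2 r.2.2 = true

/-- The edges. -/
def Data.Edge (D : Data) (t : ℕ × ℕ × ℕ) : Prop :=
  (t.1 < D.n ∧ t.2.1 < D.n ∧ t.2.2 < D.K) ∧ eb D.K D.edges t.1 t.2.1 t.2.2 = true

theorem base_split {D : Data} (h : D.base = true) :
    chkFl D.K D.fl D.kc = true ∧ chkLev D.n D.lev D.pl = true ∧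
    chkEdgeFlip D.n D.K D.fl D.edges = true ∧ chkEdgeMap D.n D.K D.pl D.edges = true ∧
    chkEdgeTri D.n D.K D.rows D.edges = true ∧ chkForb D.n D.K D.kc D.rows = true ∧
    chkMap D.n D.K D.pl D.rows = true ∧ chkSwap12 D.n D.K D.fl D.rows = true ∧
    chkSwap23 D.n D.K D.fl D.rows = true := by
  unfold Data.base at h
  simp only [Bool.and_eq_true] at h
  obtain ⟨⟨⟨⟨⟨⟨⟨⟨h1, h2⟩, h3⟩, h4⟩, h5⟩, h6⟩, h7⟩, h8⟩, h9⟩ := h
  exact ⟨h1, h2, h3, h4, h5, h6, h7, h8, h9⟩

theorem kc_lt {D : Data} (h : D.base = true) {x : ℕ} (hx : x < D.K) : D.kc.getD x 0 < 6 := by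
  have h1 := (base_split h).2.2.2.2.2.1
  unfold chkForb at h1
  rw [Bool.and_eq_true] at h1
  have := allB_spec h1.1 x hx
  simpa [Nat.blt_eq] using this

theorem fl_lt {D : Data} (h : D.base = true) {x : ℕ} (hx : x < D.K) : D.fl.getD x x < D.K := by
  have h1 := (base_split h).1
  unfold chkFl at h1
  rw [Bool.and_eq_true] at h1
  exact chkRange_spec h1.1 hx

theorem fl_fl {D : Data} (h : D.base = true) (x : ℕ) :
    D.fl.getD (D.fl.getD x x) (D.fl.getD x x) = x := by
  have h1 := (base_split h).1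
  unfold chkFl at h1
  rw [Bool.and_eq_true] at h1
  by_cases hx : x < D.K
  · have h2 := allB_spec h1.2 x hx
    rw [Bool.and_eq_true] at h2
    exact Nat.eq_of_beq_eq_true h2.1
  · have h3 := chkRange_ge h1.1 (by omega : D.K ≤ x)
    rw [h3, h3]

theorem kc_fl {D : Data} (h : D.base = true) (x : ℕ) :
    D.kc.getD (D.fl.getD x x) 0 = D.kc.getD x 0 := by
  have h1 := (base_split h).1
  unfold chkFl at h1
  rw [Bool.and_eq_true] at h1
  by_cases hx : x < D.K
  · have h2 := allB_spec h1.2 x hx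
    rw [Bool.and_eq_true] at h2
    exact Nat.eq_of_beq_eq_true h2.2
  · rw [chkRange_ge h1.1 (by omega : D.K ≤ x)]

theorem pl_lt {D : Data} (h : D.base = true) {x : ℕ} (hx : x < D.n) : D.pl.getD x x < D.n := by
  have h1 := (base_split h).2.1
  unfold chkLev at h1
  rw [Bool.and_eq_true] at h1
  exact chkRange_spec h1.1 hx

theorem pl_lev {D : Data} (h : D.base = true) {x : ℕ} (hx : x < D.n) :
    D.lev.getD (D.pl.getD x x) 0 = plev (D.lev.getD x 0) := by
  have h1 := (base_split h).2.1
  unfold chkLev at h1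
  rw [Bool.and_eq_true] at h1
  exact Nat.eq_of_beq_eq_true (allB_spec h1.2 x hx)

/-- The world of the data. -/
def Data.world (D : Data) (h : D.base = true) : World (ℕ × ℕ × ℕ) where
  flip := fun t => (t.2.1, t.1, D.fl.getD t.2.2 t.2.2)
  col := fun t => ((D.kc.getD t.2.2 0 : ℕ) : ZMod 6)
  la := fun t => D.lev.getD t.1 0
  pr := fun t => (D.pl.getD t.1 t.1, D.pl.getD t.2.1 t.2.1, t.2.2)
  Edge := D.Edge
  Tri := D.Tri
  flip_flip := by
    rintro ⟨a, b, x⟩
    show (a, b, _) = (a, b, x)
    rw [fl_fl h]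
  col_flip := by
    rintro ⟨a, b, x⟩
    show ((D.kc.getD (D.fl.getD x x) 0 : ℕ) : ZMod 6) = _
    rw [kc_fl h]
  edge_flip := by
    rintro ⟨a, b, x⟩ ⟨⟨h1, h2, h3⟩, h4⟩
    exact ⟨⟨h2, h1, fl_lt h h3⟩, chkEdgeFlip_spec (base_split h).2.2.1 h1 h2 h3 h4⟩
  edge_pr := by
    rintro ⟨a, b, x⟩ ⟨⟨h1, h2, h3⟩, h4⟩
    exact ⟨⟨pl_lt h h1, pl_lt h h2, h3⟩, chkEdgeMap_spec (base_split h).2.2.2.1 h1 h2 h3 h4⟩
  pr_flip := fun _ _ => rfl
  pr_col := fun _ _ => rfl
  pr_la := by
    rintro ⟨a, b, x⟩ ⟨⟨h1, h2, h3⟩, h4⟩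
    exact pl_lev h h1
  pr_tri := by
    rintro ⟨a, b, x⟩ ⟨a', c, y⟩ ⟨b', c', z⟩ ⟨⟨e1, e2, e3⟩, ⟨h1, h2, h3⟩, ⟨k1, k2, k3⟩, ht⟩
    simp only at e1 e2 e3
    subst e1; subst e2; subst e3
    exact ⟨⟨rfl, rfl, rfl⟩, ⟨pl_lt h h1, pl_lt h h2, pl_lt h h3⟩, ⟨k1, k2, k3⟩,
      chkMap_spec (base_split h).2.2.2.2.2.2.1 h1 h2 h3 k1 k2 k3 ht⟩
  tri_swap12 := by
    rintro ⟨a, b, x⟩ ⟨a', c, y⟩ ⟨b', c', z⟩ ⟨⟨e1, e2, e3⟩, ⟨h1, h2, h3⟩, ⟨k1, k2, k3⟩, ht⟩
    simp only at e1 e2 e3
    subst e1; subst e2; subst e3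
    exact ⟨⟨rfl, rfl, rfl⟩, ⟨h2, h1, h3⟩, ⟨fl_lt h k1, k3, k2⟩,
      chkSwap12_spec (base_split h).2.2.2.2.2.2.2.1 h1 h2 h3 k1 k2 k3 ht⟩
  tri_swap23 := by
    rintro ⟨a, b, x⟩ ⟨a', c, y⟩ ⟨b', c', z⟩ ⟨⟨e1, e2, e3⟩, ⟨h1, h2, h3⟩, ⟨k1, k2, k3⟩, ht⟩
    simp only at e1 e2 e3
    subst e1; subst e2; subst e3
    exact ⟨⟨rfl, rfl, rfl⟩, ⟨h1, h3, h2⟩, ⟨k2, k1, fl_lt h k3⟩,
      chkSwap23_spec (base_split h).2.2.2.2.2.2.2.2 h1 h2 h3 k1 k2 k3 ht⟩
  tri_ok := by
    rintro ⟨a, b, x⟩ ⟨a', c, y⟩ ⟨b', c', z⟩ ⟨⟨e1, e2, e3⟩, ⟨h1, h2, h3⟩, ⟨k1, k2, k3⟩, ht⟩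
    simp only at e1 e2 e3
    subst e1; subst e2; subst e3
    exact chkForb_spec (base_split h).2.2.2.2.2.1 h1 h2 h3 k1 k2 k3 ht
  tri_la := by
    rintro ⟨a, b, x⟩ ⟨a', c, y⟩ ⟨b', c', z⟩ ⟨⟨e1, e2, e3⟩, _⟩
    simp only at e3
    subst e3
    rfl

end Pool.Agent.RA6.Chk
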