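import Pool.Agent.RA6.ChkA99

/-!
Bit vector checks for finite worlds (MP_cf0286_al): the check of a request.
-/

namespace Pool.Agent.RA6.Chk

/-! ### Lists of evaluated numbers -/

/-- Evaluate `g a` for all `a` in the list. -/
def forceMap {α : Type} (g : ℕ → ℕ) : List ℕ → (List ℕ → α) → α
  | [], k => k []
  | a :: L, k => force (g a) fun v => forceMap g L fun M => k (v :: M)

theorem forceMap_eq {α : Type} (g : ℕ → ℕ) : ∀ (L : List ℕ) (k : List ℕ → α),
    forceMap g L k = k (L.map g) := by
  intro L
  induction L with
  | nil => intro k; rfl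
  | cons a L ih =>
    intro k
    unfold forceMap
    rw [force_eq, ih]
    rfl

/-- The list `[s, s + 1, ..., s + m - 1]`. -/
def rng : ℕ → ℕ → List ℕ
  | 0, _ => []
  | m + 1, s => s :: rng m (Nat.succ s)

theorem rng_length : ∀ m s, (rng m s).length = m := by
  intro m
  induction m with
  | zero => intro s; rfl
  | succ m ih => intro s; show (rng m (s + 1)).length + 1 = m + 1; rw [ih]

theorem rng_get : ∀ m s i (h : i < (rng m s).length), (rng m s)[i] = s + i := by
  intro m
  induction m with
  | zero => intro s i h; exact absurd h (by rw [rng_length]; omega)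
  | succ m ih =>
    intro s i h
    cases i with
    | zero => rfl
    | succ i =>
      show (rng m (s + 1))[i]'_ = s + (i + 1)
      rw [ih]
      omega

/-- All pairs of entries with their index. -/
def allZ {α β : Type} : List α → List β → ℕ → (α → β → ℕ → Bool) → Bool
  | a :: L, b :: M, s, f => f a b s && force (Nat.succ s) fun s' => allZ L M s' f
  | [], _, _, _ => true
  | _ :: _, [], _, _ => true

theorem allZ_spec {α β : Type} {f : α → β → ℕ → Bool} : ∀ (L : List α) (M : List β) (s : ℕ),
    allZ L M s f = true → ∀ i (h1 : i < L.length) (h2 : i < M.length),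
    f L[i] M[i] (s + i) = true := by
  intro L
  induction L with
  | nil => intro M s _ i h1; exact absurd h1 (by simp)
  | cons a L ih =>
    intro M s h i h1 h2
    cases M with
    | nil => exact absurd h2 (by simp)
    | cons b M =>
      unfold allZ at h
      rw [force_eq, Bool.and_eq_true] at h
      cases i with
      | zero => exact h.1
      | succ i =>
        have := ih M (Nat.succ s) h.2 i (by simpa using h1) (by simpa using h2)
        have e : Nat.succ s + i = s + (i + 1) := by omega
        rw [e] at this
        exact this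

/-- Union of the intersections. -/
def zipOr : List ℕ → List ℕ → ℕ
  | p :: P, q :: Q => Nat.lor (Nat.land p q) (zipOr P Q)
  | [], _ => 0
  | _ :: _, [] => 0

theorem zipOr_spec (j : ℕ) : ∀ (P Q : List ℕ) (i : ℕ) (h1 : i < P.length) (h2 : i < Q.length),
    (P[i]).testBit j = true → (Q[i]).testBit j = true → (zipOr P Q).testBit j = true := by
  intro P
  induction P with
  | nil => intro Q i h1; exact absurd h1 (by simp)
  | cons p P ih =>
    intro Q i h1 h2 k1 k2
    cases Q with
    | nil => exact absurd h2 (by simp)
    | cons q Q =>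
      show (Nat.land p q ||| zipOr P Q).testBit j = true
      rw [Nat.testBit_or, Bool.or_eq_true]
      cases i with
      | zero => exact Or.inl (testBit_land k1 k2)
      | succ i => exact Or.inr (ih Q i (by simpa using h1) (by simpa using h2) k1 k2)

/-- Union of a list. -/
def orL : List ℕ → ℕ
  | [] => 0
  | p :: P => Nat.lor p (orL P)

theorem orL_spec {j : ℕ} : ∀ {P : List ℕ}, (orL P).testBit j = true →
    ∃ i, i < P.length ∧ (P.getD i 0).testBit j = true := by
  intro P
  induction P with
  | nil => intro h; exact absurd h (by simp [orL])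
  | cons p P ih =>
    intro h
    have h' : (p ||| orL P).testBit j = true := h
    rw [Nat.testBit_or, Bool.or_eq_true] at h'
    rcases h' with h' | h'
    · exact ⟨0, by simp, by simpa using h'⟩
    · obtain ⟨i, h1, h2⟩ := ih h'
      exact ⟨i + 1, by simpa using h1, by simpa using h2⟩

/-- For the set bits `i` of `s`: the `i`-th entry is disjoint from `B`. -/
def trav (B : ℕ) : List ℕ → ℕ → Bool
  | [], _ => true
  | v :: L, s => Nat.beq s 0 ||
      ((Nat.beq (s % 2) 0 || Nat.beq (Nat.land v B) 0) && force (s / 2) fun s' => trav B L s')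

theorem trav_spec {B : ℕ} : ∀ (L : List ℕ) (s : ℕ), trav B L s = true →
    ∀ i (h : i < L.length), s.testBit i = true → Nat.land L[i] B = 0 := by
  intro L
  induction L with
  | nil => intro s _ i h; exact absurd h (by simp)
  | cons v L ih =>
    intro s h i hi hb
    unfold trav at h
    rw [Bool.or_eq_true, Bool.and_eq_true, force_eq] at h
    rcases h with h | h
    · rw [Nat.eq_of_beq_eq_true h, Nat.zero_testBit] at hb
      exact absurd hb (by decide)
    · cases i with
      | zero =>
        have h1 := h.1
        rw [Bool.or_eq_true] at h1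
        rcases h1 with h1 | h1
        · have h2 := Nat.eq_of_beq_eq_true h1
          rw [Nat.testBit_zero] at hb
          simp [h2] at hb
        · exact Nat.eq_of_beq_eq_true h1
      | succ i =>
        rw [Nat.testBit_succ] at hb
        exact ih (s / 2) h.2 i (by simpa using hi) hb

/-! ### The vectors -/

/-- From the triangle vector `u` of `x, w`: bits at `(ρ', d, n', m')` for triangles
`x, w, w'`. -/
def vecL (K u : ℕ) : ℕ := orB K fun i => Nat.shiftLeft u (i * K)

theorem vecL_spec {K u q i m : ℕ} (hi : i < K)
    (h : u.testBit (q * (K * K) + m) = true) :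
    (vecL K u).testBit (q * (K * K) + i * K + m) = true := by
  unfold vecL
  refine orB_spec _ hi ?_
  have := testBit_shl (i := i * K) h
  have e : i * K + (q * (K * K) + m) = q * (K * K) + i * K + m := by ring
  rwa [e] at this

/-- From the triangle vector `u` of `y, w`. -/
def vecM (K cb u : ℕ) : ℕ :=
  force (orB K fun y => Nat.shiftLeft (Nat.land (Nat.shiftRight u y) cb) (y * K)) fun t =>
    orB K fun j => Nat.shiftLeft t j

theorem vecM_spec {n K u q i m : ℕ} (hq : q < n * K) (hi : i < K) (hm : m < K)
    (h : u.testBit (q * (K * K) + i) = true) :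
    (vecM K (comb (n * K) (K * K)) u).testBit (q * (K * K) + i * K + m) = true := by
  unfold vecM
  rw [force_eq]
  refine orB_spec _ hm ?_
  have h1 : (orB K fun y => Nat.shiftLeft (Nat.land (Nat.shiftRight u y)
      (comb (n * K) (K * K))) (y * K)).testBit (q * (K * K) + i * K) = true := by
    refine orB_spec _ hi ?_
    have h2 : (Nat.land (Nat.shiftRight u i) (comb (n * K) (K * K))).testBit (q * (K * K)) =
        true := by
      refine testBit_land (testBit_shr ?_) (comb_spec hq)
      rw [Nat.add_comm]; exact h
    have h3 := testBit_shl (i := i * K) h2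
    rwa [Nat.add_comm] at h3
  have h4 := testBit_shl (i := m) h1
  rwa [Nat.add_comm] at h4

/-- The triples `(ρ', d)` with no triangle, replicated; `u` is the triangle vector of
`z, w`. -/
def vecN (K cb u f' : ℕ) : ℕ :=
  force (Nat.xor cb (Nat.land (Nat.shiftRight u f') cb)) fun t =>
    force (orB K fun j => Nat.shiftLeft t j) fun t' => orB K fun i => Nat.shiftLeft t' (i * K)

theorem vecN_spec {n K u q i m f' : ℕ} (hq : q < n * K) (hi : i < K) (hm : m < K)
    (h : u.testBit (q * (K * K) + f') = false) :
    (vecN K (comb (n * K) (K * K)) u f').testBit (q * (K * K) + i * K + m) = true := by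
  unfold vecN
  rw [force_eq, force_eq]
  refine orB_spec _ hi ?_
  have h1 : (Nat.xor (comb (n * K) (K * K)) (Nat.land (Nat.shiftRight u f')
      (comb (n * K) (K * K)))).testBit (q * (K * K)) = true := by
    show ((comb (n * K) (K * K)) ^^^ ((u >>> f') &&& (comb (n * K) (K * K)))).testBit
      (q * (K * K)) = true
    rw [Nat.testBit_xor, Nat.testBit_and, Nat.testBit_shiftRight, comb_spec hq, Nat.add_comm, h]
    rfl
  have h2 : (orB K fun j => Nat.shiftLeft (Nat.xor (comb (n * K) (K * K)) (Nat.land
      (Nat.shiftRight u f') (comb (n * K) (K * K)))) j).testBit (q * (K * K) + m) = true := by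
    refine orB_spec _ hm ?_
    have := testBit_shl (i := m) h1
    rwa [Nat.add_comm] at this
  have h3 := testBit_shl (i := i * K) h2
  have e : i * K + (q * (K * K) + m) = q * (K * K) + i * K + m := by ring
  rwa [e] at h3

/-- The patterns `P` (bits at `(ρ', n', m')`), replicated over `d`. -/
def vecP (n K P : ℕ) : ℕ :=
  force (orB n fun c => Nat.shiftLeft ((Nat.shiftRight P (c * (K * K))) % 2 ^ (K * K))
    (c * (K * (K * K)))) fun s => orB K fun d => Nat.shiftLeft s (d * (K * K))

theorem im_lt {K i m : ℕ} (hi : i < K) (hm : m < K) : i * K + m < K * K := by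
  calc i * K + m < i * K + K := by omega
    _ = (i + 1) * K := by ring
    _ ≤ K * K := Nat.mul_le_mul_right _ hi

theorem vecP_spec {n K P c d i m : ℕ} (hc : c < n) (hd : d < K) (hi : i < K) (hm : m < K)
    (h : P.testBit (c * (K * K) + i * K + m) = true) :
    (vecP n K P).testBit ((c * K + d) * (K * K) + i * K + m) = true := by
  unfold vecP
  rw [force_eq]
  refine orB_spec _ hd ?_
  have h1 : (orB n fun c => Nat.shiftLeft ((Nat.shiftRight P (c * (K * K))) % 2 ^ (K * K))
      (c * (K * (K * K)))).testBit (c * (K * (K * K)) + (i * K + m)) = true := by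
    refine orB_spec _ hc (testBit_shl ?_)
    refine testBit_mod (im_lt hi hm) (testBit_shr ?_)
    rwa [← Nat.add_assoc]
  have h2 := testBit_shl (i := d * (K * K)) h1
  have e : d * (K * K) + (c * (K * (K * K)) + (i * K + m)) =
      (c * K + d) * (K * K) + i * K + m := by ring
  rwa [e] at h2

/-! ### The vectors of a pair of labels -/

/-- The entries for the pattern `(ρ, n, m)`, `idx = n * K + m`. -/
def Vp (n K : ℕ) (R : List ℕ) (l m ρ idx : ℕ) : ℕ :=
  Nat.land (vecL K (TC n K R l ρ (idx % K)))
    (vecM K (comb (n * K) (K * K)) (TC n K R m ρ (idx / K)))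

/-- Evaluate the vectors of one label. -/
def buildV {α : Type} (n K : ℕ) (R : List ℕ) (cb l m ρ : ℕ) (k : List ℕ → α) : α :=
  forceMap (fun x => vecL K (TC n K R l ρ x)) (rng K 0) fun A =>
  forceMap (fun x => vecM K cb (TC n K R m ρ x)) (rng K 0) fun B =>
  forceMap (fun idx => Nat.land (A.getD (idx % K) 0) (B.getD (idx / K) 0)) (rng (K * K) 0) k

theorem getD_map_rng {g : ℕ → ℕ} {m i : ℕ} (h : i < m) :
    ((rng m 0).map g).getD i 0 = g i := by
  have hl : i < ((rng m 0).map g).length := by rw [List.length_map, rng_length]; exact h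
  rw [List.getD_eq_getElem _ _ hl, List.getElem_map, rng_get]
  congr 1
  omega

theorem buildV_eq {α : Type} (n K : ℕ) (R : List ℕ) (l m ρ : ℕ) (k : List ℕ → α) :
    buildV n K R (comb (n * K) (K * K)) l m ρ k =
      k ((rng (K * K) 0).map (Vp n K R l m ρ)) := by
  unfold buildV
  rw [forceMap_eq, forceMap_eq, forceMap_eq]
  congr 1
  apply List.map_congr_left
  intro idx hidx
  have hlt : idx < K * K := by
    obtain ⟨i, hi, rfl⟩ := List.getElem_of_mem hidx
    rw [rng_get]
    rw [rng_length] at hi
    omega
  have hK : 0 < K := by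
    rcases Nat.eq_zero_or_pos K with h | h
    · subst h; exact absurd hlt (by simp)
    · exact h
  rw [getD_map_rng (Nat.mod_lt _ hK), getD_map_rng (Nat.div_lt_of_lt_mul hlt)]
  rfl

/-- Evaluate lists for all `ρ` in the list. -/
def buildAll {α β : Type} (g : ℕ → (β → α) → α) : List ℕ → (List β → α) → α
  | [], k => k []
  | ρ :: L, k => g ρ fun v => buildAll g L fun M => k (v :: M)

theorem buildAll_eq {α β : Type} (g : ℕ → (β → α) → α) (h : ℕ → β)
    (hg : ∀ ρ k, g ρ k = k (h ρ)) : ∀ (L : List ℕ) (k : List β → α),
    buildAll g L k = k (L.map h) := by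
  intro L
  induction L with
  | nil => intro k; rfl
  | cons a L ih =>
    intro k
    unfold buildAll
    rw [hg, ih]
    rfl

/-- The complements for the server label `ν`: a list over `ρ` of lists over `f` of lists over
`f'`. -/
def Np (n K : ℕ) (R : List ℕ) (ν ρ f f' : ℕ) : ℕ :=
  vecN K (comb (n * K) (K * K)) (TC n K R ν ρ f) f'

def NpL (n K : ℕ) (R : List ℕ) (ν : ℕ) : List (List (List ℕ)) :=
  (rng n 0).map fun ρ => (rng K 0).map fun f => (rng K 0).map fun f' => Np n K R ν ρ f f'

def buildN {α : Type} (n K : ℕ) (R : List ℕ) (cb ν : ℕ) (k : List (List (List ℕ)) → α) : α :=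
  buildAll (fun ρ k => buildAll (fun f k => force (TC n K R ν ρ f) fun u =>
    forceMap (fun f' => vecN K cb u f') (rng K 0) k) (rng K 0) k) (rng n 0) k

theorem buildN_eq {α : Type} (n K : ℕ) (R : List ℕ) (ν : ℕ)
    (k : List (List (List ℕ)) → α) :
    buildN n K R (comb (n * K) (K * K)) ν k = k (NpL n K R ν) := by
  unfold buildN
  rw [buildAll_eq _ (fun ρ => (rng K 0).map fun f => (rng K 0).map fun f' => Np n K R ν ρ f f')]
  · rfl
  · intro ρ k
    rw [buildAll_eq _ (fun f => (rng K 0).map fun f' => Np n K R ν ρ f f')]
    intro f k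
    rw [force_eq, forceMap_eq]
    rfl

end Pool.Agent.RA6.Chk
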