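import Pool.Agent.RA6.ChkB99

/-!
Bit vector checks for finite worlds (MP_cf0286_al): the entry of a request and its soundness.
-/

namespace Pool.Agent.RA6.Chk

/-- The entry of a request with colours `a, b`: the server label `nu`, the kinds `ka` (from the
newborn to `x`), `kb` (to `y`), the patterns `P[f]` of the vertices `w` seen by the newborn by the
kind `f`, and the patterns `Q[6 * side + c]` of the vertices to which the request is redirected
with the colour `c`. A pattern `(ρ, n', m')` (label of `w`, kind from `y`, kind from `x`) is the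
bit `ρ * K ^ 2 + n' * K + m'`. -/
structure Ent where
  a : ℕ
  b : ℕ
  nu : ℕ
  ka : ℕ
  kb : ℕ
  P : List ℕ
  Q : List ℕ

/-- The patterns of a pair with triangle vector `u`. -/
def patt (n K u : ℕ) : ℕ :=
  orB (n * K) fun g => Nat.shiftLeft ((Nat.shiftRight u (g * (K * K))) % 2 ^ K) (g * K)

theorem patt_spec {n K u g m : ℕ} (hg : g < n * K) (hm : m < K)
    (h : u.testBit (g * (K * K) + m) = true) : (patt n K u).testBit (g * K + m) = true := by
  unfold patt
  exact orB_spec _ hg (testBit_shl (testBit_mod hm (testBit_shr h)))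

/-- Every pattern is covered or is a witness. -/
def chkCover (n K : ℕ) (kc : List ℕ) (pt a b cov : ℕ) : Bool :=
  force (Nat.xor pt (Nat.land pt cov)) fun u =>
  force (comb n (K * K)) fun cn =>
  force (orB K fun j => Nat.shiftLeft cn j) fun cr =>
    allB K fun i =>
      if Nat.beq (kc.getD i 0) b then
        allB K fun m => Nat.beq (kc.getD m 0) a ||
          Nat.beq (Nat.land u (Nat.shiftLeft cn (i * K + m))) 0
      else Nat.beq (Nat.land u (Nat.shiftLeft cr (i * K))) 0

theorem chkCover_spec {n K : ℕ} {kc : List ℕ} {pt a b cov : ℕ}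
    (h : chkCover n K kc pt a b cov = true) {ρ i m : ℕ} (hρ : ρ < n) (hi : i < K) (hm : m < K)
    (hp : pt.testBit (ρ * (K * K) + i * K + m) = true)
    (hw : ¬ (kc.getD m 0 = a ∧ kc.getD i 0 = b)) :
    cov.testBit (ρ * (K * K) + i * K + m) = true := by
  by_contra hc
  have hc' : cov.testBit (ρ * (K * K) + i * K + m) = false := by simpa using hc
  unfold chkCover at h
  rw [force_eq, force_eq, force_eq] at h
  have h1 := allB_spec h i hi
  have hu : (Nat.xor pt (Nat.land pt cov)).testBit (ρ * (K * K) + i * K + m) = true := by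
    show (pt ^^^ (pt &&& cov)).testBit _ = true
    rw [Nat.testBit_xor, Nat.testBit_and, hp, hc']
    rfl
  have hcn := comb_spec (m := n) (s := K * K) hρ
  by_cases hb : kc.getD i 0 = b
  · rw [hb, if_pos (by simp)] at h1
    have h2 := allB_spec h1 m hm
    rw [Bool.or_eq_true] at h2
    rcases h2 with h2 | h2
    · exact hw ⟨Nat.eq_of_beq_eq_true h2, hb⟩
    · refine not_testBit_of_land (Nat.eq_of_beq_eq_true h2) hu ?_
      have := testBit_shl (i := i * K + m) hcn
      have e : i * K + m + ρ * (K * K) = ρ * (K * K) + i * K + m := by ring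
      rwa [e] at this
  · rw [if_neg (by simpa using hb)] at h1
    refine not_testBit_of_land (Nat.eq_of_beq_eq_true h1) hu ?_
    have h3 : (orB K fun j => Nat.shiftLeft (comb n (K * K)) j).testBit (m + ρ * (K * K)) =
        true := orB_spec _ hm (testBit_shl hcn)
    have := testBit_shl (i := i * K) h3
    have e : i * K + (m + ρ * (K * K)) = ρ * (K * K) + i * K + m := by ring
    rwa [e] at this

/-- The triangles of the newborn with `w` and `x`, `y`. -/
def chkOk (K ρ f ua ub sub : ℕ) : Bool :=
  force (comb K K) fun cm => force (2 ^ K - 1) fun rm =>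
    (allB K fun m => Nat.testBit ua ((ρ * K + m) * (K * K) + f) ||
      Nat.beq (Nat.land sub (Nat.shiftLeft cm m)) 0) &&
    (allB K fun i => Nat.testBit ub ((ρ * K + i) * (K * K) + f) ||
      Nat.beq (Nat.land sub (Nat.shiftLeft rm (i * K))) 0)

theorem chkOk_spec {K ρ f ua ub sub i m : ℕ} (h : chkOk K ρ f ua ub sub = true) (hi : i < K)
    (hm : m < K) (hs : sub.testBit (i * K + m) = true) :
    ua.testBit ((ρ * K + m) * (K * K) + f) = true ∧
    ub.testBit ((ρ * K + i) * (K * K) + f) = true := by
  unfold chkOk at h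
  rw [force_eq, force_eq, Bool.and_eq_true] at h
  constructor
  · have h1 := allB_spec h.1 m hm
    rw [Bool.or_eq_true] at h1
    rcases h1 with h1 | h1
    · exact h1
    · exfalso
      refine not_testBit_of_land (Nat.eq_of_beq_eq_true h1) hs ?_
      have := testBit_shl (i := m) (comb_spec (m := K) (s := K) hi)
      rwa [Nat.add_comm] at this
  · have h1 := allB_spec h.2 i hi
    rw [Bool.or_eq_true] at h1
    rcases h1 with h1 | h1
    · exact h1
    · exfalso
      refine not_testBit_of_land (Nat.eq_of_beq_eq_true h1) hs ?_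
      refine testBit_shl ?_
      rw [Nat.testBit_two_pow_sub_one]
      simpa using hm

/-- The violations of a redirection: `side = 0`: `w'` has the colour `a` at `x`, `c2` at `w` and
not `b` at `y`; `side = 1`: `b` at `y`, `c2` at `w` and not `a` at `x`. -/
def redMask (n K : ℕ) (kc : List ℕ) (a b side c2 : ℕ) : ℕ :=
  orB n fun c => orB K fun d => if Nat.beq (kc.getD d 0) c2 then
    orB K fun i => orB K fun m =>
      if (if Nat.beq side 0 then Nat.beq (kc.getD m 0) a && ! Nat.beq (kc.getD i 0) b
        else Nat.beq (kc.getD i 0) b && ! Nat.beq (kc.getD m 0) a) then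
        Nat.shiftLeft 1 ((c * K + d) * (K * K) + i * K + m) else 0
    else 0

theorem redMask_spec {n K : ℕ} {kc : List ℕ} {a b side c2 c d i m : ℕ} (hc : c < n) (hd : d < K)
    (hi : i < K) (hm : m < K) (h1 : kc.getD d 0 = c2)
    (h2 : (if Nat.beq side 0 then Nat.beq (kc.getD m 0) a && ! Nat.beq (kc.getD i 0) b
        else Nat.beq (kc.getD i 0) b && ! Nat.beq (kc.getD m 0) a) = true) :
    (redMask n K kc a b side c2).testBit ((c * K + d) * (K * K) + i * K + m) = true := by
  unfold redMask
  refine orB_spec _ hc (orB_spec _ hd ?_)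
  rw [h1, if_pos (by simp)]
  refine orB_spec _ hi (orB_spec _ hm ?_)
  rw [if_pos h2]
  have : (Nat.shiftLeft 1 ((c * K + d) * (K * K) + i * K + m)).testBit
      ((c * K + d) * (K * K) + i * K + m + 0) = true := testBit_shl (by decide)
  simpa using this

/-- The conditions on one redirected pattern. -/
def chkRed1 (K : ℕ) (kc : List ℕ) (kt a b side c2 i m : ℕ) : Bool :=
  if Nat.beq side 0 then
    (! badN (kc.getD m 0) a c2) && ! (Nat.beq kt a && Nat.beq (kc.getD i 0) c2)
  else (! badN (kc.getD i 0) c2 b) && ! (Nat.beq (kc.getD m 0) c2 && Nat.beq kt b)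

/-- The check of the redirected patterns with one code. -/
def chkRed (n K : ℕ) (lev kc : List ℕ) (l m c : ℕ) (VV : List (List ℕ)) (ptr a b r q : ℕ) :
    Bool :=
  Nat.beq q 0 ||
    force (Nat.land (redMask n K kc a b (r / 6) (r % 6)) ptr) fun B =>
      allZ VV (rng n 0) 0 fun V ρ _ =>
        force ((Nat.shiftRight q (ρ * (K * K))) % 2 ^ (K * K)) fun sub =>
          Nat.beq sub 0 ||
            ((if Nat.beq (r / 6) 0 then Nat.blt (lev.getD ρ 0) (lev.getD m 0)
              else Nat.blt (lev.getD ρ 0) (lev.getD l 0)) &&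
            (allB K fun i => allB K fun m => (! Nat.testBit sub (i * K + m)) ||
              chkRed1 K kc (kc.getD c 0) a b (r / 6) (r % 6) i m) &&
            trav B V sub)

/-- The check of an entry. -/
def chkEnt (n K : ℕ) (lev kc R : List ℕ) (l m c : ℕ) (VV : List (List ℕ))
    (NN : List (List (List (List ℕ)))) (pt ptr : ℕ) (e : Ent) : Bool :=
  Nat.blt e.nu n && Nat.beq (lev.getD e.nu 0) 2 && Nat.blt e.ka K && Nat.blt e.kb K &&
  Nat.beq (kc.getD e.ka 0) e.a && Nat.beq (kc.getD e.kb 0) e.b &&
  Nat.beq e.P.length K && Nat.ble e.Q.length 12 &&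
  tb n K R e.nu l m e.ka e.kb c &&
  (force (Nat.lor (orL e.P) (orL e.Q)) fun cov => chkCover n K kc pt e.a e.b cov) &&
  (force (TC n K R e.nu l e.ka) fun ua => force (TC n K R e.nu m e.kb) fun ub =>
    forceMap (vecP n K) e.P fun P' =>
      allZ VV (NN.getD e.nu []) 0 fun V Nρ ρ =>
        allZ e.P Nρ 0 fun Pf Nf f =>
          force ((Nat.shiftRight Pf (ρ * (K * K))) % 2 ^ (K * K)) fun sub =>
            Nat.beq sub 0 || (chkOk K ρ f ua ub sub &&
              force (zipOr P' Nf) fun B => trav B V sub)) &&
  allZ e.Q (rng 12 0) 0 fun q r _ => chkRed n K lev kc l m c VV ptr e.a e.b r q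

end Pool.Agent.RA6.Chk
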