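import Pool.Agent.RA6.ChkC99

/-!
Bit vector checks for finite worlds (MP_cf0286_al): soundness of the check of an entry.
-/

namespace Pool.Agent.RA6.Chk

theorem tri_rot {T : Type} (W : World T) {A B C : T} (h : W.Tri A B C) :
    W.Tri C (W.flip A) (W.flip B) := by
  have h1 := W.tri_swap12 _ _ _ h
  have h2 := W.tri_swap23 _ _ _ h1
  exact h2

theorem tri_edge {D : Data} (hb : D.base = true) {p q r : ℕ × ℕ × ℕ} (h : D.Tri p q r) :
    D.Edge p := by
  obtain ⟨_, ⟨h1, h2, _⟩, ⟨k1, _, _⟩, ht⟩ := h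
  exact ⟨⟨h1, h2, k1⟩, chkEdgeTri_spec (base_split hb).2.2.2.2.1 h1 h2 k1 ht⟩

/-- The first index below `m` with the property. -/
def firstB : ℕ → ℕ → (ℕ → Bool) → Option ℕ
  | 0, _, _ => none
  | m + 1, s, f => if f s then some s else firstB m (s + 1) f

theorem firstB_some {f : ℕ → Bool} : ∀ {m s i : ℕ}, firstB m s f = some i →
    f i = true ∧ i < s + m := by
  intro m
  induction m with
  | zero => intro s i h; exact absurd h (by simp [firstB])
  | succ m ih =>
    intro s i h
    unfold firstB at h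
    by_cases hf : f s = true
    · rw [if_pos hf] at h
      simp only [Option.some.injEq] at h
      subst h
      exact ⟨hf, by omega⟩
    · rw [if_neg hf] at h
      have := ih h
      exact ⟨this.1, by omega⟩

theorem firstB_none {f : ℕ → Bool} : ∀ {m s : ℕ}, firstB m s f = none → ∀ i, s ≤ i →
    i < s + m → f i = false := by
  intro m
  induction m with
  | zero => intro s _ i h1 h2; omega
  | succ m ih =>
    intro s h i h1 h2
    unfold firstB at h
    by_cases hf : f s = true
    · rw [if_pos hf] at h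
      exact absurd h (by simp)
    · rw [if_neg hf] at h
      rcases Nat.eq_or_lt_of_le h1 with h3 | h3
      · rw [← h3]; simpa using hf
      · exact ih h i h3 (by omega)

/-- The position of a pattern. -/
def pos (K ρ i m : ℕ) : ℕ := ρ * (K * K) + i * K + m

/-- The redirection of a pattern. -/
def redOf (K : ℕ) (Q : List ℕ) (ρ i m : ℕ) : Option (Bool × ZMod 6) :=
  match firstB 12 0 (fun r => (Q.getD r 0).testBit (pos K ρ i m)) with
  | none => none
  | some r => some (! Nat.beq (r / 6) 0, ((r % 6 : ℕ) : ZMod 6))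

/-- The kind of a pattern. -/
def kindOf (K : ℕ) (P : List ℕ) (ρ i m : ℕ) : ℕ :=
  match firstB K 0 (fun f => (P.getD f 0).testBit (pos K ρ i m)) with
  | none => 0
  | some f => f

theorem pos_mod {K ρ i m x : ℕ} (hi : i < K) (hm : m < K) (h : x.testBit (pos K ρ i m) = true) :
    ((Nat.shiftRight x (ρ * (K * K))) % 2 ^ (K * K)).testBit (i * K + m) = true := by
  refine testBit_mod (im_lt hi hm) (testBit_shr ?_)
  unfold pos at h
  rwa [← Nat.add_assoc]

theorem rng_map_length {α : Type} (g : ℕ → α) (m : ℕ) : ((rng m 0).map g).length = m := by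
  rw [List.length_map, rng_length]

theorem rng_map_get {α : Type} (g : ℕ → α) (m i : ℕ) (h : i < ((rng m 0).map g).length) :
    ((rng m 0).map g)[i] = g i := by
  rw [List.getElem_map, rng_get]
  congr 1
  omega

/-- The bit of a pair of triangles at the entry for `(ρ, i, m)`. -/
theorem Vp_bit {n K : ℕ} {R : List ℕ} {l l' ρ ρ' i m i' m' d : ℕ} (hρ' : ρ' < n)
    (hi : i < K) (hm : m < K) (hi' : i' < K) (hm' : m' < K) (hd : d < K)
    (h1 : tb n K R l ρ ρ' m m' d = true) (h2 : tb n K R l' ρ ρ' i i' d = true) :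
    (Vp n K R l l' ρ (i * K + m)).testBit ((ρ' * K + d) * (K * K) + i' * K + m') = true := by
  have e1 : (i * K + m) % K = m := by
    rw [Nat.mul_comm, Nat.mul_add_mod, Nat.mod_eq_of_lt hm]
  have hK : 0 < K := by omega
  have e2 : (i * K + m) / K = i := by
    rw [Nat.mul_comm, Nat.mul_add_div hK, Nat.div_eq_of_lt hm]
    omega
  have hq : ρ' * K + d < n * K := by
    calc ρ' * K + d < ρ' * K + K := by omega
      _ = (ρ' + 1) * K := by ring
      _ ≤ n * K := Nat.mul_le_mul_right _ hρ'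
  unfold Vp
  rw [e1, e2]
  exact testBit_land (vecL_spec hi' h1) (vecM_spec hq hi' hm' h2)

section

variable {D : Data} (hb : D.base = true) {l m c : ℕ} (hl : l < D.n) (hm : m < D.n) (hc : c < D.K)
  {NN : List (List (List (List ℕ)))} {e : Ent}

theorem cast6 {x y : ℕ} (hx : x < 6) (hy : y < 6) :
    (((x : ℕ) : ZMod 6) = ((y : ℕ) : ZMod 6)) ↔ x = y :=
  ⟨fun h => cast_inj6 hx hy h, fun h => by rw [h]⟩

/-- The parts of the check of an entry. -/
theorem chkEnt_split {n K : ℕ} {lev kc R : List ℕ} {VV : List (List ℕ)} {pt ptr : ℕ}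
    (h : chkEnt n K lev kc R l m c VV NN pt ptr e = true) :
    (e.nu < n ∧ lev.getD e.nu 0 = 2 ∧ e.ka < K ∧ e.kb < K ∧ kc.getD e.ka 0 = e.a ∧
      kc.getD e.kb 0 = e.b ∧ e.P.length = K ∧ e.Q.length ≤ 12) ∧
    tb n K R e.nu l m e.ka e.kb c = true ∧
    chkCover n K kc pt e.a e.b (Nat.lor (orL e.P) (orL e.Q)) = true ∧
    allZ VV (NN.getD e.nu []) 0 (fun V Nρ ρ =>
        allZ e.P Nρ 0 fun Pf Nf f =>
          Nat.beq ((Nat.shiftRight Pf (ρ * (K * K))) % 2 ^ (K * K)) 0 ||
            (chkOk K ρ f (TC n K R e.nu l e.ka) (TC n K R e.nu m e.kb)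
              ((Nat.shiftRight Pf (ρ * (K * K))) % 2 ^ (K * K)) &&
              trav (zipOr (e.P.map (vecP n K)) Nf) V
                ((Nat.shiftRight Pf (ρ * (K * K))) % 2 ^ (K * K)))) = true ∧
    allZ e.Q (rng 12 0) 0 (fun q r _ => chkRed n K lev kc l m c VV ptr e.a e.b r q) = true := by
  unfold chkEnt at h
  simp only [force_eq, forceMap_eq, Bool.and_eq_true] at h
  obtain ⟨⟨⟨⟨⟨⟨⟨⟨⟨⟨⟨h1, h2⟩, h3⟩, h4⟩, h5⟩, h6⟩, h7⟩, h8⟩, h9⟩, h10⟩, h11⟩, h12⟩ := h
  exact ⟨⟨by simpa [Nat.blt_eq] using h1, Nat.eq_of_beq_eq_true h2,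
    by simpa [Nat.blt_eq] using h3, by simpa [Nat.blt_eq] using h4, Nat.eq_of_beq_eq_true h5,
    Nat.eq_of_beq_eq_true h6, Nat.eq_of_beq_eq_true h7, by simpa [Nat.ble_eq] using h8⟩, h9, h10,
    h11, h12⟩

/-- The check for the patterns of the newborn. -/
theorem chkP_spec {n K : ℕ} {R P : List ℕ} {nu ka kb : ℕ} (hP : P.length = K)
    (h : allZ ((rng n 0).map fun ρ => (rng (K * K) 0).map (Vp n K R l m ρ)) (NpL n K R nu) 0
      (fun V Nρ ρ =>
        allZ P Nρ 0 fun Pf Nf f =>
          Nat.beq ((Nat.shiftRight Pf (ρ * (K * K))) % 2 ^ (K * K)) 0 ||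
            (chkOk K ρ f (TC n K R nu l ka) (TC n K R nu m kb)
              ((Nat.shiftRight Pf (ρ * (K * K))) % 2 ^ (K * K)) &&
              trav (zipOr (P.map (vecP n K)) Nf) V
                ((Nat.shiftRight Pf (ρ * (K * K))) % 2 ^ (K * K)))) = true)
    {ρ f i x : ℕ} (hρ : ρ < n) (hf : f < K) (hi : i < K) (hx : x < K)
    (hbit : (P.getD f 0).testBit (pos K ρ i x) = true) :
    (tb n K R nu l ρ ka f x = true ∧ tb n K R nu m ρ kb f i = true) ∧
    ∀ ρ' f' i' x' d, ρ' < n → f' < K → i' < K → x' < K → d < K →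
      (P.getD f' 0).testBit (pos K ρ' i' x') = true →
      tb n K R l ρ ρ' x x' d = true → tb n K R m ρ ρ' i i' d = true →
      tb n K R nu ρ ρ' f f' d = true := by
  have h1 := allZ_spec _ _ _ h ρ (by rw [rng_map_length]; exact hρ)
    (by unfold NpL; rw [rng_map_length]; exact hρ)
  simp only [NpL, rng_map_get, Nat.zero_add] at h1
  have h2 := allZ_spec _ _ _ h1 f (by rw [hP]; exact hf) (by rw [rng_map_length]; exact hf)
  simp only [rng_map_get, Nat.zero_add] at h2
  have eP : P.getD f 0 = P[f]'(by rw [hP]; exact hf) :=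
    List.getD_eq_getElem _ _ (by rw [hP]; exact hf)
  rw [eP] at hbit
  have hsub := pos_mod hi hx hbit
  rw [Bool.or_eq_true] at h2
  rcases h2 with h2 | h2
  · rw [Nat.eq_of_beq_eq_true h2, Nat.zero_testBit] at hsub
    exact absurd hsub (by decide)
  · rw [Bool.and_eq_true] at h2
    obtain ⟨k1, k2⟩ := chkOk_spec h2.1 hi hx hsub
    refine ⟨⟨k1, k2⟩, ?_⟩
    intro ρ' f' i' x' d hρ' hf' hi' hx' hd hb' ht1 ht2
    have h3 := trav_spec _ _ h2.2 (i * K + x) (by rw [rng_map_length]; exact im_lt hi hx) hsub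
    rw [rng_map_get] at h3
    by_contra hcon
    have hcon' : tb n K R nu ρ ρ' f f' d = false := by simpa using hcon
    have hq : ρ' * K + d < n * K := by
      calc ρ' * K + d < ρ' * K + K := by omega
        _ = (ρ' + 1) * K := by ring
        _ ≤ n * K := Nat.mul_le_mul_right _ hρ'
    have hN : (Np n K R nu ρ f f').testBit ((ρ' * K + d) * (K * K) + i' * K + x') = true :=
      vecN_spec hq hi' hx' hcon'
    have eP' : P.getD f' 0 = P[f']'(by rw [hP]; exact hf') :=
      List.getD_eq_getElem _ _ (by rw [hP]; exact hf')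
    rw [eP'] at hb'
    have hPv := vecP_spec (n := n) (d := d) hρ' hd hi' hx' hb'
    refine not_testBit_of_land h3 (Vp_bit hρ' hi hx hi' hx' hd ht1 ht2) ?_
    refine zipOr_spec _ _ _ f' (by rw [List.length_map, hP]; exact hf')
      (by rw [rng_map_length]; exact hf') ?_ ?_
    · rw [List.getElem_map]; exact hPv
    · rw [rng_map_get]; exact hN

/-- The check of the redirections. -/
theorem chkQ_spec {n K : ℕ} {lev kc R Q : List ℕ} {a b ptr : ℕ}
    (h : allZ Q (rng 12 0) 0 (fun q r _ => chkRed n K lev kc l m c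
      ((rng n 0).map fun ρ => (rng (K * K) 0).map (Vp n K R l m ρ)) ptr a b r q) = true)
    (hQ : Q.length ≤ 12)
    (hptr : ∀ ρ' d i' x', ρ' < n → d < K → i' < K → x' < K →
      tb n K R l m ρ' c x' i' = true →
      ptr.testBit ((ρ' * K + d) * (K * K) + i' * K + x') = true)
    {ρ r i x : ℕ} (hρ : ρ < n) (hr : r < 12) (hi : i < K) (hx : x < K)
    (hbit : (Q.getD r 0).testBit (pos K ρ i x) = true) :
    (if Nat.beq (r / 6) 0 then Nat.blt (lev.getD ρ 0) (lev.getD m 0)
      else Nat.blt (lev.getD ρ 0) (lev.getD l 0)) = true ∧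
    chkRed1 K kc (kc.getD c 0) a b (r / 6) (r % 6) i x = true ∧
    ∀ ρ' i' x' d, ρ' < n → i' < K → x' < K → d < K → kc.getD d 0 = r % 6 →
      (if Nat.beq (r / 6) 0 then Nat.beq (kc.getD x' 0) a && ! Nat.beq (kc.getD i' 0) b
        else Nat.beq (kc.getD i' 0) b && ! Nat.beq (kc.getD x' 0) a) = true →
      tb n K R l m ρ' c x' i' = true → tb n K R l ρ ρ' x x' d = true →
      tb n K R m ρ ρ' i i' d = true → False := by
  have hrQ : r < Q.length := by
    by_contra hcon
    rw [List.getD_eq_default _ _ (by omega), Nat.zero_testBit] at hbit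
    exact absurd hbit (by decide)
  have h1 := allZ_spec _ _ _ h r hrQ (by rw [rng_length]; exact hr)
  rw [rng_get] at h1
  simp only [Nat.zero_add] at h1
  have eQ : Q.getD r 0 = Q[r] := List.getD_eq_getElem _ _ hrQ
  rw [eQ] at hbit
  unfold chkRed at h1
  rw [Bool.or_eq_true, force_eq] at h1
  rcases h1 with h1 | h1
  · rw [Nat.eq_of_beq_eq_true h1, Nat.zero_testBit] at hbit
    exact absurd hbit (by decide)
  · have h2 := allZ_spec _ _ _ h1 ρ (by rw [rng_map_length]; exact hρ)
      (by rw [rng_length]; exact hρ)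
    rw [rng_map_get, rng_get, Nat.zero_add, force_eq, Bool.or_eq_true] at h2
    have hsub := pos_mod hi hx hbit
    rcases h2 with h2 | h2
    · rw [Nat.eq_of_beq_eq_true h2, Nat.zero_testBit] at hsub
      exact absurd hsub (by decide)
    · rw [Bool.and_eq_true, Bool.and_eq_true] at h2
      obtain ⟨⟨k1, k2⟩, k3⟩ := h2
      refine ⟨k1, ?_, ?_⟩
      · have := allB_spec (allB_spec k2 i hi) x hx
        rw [hsub] at this
        simpa using this
      · intro ρ' i' x' d hρ' hi' hx' hd hd2 hv ht ht1 ht2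
        have h3 := trav_spec _ _ k3 (i * K + x) (by rw [rng_map_length]; exact im_lt hi hx) hsub
        rw [rng_map_get] at h3
        refine not_testBit_of_land h3 (Vp_bit hρ' hi hx hi' hx' hd ht1 ht2) ?_
        exact testBit_land (redMask_spec hρ' hd hi' hx' hd2 hv) (hptr _ _ _ _ hρ' hd hi' hx' ht)

end

end Pool.Agent.RA6.Chk
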