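import Pool.Agent.RA6.ChkD99

/-!
Bit vector checks for finite worlds (MP_cf0286_al): a checked entry serves its request.
-/

namespace Pool.Agent.RA6.Chk

theorem firstB_getD_some {K : ℕ} {Q : List ℕ} {ρ i m : ℕ} {s : Bool} {c : ZMod 6}
    (h : redOf K Q ρ i m = some (s, c)) :
    ∃ r, r < 12 ∧ (Q.getD r 0).testBit (pos K ρ i m) = true ∧ s = (! Nat.beq (r / 6) 0) ∧
      c = ((r % 6 : ℕ) : ZMod 6) := by
  unfold redOf at h
  cases hf : firstB 12 0 (fun r => (Q.getD r 0).testBit (pos K ρ i m)) with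
  | none => rw [hf] at h; exact absurd h (by simp)
  | some r =>
    rw [hf] at h
    simp only [Option.some.injEq, Prod.mk.injEq] at h
    obtain ⟨h1, h2⟩ := firstB_some hf
    exact ⟨r, by omega, h1, h.1.symm, h.2.symm⟩

theorem redOf_none {K : ℕ} {Q : List ℕ} {ρ i m : ℕ} (h : redOf K Q ρ i m = none) {r : ℕ}
    (hr : r < 12) : (Q.getD r 0).testBit (pos K ρ i m) = false := by
  unfold redOf at h
  cases hf : firstB 12 0 (fun r => (Q.getD r 0).testBit (pos K ρ i m)) with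
  | none => exact firstB_none hf r (by omega) (by omega)
  | some r => rw [hf] at h; exact absurd h (by simp)

theorem kindOf_spec {K : ℕ} {P : List ℕ} {ρ i m f : ℕ} (hf : f < K)
    (h : (P.getD f 0).testBit (pos K ρ i m) = true) :
    kindOf K P ρ i m < K ∧ (P.getD (kindOf K P ρ i m) 0).testBit (pos K ρ i m) = true := by
  unfold kindOf
  cases hk : firstB K 0 (fun f => (P.getD f 0).testBit (pos K ρ i m)) with
  | none =>
    have := firstB_none hk f (by omega) (by omega)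
    rw [this] at h
    exact absurd h (by decide)
  | some g =>
    obtain ⟨h1, h2⟩ := firstB_some hk
    exact ⟨show g < K by omega, h1⟩

/-- The triangle vector bit gives a pattern bit. -/
theorem pt_bit {n K : ℕ} {R : List ℕ} {l m c ρ x i : ℕ} (hρ : ρ < n) (hi : i < K) (hx : x < K)
    (h : tb n K R l m ρ c x i = true) :
    (patt n K (TC n K R l m c)).testBit (pos K ρ i x) = true := by
  have hq : ρ * K + i < n * K := by
    calc ρ * K + i < ρ * K + K := by omega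
      _ = (ρ + 1) * K := by ring
      _ ≤ n * K := Nat.mul_le_mul_right _ hρ
  have := patt_spec hq hx h
  have e : (ρ * K + i) * K + x = pos K ρ i x := by unfold pos; ring
  rwa [e] at this

theorem ptr_bit {n K : ℕ} {R : List ℕ} {l m c : ℕ} : ∀ ρ' d i' x', ρ' < n → d < K → i' < K →
    x' < K → tb n K R l m ρ' c x' i' = true →
    (vecP n K (patt n K (TC n K R l m c))).testBit ((ρ' * K + d) * (K * K) + i' * K + x') =
      true := by
  intro ρ' d i' x' h1 h2 h3 h4 h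
  exact vecP_spec h1 h2 h3 h4 (pt_bit h1 h3 h4 h)

/-- A checked entry serves its request. -/
theorem chkEnt_serve (D : Data) (hb : D.base = true) {l m c : ℕ} (hl : l < D.n) (hm : m < D.n)
    (hc : c < D.K) {NN : List (List (List (List ℕ)))} {e : Ent}
    (hN : NN.getD e.nu [] = NpL D.n D.K D.rows e.nu)
    (h : chkEnt D.n D.K D.lev D.kc D.rows l m c
      ((rng D.n 0).map fun ρ => (rng (D.K * D.K) 0).map (Vp D.n D.K D.rows l m ρ)) NN
      (patt D.n D.K (TC D.n D.K D.rows l m c))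
      (vecP D.n D.K (patt D.n D.K (TC D.n D.K D.rows l m c))) e = true) :
    (D.world hb).Serve (l, m, c) ((e.a : ℕ) : ZMod 6) ((e.b : ℕ) : ZMod 6) := by
  obtain ⟨⟨hnu, hlev, hka, hkb, hea, heb, hPl, hQl⟩, htz, hcov, hPP, hQQ⟩ := chkEnt_split h
  rw [hN] at hPP
  have ha6 : e.a < 6 := by rw [← hea]; exact kc_lt hb hka
  have hb6 : e.b < 6 := by rw [← heb]; exact kc_lt hb hkb
  have hflka := fl_lt hb hka
  have hflkb := fl_lt hb hkb
  -- the triangle of the newborn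
  have T0 : (D.world hb).Tri (e.nu, l, e.ka) (e.nu, m, e.kb) (l, m, c) :=
    ⟨⟨rfl, rfl, rfl⟩, ⟨hnu, hl, hm⟩, ⟨hka, hkb, hc⟩, htz⟩
  have Tn : (D.world hb).Tri (l, m, c) (l, e.nu, D.fl.getD e.ka e.ka)
      (m, e.nu, D.fl.getD e.kb e.kb) := tri_rot _ T0
  have Ex : D.Edge (l, e.nu, D.fl.getD e.ka e.ka) :=
    tri_edge hb ((D.world hb).tri_swap23 _ _ _ Tn)
  have Ey : D.Edge (m, e.nu, D.fl.getD e.kb e.kb) := by
    have h1 := (D.world hb).tri_swap12 _ _ _ Tn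
    exact tri_edge hb ((D.world hb).tri_swap23 _ _ _ h1)
  -- unpack a pattern
  have unp : ∀ p q : ℕ × ℕ × ℕ, (D.world hb).Tri (l, m, c) p q →
      ∃ ρ x i, ρ < D.n ∧ x < D.K ∧ i < D.K ∧ p = (l, ρ, x) ∧ q = (m, ρ, i) ∧
        tb D.n D.K D.rows l m ρ c x i = true := by
    rintro ⟨l', ρ, x⟩ ⟨m', ρ', i⟩ ⟨⟨e1, e2, e3⟩, ⟨h1, h2, h3⟩, ⟨k1, k2, k3⟩, ht⟩
    simp only at e1 e2 e3
    subst e1; subst e2; subst e3
    exact ⟨ρ, x, i, h3, k2, k3, rfl, rfl, ht⟩
  have colz : ∀ x, (D.world hb).col x = ((D.kc.getD x.2.2 0 : ℕ) : ZMod 6) := fun _ => rfl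
  -- the kind of an unredirected pattern
  have kin : ∀ ρ x i, ρ < D.n → x < D.K → i < D.K → tb D.n D.K D.rows l m ρ c x i = true →
      ¬ (((D.kc.getD x 0 : ℕ) : ZMod 6) = ((e.a : ℕ) : ZMod 6) ∧
        ((D.kc.getD i 0 : ℕ) : ZMod 6) = ((e.b : ℕ) : ZMod 6)) →
      redOf D.K e.Q ρ i x = none →
      kindOf D.K e.P ρ i x < D.K ∧
        (e.P.getD (kindOf D.K e.P ρ i x) 0).testBit (pos D.K ρ i x) = true := by
    intro ρ x i hρ hx hi ht hw hR
    have h1 := pt_bit hρ hi hx ht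
    have h2 := chkCover_spec hcov hρ hi hx h1 (by
      rintro ⟨w1, w2⟩
      exact hw ⟨by rw [w1], by rw [w2]⟩)
    have h3 : (orL e.P ||| orL e.Q).testBit (ρ * (D.K * D.K) + i * D.K + x) = true := h2
    rw [Nat.testBit_or, Bool.or_eq_true] at h3
    rcases h3 with h3 | h3
    · obtain ⟨f, hf, hfb⟩ := orL_spec h3
      rw [hPl] at hf
      exact kindOf_spec hf hfb
    · exfalso
      obtain ⟨r, hr, hrb⟩ := orL_spec h3
      have := redOf_none hR (r := r) (by omega)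
      unfold pos at this
      rw [this] at hrb
      exact absurd hrb (by decide)
  refine ⟨{ gx := (l, e.nu, D.fl.getD e.ka e.ka), gy := (m, e.nu, D.fl.getD e.kb e.kb),
            F := fun p q => (p.2.1, e.nu, D.fl.getD (kindOf D.K e.P p.2.1 q.2.2 p.2.2)
              (kindOf D.K e.P p.2.1 q.2.2 p.2.2)),
            R := fun p q => redOf D.K e.Q p.2.1 q.2.2 p.2.2,
            gx_ok := ?_, gy_ok := ?_, tri_new := Tn, F_ok := ?_, tri_w := ?_,
            red_x := ?_, red_y := ?_ }⟩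
  · refine ⟨Ex, ?_, rfl, hlev⟩
    show ((D.kc.getD (D.fl.getD e.ka e.ka) 0 : ℕ) : ZMod 6) = _
    rw [kc_fl hb, hea]
  · refine ⟨Ey, ?_, rfl, hlev⟩
    show ((D.kc.getD (D.fl.getD e.kb e.kb) 0 : ℕ) : ZMod 6) = _
    rw [kc_fl hb, heb]
  · intro p q hp hq ht hw hR
    obtain ⟨ρ, x, i, hρ, hx, hi, rfl, rfl, htb⟩ := unp p q ht
    obtain ⟨hf, hfb⟩ := kin ρ x i hρ hx hi htb hw hR
    obtain ⟨⟨k1, k2⟩, _⟩ := chkP_spec hPl hPP hρ hf hi hx hfb
    have T1 : (D.world hb).Tri (e.nu, l, e.ka) (e.nu, ρ, kindOf D.K e.P ρ i x) (l, ρ, x) :=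
      ⟨⟨rfl, rfl, rfl⟩, ⟨hnu, hl, hρ⟩, ⟨hka, hf, hx⟩, k1⟩
    have T2 : (D.world hb).Tri (e.nu, m, e.kb) (e.nu, ρ, kindOf D.K e.P ρ i x) (m, ρ, i) :=
      ⟨⟨rfl, rfl, rfl⟩, ⟨hnu, hm, hρ⟩, ⟨hkb, hf, hi⟩, k2⟩
    have T1' := tri_rot _ T1
    have T2' := tri_rot _ T2
    refine ⟨tri_edge hb (tri_rot _ T1'), rfl, hlev, T1', T2'⟩
  · intro p q p' q' u hp hq hp' hq' hu ht ht' h1 h2 hw hw' hR hR'
    obtain ⟨ρ, x, i, hρ, hx, hi, rfl, rfl, htb⟩ := unp p q ht
    obtain ⟨ρ', x', i', hρ', hx', hi', rfl, rfl, htb'⟩ := unp p' q' ht'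
    obtain ⟨hf, hfb⟩ := kin ρ x i hρ hx hi htb hw hR
    obtain ⟨hf', hfb'⟩ := kin ρ' x' i' hρ' hx' hi' htb' hw' hR'
    obtain ⟨_, k3⟩ := chkP_spec hPl hPP hρ hf hi hx hfb
    obtain ⟨u1, u2, d⟩ := u
    obtain ⟨⟨e1, e2, e3⟩, _, ⟨_, _, hd⟩, ht1⟩ := h1
    obtain ⟨_, _, _, ht2⟩ := h2
    simp only at e1 e2 e3 hd ht1 ht2
    subst e2; subst e3
    have := k3 _ _ i' x' d hρ' hf' hi' hx' hd hfb' ht1 ht2
    have T3 : (D.world hb).Tri (e.nu, ρ, kindOf D.K e.P ρ i x)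
        (e.nu, ρ', kindOf D.K e.P ρ' i' x') (ρ, ρ', d) :=
      ⟨⟨rfl, rfl, rfl⟩, ⟨hnu, hρ, hρ'⟩, ⟨hf, hf', hd⟩, this⟩
    exact tri_rot _ T3
  · intro p q c' hp hq ht hR
    obtain ⟨ρ, x, i, hρ, hx, hi, rfl, rfl, htb⟩ := unp p q ht
    obtain ⟨r, hr, hrb, hs, hc'⟩ := firstB_getD_some hR
    obtain ⟨k1, k2, k3⟩ := chkQ_spec hQQ hQl ptr_bit hρ hr hi hx hrb
    have h0 : Nat.beq (r / 6) 0 = true := by
      cases hh : Nat.beq (r / 6) 0 with
      | true => rfl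
      | false => rw [hh] at hs; exact absurd hs (by decide)
    rw [h0] at k1 k3
    unfold chkRed1 at k2
    rw [h0] at k2
    simp only [if_true, Bool.and_eq_true, Bool.not_eq_true', Bool.and_eq_false_imp] at k1 k2 k3
    subst hc'
    have hr6 : r % 6 < 6 := Nat.mod_lt _ (by decide)
    refine ⟨?_, ?_, ?_, ?_⟩
    · rw [colz]
      intro hF
      rw [badN_iff _ (kc_lt hb hx) _ ha6 _ hr6, k2.1] at hF
      exact absurd hF (by decide)
    · rintro ⟨w1, w2⟩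
      rw [colz] at w1 w2
      have w1' := cast_inj6 (kc_lt hb hc) ha6 w1
      have w2' := cast_inj6 (kc_lt hb hi) hr6 w2
      have := k2.2 (by rw [← w1']; simp)
      rw [w2'] at this
      simp at this
    · have : D.lev.getD ρ 0 < D.lev.getD m 0 := by simpa [Nat.blt_eq] using k1
      show D.lev.getD l 0 + D.lev.getD ρ 0 < D.lev.getD l 0 + D.lev.getD m 0
      omega
    · intro p' q' v hp' hq' hv ht' h1 h2 w1 w2
      obtain ⟨ρ', x', i', hρ', hx', hi', rfl, rfl, htb'⟩ := unp p' q' ht'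
      obtain ⟨u1, u2, d⟩ := v
      obtain ⟨⟨e1, e2, e3⟩, _, ⟨_, _, hd⟩, ht1⟩ := h1
      obtain ⟨_, _, _, ht2⟩ := h2
      simp only at e1 e2 e3 hd ht1 ht2
      subst e2; subst e3
      rw [colz] at w1 w2 ⊢
      have w1' := cast_inj6 (kc_lt hb hx') ha6 w1
      have w2' := cast_inj6 (kc_lt hb hd) hr6 w2
      by_contra hcon
      refine k3 _ i' x' d hρ' hi' hx' hd w2' ⟨by rw [w1']; simp, ?_⟩ htb' ht1 ht2
      cases hh : Nat.beq (D.kc.getD i' 0) e.b with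
      | false => rfl
      | true => exact absurd (by rw [Nat.eq_of_beq_eq_true hh]) hcon
  · intro p q c' hp hq ht hR
    obtain ⟨ρ, x, i, hρ, hx, hi, rfl, rfl, htb⟩ := unp p q ht
    obtain ⟨r, hr, hrb, hs, hc'⟩ := firstB_getD_some hR
    obtain ⟨k1, k2, k3⟩ := chkQ_spec hQQ hQl ptr_bit hρ hr hi hx hrb
    have h0 : Nat.beq (r / 6) 0 = false := by
      cases hh : Nat.beq (r / 6) 0 with
      | false => rfl
      | true => rw [hh] at hs; exact absurd hs (by decide)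
    rw [h0] at k1 k3
    unfold chkRed1 at k2
    rw [h0] at k2
    simp only [Bool.false_eq_true, if_false, Bool.and_eq_true, Bool.not_eq_true',
      Bool.and_eq_false_imp] at k1 k2 k3
    subst hc'
    have hr6 : r % 6 < 6 := Nat.mod_lt _ (by decide)
    refine ⟨?_, ?_, ?_, ?_⟩
    · rw [colz]
      intro hF
      rw [badN_iff _ (kc_lt hb hi) _ hr6 _ hb6, k2.1] at hF
      exact absurd hF (by decide)
    · rintro ⟨w1, w2⟩
      rw [colz] at w1 w2
      have w1' := cast_inj6 (kc_lt hb hx) hr6 w1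
      have w2' := cast_inj6 (kc_lt hb hc) hb6 w2
      have := k2.2 (by rw [← w1']; simp)
      rw [w2'] at this
      simp at this
    · have : D.lev.getD ρ 0 < D.lev.getD l 0 := by simpa [Nat.blt_eq] using k1
      show D.lev.getD m 0 + D.lev.getD ρ 0 < D.lev.getD l 0 + D.lev.getD m 0
      omega
    · intro p' q' v hp' hq' hv ht' h1 h2 w1 w2
      obtain ⟨ρ', x', i', hρ', hx', hi', rfl, rfl, htb'⟩ := unp p' q' ht'
      obtain ⟨u1, u2, d⟩ := v
      obtain ⟨⟨e1, e2, e3⟩, _, ⟨_, _, hd⟩, ht1⟩ := h1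
      obtain ⟨_, _, _, ht2⟩ := h2
      simp only at e1 e2 e3 hd ht1 ht2
      subst e2; subst e3
      rw [colz] at w1 w2 ⊢
      have w1' := cast_inj6 (kc_lt hb hi') hb6 w1
      have w2' := cast_inj6 (kc_lt hb hd) hr6 w2
      by_contra hcon
      refine k3 _ i' x' d hρ' hi' hx' hd w2' ⟨by rw [w1']; simp, ?_⟩ htb' ht1 ht2
      cases hh : Nat.beq (D.kc.getD x' 0) e.a with
      | false => rfl
      | true => exact absurd (by rw [Nat.eq_of_beq_eq_true hh]) hcon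

end Pool.Agent.RA6.Chk
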