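import Pool.Agent.RA6.ChkE99

/-!
Bit vector checks for finite worlds (MP_cf0286_al): lists of requests.
-/

namespace Pool.Agent.RA6.Chk

/-- All vectors of a pair of labels. -/
def buildVV {α : Type} (n K : ℕ) (R : List ℕ) (l m : ℕ) (k : List (List ℕ) → α) : α :=
  force (comb (n * K) (K * K)) fun cb =>
    buildAll (fun ρ k => buildV n K R cb l m ρ k) (rng n 0) k

theorem buildVV_eq {α : Type} (n K : ℕ) (R : List ℕ) (l m : ℕ) (k : List (List ℕ) → α) :
    buildVV n K R l m k =
      k ((rng n 0).map fun ρ => (rng (K * K) 0).map (Vp n K R l m ρ)) := by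
  unfold buildVV
  rw [force_eq, buildAll_eq _ (fun ρ => (rng (K * K) 0).map (Vp n K R l m ρ))]
  intro ρ k
  exact buildV_eq n K R l m ρ k

/-- The complements for all servers. -/
def buildNN {α : Type} (n K : ℕ) (lev R : List ℕ) (k : List (List (List (List ℕ))) → α) : α :=
  force (comb (n * K) (K * K)) fun cb =>
    buildAll (fun ν k => if Nat.beq (lev.getD ν 0) 2 then buildN n K R cb ν k else k [])
      (rng n 0) k

theorem buildNN_eq {α : Type} (n K : ℕ) (lev R : List ℕ)
    (k : List (List (List (List ℕ))) → α) :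
    buildNN n K lev R k =
      k ((rng n 0).map fun ν => if Nat.beq (lev.getD ν 0) 2 then NpL n K R ν else []) := by
  unfold buildNN
  rw [force_eq, buildAll_eq _ (fun ν => if Nat.beq (lev.getD ν 0) 2 then NpL n K R ν else [])]
  intro ν k
  by_cases h : Nat.beq (lev.getD ν 0) 2 = true
  · rw [if_pos h, if_pos h]
    exact buildN_eq n K R ν k
  · rw [if_neg h, if_neg h]

def allL {β : Type} (f : β → Bool) : List β → Bool
  | [] => true
  | x :: L => f x && allL f L

theorem allL_spec {β : Type} {f : β → Bool} : ∀ {L : List β}, allL f L = true → ∀ x ∈ L,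
    f x = true := by
  intro L
  induction L with
  | nil => intro _ x hx; exact absurd hx (by simp)
  | cons y L ih =>
    intro h x hx
    unfold allL at h
    rw [Bool.and_eq_true] at h
    rcases List.mem_cons.mp hx with h1 | h1
    · rw [h1]; exact h.1
    · exact ih h.2 x h1

def anyL {β : Type} (f : β → Bool) : List β → Bool
  | [] => false
  | x :: L => f x || anyL f L

theorem anyL_spec {β : Type} {f : β → Bool} : ∀ {L : List β}, anyL f L = true → ∃ x ∈ L,
    f x = true := by
  intro L
  induction L with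
  | nil => intro h; exact absurd h (by simp [anyL])
  | cons y L ih =>
    intro h
    unfold anyL at h
    rw [Bool.or_eq_true] at h
    rcases h with h | h
    · exact ⟨y, by simp, h⟩
    · obtain ⟨x, h1, h2⟩ := ih h
      exact ⟨x, by simp [h1], h2⟩

/-- The check of all requests at a pair. -/
def chkType (n K : ℕ) (lev kc R : List ℕ) (NN : List (List (List (List ℕ))))
    (T : (ℕ × ℕ × ℕ) × List Ent) : Bool :=
  Nat.blt T.1.1 n && Nat.blt T.1.2.1 n && Nat.blt T.1.2.2 K &&
  (allB 6 fun a => allB 6 fun b => badN (kc.getD T.1.2.2 0) a b ||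
    anyL (fun e => Nat.beq e.a a && Nat.beq e.b b) T.2) &&
  force (patt n K (TC n K R T.1.1 T.1.2.1 T.1.2.2)) fun pt =>
    force (vecP n K pt) fun ptr =>
      buildVV n K R T.1.1 T.1.2.1 fun VV =>
        allL (chkEnt n K lev kc R T.1.1 T.1.2.1 T.1.2.2 VV NN pt ptr) T.2

/-- All requests at pairs of the type are served. -/
def AllServed {T : Type} (W : World T) (t : T) : Prop :=
  ∀ a b, ¬ Forbidden (W.col t) a b → W.Serve t a b

theorem cast_val6 (a : ZMod 6) : ((a.val : ℕ) : ZMod 6) = a := ZMod.natCast_zmod_val a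

theorem val_lt6 (a : ZMod 6) : a.val < 6 := ZMod.val_lt a

theorem chkType_spec (D : Data) (hb : D.base = true) {T : (ℕ × ℕ × ℕ) × List Ent}
    (h : chkType D.n D.K D.lev D.kc D.rows
      ((rng D.n 0).map fun ν => if Nat.beq (D.lev.getD ν 0) 2 then NpL D.n D.K D.rows ν else [])
      T = true) : AllServed (D.world hb) T.1 := by
  obtain ⟨⟨l, m, c⟩, es⟩ := T
  unfold chkType at h
  simp only [force_eq, buildVV_eq, Bool.and_eq_true] at h
  obtain ⟨⟨⟨⟨h1, h2⟩, h3⟩, h4⟩, h5⟩ := h
  have hl : l < D.n := by simpa [Nat.blt_eq] using h1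
  have hm : m < D.n := by simpa [Nat.blt_eq] using h2
  have hc : c < D.K := by simpa [Nat.blt_eq] using h3
  intro a b hf
  have hf' : ¬ Forbidden ((D.kc.getD c 0 : ℕ) : ZMod 6) a b := hf
  have h6 := allB_spec (allB_spec h4 a.val (val_lt6 a)) b.val (val_lt6 b)
  rw [Bool.or_eq_true] at h6
  rcases h6 with h6 | h6
  · exfalso
    apply hf'
    have := (badN_iff _ (kc_lt hb hc) _ (val_lt6 a) _ (val_lt6 b)).mpr h6
    rwa [cast_val6, cast_val6] at this
  · obtain ⟨e, he, hab⟩ := anyL_spec h6
    rw [Bool.and_eq_true] at hab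
    have ea := Nat.eq_of_beq_eq_true hab.1
    have eb' := Nat.eq_of_beq_eq_true hab.2
    have hE := allL_spec h5 e he
    have hnu : e.nu < D.n ∧ D.lev.getD e.nu 0 = 2 := by
      have := (chkEnt_split hE).1
      exact ⟨this.1, this.2.1⟩
    have := chkEnt_serve D hb hl hm hc (e := e) (by
      rw [List.getD_eq_getElem _ _ (by rw [rng_map_length]; exact hnu.1), rng_map_get, hnu.2]
      rfl) hE
    rwa [ea, eb', cast_val6, cast_val6] at this

/-- The check of a list of requests. -/
def chkChunk (D : Data) (Ts : List ((ℕ × ℕ × ℕ) × List Ent)) : Bool :=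
  force D.n fun n => force D.K fun K =>
    buildNN n K D.lev D.rows fun NN => allL (chkType n K D.lev D.kc D.rows NN) Ts

theorem chkChunk_spec (D : Data) (hb : D.base = true) {Ts : List ((ℕ × ℕ × ℕ) × List Ent)}
    (h : chkChunk D Ts = true) : ∀ T ∈ Ts, AllServed (D.world hb) T.1 := by
  unfold chkChunk at h
  rw [force_eq, force_eq, buildNN_eq] at h
  intro T hT
  exact chkType_spec D hb (allL_spec h T hT)

end Pool.Agent.RA6.Chk
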