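import Pool.Agent.RA6.ChkF99

/-!
Bit vector checks for finite worlds (MP_cf0286_al): automorphisms and the final theorem.
-/

namespace Pool.Agent.RA6.Chk

/-- Data of an automorphism: permutations of the labels, the kinds, the colours with their
inverses, and the lists of moves (mask, up, down) of the bits. -/
structure AutD where
  f : List ℕ
  g : List ℕ
  k : List ℕ
  j : List ℕ
  c : List ℕ
  d : List ℕ
  mf : List (ℕ × ℕ × ℕ)
  mg : List (ℕ × ℕ × ℕ)

def applyMoves : List (ℕ × ℕ × ℕ) → ℕ → ℕ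
  | [], _ => 0
  | v :: L, u => Nat.lor (Nat.shiftRight (Nat.shiftLeft (Nat.land u v.1) v.2.1) v.2.2)
      (applyMoves L u)

theorem applyMoves_spec {p q u : ℕ} : ∀ {L : List (ℕ × ℕ × ℕ)},
    anyL (fun v => Nat.testBit v.1 p && Nat.beq (p + v.2.1) (q + v.2.2)) L = true →
    u.testBit p = true → (applyMoves L u).testBit q = true := by
  intro L
  induction L with
  | nil => intro h; exact absurd h (by simp [anyL])
  | cons v L ih =>
    intro h hu
    show (Nat.shiftRight (Nat.shiftLeft (Nat.land u v.1) v.2.1) v.2.2 ||| applyMoves L u).testBit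
      q = true
    unfold anyL at h
    rw [Bool.or_eq_true, Bool.and_eq_true] at h
    rw [Nat.testBit_or, Bool.or_eq_true]
    rcases h with h | h
    · left
      have h2 := Nat.eq_of_beq_eq_true h.2
      refine testBit_shr ?_
      have := testBit_shl (i := v.2.1) (testBit_land hu h.1)
      have e : v.2.1 + p = v.2.2 + q := by omega
      rwa [e] at this
    · exact Or.inr (ih h hu)

/-- The moves realise the permutation. -/
def chkMoves (n K : ℕ) (f k : List ℕ) (mv : List (ℕ × ℕ × ℕ)) : Bool :=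
  allB n fun c => allB K fun z => allB K fun y =>
    anyL (fun v => Nat.testBit v.1 ((c * K + z) * (K * K) + y) &&
      Nat.beq ((c * K + z) * (K * K) + y + v.2.1)
        ((f.getD c c * K + k.getD z z) * (K * K) + k.getD y y + v.2.2)) mv

/-- Closure under a permutation. -/
def chkMap2 (n K : ℕ) (f k : List ℕ) (mv : List (ℕ × ℕ × ℕ)) (R : List ℕ) : Bool :=
  allB n fun a => allB n fun b => allB K fun x =>
    force (TC n K R a b x) fun u => Nat.beq u 0 ||
      force (applyMoves mv u) fun u' =>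
        force (TC n K R (f.getD a a) (f.getD b b) (k.getD x x)) fun v =>
          Nat.beq (Nat.lor u' v) v

theorem chkMap2_spec {n K : ℕ} {f k R : List ℕ} {mv : List (ℕ × ℕ × ℕ)}
    (h0 : chkMoves n K f k mv = true) (h : chkMap2 n K f k mv R = true)
    {a b c x y z : ℕ} (ha : a < n) (hb : b < n) (hc : c < n) (hx : x < K) (hy : y < K)
    (hz : z < K) (ht : tb n K R a b c x y z = true) :
    tb n K R (f.getD a a) (f.getD b b) (f.getD c c) (k.getD x x) (k.getD y y) (k.getD z z) =
      true := by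
  unfold chkMap2 at h
  have h1 := allB_spec (allB_spec (allB_spec h a ha) b hb) x hx
  rw [force_eq, force_eq, force_eq, Bool.or_eq_true] at h1
  unfold tb at ht
  rcases h1 with h1 | h1
  · rw [Nat.eq_of_beq_eq_true h1, Nat.zero_testBit] at ht
    exact absurd ht (by decide)
  · have h2 := Nat.eq_of_beq_eq_true h1
    have h3 := applyMoves_spec (allB_spec (allB_spec (allB_spec h0 c hc) z hz) y hy) ht
    unfold tb
    rw [← h2]
    show (applyMoves mv (TC n K R a b x) ||| _).testBit _ = true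
    rw [Nat.testBit_or, h3]
    rfl

def chkEdgeMap2 (n K : ℕ) (f k E : List ℕ) : Bool :=
  allB n fun a => allB n fun b => allB K fun x =>
    (! eb K E a b x) || eb K E (f.getD a a) (f.getD b b) (k.getD x x)

theorem chkEdgeMap2_spec {n K : ℕ} {f k E : List ℕ} (h : chkEdgeMap2 n K f k E = true)
    {a b x : ℕ} (ha : a < n) (hb : b < n) (hx : x < K) (he : eb K E a b x = true) :
    eb K E (f.getD a a) (f.getD b b) (k.getD x x) = true := by
  unfold chkEdgeMap2 at h
  have h1 := allB_spec (allB_spec (allB_spec h a ha) b hb) x hx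
  rw [he] at h1
  simpa using h1

/-- Inverse permutations of `{0, ..., m - 1}`. -/
def chkInv (m : ℕ) (f g : List ℕ) : Bool :=
  chkRange m f && chkRange m g && allB m fun a =>
    Nat.beq (f.getD (g.getD a a) (g.getD a a)) a && Nat.beq (g.getD (f.getD a a) (f.getD a a)) a

theorem chkInv_spec {m : ℕ} {f g : List ℕ} (h : chkInv m f g = true) (a : ℕ) :
    f.getD (g.getD a a) (g.getD a a) = a ∧ g.getD (f.getD a a) (f.getD a a) = a ∧
    (a < m → f.getD a a < m ∧ g.getD a a < m) := by
  unfold chkInv at h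
  rw [Bool.and_eq_true, Bool.and_eq_true] at h
  obtain ⟨⟨h1, h2⟩, h3⟩ := h
  by_cases ha : a < m
  · have h4 := allB_spec h3 a ha
    rw [Bool.and_eq_true] at h4
    exact ⟨Nat.eq_of_beq_eq_true h4.1, Nat.eq_of_beq_eq_true h4.2,
      fun _ => ⟨chkRange_spec h1 ha, chkRange_spec h2 ha⟩⟩
  · have k1 := chkRange_ge h1 (by omega : m ≤ a)
    have k2 := chkRange_ge h2 (by omega : m ≤ a)
    refine ⟨by rw [k2, k1], by rw [k1, k2], fun h => absurd h ha⟩

/-- The check of an automorphism. -/
def chkAut (D : Data) (A : AutD) : Bool :=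
  chkInv D.n A.f A.g && chkInv D.K A.k A.j && chkInv 6 A.c A.d &&
  (allB D.K fun x => Nat.beq (A.k.getD (D.fl.getD x x) (D.fl.getD x x))
      (D.fl.getD (A.k.getD x x) (A.k.getD x x)) &&
    Nat.beq (D.kc.getD (A.k.getD x x) 0) (A.c.getD (D.kc.getD x 0) (D.kc.getD x 0))) &&
  (allB D.n fun a => Nat.beq (D.lev.getD (A.f.getD a a) 0) (D.lev.getD a 0)) &&
  (allB 6 fun a => allB 6 fun b => allB 6 fun e =>
    (! badN a b e || badN (A.d.getD a a) (A.d.getD b b) (A.d.getD e e)) &&
    (! badN a b e || badN (A.c.getD a a) (A.c.getD b b) (A.c.getD e e))) &&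
  chkMoves D.n D.K A.f A.k A.mf && chkMoves D.n D.K A.g A.j A.mg &&
  chkMap2 D.n D.K A.f A.k A.mf D.rows && chkMap2 D.n D.K A.g A.j A.mg D.rows &&
  chkEdgeMap2 D.n D.K A.f A.k D.edges && chkEdgeMap2 D.n D.K A.g A.j D.edges

theorem chkAut_split {D : Data} {A : AutD} (h : chkAut D A = true) :
    (chkInv D.n A.f A.g = true ∧ chkInv D.K A.k A.j = true ∧ chkInv 6 A.c A.d = true) ∧
    (allB D.K fun x => Nat.beq (A.k.getD (D.fl.getD x x) (D.fl.getD x x))
      (D.fl.getD (A.k.getD x x) (A.k.getD x x)) &&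
      Nat.beq (D.kc.getD (A.k.getD x x) 0) (A.c.getD (D.kc.getD x 0) (D.kc.getD x 0))) = true ∧
    (allB D.n fun a => Nat.beq (D.lev.getD (A.f.getD a a) 0) (D.lev.getD a 0)) = true ∧
    (allB 6 fun a => allB 6 fun b => allB 6 fun e =>
      (! badN a b e || badN (A.d.getD a a) (A.d.getD b b) (A.d.getD e e)) &&
      (! badN a b e || badN (A.c.getD a a) (A.c.getD b b) (A.c.getD e e))) = true ∧
    (chkMoves D.n D.K A.f A.k A.mf = true ∧ chkMoves D.n D.K A.g A.j A.mg = true) ∧
    (chkMap2 D.n D.K A.f A.k A.mf D.rows = true ∧ chkMap2 D.n D.K A.g A.j A.mg D.rows = true) ∧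
    (chkEdgeMap2 D.n D.K A.f A.k D.edges = true ∧
      chkEdgeMap2 D.n D.K A.g A.j D.edges = true) := by
  unfold chkAut at h
  simp only [Bool.and_eq_true] at h
  obtain ⟨⟨⟨⟨⟨⟨⟨⟨⟨⟨⟨h1, h2⟩, h3⟩, h4⟩, h5⟩, h6⟩, h7⟩, h8⟩, h9⟩, h10⟩, h11⟩, h12⟩ := h
  refine ⟨⟨h1, h2, h3⟩, ?_, h5, ?_, ⟨h7, h8⟩, ⟨h9, h10⟩, ⟨h11, h12⟩⟩
  · simpa using h4
  · simpa using h6

/-- The map of types. -/
def mapT (f k : List ℕ) (t : ℕ × ℕ × ℕ) : ℕ × ℕ × ℕ :=
  (f.getD t.1 t.1, f.getD t.2.1 t.2.1, k.getD t.2.2 t.2.2)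

theorem mapT_tri {D : Data} {f k : List ℕ} {mv : List (ℕ × ℕ × ℕ)}
    (h0 : chkMoves D.n D.K f k mv = true) (h : chkMap2 D.n D.K f k mv D.rows = true)
    (hf : ∀ a, a < D.n → f.getD a a < D.n) (hk : ∀ a, a < D.K → k.getD a a < D.K)
    (p q r : ℕ × ℕ × ℕ) (ht : D.Tri p q r) : D.Tri (mapT f k p) (mapT f k q) (mapT f k r) := by
  obtain ⟨a, b, x⟩ := p
  obtain ⟨a', c, y⟩ := q
  obtain ⟨b', c', z⟩ := r
  obtain ⟨⟨e1, e2, e3⟩, ⟨h1, h2, h3⟩, ⟨k1, k2, k3⟩, ht⟩ := ht
  simp only at e1 e2 e3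
  subst e1; subst e2; subst e3
  exact ⟨⟨rfl, rfl, rfl⟩, ⟨hf _ h1, hf _ h2, hf _ h3⟩, ⟨hk _ k1, hk _ k2, hk _ k3⟩,
    chkMap2_spec h0 h h1 h2 h3 k1 k2 k3 ht⟩

theorem mapT_edge {D : Data} {f k : List ℕ} (h : chkEdgeMap2 D.n D.K f k D.edges = true)
    (hf : ∀ a, a < D.n → f.getD a a < D.n) (hk : ∀ a, a < D.K → k.getD a a < D.K)
    (t : ℕ × ℕ × ℕ) (ht : D.Edge t) : D.Edge (mapT f k t) := by
  obtain ⟨⟨h1, h2, h3⟩, h4⟩ := ht
  exact ⟨⟨hf _ h1, hf _ h2, hk _ h3⟩, chkEdgeMap2_spec h h1 h2 h3 h4⟩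

/-- The map of colours. -/
def mapC (c : List ℕ) (a : ZMod 6) : ZMod 6 := ((c.getD a.val a.val : ℕ) : ZMod 6)

theorem mapC_cast {c : List ℕ} {x : ℕ} (hx : x < 6) :
    mapC c ((x : ℕ) : ZMod 6) = ((c.getD x x : ℕ) : ZMod 6) := by
  unfold mapC
  rw [ZMod.val_natCast_of_lt hx]

/-- The automorphism of the world. -/
def AutD.aut (A : AutD) (D : Data) (hb : D.base = true) (h : chkAut D A = true) :
    (D.world hb).Aut := by
  have h1 := (chkAut_split h).1.1
  have h2 := (chkAut_split h).1.2.1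
  have h3 := (chkAut_split h).1.2.2
  have h4 := (chkAut_split h).2.1
  have h5 := (chkAut_split h).2.2.1
  have h6 := (chkAut_split h).2.2.2.1
  have h7 := (chkAut_split h).2.2.2.2.1.1
  have h8 := (chkAut_split h).2.2.2.2.1.2
  have h9 := (chkAut_split h).2.2.2.2.2.1.1
  have h10 := (chkAut_split h).2.2.2.2.2.1.2
  have h11 := (chkAut_split h).2.2.2.2.2.2.1
  have h12 := (chkAut_split h).2.2.2.2.2.2.2
  have nf : ∀ a, a < D.n → A.f.getD a a < D.n := fun a ha => ((chkInv_spec h1 a).2.2 ha).1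
  have ng : ∀ a, a < D.n → A.g.getD a a < D.n := fun a ha => ((chkInv_spec h1 a).2.2 ha).2
  have kf : ∀ a, a < D.K → A.k.getD a a < D.K := fun a ha => ((chkInv_spec h2 a).2.2 ha).1
  have kg : ∀ a, a < D.K → A.j.getD a a < D.K := fun a ha => ((chkInv_spec h2 a).2.2 ha).2
  exact
  { f := mapT A.f A.k
    g := mapT A.g A.j
    c := mapC A.c
    d := mapC A.d
    fg := by
      rintro ⟨a, b, x⟩
      show (_, _, _) = (a, b, x)
      simp only [mapT]
      rw [(chkInv_spec h1 a).1, (chkInv_spec h1 b).1, (chkInv_spec h2 x).1]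
    gf := by
      rintro ⟨a, b, x⟩
      show (_, _, _) = (a, b, x)
      simp only [mapT]
      rw [(chkInv_spec h1 a).2.1, (chkInv_spec h1 b).2.1, (chkInv_spec h2 x).2.1]
    cd := by
      intro a
      have ha := val_lt6 a
      unfold mapC
      rw [ZMod.val_natCast_of_lt ((chkInv_spec h3 a.val).2.2 ha).2, (chkInv_spec h3 a.val).1,
        cast_val6]
    dc := by
      intro a
      have ha := val_lt6 a
      unfold mapC
      rw [ZMod.val_natCast_of_lt ((chkInv_spec h3 a.val).2.2 ha).1, (chkInv_spec h3 a.val).2.1,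
        cast_val6]
    f_flip := by
      rintro ⟨a, b, x⟩
      show (A.f.getD b b, A.f.getD a a, A.k.getD (D.fl.getD x x) (D.fl.getD x x)) =
        (A.f.getD b b, A.f.getD a a, D.fl.getD (A.k.getD x x) (A.k.getD x x))
      by_cases hx : x < D.K
      · have := allB_spec h4 x hx
        rw [Bool.and_eq_true] at this
        rw [Nat.eq_of_beq_eq_true this.1]
      · have e1 : D.fl.getD x x = x := by
          have h1 := (base_split hb).1
          unfold chkFl at h1
          rw [Bool.and_eq_true] at h1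
          exact chkRange_ge h1.1 (by omega : D.K ≤ x)
        have e2 : A.k.getD x x = x := by
          have h0 := h2
          unfold chkInv at h0
          rw [Bool.and_eq_true, Bool.and_eq_true] at h0
          exact chkRange_ge h0.1.1 (by omega : D.K ≤ x)
        rw [e1, e2, e1]
    f_col := by
      rintro ⟨a, b, x⟩ ⟨⟨_, _, hx⟩, _⟩
      have hx' : x < D.K := hx
      show ((D.kc.getD (A.k.getD x x) 0 : ℕ) : ZMod 6) = mapC A.c ((D.kc.getD x 0 : ℕ) : ZMod 6)
      rw [mapC_cast (kc_lt hb hx')]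
      have := allB_spec h4 x hx'
      rw [Bool.and_eq_true] at this
      rw [Nat.eq_of_beq_eq_true this.2]
    f_la := by
      rintro ⟨a, b, x⟩
      show D.lev.getD (A.f.getD a a) 0 = D.lev.getD a 0
      by_cases ha : a < D.n
      · exact Nat.eq_of_beq_eq_true (allB_spec h5 a ha)
      · have e2 : A.f.getD a a = a := by
          have h0 := h1
          unfold chkInv at h0
          rw [Bool.and_eq_true, Bool.and_eq_true] at h0
          exact chkRange_ge h0.1.1 (by omega : D.n ≤ a)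
        rw [e2]
    f_edge := mapT_edge h11 nf kf
    g_edge := mapT_edge h12 ng kg
    f_tri := mapT_tri h7 h9 nf kf
    g_tri := mapT_tri h8 h10 ng kg
    d_forb := by
      intro a b e hF
      have ha := val_lt6 a
      have hb' := val_lt6 b
      have he := val_lt6 e
      rw [← cast_val6 a, ← cast_val6 b, ← cast_val6 e] at hF
      rw [badN_iff _ ha _ hb' _ he] at hF
      have := allB_spec (allB_spec (allB_spec h6 a.val ha) b.val hb') e.val he
      rw [hF] at this
      simp only [Bool.not_true, Bool.false_or, Bool.and_eq_true] at this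
      unfold mapC
      rw [badN_iff _ ((chkInv_spec h3 a.val).2.2 ha).2 _ ((chkInv_spec h3 b.val).2.2 hb').2 _
        ((chkInv_spec h3 e.val).2.2 he).2]
      exact this.1 }

theorem allServed_aut {D : Data} {hb : D.base = true} {A : AutD} (h : chkAut D A = true)
    {t : ℕ × ℕ × ℕ} (ht : D.Edge t) (hs : AllServed (D.world hb) t) :
    AllServed (D.world hb) (mapT A.f A.k t) := by
  intro a b hf
  have hs' : (D.world hb).Serve t (mapC A.d a) (mapC A.d b) := by
    apply hs
    intro hF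
    apply hf
    obtain ⟨⟨h1, h2, h3⟩, h4, h5, h6, _⟩ := chkAut_split h
    have hx : t.2.2 < D.K := ht.1.2.2
    have ec : (D.world hb).col (mapT A.f A.k t) = mapC A.c ((D.world hb).col t) :=
      (A.aut D hb h).f_col t ht
    have ea := (A.aut D hb h).cd a
    have eb' := (A.aut D hb h).cd b
    have ea' : mapC A.c (mapC A.d a) = a := ea
    have eb'' : mapC A.c (mapC A.d b) = b := eb'
    rw [ec]
    have key : ∀ p q r : ZMod 6, Forbidden p q r →
        Forbidden (mapC A.c p) (mapC A.c q) (mapC A.c r) := by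
      intro p q r hF
      have hp := val_lt6 p
      have hq := val_lt6 q
      have hr := val_lt6 r
      rw [← cast_val6 p, ← cast_val6 q, ← cast_val6 r] at hF
      rw [badN_iff _ hp _ hq _ hr] at hF
      have := allB_spec (allB_spec (allB_spec h6 p.val hp) q.val hq) r.val hr
      rw [hF] at this
      simp only [Bool.not_true, Bool.false_or, Bool.and_eq_true] at this
      unfold mapC
      rw [badN_iff _ ((chkInv_spec h3 p.val).2.2 hp).1 _ ((chkInv_spec h3 q.val).2.2 hq).1 _
        ((chkInv_spec h3 r.val).2.2 hr).1]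
      exact this.2
    have := key _ _ _ hF
    rwa [ea', eb''] at this
  have := (A.aut D hb h).serve ht hs'
  have e1 : (A.aut D hb h).c (mapC A.d a) = a := (A.aut D hb h).cd a
  have e2 : (A.aut D hb h).c (mapC A.d b) = b := (A.aut D hb h).cd b
  rw [e1, e2] at this
  exact this

theorem allServed_swap {D : Data} {hb : D.base = true} {t : ℕ × ℕ × ℕ}
    (hs : AllServed (D.world hb) t) : AllServed (D.world hb) ((D.world hb).flip t) := by
  intro a b hf
  rw [(D.world hb).col_flip] at hf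
  exact (hs b a (fun h => hf (forb_swap23 _ _ _ h))).swap

end Pool.Agent.RA6.Chk
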