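import Pool.Agent.RA6.ChkG99

/-!
Bit vector checks for finite worlds (MP_cf0286_al): the final theorem.
-/

namespace Pool.Agent.RA6.Chk

/-- Walk back along a word: `0` is the reversal, `i + 1` the inverse of the `i`-th
automorphism. -/
def back (fl : List ℕ) (As : List AutD) : List ℕ → ℕ × ℕ × ℕ → ℕ × ℕ × ℕ
  | [], t => t
  | 0 :: w, t => back fl As w (t.2.1, t.1, fl.getD t.2.2 t.2.2)
  | (i + 1) :: w, t => back fl As w
      (match As[i]? with
        | some A => mapT A.g A.j t
        | none => t)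

theorem back_spec {D : Data} {hb : D.base = true} {As : List AutD}
    (hA : ∀ A ∈ As, chkAut D A = true) : ∀ (w : List ℕ) (t : ℕ × ℕ × ℕ), D.Edge t →
    AllServed (D.world hb) (back D.fl As w t) → AllServed (D.world hb) t := by
  intro w
  induction w with
  | nil => intro t _ h; exact h
  | cons i w ih =>
    intro t ht h
    cases i with
    | zero =>
      have he : D.Edge ((D.world hb).flip t) := (D.world hb).edge_flip t ht
      have h1 := ih _ he h
      have h2 := allServed_swap h1
      rwa [(D.world hb).flip_flip] at h2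
    | succ i =>
      unfold back at h
      cases hi : As[i]? with
      | none =>
        rw [hi] at h
        exact ih _ ht h
      | some A =>
        rw [hi] at h
        have hAi := hA A (List.mem_of_getElem? hi)
        have he : D.Edge (mapT A.g A.j t) := (A.aut D hb hAi).g_edge t ht
        have h1 := ih _ he h
        have h2 := allServed_aut hAi he h1
        have h3 : mapT A.f A.k (mapT A.g A.j t) = t := (A.aut D hb hAi).fg t
        rwa [h3] at h2

/-- Membership. -/
def memT (t : ℕ × ℕ × ℕ) (L : List (ℕ × ℕ × ℕ)) : Bool :=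
  force t.1 fun a => force t.2.1 fun b => force t.2.2 fun c =>
    anyL (fun r => Nat.beq r.1 a && Nat.beq r.2.1 b && Nat.beq r.2.2 c) L

theorem memT_spec {t : ℕ × ℕ × ℕ} {L : List (ℕ × ℕ × ℕ)} (h : memT t L = true) : t ∈ L := by
  unfold memT at h
  rw [force_eq, force_eq, force_eq] at h
  obtain ⟨r, h1, h2⟩ := anyL_spec h
  simp only [Bool.and_eq_true] at h2
  have e1 := Nat.eq_of_beq_eq_true h2.1.1
  have e2 := Nat.eq_of_beq_eq_true h2.1.2
  have e3 := Nat.eq_of_beq_eq_true h2.2
  have : r = t := by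
    obtain ⟨a, b, c⟩ := r
    obtain ⟨a', b', c'⟩ := t
    simp only at e1 e2 e3
    rw [e1, e2, e3]
  rwa [this] at h1

/-- Every type that has to be served now is the image of a representative. -/
def chkCov (D : Data) (As : List AutD) (reps : List (ℕ × ℕ × ℕ)) (ws : List (List ℕ)) : Bool :=
  allB D.n fun l => allB D.n fun m =>
    (! (Nat.ble (D.lev.getD l 0) 1 && Nat.ble (D.lev.getD m 0) 1 &&
      Nat.ble 1 (D.lev.getD l 0 + D.lev.getD m 0))) ||
    allB D.K fun c => (! eb D.K D.edges l m c) ||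
      memT (back D.fl As (ws.getD ((l * D.n + m) * D.K + c) []) (l, m, c)) reps

/-- The start: an edge between two vertices of level 1. -/
def chkStart (D : Data) (t : ℕ × ℕ × ℕ) : Bool :=
  Nat.blt t.1 D.n && Nat.blt t.2.1 D.n && Nat.blt t.2.2 D.K && eb D.K D.edges t.1 t.2.1 t.2.2 &&
  Nat.beq (D.lev.getD t.1 0) 1 && Nat.beq (D.lev.getD t.2.1 0) 1

/-- **Main theorem.** Checked data of a finite world give a representation. -/
theorem rep_of_data (D : Data) (hb : D.base = true) (As : List AutD)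
    (hA : allL (chkAut D) As = true) (reps : List (ℕ × ℕ × ℕ))
    (hr : ∀ t ∈ reps, AllServed (D.world hb) t) (ws : List (List ℕ))
    (hc : chkCov D As reps ws = true) (t0 : ℕ × ℕ × ℕ) (h0 : chkStart D t0 = true) :
    ∃ (U : Type) (r : Set Atom → Set (U × U)), Nonempty U ∧ IsRepresentation U r := by
  unfold chkStart at h0
  simp only [Bool.and_eq_true] at h0
  obtain ⟨⟨⟨⟨⟨h1, h2⟩, h3⟩, h4⟩, h5⟩, h6⟩ := h0
  have e0 : D.Edge t0 := ⟨⟨by simpa [Nat.blt_eq] using h1, by simpa [Nat.blt_eq] using h2,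
    by simpa [Nat.blt_eq] using h3⟩, h4⟩
  refine (D.world hb).rep_of_world t0 e0 (Nat.eq_of_beq_eq_true h5) (Nat.eq_of_beq_eq_true h6) ?_
  rintro ⟨l, m, c⟩ a b he ⟨n1, n2, n3⟩ hf
  have he' : D.Edge (l, m, c) := he
  obtain ⟨⟨k1, k2, k3⟩, k4⟩ := he'
  have n1' : D.lev.getD l 0 ≤ 1 := n1
  have n2' : D.lev.getD m 0 ≤ 1 := n2
  have n3' : 1 ≤ D.lev.getD l 0 + D.lev.getD m 0 := n3
  have h7 := allB_spec (allB_spec hc l k1) m k2
  have h8 : (Nat.ble (D.lev.getD l 0) 1 && Nat.ble (D.lev.getD m 0) 1 &&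
      Nat.ble 1 (D.lev.getD l 0 + D.lev.getD m 0)) = true := by
    simp only [Bool.and_eq_true, Nat.ble_eq]
    exact ⟨⟨n1', n2'⟩, n3'⟩
  rw [h8] at h7
  simp only [Bool.not_true, Bool.false_or] at h7
  have h9 := allB_spec h7 c k3
  simp only at k4
  rw [k4] at h9
  simp only [Bool.not_true, Bool.false_or] at h9
  exact back_spec (fun A hA' => allL_spec hA A hA') _ _ he (hr _ (memT_spec h9)) a b hf

end Pool.Agent.RA6.Chk
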