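import Pool.Agent.RA6.GList99

/-!
Frame for age ordered tables with free pairs and 2-degenerate views: a newborn may have two
exceptional hosts of one letter which are both in the free area of a later viewer.
-/

namespace Pool.Agent.RA6

section

variable {G : ℕ → ℕ → Prop} (hG : ∀ v u, G v u → u < v)
  (h2 : ∀ v a b c, G v a → G v b → G v c → a = b ∨ b = c ∨ a = c) (κ : ℕ → ℕ → ZMod 3)

include hG h2

/-- Greedy in age order: more values than older neighbours. -/
theorem listG (A : ℕ → ZMod 3 → Prop) : ∀ (n : ℕ),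
    (∀ v, v < n → N1 (A v)) → (∀ v, v < n → (∃ u, G v u) → N2 (A v)) →
    (∀ v, v < n → (∃ u u', u ≠ u' ∧ G v u ∧ G v u') → N3 (A v)) →
    ∃ f : ℕ → ZMod 3, (∀ v, v < n → A v (f v)) ∧
      ∀ v u, v < n → G v u → f v + f u ≠ κ v u := by
  intro n
  induction n with
  | zero =>
    intro _ _ _
    exact ⟨fun _ => 0, fun v hv => absurd hv (Nat.not_lt_zero v),
      fun v u hv => absurd hv (Nat.not_lt_zero v)⟩
  | succ n ih =>
    intro a1 a2 a3
    obtain ⟨f, hf1, hf2⟩ := ih (fun v hv => a1 v (by omega)) (fun v hv => a2 v (by omega))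
      (fun v hv => a3 v (by omega))
    obtain ⟨t, ht, ht2⟩ : ∃ t, A n t ∧ ∀ u, G n u → t + f u ≠ κ n u := by
      by_cases hg : ∃ u, G n u
      · obtain ⟨u, hgu⟩ := hg
        by_cases hg2 : ∃ u', u' ≠ u ∧ G n u'
        · obtain ⟨u', hne, hgu'⟩ := hg2
          obtain ⟨t, ht, h3, h4⟩ := a3 n (by omega) ⟨u', u, hne, hgu', hgu⟩ (κ n u - f u)
            (κ n u' - f u')
          refine ⟨t, ht, ?_⟩
          intro w hgw hs
          rcases h2 n u u' w hgu hgu' hgw with h5 | h5 | h5
          · exact hne h5.symm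
          · subst h5
            exact h4 (by rw [← hs]; ring)
          · subst h5
            exact h3 (by rw [← hs]; ring)
        · obtain ⟨t, ht, h3⟩ := a2 n (by omega) ⟨u, hgu⟩ (κ n u - f u)
          refine ⟨t, ht, ?_⟩
          intro w hgw hs
          by_cases hwu : w = u
          · subst hwu
            exact h3 (by rw [← hs]; ring)
          · exact hg2 ⟨w, hwu, hgw⟩
      · obtain ⟨t, ht⟩ := a1 n (by omega)
        exact ⟨t, ht, fun u hgu => absurd ⟨u, hgu⟩ hg⟩
    refine ⟨Function.update f n t, ?_, ?_⟩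
    · intro v hv
      by_cases hvn : v = n
      · subst hvn
        rw [Function.update_self]
        exact ht
      · rw [Function.update_of_ne hvn]
        exact hf1 v (by omega)
    · intro v u' hv hgv
      have hlt := hG _ _ hgv
      by_cases hvn : v = n
      · subst hvn
        rw [Function.update_self, Function.update_of_ne (by omega)]
        exact ht2 u' hgv
      · rw [Function.update_of_ne hvn, Function.update_of_ne (by omega)]
        exact hf2 v u' (by omega) hgv

end

/-- A table with the permission `dbl`. -/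
structure FO2Tab (T : Type) extends FOTab T where
  dbl : Bool → T → T → Prop

namespace FO2Tab

variable {T : Type} (t : FO2Tab T)

/-- The colour `a` is a default colour. -/
def Dft (W X : T) (a : LV) : Prop := t.toFOTab.Dft W X a

/-- Possible colours of a pair (younger, older). -/
def Poss (W X : T) (a : LV) : Prop := t.toFOTab.Poss W X a

/-- In the free area. -/
def InF (L : Bool) (W U : T) : Prop := t.lt W U = L ∧ t.fr W U = true

/-- No exceptional edge to an older vertex of the free area. -/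
def Root (L : Bool) (W X : T) : Prop := ∀ U a, t.InF L W U → ¬ t.ex X U L a = true

/-- The pair may have letter `L`, `U` not being a child of `X`. -/
def Hit1 (L : Bool) (X U : T) : Prop :=
  t.lt X U = L ∨ t.lt U X = L ∨ ∃ a, t.ex X U L a = true

/-- The pair may have letter `L`. -/
def Hit (L : Bool) (X U : T) : Prop := t.Hit1 L X U ∨ ∃ a, t.ex U X L a = true

def E1 (L : Bool) (W X : T) : Prop := ∀ U, t.InF L W U → t.Hit1 L X U → ¬ t.dbl L W U

def E2 (L : Bool) (W X Y : T) : Prop := ∀ U, t.InF L W U → t.Hit L X U → t.Hit L Y U →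
  t.Root L W U

/-- The condition of a service for one letter. -/
def SL (L : Bool) (W X Y : T) (p q : LV) : Prop :=
  (((t.Dft W X p ∧ t.InF L W X) → t.Root L W X) ∧ ((t.Dft W Y q ∧ t.InF L W Y) → t.Root L W Y) ∧
    ((¬ t.Dft W X p ∧ p.1 = L) → t.E1 L W X) ∧ ((¬ t.Dft W Y q ∧ q.1 = L) → t.E1 L W Y) ∧
    ((¬ t.Dft W X p ∧ p.1 = L) → (¬ t.Dft W Y q ∧ q.1 = L) → t.E2 L W X Y)) ∨
  ((∀ U, t.InF L W U → ¬ t.dbl L W U) ∧
    ¬ ((¬ t.Dft W X p ∧ p.1 = L) ∧ (¬ t.Dft W Y q ∧ q.1 = L)))

/-- The sibling condition. -/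
def SB (L : Bool) (W X Y : T) : Prop :=
  ∀ V, t.InF L V W → t.lt V X = L → t.lt V Y = L → t.dbl L V W

theorem SB.symm {t : FO2Tab T} {L : Bool} {W X Y : T} (h : t.SB L W X Y) : t.SB L W Y X :=
  fun V h1 h2 h3 => h V h1 h3 h2

/-- The conditions on a table. -/
structure Good : Prop where
  h1 : ∀ W Z U, t.lt W Z = t.lt W U → t.lt Z U = t.lt W U →
    t.fr W Z = false ∧ t.fr W U = false ∧ t.fr Z U = false ∧ t.nu W Z + t.nu W U + t.nu Z U ≠ 1
  h2 : ∀ W Z U a, t.lt W Z = t.lt W U → t.ex Z U (t.lt W U) a = true →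
    (t.fr W Z = true ∧ t.fr W U = true) ∨
    (t.fr W Z = false ∧ t.fr W U = false ∧ t.nu W Z + t.nu W U + a ≠ 1)
  h3 : ∀ W Z U L a b, t.ex W Z L a = true → t.lt W U = L → t.fr W U = false →
    (t.Poss Z U (L, b) ∨ t.Poss U Z (L, b)) → a + t.nu W U + b ≠ 1
  h4 : ∀ X Y k p q, (t.Poss X Y k ∨ t.Poss Y X k) → ¬ BadLV k p q →
    ∃ W, t.Poss W X p ∧ t.Poss W Y q ∧ (∀ L, t.SL L W X Y p q) ∧
      (p.1 = q.1 → ¬ t.Dft W X p → ¬ t.Dft W Y q → t.SB p.1 W X Y)

/-- The invariant. -/
structure St (n : ℕ) (P : ℕ → T) (c : ℕ → ℕ → LV) (E : ℕ → ℕ → Prop) : Prop where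
  symm : ∀ i j, c i j = c j i
  elt : ∀ w h, E w h → h < w ∧ w < n
  dft : ∀ w x, x < w → w < n → ¬ E w x → t.Dft (P w) (P x) (c w x)
  exc : ∀ w x, E w x → t.ex (P w) (P x) (c w x).1 (c w x).2 = true
  two : ∀ v a b c, E v a → E v b → E v c → a = b ∨ b = c ∨ a = c
  sib : ∀ w x y, E w x → E w y → x ≠ y → (c w x).1 = (c w y).1 →
    t.SB (c w x).1 (P w) (P x) (P y)
  tri : ∀ i j k, i < n → j < n → k < n → i ≠ j → j ≠ k → i ≠ k →
    ¬ BadLV (c i j) (c j k) (c i k)

variable {t}

theorem St.poss {n : ℕ} {P : ℕ → T} {c : ℕ → ℕ → LV} {E : ℕ → ℕ → Prop} (h : t.St n P c E)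
    {w x : ℕ} (hx : x < w) (hw : w < n) : t.Poss (P w) (P x) (c w x) := by
  by_cases he : E w x
  · exact Or.inr (h.exc _ _ he)
  · exact Or.inl (h.dft _ _ hx hw he)

theorem St.poss2 {n : ℕ} {P : ℕ → T} {c : ℕ → ℕ → LV} {E : ℕ → ℕ → Prop} (h : t.St n P c E)
    {w x : ℕ} (hx : x < n) (hw : w < n) (hne : w ≠ x) :
    t.Poss (P w) (P x) (c w x) ∨ t.Poss (P x) (P w) (c w x) := by
  rcases Nat.lt_or_gt_of_ne hne with h1 | h1
  · right
    rw [h.symm w x]
    exact h.poss h1 hx
  · left
    exact h.poss h1 hw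

/-- A pair of letter `L` hits; if the second vertex is not a child of the first, `Hit1`. -/
theorem St.hit {n : ℕ} {P : ℕ → T} {c : ℕ → ℕ → LV} {E : ℕ → ℕ → Prop} (h : t.St n P c E)
    {x v : ℕ} (hx : x < n) (hv : v < n) (hne : x ≠ v) {L : Bool} (hL : (c x v).1 = L) :
    t.Hit L (P x) (P v) ∧ (¬ E v x → t.Hit1 L (P x) (P v)) := by
  rcases Nat.lt_or_gt_of_ne hne with h1 | h1
  · -- x older
    by_cases he : E v x
    · have h2 := h.exc v x he
      rw [h.symm v x, hL] at h2
      exact ⟨Or.inr ⟨_, h2⟩, fun hh => absurd he hh⟩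
    · have h2 := (h.dft v x h1 hv he).1
      rw [h.symm v x, hL] at h2
      exact ⟨Or.inl (Or.inr (Or.inl h2)), fun _ => Or.inr (Or.inl h2)⟩
  · by_cases he : E x v
    · have h2 := h.exc x v he
      rw [hL] at h2
      exact ⟨Or.inl (Or.inr (Or.inr ⟨_, h2⟩)), fun _ => Or.inr (Or.inr ⟨_, h2⟩)⟩
    · have h2 := (h.dft x v h1 hx he).1
      rw [hL] at h2
      exact ⟨Or.inl (Or.inl h2), fun _ => Or.inl h2⟩

/-- The values at the free vertices of one letter. -/
theorem exists_phi {n : ℕ} {P : ℕ → T} {c : ℕ → ℕ → LV} {E : ℕ → ℕ → Prop}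
    (h : t.St n P c E) {x y : ℕ} (hx : x < n) (hy : y < n) (hxy : x ≠ y) {p q : LV}
    (hb : ¬ BadLV (c x y) p q) (W : T)
    (L : Bool) (hS : t.SL L W (P x) (P y) p q) (F : ℕ → Prop)
    (hF : ∀ v, F v → v < n ∧ t.lt W (P v) = L ∧ t.fr W (P v) = true ∧
      ¬ (v = x ∧ ¬ t.Dft W (P x) p) ∧ ¬ (v = y ∧ ¬ t.Dft W (P y) q)) :
    ∃ f : ℕ → ZMod 3, (F x → f x = p.2) ∧ (F y → f y = q.2) ∧
      (¬ t.Dft W (P x) p → p.1 = L → ∀ v, F v → (c x v).1 = L → p.2 + f v + (c x v).2 ≠ 1) ∧
      (¬ t.Dft W (P y) q → q.1 = L → ∀ v, F v → (c y v).1 = L → q.2 + f v + (c y v).2 ≠ 1) ∧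
      (∀ v u, F v → F u → E v u → (c v u).1 = L → f v + f u + (c v u).2 ≠ 1) := by
  classical
  have hFx : F x → t.Dft W (P x) p := by
    intro hf
    by_contra hd
    exact (hF x hf).2.2.2.1 ⟨rfl, hd⟩
  have hFy : F y → t.Dft W (P y) q := by
    intro hf
    by_contra hd
    exact (hF y hf).2.2.2.2 ⟨rfl, hd⟩
  have hIn : ∀ v, F v → t.InF L W (P v) := fun v hv => ⟨(hF v hv).2.1, (hF v hv).2.2.1⟩
  let G : ℕ → ℕ → Prop := fun v u => F v ∧ F u ∧ E v u ∧ (c v u).1 = L
  have hG : ∀ v u, G v u → u < v := fun v u hvu => (h.elt v u hvu.2.2.1).1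
  have key : ∀ f : ℕ → ZMod 3,
      (∀ v u, v < n → G v u → f v + f u ≠ 1 - (c v u).2) →
      (∀ v u, F v → F u → E v u → (c v u).1 = L → f v + f u + (c v u).2 ≠ 1) := by
    intro f hf v u h1 h2 h3 h4 hs
    exact hf v u (hF v h1).1 ⟨h1, h2, h3, h4⟩ (by rw [← hs]; ring)
  -- two parents
  have hdb : ∀ v u u', u ≠ u' → G v u → G v u' → t.dbl L W (P v) := by
    intro v u u' hne h1 h2
    have h3 := h.sib v u u' h1.2.2.1 h2.2.2.1 hne (h1.2.2.2.trans h2.2.2.2.symm)
    rw [h1.2.2.2] at h3
    exact h3 W (hIn v h1.1) (hF u h1.2.1).2.1 (hF u' h2.2.1).2.1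
  rcases hS with ⟨r1, r2, r3, r4, r5⟩ | ⟨r1, r2⟩
  · -- greedy in age order
    let XE : Prop := ¬ t.Dft W (P x) p ∧ p.1 = L
    let YE : Prop := ¬ t.Dft W (P y) q ∧ q.1 = L
    let KX : ℕ → ZMod 3 → Prop := fun v a => XE → (c x v).1 = L → p.2 + a + (c x v).2 ≠ 1
    let KY : ℕ → ZMod 3 → Prop := fun v a => YE → (c y v).1 = L → q.2 + a + (c y v).2 ≠ 1
    let A : ℕ → ZMod 3 → Prop := fun v a => if F v then
      (KX v a ∧ KY v a ∧ (v = x → a = p.2) ∧ (v = y → a = q.2)) else True
    have hAF : ∀ v, F v → ∀ a, A v a ↔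
        (KX v a ∧ KY v a ∧ (v = x → a = p.2) ∧ (v = y → a = q.2)) := by
      intro v hv a
      show (if F v then _ else _) ↔ _
      rw [if_pos hv]
    have hx1 : F x → A x p.2 := by
      intro hv
      rw [hAF x hv]
      refine ⟨fun hh => absurd (hFx hv) hh.1, ?_, fun _ => rfl, fun hh => absurd hh hxy⟩
      intro hye hcl hs
      have hp : L = p.1 := (hIn x hv).1.symm.trans (hFx hv).1
      rw [h.symm y x] at hcl hs
      refine hb ⟨hcl.trans hp, hp.symm.trans hye.2.symm, ?_⟩
      rw [← hs]; ring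
    have hy1 : F y → A y q.2 := by
      intro hv
      rw [hAF y hv]
      refine ⟨?_, fun hh => absurd (hFy hv) hh.1, fun hh => absurd hh.symm hxy, fun _ => rfl⟩
      intro hxe hcl hs
      have hq : L = q.1 := (hIn y hv).1.symm.trans (hFy hv).1
      refine hb ⟨hcl.trans hxe.2.symm, hxe.2.trans hq, ?_⟩
      rw [← hs]; ring
    have hrx : F x → ∀ u, ¬ G x u := by
      intro hv u hg
      have := r1 ⟨hFx hv, hIn x hv⟩ (P u) (c x u).2 (hIn u hg.2.1)
      have h5 := h.exc x u hg.2.2.1
      rw [hg.2.2.2] at h5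
      exact this h5
    have hry : F y → ∀ u, ¬ G y u := by
      intro hv u hg
      have := r2 ⟨hFy hv, hIn y hv⟩ (P u) (c y u).2 (hIn u hg.2.1)
      have h5 := h.exc y u hg.2.2.1
      rw [hg.2.2.2] at h5
      exact this h5
    have two3 : ∀ a b : ZMod 3, ∃ t : ZMod 3, t ≠ a ∧ t ≠ b := by decide
    have three3 : ∀ a b k : ZMod 3, ∃ t : ZMod 3, t ≠ a ∧ t ≠ b := by
      intro a b _
      exact two3 a b
    have hN1 : ∀ v, v < n → N1 (A v) := by
      intro v _
      by_cases hv : F v
      · by_cases h1 : v = x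
        · exact ⟨p.2, h1 ▸ hx1 (h1 ▸ hv)⟩
        · by_cases h2 : v = y
          · exact ⟨q.2, h2 ▸ hy1 (h2 ▸ hv)⟩
          · obtain ⟨a, ha, hb'⟩ := two3 (1 - p.2 - (c x v).2) (1 - q.2 - (c y v).2)
            refine ⟨a, (hAF v hv a).mpr ⟨?_, ?_, fun hh => absurd hh h1,
              fun hh => absurd hh h2⟩⟩
            · intro _ _ hs
              exact ha (solve3 hs)
            · intro _ _ hs
              exact hb' (solve3 hs)
      · refine ⟨0, ?_⟩
        show (if F v then _ else True)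
        rw [if_neg hv]
        trivial
    have hN2 : ∀ v, v < n → (∃ u, G v u) → N2 (A v) := by
      rintro v hvn ⟨u, hgu⟩ κ
      have hv : F v := hgu.1
      have h1 : v ≠ x := by
        rintro rfl
        exact hrx hv u hgu
      have h2 : v ≠ y := by
        rintro rfl
        exact hry hv u hgu
      -- not both kills
      by_cases hkx : XE ∧ (c x v).1 = L
      · have hky : ¬ (YE ∧ (c y v).1 = L) := by
          rintro ⟨hye, hcy⟩
          have g1 := (h.hit hx hvn (Ne.symm h1) hkx.2).1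
          have g2 := (h.hit hy hvn (Ne.symm h2) hcy).1
          have g3 := r5 hkx.1 hye (P v) (hIn v hv) g1 g2 (P u) (c v u).2 (hIn u hgu.2.1)
          have h5 := h.exc v u hgu.2.2.1
          rw [hgu.2.2.2] at h5
          exact g3 h5
        obtain ⟨a, ha, hb'⟩ := two3 (1 - p.2 - (c x v).2) κ
        refine ⟨a, (hAF v hv a).mpr ⟨?_, ?_, fun hh => absurd hh h1,
          fun hh => absurd hh h2⟩, hb'⟩
        · intro _ _ hs
          exact ha (solve3 hs)
        · intro g1 g2
          exact absurd ⟨g1, g2⟩ hky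
      · obtain ⟨a, ha, hb'⟩ := two3 (1 - q.2 - (c y v).2) κ
        refine ⟨a, (hAF v hv a).mpr ⟨?_, ?_, fun hh => absurd hh h1,
          fun hh => absurd hh h2⟩, hb'⟩
        · intro g1 g2
          exact absurd ⟨g1, g2⟩ hkx
        · intro _ _ hs
          exact ha (solve3 hs)
    have hN3 : ∀ v, v < n → (∃ u u', u ≠ u' ∧ G v u ∧ G v u') → N3 (A v) := by
      rintro v hvn ⟨u, u', hne, hgu, hgu'⟩ κ κ'
      have hv : F v := hgu.1
      have h1 : v ≠ x := by
        rintro rfl
        exact hrx hv u hgu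
      have h2 : v ≠ y := by
        rintro rfl
        exact hry hv u hgu
      have hd := hdb v u u' hne hgu hgu'
      have hnot : ∀ z, z < n → z ≠ v → ¬ F z → (c z v).1 = L → t.E1 L W (P z) → False := by
        intro z hz hzv hFz hcz he1
        by_cases he : E v z
        · rcases h.two v u u' z hgu.2.2.1 hgu'.2.2.1 he with h5 | h5 | h5
          · exact hne h5
          · exact hFz (h5 ▸ hgu'.2.1)
          · exact hFz (h5 ▸ hgu.2.1)
        · exact he1 (P v) (hIn v hv) ((h.hit hz hvn hzv hcz).2 he) hd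
      have hkx : ¬ (XE ∧ (c x v).1 = L) := by
        rintro ⟨hxe, hcx⟩
        exact hnot x hx (Ne.symm h1) (fun hf => hxe.1 (hFx hf)) hcx (r3 hxe)
      have hky : ¬ (YE ∧ (c y v).1 = L) := by
        rintro ⟨hye, hcy⟩
        exact hnot y hy (Ne.symm h2) (fun hf => hye.1 (hFy hf)) hcy (r4 hye)
      obtain ⟨a, ha, hb'⟩ := two3 κ κ'
      exact ⟨a, (hAF v hv a).mpr ⟨fun g1 g2 => absurd ⟨g1, g2⟩ hkx,
        fun g1 g2 => absurd ⟨g1, g2⟩ hky, fun hh => absurd hh h1,
        fun hh => absurd hh h2⟩, ha, hb'⟩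
    obtain ⟨f, hf1, hf2⟩ := listG hG
      (fun v a b d ha hb' hc => h.two v a b d ha.2.2.1 hb'.2.2.1 hc.2.2.1)
      (fun v u => 1 - (c v u).2) A n hN1 hN2 hN3
    refine ⟨f, ?_, ?_, ?_, ?_, key f hf2⟩
    · intro hv
      exact ((hAF x hv _).mp (hf1 x hx)).2.2.1 rfl
    · intro hv
      exact ((hAF y hv _).mp (hf1 y hy)).2.2.2 rfl
    · intro g1 g2 v hv hc
      exact ((hAF v hv _).mp (hf1 v (hF v hv).1)).1 ⟨g1, g2⟩ hc
    · intro g1 g2 v hv hc
      exact ((hAF v hv _).mp (hf1 v (hF v hv).1)).2.1 ⟨g1, g2⟩ hc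
  · -- forest rule
    have hu : ∀ v u u', G v u → G v u' → u = u' := by
      intro v u u' h1 h2
      by_contra hne
      exact r1 (P v) (hIn v h1.1) (hdb v u u' hne h1 h2)
    by_cases hex : ¬ t.Dft W (P x) p ∧ p.1 = L
    · have hey : ¬ (¬ t.Dft W (P y) q ∧ q.1 = L) := fun hh => r2 ⟨hex, hh⟩
      obtain ⟨f, hf1, hf2, hf3⟩ := list_kill hG hu (fun v u => 1 - (c v u).2) n
        (fun v => 1 - p.2 - (c x v).2) y (F y) q.2
      refine ⟨f, ?_, ?_, ?_, ?_, key f hf3⟩
      · intro hf
        exact absurd (hFx hf) hex.1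
      · intro hf
        exact hf2 hf (hF y hf).1
      · intro _ hpL v hv hcv hs
        by_cases hvy : v = y
        · subst hvy
          rw [hf2 hv (hF v hv).1] at hs
          have hq : L = q.1 := (hF v hv).2.1.symm.trans (hFy hv).1
          refine hb ⟨hcv.trans hpL.symm, hpL.trans hq, ?_⟩
          rw [← hs]; ring
        · exact hf1 v (hF v hv).1 (fun h => hvy h.1) (by rw [← hs]; ring)
      · intro h1 h2
        exact absurd ⟨h1, h2⟩ hey
    · by_cases hey : ¬ t.Dft W (P y) q ∧ q.1 = L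
      · obtain ⟨f, hf1, hf2, hf3⟩ := list_kill hG hu (fun v u => 1 - (c v u).2) n
          (fun v => 1 - q.2 - (c y v).2) x (F x) p.2
        refine ⟨f, ?_, ?_, ?_, ?_, key f hf3⟩
        · intro hf
          exact hf2 hf (hF x hf).1
        · intro hf
          exact absurd (hFy hf) hey.1
        · intro h1 h2
          exact absurd ⟨h1, h2⟩ hex
        · intro _ hqL v hv hcv hs
          by_cases hvx : v = x
          · subst hvx
            rw [hf2 hv (hF v hv).1] at hs
            have hp : L = p.1 := (hF v hv).2.1.symm.trans (hFx hv).1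
            rw [h.symm y v] at hcv hs
            refine hb ⟨hcv.trans hp, hp.symm.trans hqL.symm, ?_⟩
            rw [← hs]; ring
          · exact hf1 v (hF v hv).1 (fun h => hvx h.1) (by rw [← hs]; ring)
      · by_cases hFxy : F x ∧ F y
        · have hp : L = p.1 := (hF x hFxy.1).2.1.symm.trans (hFx hFxy.1).1
          have hq : L = q.1 := (hF y hFxy.2).2.1.symm.trans (hFy hFxy.2).1
          obtain ⟨f, hf1, hf2, hf3⟩ := list2 hG hu (fun v u => 1 - (c v u).2) n x y p.2 q.2 hxy
            (by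
              rintro ⟨_, _, _, h4⟩ hs
              refine hb ⟨h4.trans hp, hp.symm.trans hq, ?_⟩
              have h5 : p.2 + q.2 + (c x y).2 = 1 := by rw [hs]; ring
              rw [← h5]; ring)
            (by
              rintro ⟨_, _, _, h4⟩ hs
              rw [h.symm y x] at h4 hs
              refine hb ⟨h4.trans hp, hp.symm.trans hq, ?_⟩
              have h5 : q.2 + p.2 + (c x y).2 = 1 := by rw [hs]; ring
              rw [← h5]; ring)
          exact ⟨f, fun h => hf1 (hF x h).1, fun h => hf2 (hF y h).1,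
            fun h1 h2 => absurd ⟨h1, h2⟩ hex, fun h1 h2 => absurd ⟨h1, h2⟩ hey, key f hf3⟩
        · by_cases hFx1 : F x
          · have hFy1 : ¬ F y := fun h => hFxy ⟨hFx1, h⟩
            obtain ⟨f, hf1, hf2, hf3⟩ := list_kill hG hu (fun v u => 1 - (c v u).2) n
              (fun _ => 0) x (F x) p.2
            exact ⟨f, fun h => hf2 h (hF x h).1, fun h => absurd h hFy1,
              fun h1 h2 => absurd ⟨h1, h2⟩ hex, fun h1 h2 => absurd ⟨h1, h2⟩ hey, key f hf3⟩
          · obtain ⟨f, hf1, hf2, hf3⟩ := list_kill hG hu (fun v u => 1 - (c v u).2) n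
              (fun _ => 0) y (F y) q.2
            exact ⟨f, fun h => absurd h hFx1, fun h => hf2 h (hF y h).1,
              fun h1 h2 => absurd ⟨h1, h2⟩ hex, fun h1 h2 => absurd ⟨h1, h2⟩ hey, key f hf3⟩

/-- The colours of a newborn. -/
theorem exists_newborn (hg : t.Good) {n : ℕ} {P : ℕ → T} {c : ℕ → ℕ → LV} {E : ℕ → ℕ → Prop}
    (h : t.St n P c E) {x y : ℕ} (hx : x < n) (hy : y < n) (hxy : x ≠ y) {p q : LV}
    (hb : ¬ BadLV (c x y) p q) (W : T) (hp : t.Poss W (P x) p) (hq : t.Poss W (P y) q)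
    (hS : ∀ L, t.SL L W (P x) (P y) p q) :
    ∃ g : ℕ → LV, g x = p ∧ g y = q ∧
      (∀ z, z < n → z ≠ x → z ≠ y → t.Dft W (P z) (g z)) ∧
      (∀ z u, z < n → u < n → z ≠ u → ¬ BadLV (g z) (g u) (c z u)) := by
  classical
  let F : Bool → ℕ → Prop := fun L v => v < n ∧ t.lt W (P v) = L ∧ t.fr W (P v) = true ∧
      ¬ (v = x ∧ ¬ t.Dft W (P x) p) ∧ ¬ (v = y ∧ ¬ t.Dft W (P y) q)
  have hphi : ∀ L, ∃ f : ℕ → ZMod 3, (F L x → f x = p.2) ∧ (F L y → f y = q.2) ∧
      (¬ t.Dft W (P x) p → p.1 = L → ∀ v, F L v → (c x v).1 = L → p.2 + f v + (c x v).2 ≠ 1) ∧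
      (¬ t.Dft W (P y) q → q.1 = L → ∀ v, F L v → (c y v).1 = L → q.2 + f v + (c y v).2 ≠ 1) ∧
      (∀ v u, F L v → F L u → E v u → (c v u).1 = L → f v + f u + (c v u).2 ≠ 1) := fun L =>
    exists_phi h hx hy hxy hb W L (hS L) (F L) (fun v hv => hv)
  choose φ hφ1 hφ2 hφ3 hφ4 hφ5 using hphi
  let g : ℕ → LV := fun z => if z = x then p else if z = y then q else
    (t.lt W (P z), if t.fr W (P z) = true then φ (t.lt W (P z)) z else t.nu W (P z))
  have gx : g x = p := if_pos rfl
  have gy : g y = q := by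
    show (if y = x then p else if y = y then q else _) = q
    rw [if_neg hxy.symm, if_pos rfl]
  have gz : ∀ z, z ≠ x → z ≠ y → g z =
      (t.lt W (P z), if t.fr W (P z) = true then φ (t.lt W (P z)) z else t.nu W (P z)) := by
    intro z h1 h2
    show (if z = x then p else if z = y then q else _) = _
    rw [if_neg h1, if_neg h2]
  have hdz : ∀ z, z < n → z ≠ x → z ≠ y → t.Dft W (P z) (g z) := by
    intro z _ h1 h2
    rw [gz z h1 h2]
    refine ⟨rfl, ?_⟩
    by_cases hf : t.fr W (P z) = true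
    · exact Or.inl hf
    · right
      show t.nu W (P z) = if t.fr W (P z) = true then φ (t.lt W (P z)) z else t.nu W (P z)
      rw [if_neg hf]
  -- non exceptional vertices
  have hne : ∀ z, z < n → ¬ (z = x ∧ ¬ t.Dft W (P x) p) → ¬ (z = y ∧ ¬ t.Dft W (P y) q) →
      t.lt W (P z) = (g z).1 ∧ ((t.fr W (P z) = true ∧ F (g z).1 z ∧ (g z).2 = φ (g z).1 z) ∨
        (t.fr W (P z) = false ∧ (g z).2 = t.nu W (P z))) := by
    intro z hz h1 h2
    have hd : t.Dft W (P z) (g z) := by
      by_cases hzx : z = x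
      · subst hzx
        rw [gx]
        by_contra hd
        exact h1 ⟨rfl, hd⟩
      · by_cases hzy : z = y
        · subst hzy
          rw [gy]
          by_contra hd
          exact h2 ⟨rfl, hd⟩
        · exact hdz z hz hzx hzy
    refine ⟨hd.1, ?_⟩
    by_cases hf : t.fr W (P z) = true
    · left
      have hFz : F (g z).1 z := ⟨hz, hd.1, hf, h1, h2⟩
      refine ⟨hf, hFz, ?_⟩
      by_cases hzx : z = x
      · subst hzx
        rw [hφ1 _ hFz, gx]
      · by_cases hzy : z = y
        · subst hzy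
          rw [hφ2 _ hFz, gy]
        · rw [gz z hzx hzy]
          show (if t.fr W (P z) = true then φ (t.lt W (P z)) z else t.nu W (P z)) = _
          rw [if_pos hf]
    · right
      have hf' : t.fr W (P z) = false := by
        cases hh : t.fr W (P z) with
        | false => rfl
        | true => exact absurd hh hf
      refine ⟨hf', ?_⟩
      rcases hd.2 with h3 | h3
      · exact absurd h3 hf
      · exact h3.symm
  -- exceptional host x against a third vertex
  have hxu : ∀ u, u < n → u ≠ x → u ≠ y → ¬ t.Dft W (P x) p →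
      ¬ BadLV p (g u) (c x u) := by
    rintro u hun hux huy hdx ⟨e1, e2, e3⟩
    have hex : t.ex W (P x) p.1 p.2 = true := by
      rcases hp with h1 | h1
      · exact absurd h1 hdx
      · exact h1
    obtain ⟨h1, h2⟩ := hne u hun (fun hh => hux hh.1) (fun hh => huy hh.1)
    rcases h2 with ⟨h2, h3, h4⟩ | ⟨h2, h4⟩
    · rw [h4] at e3
      exact hφ3 (g u).1 hdx e1 u h3 e2.symm e3
    · rw [h4] at e3
      refine hg.h3 W (P x) (P u) p.1 p.2 (c x u).2 hex (h1.trans e1.symm) h2 ?_ e3
      have h5 := h.poss2 hun hx hux.symm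
      have e4 : c x u = (p.1, (c x u).2) := Prod.ext (e2.symm.trans e1.symm) rfl
      rw [← e4]
      exact h5
  have hyu : ∀ u, u < n → u ≠ x → u ≠ y → ¬ t.Dft W (P y) q →
      ¬ BadLV q (g u) (c y u) := by
    rintro u hun hux huy hdx ⟨e1, e2, e3⟩
    have hex : t.ex W (P y) q.1 q.2 = true := by
      rcases hq with h1 | h1
      · exact absurd h1 hdx
      · exact h1
    obtain ⟨h1, h2⟩ := hne u hun (fun hh => hux hh.1) (fun hh => huy hh.1)
    rcases h2 with ⟨h2, h3, h4⟩ | ⟨h2, h4⟩
    · rw [h4] at e3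
      exact hφ4 (g u).1 hdx e1 u h3 e2.symm e3
    · rw [h4] at e3
      refine hg.h3 W (P y) (P u) q.1 q.2 (c y u).2 hex (h1.trans e1.symm) h2 ?_ e3
      have h5 := h.poss2 hun hy huy.symm
      have e4 : c y u = (q.1, (c y u).2) := Prod.ext (e2.symm.trans e1.symm) rfl
      rw [← e4]
      exact h5
  have main : ∀ z u, z < n → u < z → ¬ BadLV (g z) (g u) (c z u) := by
    intro z u hz huz hbad
    have hun : u < n := lt_trans huz hz
    -- the request triangle
    by_cases hxy1 : z = x ∧ u = y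
    · rw [hxy1.1, hxy1.2, gx, gy] at hbad
      exact hb (badLV_rot (badLV_rot hbad))
    by_cases hxy2 : z = y ∧ u = x
    · rw [hxy2.1, hxy2.2, gx, gy, h.symm y x] at hbad
      exact hb (badLV_rot (badLV_rot (badLV_swap hbad)))
    by_cases hzx : z = x ∧ ¬ t.Dft W (P x) p
    · rw [hzx.1, gx] at hbad
      exact hxu u hun (fun hh => by omega) (fun hh => hxy1 ⟨hzx.1, hh⟩) hzx.2 hbad
    by_cases hzy : z = y ∧ ¬ t.Dft W (P y) q
    · rw [hzy.1, gy] at hbad
      exact hyu u hun (fun hh => hxy2 ⟨hzy.1, hh⟩) (fun hh => by omega) hzy.2 hbad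
    by_cases hux : u = x ∧ ¬ t.Dft W (P x) p
    · rw [hux.1, gx, h.symm z x] at hbad
      exact hxu z hz (fun hh => by omega) (fun hh => hxy2 ⟨hh, hux.1⟩) hux.2 (badLV_swap hbad)
    by_cases huy : u = y ∧ ¬ t.Dft W (P y) q
    · rw [huy.1, gy, h.symm z y] at hbad
      exact hyu z hz (fun hh => hxy1 ⟨hh, huy.1⟩) (fun hh => by omega) huy.2 (badLV_swap hbad)
    -- both vertices are not exceptional
    obtain ⟨a1, a2⟩ := hne z hz hzx hzy
    obtain ⟨b1, b2⟩ := hne u hun hux huy
    obtain ⟨e1, e2, e3⟩ := hbad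
    have hl : t.lt W (P z) = t.lt W (P u) := a1.trans (e1.trans b1.symm)
    by_cases he : E z u
    · have h5 := h.exc z u he
      rw [← e2, ← b1] at h5
      rcases hg.h2 W (P z) (P u) _ hl h5 with ⟨h6, h7⟩ | ⟨h6, h7, h8⟩
      · rcases a2 with ⟨_, a3, a4⟩ | ⟨a3, _⟩
        · rcases b2 with ⟨_, b3, b4⟩ | ⟨b3, _⟩
          · rw [a4, b4] at e3
            rw [e1] at e3 a3
            exact hφ5 (g u).1 z u a3 b3 he e2.symm e3
          · rw [h7] at b3; exact absurd b3 (by decide)
        · rw [h6] at a3; exact absurd a3 (by decide)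
      · rcases a2 with ⟨a3, _, _⟩ | ⟨_, a4⟩
        · rw [h6] at a3; exact absurd a3 (by decide)
        · rcases b2 with ⟨b3, _, _⟩ | ⟨_, b4⟩
          · rw [h7] at b3; exact absurd b3 (by decide)
          · rw [a4, b4] at e3
            exact h8 e3
    · have h5 := h.dft z u huz hz he
      obtain ⟨h6, h7, h8, h9⟩ := hg.h1 W (P z) (P u) hl (h5.1.trans (e2.symm.trans b1.symm))
      rcases a2 with ⟨a3, _, _⟩ | ⟨_, a4⟩
      · rw [h6] at a3; exact absurd a3 (by decide)
      · rcases b2 with ⟨b3, _, _⟩ | ⟨_, b4⟩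
        · rw [h7] at b3; exact absurd b3 (by decide)
        · rcases h5.2 with h10 | h10
          · rw [h8] at h10; exact absurd h10 (by decide)
          · rw [a4, b4, ← h10] at e3
            exact h9 e3
  refine ⟨g, gx, gy, hdz, ?_⟩
  intro z u hz hun hzu hbad
  rcases Nat.lt_or_gt_of_ne hzu with h1 | h1
  · rw [h.symm z u] at hbad
    exact main u z hun h1 (badLV_swap hbad)
  · exact main z u hz h1 hbad

/-- States of the construction. -/
def State (t : FO2Tab T) (n : ℕ) : Type :=
  {s : (ℕ → T) × (ℕ → ℕ → LV) × (ℕ → ℕ → Prop) // t.St n s.1 s.2.1 s.2.2}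

/-- The colour in a state. -/
def State.col {t : FO2Tab T} {n : ℕ} (s : State t n) (i j : ℕ) : ZMod 6 := lvZ (s.1.2.1 i j)

theorem stepClass (hg : t.Good) : StepClass' (State t) (fun {n} s => s.col (n := n)) := by
  classical
  refine ⟨?_, ?_, ?_⟩
  · intro n s i j _ _ _
    show lvZ (s.1.2.1 i j) = lvZ (s.1.2.1 j i)
    rw [s.2.symm]
  · intro n s i j k hi hj hk h1 h2 h3 hf
    exact s.2.tri i j k hi hj hk h1 h2 h3 ((badLV_iff _ _ _).mpr hf)
  · rintro n ⟨⟨P, c, E⟩, h⟩ x y a b hx hy hxy hf _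
    have h' : t.St n P c E := h
    have hb : ¬ BadLV (c x y) (zLV a) (zLV b) := by
      intro hb
      have := (badLV_iff _ _ _).mp hb
      rw [lvZ_zLV, lvZ_zLV] at this
      exact hf this
    have hposs := h'.poss2 hy hx hxy
    obtain ⟨W, hp, hq, hSL, hD⟩ := hg.h4 (P x) (P y) (c x y) (zLV a) (zLV b) hposs hb
    obtain ⟨g, gx, gy, hdz, htri⟩ := exists_newborn hg h' hx hy hxy hb W hp hq hSL
    have hnx : n ≠ x := by omega
    have hny : n ≠ y := by omega
    let P' : ℕ → T := Function.update P n W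
    let c' : ℕ → ℕ → LV := fun i j => if i = n then g j else if j = n then g i else c i j
    let iE : ℕ → Prop := fun z => (z = x ∧ ¬ t.Dft W (P x) (zLV a)) ∨
      (z = y ∧ ¬ t.Dft W (P y) (zLV b))
    let E' : ℕ → ℕ → Prop := fun w z => E w z ∨ (w = n ∧ iE z)
    have iElt : ∀ z, iE z → z < n := by
      rintro z (hz | hz)
      · rw [hz.1]; exact hx
      · rw [hz.1]; exact hy
    have P'n : P' n = W := Function.update_self _ _ _
    have P'z : ∀ z, z < n → P' z = P z := fun z hz => Function.update_of_ne (by omega) _ _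
    have c'n : ∀ z, c' n z = g z := fun z => if_pos rfl
    have c'n2 : ∀ z, z < n → c' z n = g z := by
      intro z hz
      show (if z = n then g n else if n = n then g z else c z n) = g z
      rw [if_neg (by omega), if_pos rfl]
    have c'z : ∀ z u, z < n → u < n → c' z u = c z u := by
      intro z u hz hu
      show (if z = n then g u else if u = n then g z else c z u) = c z u
      rw [if_neg (by omega), if_neg (by omega)]
    have iEex : ∀ z, iE z → t.ex W (P z) (g z).1 (g z).2 = true := by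
      rintro z (hz | hz)
      · rw [hz.1, gx]
        rcases hp with h1 | h1
        · exact absurd h1 hz.2
        · exact h1
      · rw [hz.1, gy]
        rcases hq with h1 | h1
        · exact absurd h1 hz.2
        · exact h1
    have hst : t.St (n + 1) P' c' E' := by
      refine ⟨?_, ?_, ?_, ?_, ?_, ?_, ?_⟩
      · intro i j
        show (if i = n then g j else if j = n then g i else c i j) =
          (if j = n then g i else if i = n then g j else c j i)
        by_cases hi : i = n
        · by_cases hj : j = n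
          · rw [if_pos hi, if_pos hj, hi, hj]
          · rw [if_pos hi, if_neg hj, if_pos hi]
        · by_cases hj : j = n
          · rw [if_neg hi, if_pos hj, if_pos hj]
          · rw [if_neg hi, if_neg hj, if_neg hj, if_neg hi, h'.symm]
      · rintro w z (hw | ⟨hw, hz⟩)
        · have := h'.elt w z hw
          exact ⟨this.1, by omega⟩
        · have := iElt z hz
          exact ⟨by omega, by omega⟩
      · intro w z hzw hw hne
        by_cases hwn : w = n
        · subst hwn
          rw [P'n, P'z z hzw, c'n]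
          by_cases hzx : z = x
          · subst hzx
            rw [gx]
            by_contra hd
            exact hne (Or.inr ⟨rfl, Or.inl ⟨rfl, hd⟩⟩)
          · by_cases hzy : z = y
            · subst hzy
              rw [gy]
              by_contra hd
              exact hne (Or.inr ⟨rfl, Or.inr ⟨rfl, hd⟩⟩)
            · exact hdz z hzw hzx hzy
        · have hwn' : w < n := by omega
          rw [P'z w hwn', P'z z (by omega), c'z w z hwn' (by omega)]
          exact h'.dft w z hzw hwn' (fun he => hne (Or.inl he))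
      · rintro w z (hw | ⟨hw, hz⟩)
        · have := h'.elt w z hw
          rw [P'z w this.2, P'z z (by omega), c'z w z this.2 (by omega)]
          exact h'.exc w z hw
        · subst hw
          rw [P'n, P'z z (iElt z hz), c'n]
          exact iEex z hz
      · rintro v z1 z2 z3 h1 h2 h3
        by_cases hv : v = n
        · have hE : ∀ z, E' v z → z = x ∨ z = y := by
            rintro z (hz | ⟨_, hz | hz⟩)
            · have := h'.elt v z hz
              omega
            · exact Or.inl hz.1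
            · exact Or.inr hz.1
          rcases hE z1 h1 with e1 | e1 <;> rcases hE z2 h2 with e2 | e2 <;>
            rcases hE z3 h3 with e3 | e3 <;> rw [e1, e2, e3] <;> simp
        · have hE : ∀ z, E' v z → E v z := by
            rintro z (hz | ⟨hz, _⟩)
            · exact hz
            · exact absurd hz hv
          exact h'.two v z1 z2 z3 (hE z1 h1) (hE z2 h2) (hE z3 h3)
      · rintro w z1 z2 (hw | ⟨hw, hz⟩) h2 hne hl
        · have h3 := h'.elt w z1 hw
          rcases h2 with h2 | ⟨h2, _⟩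
          · have h4 := h'.elt w z2 h2
            rw [c'z w z1 h3.2 (by omega), c'z w z2 h3.2 (by omega)] at hl
            rw [P'z w h3.2, P'z z1 (by omega), P'z z2 (by omega), c'z w z1 h3.2 (by omega)]
            exact h'.sib w z1 z2 hw h2 hne hl
          · omega
        · subst hw
          rcases h2 with h2 | ⟨_, hz2⟩
          · have h4 := h'.elt _ z2 h2
            omega
          · rw [c'n, c'n] at hl
            rw [P'n, P'z z1 (iElt _ hz), P'z z2 (iElt _ hz2), c'n]
            rcases hz with ⟨h5, h6⟩ | ⟨h5, h6⟩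
            · rcases hz2 with ⟨h7, h8⟩ | ⟨h7, h8⟩
              · exact absurd (h5.trans h7.symm) hne
              · rw [h5, h7, gx, gy] at hl
                rw [h5, h7, gx]
                exact hD hl h6 h8
            · rcases hz2 with ⟨h7, h8⟩ | ⟨h7, h8⟩
              · rw [h5, h7, gx, gy] at hl
                rw [h5, h7, gy, hl]
                exact (hD hl.symm h8 h6).symm
              · exact absurd (h5.trans h7.symm) hne
      · intro i j k hi hj hk hij hjk hik
        by_cases hin : i = n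
        · subst hin
          rw [c'n, c'n, c'z j k (by omega) (by omega)]
          intro hbad
          exact htri j k (by omega) (by omega) hjk (badLV_swap (badLV_rot (badLV_rot hbad)))
        · by_cases hjn : j = n
          · subst hjn
            rw [c'n, c'n2 i (by omega), c'z i k (by omega) (by omega)]
            exact htri i k (by omega) (by omega) hik
          · by_cases hkn : k = n
            · subst hkn
              rw [c'n2 j (by omega), c'n2 i (by omega), c'z i j (by omega) (by omega)]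
              intro hbad
              exact htri i j (by omega) (by omega) hij (badLV_swap (badLV_rot hbad))
            · rw [c'z i j (by omega) (by omega), c'z j k (by omega) (by omega),
                c'z i k (by omega) (by omega)]
              exact h'.tri i j k (by omega) (by omega) (by omega) hij hjk hik
    refine ⟨⟨⟨P', c', E'⟩, hst⟩, ?_, ?_, ?_⟩
    · intro i j hi hj _
      show lvZ (c' i j) = lvZ (c i j)
      rw [c'z i j hi hj]
    · show lvZ (c' x n) = a
      rw [c'n2 x hx, gx, lvZ_zLV]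
    · show lvZ (c' n y) = b
      rw [c'n, gy, lvZ_zLV]

/-- A start: two vertices. -/
theorem start (t : FO2Tab T) [Nonempty T] : Nonempty (State t 2) := by
  obtain ⟨W⟩ := (inferInstance : Nonempty T)
  refine ⟨⟨⟨fun _ => W, fun _ _ => (t.lt W W, t.nu W W), fun _ _ => False⟩, ?_⟩⟩
  refine ⟨fun _ _ => rfl, fun _ _ h => h.elim, fun _ _ _ _ _ => ⟨rfl, Or.inr rfl⟩,
    fun _ _ h => h.elim, fun _ _ _ _ h => h.elim, fun _ _ _ h => h.elim, ?_⟩
  intro i j k hi hj hk hij hjk hik
  omega

/-- A good table gives a representation. -/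
theorem rep_of_good [Nonempty T] (hg : t.Good) :
    ∃ (U : Type) (r : Set Atom → Set (U × U)), IsRepresentation U r := by
  obtain ⟨s⟩ := start t
  obtain ⟨U, c, _, hc⟩ := colouring_of_step' (stepClass hg) 2 (le_refl 2) s
  obtain ⟨r, hr⟩ := rep_of_colouring hc
  exact ⟨U, r, hr⟩

end FO2Tab

end Pool.Agent.RA6
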