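import Pool.Agent.RA6.FOFrame99

/-!
Finite checker for `FOTab` on `Fin n`: one natural number codes the table, ten bits per ordered
pair: letter, free, value (two bits), six bits for the exceptional colours `3 * letter + value`.
-/

namespace Pool.Agent.RA6

namespace FOC

/-- `f k` for all `k < n`. -/
def allN : ℕ → (ℕ → Bool) → Bool
  | 0, _ => true
  | (k + 1), f => f k && allN k f

/-- `f k` for some `k < n`. -/
def anyN : ℕ → (ℕ → Bool) → Bool
  | 0, _ => false
  | (k + 1), f => f k || anyN k f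

theorem allN_get {n : ℕ} {f : ℕ → Bool} (h : allN n f = true) : ∀ k, k < n → f k = true := by
  induction n with
  | zero => intro k hk; exact absurd hk (Nat.not_lt_zero k)
  | succ n ih =>
    intro k hk
    have h2 : (f n && allN n f) = true := h
    rw [Bool.and_eq_true] at h2
    rcases Nat.lt_succ_iff_lt_or_eq.mp hk with h1 | h1
    · exact ih h2.2 k h1
    · rw [h1]; exact h2.1

theorem anyN_get {n : ℕ} {f : ℕ → Bool} (h : anyN n f = true) : ∃ k, k < n ∧ f k = true := by
  induction n with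
  | zero => exact absurd (show false = true from h) (by decide)
  | succ n ih =>
    have h2 : (f n || anyN n f) = true := h
    rw [Bool.or_eq_true] at h2
    rcases h2 with h1 | h1
    · exact ⟨n, Nat.lt_succ_self n, h1⟩
    · obtain ⟨k, hk, hf⟩ := ih h1
      exact ⟨k, Nat.lt_succ_of_lt hk, hf⟩

/-- Equality of two Booleans. -/
def bq (a b : Bool) : Bool := cond a b (!b)

theorem bq_of {a b : Bool} (h : a = b) : bq a b = true := by
  subst h; cases a <;> rfl

/-- The code of a pair. -/
def ent (n dat W X : ℕ) : ℕ := (dat >>> (10 * (W * n + X))) % 1024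

def lt (n dat W X : ℕ) : Bool := Nat.beq (ent n dat W X % 2) 1
def fr (n dat W X : ℕ) : Bool := Nat.beq (ent n dat W X / 2 % 2) 1
def nu (n dat W X : ℕ) : ℕ := ent n dat W X / 4 % 4
def ex (n dat W X : ℕ) (L : Bool) (a : ℕ) : Bool :=
  Nat.beq ((ent n dat W X >>> (cond L 7 4 + a)) % 2) 1

/-- The table. -/
def tab (n dat : ℕ) : FOTab (Fin n) where
  lt W X := lt n dat W X
  fr W X := fr n dat W X
  nu W X := ((nu n dat W X : ℕ) : ZMod 3)
  ex W X L a := ex n dat W X L a.val

/-- Default colour. -/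
def dft (n dat W X : ℕ) (L : Bool) (a : ℕ) : Bool :=
  bq (lt n dat W X) L && (fr n dat W X || Nat.beq (nu n dat W X % 3) a)

/-- Possible colour. -/
def poss (n dat W X : ℕ) (L : Bool) (a : ℕ) : Bool :=
  dft n dat W X L a || ex n dat W X L a

theorem cast3 (m : ℕ) : ((m : ℕ) : ZMod 3) = 1 ↔ m % 3 = 1 := by
  have := ZMod.natCast_eq_natCast_iff' m 1 3
  rw [Nat.cast_one] at this
  exact this

theorem cast3' (m : ℕ) (a : ZMod 3) : ((m : ℕ) : ZMod 3) = a ↔ m % 3 = a.val := by
  have h1 := ZMod.natCast_eq_natCast_iff' m a.val 3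
  rw [ZMod.natCast_zmod_val, Nat.mod_eq_of_lt (ZMod.val_lt a)] at h1
  exact h1

theorem beq1 {m k : ℕ} (h : (!Nat.beq m k) = true) : m ≠ k := by
  intro hh
  rw [hh, Nat.beq_refl] at h
  exact absurd h (by decide)

theorem dft_of {n dat : ℕ} {W X : Fin n} {a : LV} (h : (tab n dat).Dft W X a) :
    dft n dat W X a.1 a.2.val = true := by
  obtain ⟨h1, h2⟩ := h
  have h1' : lt n dat W X = a.1 := h1
  unfold dft
  rw [Bool.and_eq_true, Bool.or_eq_true]
  refine ⟨bq_of h1', ?_⟩
  rcases h2 with h2 | h2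
  · exact Or.inl h2
  · right
    have h3 : ((nu n dat W X : ℕ) : ZMod 3) = a.2 := h2
    rw [cast3'] at h3
    rw [h3]
    exact Nat.beq_refl _

theorem poss_of {n dat : ℕ} {W X : Fin n} {a : LV} (h : (tab n dat).Poss W X a) :
    poss n dat W X a.1 a.2.val = true := by
  unfold poss
  rw [Bool.or_eq_true]
  rcases h with h | h
  · exact Or.inl (dft_of h)
  · exact Or.inr h

theorem of_dft {n dat : ℕ} {W X : Fin n} {L : Bool} {a : ℕ} (ha : a < 3)
    (h : dft n dat W X L a = true) : (tab n dat).Dft W X (L, (a : ZMod 3)) := by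
  unfold dft at h
  rw [Bool.and_eq_true, Bool.or_eq_true] at h
  refine ⟨?_, ?_⟩
  · have h1 := h.1
    show lt n dat W X = L
    revert h1
    cases lt n dat W X <;> cases L <;> decide
  · rcases h.2 with h2 | h2
    · exact Or.inl h2
    · right
      show ((nu n dat W X : ℕ) : ZMod 3) = ((a : ℕ) : ZMod 3)
      rw [ZMod.natCast_eq_natCast_iff', Nat.eq_of_beq_eq_true h2, Nat.mod_eq_of_lt ha]

theorem val_cast3 {a : ℕ} (ha : a < 3) : ((a : ℕ) : ZMod 3).val = a := by
  rw [ZMod.val_natCast, Nat.mod_eq_of_lt ha]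

theorem of_poss {n dat : ℕ} {W X : Fin n} {L : Bool} {a : ℕ} (ha : a < 3)
    (h : poss n dat W X L a = true) : (tab n dat).Poss W X (L, (a : ZMod 3)) := by
  unfold poss at h
  rw [Bool.or_eq_true] at h
  rcases h with h | h
  · exact Or.inl (of_dft ha h)
  · right
    show ex n dat W X L ((a : ℕ) : ZMod 3).val = true
    rw [val_cast3 ha]
    exact h

def c1 (n dat : ℕ) : Bool :=
  allN n fun W => allN n fun Z => allN n fun U =>
    cond (bq (lt n dat W Z) (lt n dat W U) && bq (lt n dat Z U) (lt n dat W U))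
      (!(fr n dat W Z) && (!(fr n dat W U) && (!(fr n dat Z U) &&
        !(Nat.beq ((nu n dat W Z + nu n dat W U + nu n dat Z U) % 3) 1)))) true

def c2g (n dat Z U a : ℕ) (L : Bool) : Bool :=
  cond (ex n dat Z U L a)
    (allN n fun W => cond (bq (lt n dat W Z) L && bq (lt n dat W U) L)
      ((fr n dat W Z && fr n dat W U) || (!(fr n dat W Z) && (!(fr n dat W U) &&
        !(Nat.beq ((nu n dat W Z + nu n dat W U + a) % 3) 1)))) true) true

def c2 (n dat : ℕ) : Bool :=
  allN n fun Z => allN n fun U => allN 3 fun a => c2g n dat Z U a false && c2g n dat Z U a true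

def c3g (n dat W Z a : ℕ) (L : Bool) : Bool :=
  cond (ex n dat W Z L a)
    (allN n fun U => cond (bq (lt n dat W U) L && !(fr n dat W U))
      (allN 3 fun b => !(Nat.beq ((a + nu n dat W U + b) % 3) 1) ||
        !(poss n dat Z U L b || poss n dat U Z L b)) true) true

def c3 (n dat : ℕ) : Bool :=
  allN n fun W => allN n fun Z => allN 3 fun a => c3g n dat W Z a false && c3g n dat W Z a true

def d1 (n dat : ℕ) (L : Bool) (W : ℕ) : Bool :=
  allN n fun Z => cond (bq (lt n dat W Z) L && fr n dat W Z)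
    (allN n fun Z2 => cond (bq (lt n dat W Z2) L && fr n dat W Z2)
      (allN 3 fun a => !(ex n dat Z2 Z L a)) true) true

/-- The mask `m` claims which pairs (part, letter) have no exceptional edge in their free
neighbourhood. -/
def cd (n dat m : ℕ) : Bool :=
  allN n fun W =>
    (cond (Nat.beq ((m >>> (2 * W)) % 2) 1) (d1 n dat false W) true) &&
    (cond (Nat.beq ((m >>> (2 * W + 1)) % 2) 1) (d1 n dat true W) true)

def dd (n dat m : ℕ) (L : Bool) (W X Y : ℕ) : Bool :=
  Nat.beq ((m >>> (2 * W + cond L 1 0)) % 2) 1 &&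
    allN n fun V => cond (bq (lt n dat V W) L && fr n dat V W)
      (!(bq (lt n dat V X) L && bq (lt n dat V Y) L)) true

def bad (K : Bool) (k : ℕ) (L : Bool) (a : ℕ) (M : Bool) (b : ℕ) : Bool :=
  bq K L && (bq L M && Nat.beq ((k + a + b) % 3) 1)

def needed (n dat X Y : ℕ) (L : Bool) (a : ℕ) (M : Bool) (b : ℕ) : Bool :=
  anyN 3 fun k =>
    (!(bad false k L a M b) && (poss n dat X Y false k || poss n dat Y X false k)) ||
    (!(bad true k L a M b) && (poss n dat X Y true k || poss n dat Y X true k))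

def serve (n dat m X Y : ℕ) (L : Bool) (a : ℕ) (M : Bool) (b : ℕ) : Bool :=
  anyN n fun W => poss n dat W X L a && (poss n dat W Y M b &&
    (!(bq L M) || (dft n dat W X L a || (dft n dat W Y M b || dd n dat m L W X Y))))

def c4 (n dat m : ℕ) : Bool :=
  allN n fun X => allN n fun Y => allN 3 fun a => allN 3 fun b =>
    let g : Bool → Bool → Bool := fun L M =>
      cond (needed n dat X Y L a M b) (serve n dat m X Y L a M b) true
    (g false false && g false true) && (g true false && g true true)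

theorem good1 {n dat : ℕ} (h : c1 n dat = true) (W Z U : Fin n)
    (e1 : (tab n dat).lt W Z = (tab n dat).lt W U)
    (e2 : (tab n dat).lt Z U = (tab n dat).lt W U) :
    (tab n dat).fr W Z = false ∧ (tab n dat).fr W U = false ∧ (tab n dat).fr Z U = false ∧
      (tab n dat).nu W Z + (tab n dat).nu W U + (tab n dat).nu Z U ≠ 1 := by
  have h1 := allN_get (allN_get (allN_get h W W.2) Z Z.2) U U.2
  rw [bq_of (show lt n dat W Z = lt n dat W U from e1),
    bq_of (show lt n dat Z U = lt n dat W U from e2)] at h1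
  have h2 : (!(fr n dat W Z) && (!(fr n dat W U) && (!(fr n dat Z U) &&
        !(Nat.beq ((nu n dat W Z + nu n dat W U + nu n dat Z U) % 3) 1)))) = true := h1
  rw [Bool.and_eq_true, Bool.and_eq_true, Bool.and_eq_true] at h2
  obtain ⟨a1, a2, a3, a4⟩ := h2
  refine ⟨?_, ?_, ?_, ?_⟩
  · exact Bool.not_eq_true' _ ▸ a1
  · exact Bool.not_eq_true' _ ▸ a2
  · exact Bool.not_eq_true' _ ▸ a3
  · show ((nu n dat W Z : ℕ) : ZMod 3) + ((nu n dat W U : ℕ) : ZMod 3) +
      ((nu n dat Z U : ℕ) : ZMod 3) ≠ 1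
    rw [← Nat.cast_add, ← Nat.cast_add, Ne, cast3]
    exact beq1 a4

theorem gsplit {g : Bool → Bool} (h : (g false && g true) = true) (L : Bool) : g L = true := by
  rw [Bool.and_eq_true] at h
  cases L
  · exact h.1
  · exact h.2

theorem good2 {n dat : ℕ} (h : c2 n dat = true) (W Z U : Fin n) (a : ZMod 3)
    (e1 : (tab n dat).lt W Z = (tab n dat).lt W U)
    (e2 : (tab n dat).ex Z U ((tab n dat).lt W U) a = true) :
    ((tab n dat).fr W Z = true ∧ (tab n dat).fr W U = true) ∨
      ((tab n dat).fr W Z = false ∧ (tab n dat).fr W U = false ∧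
        (tab n dat).nu W Z + (tab n dat).nu W U + a ≠ 1) := by
  have h0 := allN_get (allN_get (allN_get h Z Z.2) U U.2) a.val (ZMod.val_lt a)
  have h1 : cond (ex n dat Z U (lt n dat W U) a.val) _ true = true :=
    gsplit (g := c2g n dat Z U a.val) h0 (lt n dat W U)
  have e2' : ex n dat Z U (lt n dat W U) a.val = true := e2
  rw [e2'] at h1
  have h2 := allN_get (n := n) h1 W W.2
  rw [bq_of (show lt n dat W Z = lt n dat W U from e1), bq_of rfl] at h2
  have h3 : ((fr n dat W Z && fr n dat W U) || (!(fr n dat W Z) && (!(fr n dat W U) &&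
          !(Nat.beq ((nu n dat W Z + nu n dat W U + a.val) % 3) 1)))) = true := h2
  rw [Bool.or_eq_true, Bool.and_eq_true, Bool.and_eq_true, Bool.and_eq_true] at h3
  rcases h3 with ⟨h3, h4⟩ | ⟨a1, a2, a4⟩
  · exact Or.inl ⟨h3, h4⟩
  · right
    refine ⟨?_, ?_, ?_⟩
    · exact Bool.not_eq_true' _ ▸ a1
    · exact Bool.not_eq_true' _ ▸ a2
    · show ((nu n dat W Z : ℕ) : ZMod 3) + ((nu n dat W U : ℕ) : ZMod 3) + a ≠ 1
      rw [← ZMod.natCast_zmod_val a, ← Nat.cast_add, ← Nat.cast_add, Ne, cast3]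
      exact beq1 a4

theorem good3 {n dat : ℕ} (h : c3 n dat = true) (W Z U : Fin n) (L : Bool) (a b : ZMod 3)
    (e1 : (tab n dat).ex W Z L a = true) (e2 : (tab n dat).lt W U = L)
    (e3 : (tab n dat).fr W U = false)
    (e4 : (tab n dat).Poss Z U (L, b) ∨ (tab n dat).Poss U Z (L, b)) :
    a + (tab n dat).nu W U + b ≠ 1 := by
  have h0 := allN_get (allN_get (allN_get h W W.2) Z Z.2) a.val (ZMod.val_lt a)
  have h1 : cond (ex n dat W Z L a.val) _ true = true :=
    gsplit (g := c3g n dat W Z a.val) h0 L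
  have e1' : ex n dat W Z L a.val = true := e1
  rw [e1'] at h1
  have h2 := allN_get (n := n) h1 U U.2
  have e2' : lt n dat W U = L := e2
  have e3' : fr n dat W U = false := e3
  rw [bq_of e2', e3'] at h2
  have h2' : allN 3 (fun b => !(Nat.beq ((a.val + nu n dat W U + b) % 3) 1) ||
      !(poss n dat Z U L b || poss n dat U Z L b)) = true := h2
  have h3 := allN_get h2' b.val (ZMod.val_lt b)
  have h4 : (poss n dat Z U L b.val || poss n dat U Z L b.val) = true := by
    rw [Bool.or_eq_true]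
    rcases e4 with e4 | e4
    · exact Or.inl (poss_of e4)
    · exact Or.inr (poss_of e4)
  rw [h4, Bool.or_eq_true] at h3
  rcases h3 with h3 | h3
  · show a + ((nu n dat W U : ℕ) : ZMod 3) + b ≠ 1
    intro hh
    have h5 : (a.val + nu n dat W U + b.val) % 3 = 1 := by
      rw [← cast3, Nat.cast_add, Nat.cast_add, ZMod.natCast_zmod_val, ZMod.natCast_zmod_val]
      exact hh
    exact beq1 h3 h5
  · exact absurd h3 (by decide)

theorem of_bq {a b : Bool} (h : bq a b = true) : a = b := by
  revert h; cases a <;> cases b <;> decide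

theorem d1_of {n dat : ℕ} {L : Bool} {W : Fin n} (h : d1 n dat L W = true) :
    ∀ Z Z2, (tab n dat).lt W Z = L → (tab n dat).fr W Z = true → (tab n dat).lt W Z2 = L →
      (tab n dat).fr W Z2 = true → ∀ a, ¬ (tab n dat).ex Z2 Z L a = true := by
  intro Z Z2 h1 h2 h3 h4 a h5
  have e1 := allN_get (n := n) h Z Z.2
  rw [bq_of (show lt n dat W Z = L from h1), show fr n dat W Z = true from h2] at e1
  have e2 := allN_get (n := n) e1 Z2 Z2.2
  rw [bq_of (show lt n dat W Z2 = L from h3), show fr n dat W Z2 = true from h4] at e2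
  have e2' : allN 3 (fun a => !(ex n dat Z2 Z L a)) = true := e2
  have e3 := allN_get e2' a.val (ZMod.val_lt a)
  rw [show ex n dat Z2 Z L a.val = true from h5] at e3
  exact absurd e3 (by decide)

theorem dd_of {n dat m : ℕ} (hm : cd n dat m = true) {L : Bool} {W X Y : Fin n}
    (h : dd n dat m L W X Y = true) : (tab n dat).DD L W X Y := by
  unfold dd at h
  rw [Bool.and_eq_true] at h
  refine ⟨?_, ?_⟩
  · have h1 := allN_get hm W W.2
    rw [Bool.and_eq_true] at h1
    cases L
    · have h2 := h1.1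
      have h3 : Nat.beq ((m >>> (2 * (W : ℕ))) % 2) 1 = true := h.1
      rw [h3] at h2
      exact d1_of h2
    · have h2 := h1.2
      have h3 : Nat.beq ((m >>> (2 * (W : ℕ) + 1)) % 2) 1 = true := h.1
      rw [h3] at h2
      exact d1_of h2
  · intro V h1 h2 h3
    have e1 := allN_get (n := n) h.2 V V.2
    rw [bq_of (show lt n dat V W = L from h1), show fr n dat V W = true from h2,
      bq_of (show lt n dat V X = L from h3.1), bq_of (show lt n dat V Y = L from h3.2)] at e1
    exact absurd e1 (by decide)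

theorem bad_of {k p q : LV} (h : bad k.1 k.2.val p.1 p.2.val q.1 q.2.val = true) :
    BadLV k p q := by
  unfold bad at h
  rw [Bool.and_eq_true, Bool.and_eq_true] at h
  refine ⟨of_bq h.1, of_bq h.2.1, ?_⟩
  have h3 := Nat.eq_of_beq_eq_true h.2.2
  rw [← cast3, Nat.cast_add, Nat.cast_add, ZMod.natCast_zmod_val, ZMod.natCast_zmod_val,
    ZMod.natCast_zmod_val] at h3
  exact h3

theorem anyN_of {n : ℕ} {f : ℕ → Bool} {k : ℕ} (hk : k < n) (h : f k = true) :
    anyN n f = true := by
  induction n with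
  | zero => exact absurd hk (Nat.not_lt_zero k)
  | succ n ih =>
    show (f n || anyN n f) = true
    rw [Bool.or_eq_true]
    rcases Nat.lt_succ_iff_lt_or_eq.mp hk with h1 | h1
    · exact Or.inr (ih h1)
    · left; rw [← h1]; exact h

theorem good4 {n dat m : ℕ} (hm : cd n dat m = true) (h : c4 n dat m = true) (X Y : Fin n)
    (k p q : LV) (hk : (tab n dat).Poss X Y k ∨ (tab n dat).Poss Y X k)
    (hb : ¬ BadLV k p q) :
    ∃ W, (tab n dat).Poss W X p ∧ (tab n dat).Poss W Y q ∧
      (p.1 = q.1 → ¬ (tab n dat).Dft W X p → ¬ (tab n dat).Dft W Y q →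
        (tab n dat).DD p.1 W X Y) := by
  have h0 := allN_get (n := 3) (allN_get (n := 3) (allN_get (n := n) (allN_get (n := n) h X X.2)
    Y Y.2) p.2.val (ZMod.val_lt _)) q.2.val (ZMod.val_lt _)
  have h1 : cond (needed n dat X Y p.1 p.2.val q.1 q.2.val)
      (serve n dat m X Y p.1 p.2.val q.1 q.2.val) true = true := by
    have h2 := h0
    rw [Bool.and_eq_true, Bool.and_eq_true, Bool.and_eq_true] at h2
    cases hp : p.1 <;> cases hq : q.1
    · exact h2.1.1
    · exact h2.1.2
    · exact h2.2.1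
    · exact h2.2.2
  have hn : needed n dat X Y p.1 p.2.val q.1 q.2.val = true := by
    unfold needed
    refine anyN_of (k := k.2.val) (ZMod.val_lt _) ?_
    have hposs : (poss n dat X Y k.1 k.2.val || poss n dat Y X k.1 k.2.val) = true := by
      rw [Bool.or_eq_true]
      rcases hk with hk | hk
      · exact Or.inl (poss_of hk)
      · exact Or.inr (poss_of hk)
    have hnb : (!(bad k.1 k.2.val p.1 p.2.val q.1 q.2.val)) = true := by
      cases hh : bad k.1 k.2.val p.1 p.2.val q.1 q.2.val with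
      | false => rfl
      | true => exact absurd (bad_of hh) hb
    cases hk1 : k.1
    · rw [hk1] at hposs hnb
      rw [hposs, hnb]; rfl
    · rw [hk1] at hposs hnb
      rw [hposs, hnb]
      simp
  rw [hn] at h1
  obtain ⟨W, hW, hs⟩ := anyN_get (n := n) h1
  rw [Bool.and_eq_true, Bool.and_eq_true, Bool.or_eq_true, Bool.or_eq_true,
    Bool.or_eq_true] at hs
  obtain ⟨s1, s2, s3⟩ := hs
  have hpe : p = (p.1, ((p.2.val : ℕ) : ZMod 3)) := by rw [ZMod.natCast_zmod_val]
  have hqe : q = (q.1, ((q.2.val : ℕ) : ZMod 3)) := by rw [ZMod.natCast_zmod_val]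
  refine ⟨⟨W, hW⟩, ?_, ?_, ?_⟩
  · rw [hpe]
    exact of_poss (W := ⟨W, hW⟩) (ZMod.val_lt _) s1
  · rw [hqe]
    exact of_poss (W := ⟨W, hW⟩) (ZMod.val_lt _) s2
  · intro e1 e2 e3
    rcases s3 with s3 | s3 | s3 | s3
    · rw [e1, bq_of rfl] at s3
      exact absurd s3 (by decide)
    · refine absurd ?_ e2
      rw [hpe]
      exact of_dft (W := ⟨W, hW⟩) (ZMod.val_lt _) s3
    · refine absurd ?_ e3
      rw [hqe]
      exact of_dft (W := ⟨W, hW⟩) (ZMod.val_lt _) s3
    · exact dd_of (W := ⟨W, hW⟩) hm s3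

/-- The complete check. -/
def chk (n dat m : ℕ) : Bool :=
  c1 n dat && (c2 n dat && (c3 n dat && (cd n dat m && c4 n dat m)))

theorem good_of_chk {n dat m : ℕ} (h : chk n dat m = true) : (tab n dat).Good := by
  unfold chk at h
  rw [Bool.and_eq_true, Bool.and_eq_true, Bool.and_eq_true, Bool.and_eq_true] at h
  obtain ⟨h1, h2, h3, h4, h5⟩ := h
  exact ⟨good1 h1, good2 h2, good3 h3, good4 h4 h5⟩

theorem rep_of_chk {n dat m : ℕ} (hn : 0 < n) (h : chk n dat m = true) :
    ∃ (U : Type) (r : Set Atom → Set (U × U)), IsRepresentation U r := by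
  have : Nonempty (Fin n) := ⟨⟨0, hn⟩⟩
  exact FOTab.rep_of_good (good_of_chk h)

end FOC

end Pool.Agent.RA6
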