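import Pool.Agent.RA6.Defs99

/-!
Chain construction for MP_cf0286_al: a class of finite coloured graphs with the one point
extension property gives a colouring of the complete graph on `Nat`.
-/

namespace Pool.Agent.RA6

/-- decoding of a request -/
def req (k : ℕ) : (ℕ × ℕ) × (ZMod 6 × ZMod 6) :=
  ((k.unpair.1.unpair.1.unpair.1, k.unpair.1.unpair.1.unpair.2),
    ((k.unpair.1.unpair.2.unpair.1 : ℕ), (k.unpair.1.unpair.2.unpair.2 : ℕ)))

theorem req_surj (x y : ℕ) (a b : ZMod 6) (m : ℕ) :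
    ∃ k, m ≤ k ∧ req k = ((x, y), (a, b)) := by
  refine ⟨Nat.pair (Nat.pair (Nat.pair x y) (Nat.pair a.val b.val)) m, Nat.right_le_pair _ _, ?_⟩
  simp [req]

/-- One point extension property of a class of states. A state in `S n` is a coloured complete
graph on the vertices `0, ..., n-1` (`col s i j` matters only for `i, j < n`), with whatever
additional data. -/
structure StepClass (S : ℕ → Type) (col : {n : ℕ} → S n → ℕ → ℕ → ZMod 6) : Prop where
  symm : ∀ n (s : S n) i j, i < n → j < n → i ≠ j → col s i j = col s j i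
  no_forb : ∀ n (s : S n) i j k, i < n → j < n → k < n → i ≠ j → j ≠ k → i ≠ k →
    ¬ Forbidden (col s i j) (col s j k) (col s i k)
  step : ∀ n (s : S n) x y a b, x < n → y < n → x ≠ y → ¬ Forbidden (col s x y) a b →
    ∃ s' : S (n + 1), (∀ i j, i < n → j < n → i ≠ j → col s' i j = col s i j) ∧
      col s' x n = a ∧ col s' n y = b

theorem forb_diag : ∀ s : ZMod 6, ¬ Forbidden s s s := by decide

section chain

variable {S : ℕ → Type} {col : {n : ℕ} → S n → ℕ → ℕ → ZMod 6}

theorem exists_next (h : StepClass S col) (k : ℕ) (n : ℕ) (hn : 2 ≤ n) (s : S n) :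
    ∃ s' : S (n + 1), (∀ i j, i < n → j < n → i ≠ j → col s' i j = col s i j) ∧
      ((req k).1.1 < n → (req k).1.2 < n → (req k).1.1 ≠ (req k).1.2 →
        ¬ Forbidden (col s (req k).1.1 (req k).1.2) (req k).2.1 (req k).2.2 →
        col s' (req k).1.1 n = (req k).2.1 ∧ col s' n (req k).1.2 = (req k).2.2) := by
  by_cases hk : (req k).1.1 < n ∧ (req k).1.2 < n ∧ (req k).1.1 ≠ (req k).1.2 ∧
      ¬ Forbidden (col s (req k).1.1 (req k).1.2) (req k).2.1 (req k).2.2
  · obtain ⟨h1, h2, h3, h4⟩ := hk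
    obtain ⟨s', hs, ha, hb⟩ := h.step n s _ _ _ _ h1 h2 h3 h4
    exact ⟨s', hs, fun _ _ _ _ => ⟨ha, hb⟩⟩
  · obtain ⟨s', hs, _, _⟩ := h.step n s 0 1 (col s 0 1) (col s 0 1) (by omega) (by omega)
      (by omega) (forb_diag _)
    exact ⟨s', hs, fun h1 h2 h3 h4 => absurd ⟨h1, h2, h3, h4⟩ hk⟩

/-- The chain of states. -/
noncomputable def chain (h : StepClass S col) (n0 : ℕ) (hn : 2 ≤ n0) (s0 : S n0) :
    (k : ℕ) → S (n0 + k)
  | 0 => s0
  | (k + 1) => (exists_next h k (n0 + k) (by omega) (chain h n0 hn s0 k)).choose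

theorem chain_ext (h : StepClass S col) (n0 : ℕ) (hn : 2 ≤ n0) (s0 : S n0) (k : ℕ) (i j : ℕ)
    (hi : i < n0 + k) (hj : j < n0 + k) (hij : i ≠ j) :
    col (chain h n0 hn s0 (k + 1)) i j = col (chain h n0 hn s0 k) i j :=
  (exists_next h k (n0 + k) (by omega) (chain h n0 hn s0 k)).choose_spec.1 i j hi hj hij

theorem chain_stable (h : StepClass S col) (n0 : ℕ) (hn : 2 ≤ n0) (s0 : S n0) (k d : ℕ) (i j : ℕ)
    (hi : i < n0 + k) (hj : j < n0 + k) (hij : i ≠ j) :
    col (chain h n0 hn s0 (k + d)) i j = col (chain h n0 hn s0 k) i j := by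
  induction d with
  | zero => rfl
  | succ d ih =>
    rw [← ih]
    exact chain_ext h n0 hn s0 (k + d) i j (by omega) (by omega) hij

theorem chain_wit (h : StepClass S col) (n0 : ℕ) (hn : 2 ≤ n0) (s0 : S n0) (k : ℕ) (x y : ℕ)
    (a b : ZMod 6) (hreq : req k = ((x, y), (a, b))) (hx : x < n0 + k) (hy : y < n0 + k)
    (hxy : x ≠ y) (hf : ¬ Forbidden (col (chain h n0 hn s0 k) x y) a b) :
    col (chain h n0 hn s0 (k + 1)) x (n0 + k) = a ∧
      col (chain h n0 hn s0 (k + 1)) (n0 + k) y = b := by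
  have hsp := (exists_next h k (n0 + k) (by omega) (chain h n0 hn s0 k)).choose_spec.2
  have e1 : (req k).1.1 = x := by rw [hreq]
  have e2 : (req k).1.2 = y := by rw [hreq]
  have e3 : (req k).2.1 = a := by rw [hreq]
  have e4 : (req k).2.2 = b := by rw [hreq]
  clear hreq
  subst e1 e2 e3 e4
  exact hsp hx hy hxy hf

/-- The one point extension property gives a colouring of the complete graph on `Nat`. -/
theorem colouring_of_step (h : StepClass S col) (n0 : ℕ) (hn : 2 ≤ n0) (s0 : S n0) :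
    ∃ c : ℕ → ℕ → ZMod 6, IsColouring c := by
  let c : ℕ → ℕ → ZMod 6 := fun i j => col (chain h n0 hn s0 (max i j)) i j
  have hc : ∀ i j k, i ≠ j → i < n0 + k → j < n0 + k →
      c i j = col (chain h n0 hn s0 k) i j := by
    intro i j k hij hi hj
    rcases le_total (max i j) k with hk | hk
    · obtain ⟨d, rfl⟩ := Nat.exists_eq_add_of_le hk
      exact (chain_stable h n0 hn s0 (max i j) d i j (by omega) (by omega) hij).symm
    · obtain ⟨d, hd⟩ := Nat.exists_eq_add_of_le hk
      show col (chain h n0 hn s0 (max i j)) i j = _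
      rw [hd]
      exact chain_stable h n0 hn s0 k d i j hi hj hij
  refine ⟨c, ⟨0, 1, by omega⟩, ?_, ?_, ?_⟩
  · intro x y hxy
    rw [hc x y (max x y) hxy (by omega) (by omega), hc y x (max x y) hxy.symm (by omega) (by omega)]
    exact h.symm _ _ _ _ (by omega) (by omega) hxy
  · intro x y z hxy hyz hxz
    have hx : x < n0 + (x + y + z) := by omega
    have hy : y < n0 + (x + y + z) := by omega
    have hz : z < n0 + (x + y + z) := by omega
    rw [hc x y _ hxy hx hy, hc y z _ hyz hy hz, hc x z _ hxz hx hz]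
    exact h.no_forb _ _ _ _ _ hx hy hz hxy hyz hxz
  · intro x y hxy s t hst
    obtain ⟨k, hk, hreq⟩ := req_surj x y s t (x + y)
    have hx : x < n0 + k := by omega
    have hy : y < n0 + k := by omega
    have hst' : ¬ Forbidden (col (chain h n0 hn s0 k) x y) s t := by
      rw [← hc x y k hxy hx hy]; exact hst
    obtain ⟨h1, h2⟩ := chain_wit h n0 hn s0 k x y s t hreq hx hy hxy hst'
    refine ⟨n0 + k, by omega, by omega, ?_, ?_⟩
    · rw [hc x (n0 + k) (k + 1) (by omega) (by omega) (by omega)]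
      exact h1
    · rw [hc (n0 + k) y (k + 1) (by omega) (by omega) (by omega)]
      exact h2

/-- The one point extension property gives a representation of the algebra. -/
theorem rep_of_step (h : StepClass S col) (n0 : ℕ) (hn : 2 ≤ n0) (s0 : S n0) :
    ∃ (U : Type) (r : Set Atom → Set (U × U)), Nonempty U ∧ IsRepresentation U r := by
  obtain ⟨c, hc⟩ := colouring_of_step h n0 hn s0
  obtain ⟨r, hr⟩ := rep_of_colouring hc
  exact ⟨ℕ, r, ⟨0⟩, hr⟩

end chain

end Pool.Agent.RA6
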