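import Pool.Agent.RA6.Frame99b

/-!
Chain construction, third version: an unserved request must be served in some extension of the
state by finitely many vertices.
-/

namespace Pool.Agent.RA6

/-- Extension property: an unserved request is served in an extension by finitely many
vertices. -/
structure StepClass3 (S : ℕ → Type) (col : {n : ℕ} → S n → ℕ → ℕ → ZMod 6) : Prop where
  symm : ∀ n (s : S n) i j, i < n → j < n → i ≠ j → col s i j = col s j i
  no_forb : ∀ n (s : S n) i j k, i < n → j < n → k < n → i ≠ j → j ≠ k → i ≠ k →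
    ¬ Forbidden (col s i j) (col s j k) (col s i k)
  step : ∀ n (s : S n) x y a b, x < n → y < n → x ≠ y → ¬ Forbidden (col s x y) a b →
    ∃ m, n ≤ m ∧ ∃ s' : S m, (∀ i j, i < n → j < n → i ≠ j → col s' i j = col s i j) ∧
      ∃ w, w < m ∧ w ≠ x ∧ w ≠ y ∧ col s' x w = a ∧ col s' w y = b

section chain3

variable {S : ℕ → Type} {col : {n : ℕ} → S n → ℕ → ℕ → ZMod 6}

theorem exists_next3 (h : StepClass3 S col) (k : ℕ) (p : Σ n, S n) :
    ∃ q : (Σ n, S n), p.1 ≤ q.1 ∧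
      (∀ i j, i < p.1 → j < p.1 → i ≠ j → col q.2 i j = col p.2 i j) ∧
      ((req k).1.1 < p.1 → (req k).1.2 < p.1 → (req k).1.1 ≠ (req k).1.2 →
        ¬ Forbidden (col p.2 (req k).1.1 (req k).1.2) (req k).2.1 (req k).2.2 →
        ∃ w, w < q.1 ∧ w ≠ (req k).1.1 ∧ w ≠ (req k).1.2 ∧
          col q.2 (req k).1.1 w = (req k).2.1 ∧ col q.2 w (req k).1.2 = (req k).2.2) := by
  obtain ⟨n, s⟩ := p
  by_cases hk : (req k).1.1 < n ∧ (req k).1.2 < n ∧ (req k).1.1 ≠ (req k).1.2 ∧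
      ¬ Forbidden (col s (req k).1.1 (req k).1.2) (req k).2.1 (req k).2.2
  · obtain ⟨h1, h2, h3, h4⟩ := hk
    obtain ⟨m, hm, s', hs, w, hw1, hw2, hw3, ha, hb⟩ := h.step n s _ _ _ _ h1 h2 h3 h4
    exact ⟨⟨m, s'⟩, hm, hs, fun _ _ _ _ => ⟨w, hw1, hw2, hw3, ha, hb⟩⟩
  · refine ⟨⟨n, s⟩, le_refl n, fun _ _ _ _ _ => rfl, fun h1 h2 h3 h4 => ?_⟩
    exact absurd ⟨h1, h2, h3, h4⟩ hk

/-- The chain of states. -/
noncomputable def chain3 (h : StepClass3 S col) (n0 : ℕ) (s0 : S n0) : ℕ → (Σ n, S n)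
  | 0 => ⟨n0, s0⟩
  | (k + 1) => (exists_next3 h k (chain3 h n0 s0 k)).choose

theorem chain3_le (h : StepClass3 S col) (n0 : ℕ) (s0 : S n0) (k : ℕ) :
    (chain3 h n0 s0 k).1 ≤ (chain3 h n0 s0 (k + 1)).1 :=
  (exists_next3 h k (chain3 h n0 s0 k)).choose_spec.1

theorem chain3_ext (h : StepClass3 S col) (n0 : ℕ) (s0 : S n0) (k : ℕ) (i j : ℕ)
    (hi : i < (chain3 h n0 s0 k).1) (hj : j < (chain3 h n0 s0 k).1) (hij : i ≠ j) :
    col (chain3 h n0 s0 (k + 1)).2 i j = col (chain3 h n0 s0 k).2 i j :=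
  (exists_next3 h k (chain3 h n0 s0 k)).choose_spec.2.1 i j hi hj hij

theorem chain3_mono (h : StepClass3 S col) (n0 : ℕ) (s0 : S n0) (k d : ℕ) :
    (chain3 h n0 s0 k).1 ≤ (chain3 h n0 s0 (k + d)).1 := by
  induction d with
  | zero => exact le_refl _
  | succ d ih => exact ih.trans (chain3_le h n0 s0 (k + d))

theorem chain3_stable (h : StepClass3 S col) (n0 : ℕ) (s0 : S n0) (k d : ℕ) (i j : ℕ)
    (hi : i < (chain3 h n0 s0 k).1) (hj : j < (chain3 h n0 s0 k).1) (hij : i ≠ j) :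
    col (chain3 h n0 s0 (k + d)).2 i j = col (chain3 h n0 s0 k).2 i j := by
  induction d with
  | zero => rfl
  | succ d ih =>
    rw [← ih]
    have := chain3_mono h n0 s0 k d
    exact chain3_ext h n0 s0 (k + d) i j (by omega) (by omega) hij

theorem chain3_wit (h : StepClass3 S col) (n0 : ℕ) (s0 : S n0) (k : ℕ) (x y : ℕ)
    (a b : ZMod 6) (hreq : req k = ((x, y), (a, b))) (hx : x < (chain3 h n0 s0 k).1)
    (hy : y < (chain3 h n0 s0 k).1) (hxy : x ≠ y)
    (hf : ¬ Forbidden (col (chain3 h n0 s0 k).2 x y) a b) :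
    ∃ w, w < (chain3 h n0 s0 (k + 1)).1 ∧ w ≠ x ∧ w ≠ y ∧
      col (chain3 h n0 s0 (k + 1)).2 x w = a ∧ col (chain3 h n0 s0 (k + 1)).2 w y = b := by
  have hsp := (exists_next3 h k (chain3 h n0 s0 k)).choose_spec.2.2
  have e1 : (req k).1.1 = x := by rw [hreq]
  have e2 : (req k).1.2 = y := by rw [hreq]
  have e3 : (req k).2.1 = a := by rw [hreq]
  have e4 : (req k).2.2 = b := by rw [hreq]
  clear hreq
  subst e1 e2 e3 e4
  exact hsp hx hy hxy hf

/-- The vertices of the union of the chain. -/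
def Reached3 (h : StepClass3 S col) (n0 : ℕ) (s0 : S n0) (i : ℕ) : Prop :=
  ∃ k, i < (chain3 h n0 s0 k).1

open Classical in
/-- The colour in the union. -/
noncomputable def limCol3 (h : StepClass3 S col) (n0 : ℕ) (s0 : S n0) (i j : ℕ) : ZMod 6 :=
  if hk : ∃ k, i < (chain3 h n0 s0 k).1 ∧ j < (chain3 h n0 s0 k).1 then
    col (chain3 h n0 s0 (Nat.find hk)).2 i j else 0

theorem limCol3_eq (h : StepClass3 S col) (n0 : ℕ) (s0 : S n0) (i j k : ℕ) (hij : i ≠ j)
    (hi : i < (chain3 h n0 s0 k).1) (hj : j < (chain3 h n0 s0 k).1) :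
    limCol3 h n0 s0 i j = col (chain3 h n0 s0 k).2 i j := by
  classical
  have hk : ∃ k, i < (chain3 h n0 s0 k).1 ∧ j < (chain3 h n0 s0 k).1 := ⟨k, hi, hj⟩
  have e : limCol3 h n0 s0 i j = col (chain3 h n0 s0 (Nat.find hk)).2 i j := by
    unfold limCol3
    rw [dif_pos hk]
  rw [e]
  have hle : Nat.find hk ≤ k := Nat.find_min' hk ⟨hi, hj⟩
  obtain ⟨d, hd⟩ := Nat.exists_eq_add_of_le hle
  have hs := Nat.find_spec hk
  have := chain3_stable h n0 s0 (Nat.find hk) d i j hs.1 hs.2 hij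
  rw [← hd] at this
  exact this.symm

/-- The extension property gives a colouring of a complete graph. -/
theorem colouring_of_step3 (h : StepClass3 S col) (n0 : ℕ) (hn : 2 ≤ n0) (s0 : S n0) :
    ∃ (U : Type) (c : U → U → ZMod 6), Nonempty U ∧ IsColouring c := by
  refine ⟨{i : ℕ // Reached3 h n0 s0 i}, fun i j => limCol3 h n0 s0 i.1 j.1,
    ⟨⟨0, 0, by show 0 < n0; omega⟩⟩, ?_, ?_, ?_, ?_⟩
  · refine ⟨⟨0, 0, by show 0 < n0; omega⟩, ⟨1, 0, by show 1 < n0; omega⟩, ?_⟩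
    intro hh
    have := congrArg Subtype.val hh
    simp at this
  · rintro ⟨x, kx, hx⟩ ⟨y, ky, hy⟩ hxy
    have hne : x ≠ y := fun hh => hxy (Subtype.ext hh)
    have h1 := chain3_mono h n0 s0 kx ky
    have h2 := chain3_mono h n0 s0 ky kx
    rw [Nat.add_comm ky kx] at h2
    have hx' : x < (chain3 h n0 s0 (kx + ky)).1 := by omega
    have hy' : y < (chain3 h n0 s0 (kx + ky)).1 := by omega
    show limCol3 h n0 s0 x y = limCol3 h n0 s0 y x
    rw [limCol3_eq h n0 s0 x y _ hne hx' hy', limCol3_eq h n0 s0 y x _ hne.symm hy' hx']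
    exact h.symm _ _ _ _ hx' hy' hne
  · rintro ⟨x, kx, hx⟩ ⟨y, ky, hy⟩ ⟨z, kz, hz⟩ hxy hyz hxz
    have hne1 : x ≠ y := fun hh => hxy (Subtype.ext hh)
    have hne2 : y ≠ z := fun hh => hyz (Subtype.ext hh)
    have hne3 : x ≠ z := fun hh => hxz (Subtype.ext hh)
    have h1 := chain3_mono h n0 s0 kx (ky + kz)
    have h2 := chain3_mono h n0 s0 ky (kx + kz)
    have h3 := chain3_mono h n0 s0 kz (kx + ky)
    have e2 : ky + (kx + kz) = kx + (ky + kz) := by omega
    have e3 : kz + (kx + ky) = kx + (ky + kz) := by omega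
    rw [e2] at h2
    rw [e3] at h3
    have hx' : x < (chain3 h n0 s0 (kx + (ky + kz))).1 := by omega
    have hy' : y < (chain3 h n0 s0 (kx + (ky + kz))).1 := by omega
    have hz' : z < (chain3 h n0 s0 (kx + (ky + kz))).1 := by omega
    show ¬ Forbidden (limCol3 h n0 s0 x y) (limCol3 h n0 s0 y z) (limCol3 h n0 s0 x z)
    rw [limCol3_eq h n0 s0 x y _ hne1 hx' hy', limCol3_eq h n0 s0 y z _ hne2 hy' hz',
      limCol3_eq h n0 s0 x z _ hne3 hx' hz']
    exact h.no_forb _ _ _ _ _ hx' hy' hz' hne1 hne2 hne3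
  · rintro ⟨x, kx, hx⟩ ⟨y, ky, hy⟩ hxy s t hst
    have hne : x ≠ y := fun hh => hxy (Subtype.ext hh)
    obtain ⟨k, hk, hreq⟩ := req_surj x y s t (kx + ky)
    obtain ⟨d, hd⟩ := Nat.exists_eq_add_of_le hk
    have h1 := chain3_mono h n0 s0 kx (ky + d)
    have h2 := chain3_mono h n0 s0 ky (kx + d)
    have e1 : kx + (ky + d) = k := by omega
    have e2 : ky + (kx + d) = k := by omega
    rw [e1] at h1
    rw [e2] at h2
    have hx' : x < (chain3 h n0 s0 k).1 := by omega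
    have hy' : y < (chain3 h n0 s0 k).1 := by omega
    have hst' : ¬ Forbidden (col (chain3 h n0 s0 k).2 x y) s t := by
      have hst0 : ¬ Forbidden (limCol3 h n0 s0 x y) s t := hst
      rw [limCol3_eq h n0 s0 x y k hne hx' hy'] at hst0
      exact hst0
    obtain ⟨w, hw, hwx, hwy, hc1, hc2⟩ := chain3_wit h n0 s0 k x y s t hreq hx' hy' hne hst'
    have h3 := chain3_le h n0 s0 k
    refine ⟨⟨w, k + 1, hw⟩, ?_, ?_, ?_, ?_⟩
    · intro hh
      exact hwx (congrArg Subtype.val hh)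
    · intro hh
      exact hwy (congrArg Subtype.val hh)
    · show limCol3 h n0 s0 x w = s
      rw [limCol3_eq h n0 s0 x w (k + 1) (Ne.symm hwx) (by omega) hw]
      exact hc1
    · show limCol3 h n0 s0 w y = t
      rw [limCol3_eq h n0 s0 w y (k + 1) hwy hw (by omega)]
      exact hc2

/-- The extension property gives a representation. -/
theorem rep_of_step3 (h : StepClass3 S col) (n0 : ℕ) (hn : 2 ≤ n0) (s0 : S n0) :
    ∃ (U : Type) (r : Set Atom → Set (U × U)), Nonempty U ∧ IsRepresentation U r := by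
  obtain ⟨U, c, hU, hc⟩ := colouring_of_step3 h n0 hn s0
  obtain ⟨r, hr⟩ := rep_of_colouring hc
  exact ⟨U, r, hU, hr⟩

end chain3

end Pool.Agent.RA6
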