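import Pool.Agent.RA6.GFrame99b
import Pool.Agent.RA6.FOCheck99

/-!
Finite checker for `GTab` on `Fin n`. One natural number codes each of the tables `nat`, `fl`,
`ex`: twelve bits per ordered pair, bit `6 * letter + 3 * e + value`.
-/

namespace Pool.Agent.RA6

namespace GC

open FOC

/-- The three tables and the touch masks (four bits per pair, bit `2 * letter + e`). -/
structure Dat where
  n : ℕ
  nat : ℕ
  fl : ℕ
  ex : ℕ
  tou : ℕ
  pto : ℕ
  wild : ℕ

def row (D : Dat) (t W X : ℕ) : ℕ := (t >>> (12 * (W * D.n + X))) % 4096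

def ix (L e : Bool) (a : ℕ) : ℕ := cond L 6 0 + cond e 3 0 + a

def bt (m i : ℕ) : Bool := Nat.beq ((m >>> i) % 2) 1

def nt (D : Dat) (W X : ℕ) (L e : Bool) (a : ℕ) : Bool := bt (row D D.nat W X) (ix L e a)
def fl (D : Dat) (W X : ℕ) (L e : Bool) (a : ℕ) : Bool := bt (row D D.fl W X) (ix L e a)
def ex (D : Dat) (W X : ℕ) (L e : Bool) (a : ℕ) : Bool := bt (row D D.ex W X) (ix L e a)

/-- Possible in one of the two orders. -/
def ps (D : Dat) (X Z : ℕ) (L e : Bool) (a : ℕ) : Bool :=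
  (nt D X Z L e a || ex D X Z L e a) || (nt D Z X L e a || ex D Z X L e a)

/-- The table. -/
def tab (D : Dat) : GTab (Fin D.n) where
  nat W X L e a := nt D W X L e a.val = true
  fl W X L e a := fl D W X L e a.val = true
  ex W X L e a := ex D W X L e a.val = true
  wild W := bt D.wild W = true

def allL (f : Bool → Bool) : Bool := f false && f true

theorem allL_get {f : Bool → Bool} (h : allL f = true) (b : Bool) : f b = true := gsplit h b

/-- Consistent. -/
def cs (a b c : Bool) : Bool := cond a (bq b c) (!(b && c))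

theorem cs_of {a b c : Bool} (h : Cons a b c) : cs a b c = true := by
  revert h; cases a <;> cases b <;> cases c <;> decide

/-- Values of sum one. -/
def s1 (a b c : ℕ) : Bool := Nat.beq ((a + b + c) % 3) 1

def cSub (D : Dat) : Bool :=
  allN D.n fun W => allN D.n fun X => allL fun L => allL fun e => allN 3 fun a =>
    cond (fl D W X L e a) (nt D W X L e a) true

def c0 (D : Dat) : Bool :=
  anyN D.n fun W => anyN D.n fun X => anyN 3 fun a => nt D W X false false a || nt D W X true false a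

def c1 (D : Dat) : Bool :=
  allN D.n fun W => allN D.n fun Z => allN D.n fun U => allL fun L => allL fun e1 =>
    allL fun e2 => allL fun e3 => cond (cs e1 e2 e3)
      (allN 3 fun a => cond (nt D W Z L e1 a)
        (allN 3 fun b => cond (nt D W U L e2 b && (fl D W Z L e1 a || fl D W U L e2 b))
          (allN 3 fun c => !(s1 a b c) || !(nt D Z U L e3 c)) true) true) true

/-- No touching edge at `Z` in letter `L` and view `e`. -/
def noTouch (D : Dat) (par : Bool) (W Z : ℕ) (L e : Bool) : Bool :=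
  allN 3 fun a => cond (fl D W Z L e a)
    (allN D.n fun U => allL fun e' => allN 3 fun b => cond (nt D W U L e' b)
      (allL fun e3 => cond (cs e e' e3)
        (allN 3 fun c => !(s1 a b c) ||
          !(ex D Z U L e3 c || (!par && ex D U Z L e3 c))) true) true) true

def tbit (m n W Z : ℕ) (L e : Bool) : Bool :=
  bt m (4 * (W * n + Z) + (cond L 2 0 + cond e 1 0))

def cT (D : Dat) : Bool :=
  allN D.n fun W => allN D.n fun Z => allL fun L => allL fun e =>
    (cond (tbit D.tou D.n W Z L e) true (noTouch D false W Z L e)) &&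
    (cond (tbit D.pto D.n W Z L e) true (noTouch D true W Z L e))

/-- The number of colours in the list, as list size test. -/
def inL (D : Dat) (W Z : ℕ) (eR eB : Bool) (xe ye : Bool) (pL : Bool) (p : ℕ) (qL : Bool) (q : ℕ)
    (b1L : Bool) (b1 : ℕ) (b2L : Bool) (b2 : ℕ) (L : Bool) (a : ℕ) : Bool :=
  fl D W Z L (cond L eB eR) a &&
    (!(xe && (bq pL L && (bq L b1L && s1 p a b1))) &&
      !(ye && (bq qL L && (bq L b2L && s1 q a b2))))

def one (b : Bool) : ℕ := cond b 1 0

def cnt (f : Bool → ℕ → Bool) : ℕ :=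
  one (f false 0) + one (f false 1) + one (f false 2) + one (f true 0) + one (f true 1) +
    one (f true 2)

/-- Six Booleans as a function. -/
def g6 (a0 a1 a2 b0 b1 b2 : Bool) (α : LV) : Bool :=
  cond α.1 (if α.2 = 0 then b0 else if α.2 = 1 then b1 else b2)
    (if α.2 = 0 then a0 else if α.2 = 1 then a1 else a2)

theorem g6_eq (f : Bool → ℕ → Bool) (α : LV) :
    f α.1 α.2.val = g6 (f false 0) (f false 1) (f false 2) (f true 0) (f true 1) (f true 2) α := by
  obtain ⟨L, a⟩ := α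
  fin_cases a <;> cases L <;> rfl

theorem g6_n1 : ∀ a0 a1 a2 b0 b1 b2 : Bool,
    Nat.ble 1 (one a0 + one a1 + one a2 + one b0 + one b1 + one b2) = true →
    ∃ α, g6 a0 a1 a2 b0 b1 b2 α = true := by decide +kernel

theorem g6_n2 : ∀ a0 a1 a2 b0 b1 b2 : Bool,
    Nat.ble 2 (one a0 + one a1 + one a2 + one b0 + one b1 + one b2) = true →
    ∀ κ, ∃ α, g6 a0 a1 a2 b0 b1 b2 α = true ∧ α ≠ κ := by decide +kernel

theorem g6_n3 : ∀ a0 a1 a2 b0 b1 b2 : Bool,
    Nat.ble 3 (one a0 + one a1 + one a2 + one b0 + one b1 + one b2) = true →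
    ∀ κ κ', ∃ α, g6 a0 a1 a2 b0 b1 b2 α = true ∧ α ≠ κ ∧ α ≠ κ' := by decide +kernel

theorem cnt_n1 {f : Bool → ℕ → Bool} (h : Nat.ble 1 (cnt f) = true) :
    N1 (fun α : LV => f α.1 α.2.val = true) := by
  obtain ⟨α, hα⟩ := g6_n1 _ _ _ _ _ _ h
  exact ⟨α, (g6_eq f α).trans hα⟩

theorem cnt_n2 {f : Bool → ℕ → Bool} (h : Nat.ble 2 (cnt f) = true) :
    N2 (fun α : LV => f α.1 α.2.val = true) := by
  intro κ
  obtain ⟨α, hα, h1⟩ := g6_n2 _ _ _ _ _ _ h κ
  exact ⟨α, (g6_eq f α).trans hα, h1⟩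

theorem cnt_n3 {f : Bool → ℕ → Bool} (h : Nat.ble 3 (cnt f) = true) :
    N3 (fun α : LV => f α.1 α.2.val = true) := by
  intro κ κ'
  obtain ⟨α, hα, h1, h2⟩ := g6_n3 _ _ _ _ _ _ h κ κ'
  exact ⟨α, (g6_eq f α).trans hα, h1, h2⟩

/-- Class choice: 0 new, 1 first host, 2 second host. -/
def vw (m : ℕ) (sx sy : Bool) : Bool := cond (Nat.beq m 0) false (cond (Nat.beq m 1) sx sy)

/-- Conflict of a viewer with an exceptional edge of colour `(L, a)`. -/
def cf (D : Dat) (V Z U : ℕ) (L e e' : Bool) (a : ℕ) : Bool :=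
  anyN 3 fun b => nt D V Z L e b && (anyN 3 fun c => (s1 b c a && nt D V U L e' c) &&
    (fl D V Z L e b || fl D V U L e' c))

/-- Size test of the list at a third vertex. -/
def th3 (D : Dat) (W Z : ℕ) (xe ye : Bool) (pL : Bool) (p : ℕ) (qL : Bool)
    (q : ℕ) (need : ℕ) (msk : ℕ) (b1L : Bool) (b1 : ℕ) (b2L : Bool) (b2 : ℕ) (eR eB : Bool) :
    Bool :=
  let c := cnt (inL D W Z eR eB xe ye pL p qL q b1L b1 b2L b2)
  Nat.ble 1 c && (Nat.ble need c || !(tbit msk D.n W Z false eR || tbit msk D.n W Z true eB))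

def th2 (D : Dat) (W Z mR mB : ℕ) (rR rB xe ye : Bool) (pL : Bool) (p : ℕ) (qL : Bool)
    (q : ℕ) (need : ℕ) (msk : ℕ) (b1L : Bool) (b1 : ℕ) (b2L : Bool) (b2 : ℕ)
    (xR xB yR yB : Bool) : Bool :=
  cond (cs xR yR rR && cs xB yB rB)
    (th3 D W Z xe ye pL p qL q need msk b1L b1 b2L b2 (vw mR xR yR) (vw mB xB yB)) true

def th1 (D : Dat) (W Z mR mB : ℕ) (rR rB xe ye : Bool) (pL : Bool) (p : ℕ) (qL : Bool)
    (q : ℕ) (need : ℕ) (msk : ℕ) (b1L e1 : Bool) (b1 : ℕ) (b2L e2 : Bool) (b2 : ℕ) : Bool :=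
  cond ((bq b1L pL && Nat.beq b1 p) && (bq b2L qL && Nat.beq b2 q)) true
    (allL fun x2 => allL fun y2 =>
      th2 D W Z mR mB rR rB xe ye pL p qL q need msk b1L b1 b2L b2
        (cond b1L x2 e1) (cond b1L e1 x2) (cond b2L y2 e2) (cond b2L e2 y2))

def th0 (D : Dat) (Y W Z mR mB : ℕ) (rR rB xe ye : Bool) (pL : Bool) (p : ℕ) (qL : Bool)
    (q : ℕ) (need : ℕ) (msk : ℕ) (b1L e1 : Bool) (b1 : ℕ) : Bool :=
  allL fun b2L => allL fun e2 => allN 3 fun b2 => cond (ps D Y Z b2L e2 b2)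
    (th1 D W Z mR mB rR rB xe ye pL p qL q need msk b1L e1 b1 b2L e2 b2) true

/-- The third vertex condition. -/
def third (D : Dat) (X Y W mR mB : ℕ) (rR rB xe ye : Bool) (pL : Bool) (p : ℕ) (qL : Bool)
    (q : ℕ) (need : ℕ) (msk : ℕ) (Z : ℕ) : Bool :=
  allL fun b1L => allL fun e1 => allN 3 fun b1 => cond (ps D X Z b1L e1 b1)
    (th0 D Y W Z mR mB rR rB xe ye pL p qL q need msk b1L e1 b1) true

/-- No older conflicting neighbour of the natural host. -/
def hroot (D : Dat) (W X : ℕ) (pL : Bool) (e : Bool) (p : ℕ) : Bool :=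
  allN D.n fun U => allL fun e' => allN 3 fun b => cond (fl D W U pL e' b)
    (allL fun e3 => cond (cs e e' e3)
      (allN 3 fun c => !(s1 p b c) || !(ex D X U pL e3 c)) true) true

/-- No viewer conflicts with both exceptional edges. -/
def sib (D : Dat) (X Y W : ℕ) (exL : Bool) (pL : Bool) (p : ℕ) (eyL : Bool) (qL : Bool) (q : ℕ)
    (rho : Bool) : Bool :=
  allN D.n fun V => cond (bt D.wild V) true (allL fun tw => allL fun tx =>
    cond (cs tw tx exL && cf D V W X pL tw tx p)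
      (allL fun tw' => allL fun ty => cond (cs tw' ty eyL && cf D V W Y qL tw' ty q)
        (bq pL qL && !(bq tw tw' && cs tx ty rho)) true) true)

def thirdA (D : Dat) (X Y W mR mB : ℕ) (rR rB xe ye : Bool) (pL : Bool) (p : ℕ) (qL : Bool)
    (q : ℕ) (need : ℕ) (msk : ℕ) : Bool :=
  allN D.n fun Z => third D X Y W mR mB rR rB xe ye pL p qL q need msk Z

/-- The four modes. -/
def svm (D : Dat) (X Y : ℕ) (rR rB : Bool) (pL : Bool) (p : ℕ) (qL : Bool) (q : ℕ)
    (W mR mB mode : ℕ) (xn yn ep eq : Bool) : Bool :=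
  cond (Nat.beq mode 0)
    (!(bt D.wild W) && (!(xn && yn) && thirdA D X Y W mR mB rR rB (!xn) (!yn) pL p qL q 2 D.tou))
    (cond (Nat.beq mode 1)
      (!(bt D.wild W) && ((xn && yn) &&
        thirdA D X Y W mR mB rR rB (!xn) (!yn) pL p qL q 3 D.tou))
      (((!xn || hroot D W X pL ep p) && (!yn || hroot D W Y qL eq q)) &&
        (cond (Nat.beq mode 2)
          (!(bt D.wild W) && thirdA D X Y W mR mB rR rB (!xn) (!yn) pL p qL q 2 D.pto)
          (thirdA D X Y W mR mB rR rB (!xn) (!yn) pL p qL q 3 D.pto))))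

/-- A service, the views at the hosts and the naturalness as arguments. -/
def sv0 (D : Dat) (X Y : ℕ) (rR rB : Bool) (pL : Bool) (p : ℕ) (qL : Bool) (q : ℕ)
    (W mR mB mode : ℕ) (xn yn ep eq : Bool) : Bool :=
  (xn || ex D W X pL ep p) && ((yn || ex D W Y qL eq q) &&
  (svm D X Y rR rB pL p qL q W mR mB mode xn yn ep eq &&
   ((xn || yn) || sib D X Y W ep pL p eq qL q (cond pL rB rR))))

/-- A service. -/
def sv (D : Dat) (X Y : ℕ) (rR rB : Bool) (pL : Bool) (p : ℕ) (qL : Bool) (q : ℕ)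
    (W mR mB mode : ℕ) : Bool :=
  Nat.blt W D.n &&
  sv0 D X Y rR rB pL p qL q W mR mB mode
    (nt D W X pL (cond pL (vw mB true rB) (vw mR true rR)) p)
    (nt D W Y qL (cond qL (vw mB rB true) (vw mR rR true)) q)
    (cond pL (vw mB true rB) (vw mR true rR)) (cond qL (vw mB rB true) (vw mR rR true))

/-- Consistency of the two views and the class relation from a service. -/
theorem row_mem {n : ℕ} (W : Fin n) : (W : ℕ) < n := W.2

variable {D : Dat}

theorem N1.mono {A A' : LV → Prop} (h : ∀ α, A α → A' α) (h1 : N1 A) : N1 A' := by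
  obtain ⟨a, ha⟩ := h1
  exact ⟨a, h a ha⟩

theorem N2.mono {A A' : LV → Prop} (h : ∀ α, A α → A' α) (h1 : N2 A) : N2 A' := by
  intro κ
  obtain ⟨a, ha, h2⟩ := h1 κ
  exact ⟨a, h a ha, h2⟩

theorem N3.mono {A A' : LV → Prop} (h : ∀ α, A α → A' α) (h1 : N3 A) : N3 A' := by
  intro κ κ'
  obtain ⟨a, ha, h2⟩ := h1 κ κ'
  exact ⟨a, h a ha, h2⟩

theorem s1_of {a b c : ZMod 3} (h : a + b + c = 1) : s1 a.val b.val c.val = true := by
  unfold s1
  have h1 : ((a.val + b.val + c.val : ℕ) : ZMod 3) = 1 := by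
    rw [Nat.cast_add, Nat.cast_add, ZMod.natCast_zmod_val, ZMod.natCast_zmod_val,
      ZMod.natCast_zmod_val]
    exact h
  rw [cast3] at h1
  rw [h1]
  rfl

theorem ps_of {X Z : Fin D.n} {σ : Bool → Bool} {a : LV} (h : (tab D).Poss2 X Z σ a) :
    ps D X Z a.1 (σ a.1) a.2.val = true := by
  unfold ps
  rw [Bool.or_eq_true, Bool.or_eq_true, Bool.or_eq_true]
  rcases h with (h | h) | (h | h)
  · exact Or.inl (Or.inl h)
  · exact Or.inl (Or.inr h)
  · exact Or.inr (Or.inl h)
  · exact Or.inr (Or.inr h)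

/-- Class choices as a function. -/
def mm (mR mB : ℕ) (L : Bool) : Fin 3 :=
  cond L (if mB = 0 then 0 else if mB = 1 then 1 else 2)
    (if mR = 0 then 0 else if mR = 1 then 1 else 2)

theorem view_R (mR mB : ℕ) (σx σy : Bool → Bool) :
    GTab.view (mm mR mB) σx σy false = vw mR (σx false) (σy false) := by
  unfold GTab.view vw mm
  rcases mR with _ | _ | m
  · rfl
  · rfl
  · simp [Nat.beq]

theorem view_B (mR mB : ℕ) (σx σy : Bool → Bool) :
    GTab.view (mm mR mB) σx σy true = vw mB (σx true) (σy true) := by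
  unfold GTab.view vw mm
  rcases mB with _ | _ | m
  · rfl
  · rfl
  · simp [Nat.beq]

theorem inL_of {W Z : Fin D.n} {ε : Bool → Bool} {xe ye : Prop} {xb yb : Bool}
    (hx : xe → xb = true) (hy : ye → yb = true) {p q b1 b2 α : LV}
    (h : inL D W Z (ε false) (ε true) xb yb p.1 p.2.val q.1 q.2.val b1.1 b1.2.val b2.1 b2.2.val
      α.1 α.2.val = true) :
    (tab D).Lst W Z ε xe ye p q b1 b2 α := by
  unfold inL at h
  rw [Bool.and_eq_true, Bool.and_eq_true] at h
  obtain ⟨h1, h2, h3⟩ := h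
  refine ⟨?_, ?_, ?_⟩
  · show fl D W Z α.1 (ε α.1) α.2.val = true
    have e1 : (cond α.1 (ε true) (ε false)) = ε α.1 := by cases α.1 <;> rfl
    rw [e1] at h1
    exact h1
  · rintro hxe ⟨a1, a2, a3⟩
    rw [hx hxe, a1, a2, bq_of rfl, s1_of a3] at h2
    exact absurd h2 (by decide)
  · rintro hye ⟨a1, a2, a3⟩
    rw [hy hye, a1, a2, bq_of rfl, s1_of a3] at h3
    exact absurd h3 (by decide)

theorem ble_of {a b : ℕ} {c : Bool} (h : (Nat.ble a b || !c) = true) (hc : c = true) :
    Nat.ble a b = true := by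
  rw [hc] at h
  rw [Bool.or_eq_true] at h
  rcases h with h | h
  · exact h
  · exact absurd h (by decide)

theorem beq_ne {p : LV} {q : LV} (h : ¬ (p = q)) : (bq p.1 q.1 && Nat.beq p.2.val q.2.val) =
    false := by
  cases hh : (bq p.1 q.1 && Nat.beq p.2.val q.2.val) with
  | false => rfl
  | true =>
    rw [Bool.and_eq_true] at hh
    refine absurd ?_ h
    refine Prod.ext (of_bq hh.1) ?_
    have := Nat.eq_of_beq_eq_true hh.2
    exact ZMod.val_injective 3 this

/-- What the third vertex check gives. -/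
theorem third_of {X Y W Z : Fin D.n} {mR mB : ℕ} {ρ : Bool → Bool} {xb yb : Bool} {p q : LV}
    {need msk : ℕ}
    (h : third D X Y W mR mB (ρ false) (ρ true) xb yb p.1 p.2.val q.1 q.2.val need msk Z = true)
    {b1 b2 : LV} {σx σy : Bool → Bool} (h1 : (tab D).Poss2 X Z σx b1)
    (h2 : (tab D).Poss2 Y Z σy b2) (h3 : GTab.CV σx σy ρ) (h4 : ¬ (b1 = p ∧ b2 = q)) :
    th3 D W Z xb yb p.1 p.2.val q.1 q.2.val need msk b1.1 b1.2.val b2.1 b2.2.val
      (GTab.view (mm mR mB) σx σy false) (GTab.view (mm mR mB) σx σy true) = true := by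
  have g1 := allN_get (n := 3) (allL_get (allL_get h b1.1) (σx b1.1)) b1.2.val (ZMod.val_lt _)
  rw [ps_of h1] at g1
  have g1' : th0 D Y W Z mR mB (ρ false) (ρ true) xb yb p.1 p.2.val q.1 q.2.val need msk b1.1
    (σx b1.1) b1.2.val = true := g1
  have g2 := allN_get (n := 3) (allL_get (allL_get g1' b2.1) (σy b2.1)) b2.2.val (ZMod.val_lt _)
  rw [ps_of h2] at g2
  have g2' : th1 D W Z mR mB (ρ false) (ρ true) xb yb p.1 p.2.val q.1 q.2.val need msk b1.1
    (σx b1.1) b1.2.val b2.1 (σy b2.1) b2.2.val = true := g2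
  unfold th1 at g2'
  have hne : ((bq b1.1 p.1 && Nat.beq b1.2.val p.2.val) &&
      (bq b2.1 q.1 && Nat.beq b2.2.val q.2.val)) = false := by
    by_cases hh : b1 = p
    · have hq : ¬ b2 = q := fun h5 => h4 ⟨hh, h5⟩
      rw [beq_ne hq, Bool.and_false]
    · rw [beq_ne hh, Bool.false_and]
  rw [hne] at g2'
  have g3 := allL_get (allL_get (f := fun x2 => allL fun y2 =>
      th2 D W Z mR mB (ρ false) (ρ true) xb yb p.1 p.2.val q.1 q.2.val need msk b1.1 b1.2.val
        b2.1 b2.2.val (cond b1.1 x2 (σx b1.1)) (cond b1.1 (σx b1.1) x2)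
        (cond b2.1 y2 (σy b2.1)) (cond b2.1 (σy b2.1) y2)) g2' (σx (!b1.1))) (σy (!b2.1))
  have e1 : (cond b1.1 (σx (!b1.1)) (σx b1.1)) = σx false := by cases b1.1 <;> rfl
  have e2 : (cond b1.1 (σx b1.1) (σx (!b1.1))) = σx true := by cases b1.1 <;> rfl
  have e3 : (cond b2.1 (σy (!b2.1)) (σy b2.1)) = σy false := by cases b2.1 <;> rfl
  have e4 : (cond b2.1 (σy b2.1) (σy (!b2.1))) = σy true := by cases b2.1 <;> rfl
  rw [e1, e2, e3, e4] at g3
  unfold th2 at g3
  rw [cs_of (h3 false), cs_of (h3 true)] at g3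
  rw [view_R, view_B]
  exact g3

/-- No touch. -/
theorem noTouch_of {W Z : Fin D.n} {L e par : Bool} (h : noTouch D par W Z L e = true)
    {ε ε' ρ : Bool → Bool} {U : Fin D.n} {a α β : LV} (hL : a.1 = L) (he : ε L = e)
    (h1 : GTab.CV ε ε' ρ) (h2 : (tab D).Ex Z U ρ a ∨ (par = false ∧ (tab D).Ex U Z ρ a))
    (h3 : (tab D).Fl W Z ε α) (h4 : (tab D).Nat' W U ε' β) (h5 : BadLV α β a) : False := by
  obtain ⟨c1, c2, c3⟩ := h5
  have hα : α.1 = L := c1.trans (c2.trans hL)
  have hβ : β.1 = L := c2.trans hL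
  have f1 : fl D W Z L e α.2.val = true := by
    have : fl D W Z α.1 (ε α.1) α.2.val = true := h3
    rw [hα, he] at this
    exact this
  have f2 : nt D W U L (ε' L) β.2.val = true := by
    have : nt D W U β.1 (ε' β.1) β.2.val = true := h4
    rw [hβ] at this
    exact this
  have g1 := allN_get (n := 3) h α.2.val (ZMod.val_lt _)
  rw [f1] at g1
  have g2 := allN_get (n := 3) (allL_get (allN_get (n := D.n) (f := fun U => allL fun e' =>
    allN 3 fun b => cond (nt D W U L e' b)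
      (allL fun e3 => cond (cs e e' e3)
        (allN 3 fun c => !(s1 α.2.val b c) ||
          !(ex D Z U L e3 c || (!par && ex D U Z L e3 c))) true) true) g1 U U.2) (ε' L))
      β.2.val (ZMod.val_lt _)
  rw [f2] at g2
  have g3 := allL_get (f := fun e3 => cond (cs e (ε' L) e3)
        (allN 3 fun c => !(s1 α.2.val β.2.val c) ||
          !(ex D Z U L e3 c || (!par && ex D U Z L e3 c))) true) g2 (ρ L)
  have hc := cs_of (h1 L)
  rw [he] at hc
  simp only [hc] at g3
  have g4 := allN_get (n := 3) (f := fun c => !(s1 α.2.val β.2.val c) ||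
          !(ex D Z U L (ρ L) c || (!par && ex D U Z L (ρ L) c))) g3 a.2.val (ZMod.val_lt _)
  have f3 : (ex D Z U L (ρ L) a.2.val || (!par && ex D U Z L (ρ L) a.2.val)) = true := by
    rw [Bool.or_eq_true]
    rcases h2 with h2 | ⟨hp, h2⟩
    · left
      have : ex D Z U a.1 (ρ a.1) a.2.val = true := h2
      rw [hL] at this
      exact this
    · right
      have : ex D U Z a.1 (ρ a.1) a.2.val = true := h2
      rw [hL] at this
      rw [this, hp]
      rfl
  simp only [f3, s1_of c3] at g4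
  exact absurd g4 (by decide)

theorem or_of_L {f : Bool → Bool} (L : Bool) (h : f L = true) : (f false || f true) = true := by
  rw [Bool.or_eq_true]
  cases L
  · exact Or.inl h
  · exact Or.inr h

theorem touch_of (hT : cT D = true) {W Z : Fin D.n} {ε : Bool → Bool}
    (h : (tab D).Touch W Z ε) :
    (tbit D.tou D.n W Z false (ε false) || tbit D.tou D.n W Z true (ε true)) = true := by
  obtain ⟨U, ε', ρ, a, α, β, h1, h2, h3, h4, h5⟩ := h
  have g := allL_get (allL_get (allN_get (allN_get hT W W.2) Z Z.2) a.1) (ε a.1)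
  rw [Bool.and_eq_true] at g
  have hb : tbit D.tou D.n W Z a.1 (ε a.1) = true := by
    cases hh : tbit D.tou D.n W Z a.1 (ε a.1) with
    | true => rfl
    | false =>
      exfalso
      have g1 := g.1
      rw [hh] at g1
      exact noTouch_of (par := false) g1 rfl rfl h1 (h2.imp id (fun h => ⟨rfl, h⟩)) h3 h4 h5
  exact or_of_L (f := fun L => tbit D.tou D.n W Z L (ε L)) a.1 hb

theorem ptouch_of (hT : cT D = true) {W Z : Fin D.n} {ε : Bool → Bool}
    (h : (tab D).PTouch W Z ε) :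
    (tbit D.pto D.n W Z false (ε false) || tbit D.pto D.n W Z true (ε true)) = true := by
  obtain ⟨U, ε', ρ, a, α, β, h1, h2, h3, h4, h5⟩ := h
  have g := allL_get (allL_get (allN_get (allN_get hT W W.2) Z Z.2) a.1) (ε a.1)
  rw [Bool.and_eq_true] at g
  have hb : tbit D.pto D.n W Z a.1 (ε a.1) = true := by
    cases hh : tbit D.pto D.n W Z a.1 (ε a.1) with
    | true => rfl
    | false =>
      exfalso
      have g1 := g.2
      rw [hh] at g1
      exact noTouch_of (par := true) g1 rfl rfl h1 (Or.inl h2) h3 h4 h5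
  exact or_of_L (f := fun L => tbit D.pto D.n W Z L (ε L)) a.1 hb

theorem hroot_of {W X : Fin D.n} {ε : Bool → Bool} {p : LV}
    (h : hroot D W X p.1 (ε p.1) p.2.val = true) : (tab D).HRoot W X ε p := by
  intro U ε' ρ a β h1 h2 h3 ⟨c1, c2, c3⟩
  have f1 : fl D W U p.1 (ε' p.1) β.2.val = true := by
    have : fl D W U β.1 (ε' β.1) β.2.val = true := h3
    rw [← c1] at this
    exact this
  have f2 : ex D X U p.1 (ρ p.1) a.2.val = true := by
    have : ex D X U a.1 (ρ a.1) a.2.val = true := h2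
    rw [← c2, ← c1] at this
    exact this
  have g1 := allN_get (n := 3) (allL_get (allN_get h U U.2) (ε' p.1)) β.2.val (ZMod.val_lt _)
  rw [f1] at g1
  have g2 := allL_get (f := fun e3 => cond (cs (ε p.1) (ε' p.1) e3)
      (allN 3 fun c => !(s1 p.2.val β.2.val c) || !(ex D X U p.1 e3 c)) true) g1 (ρ p.1)
  simp only [cs_of (h1 p.1)] at g2
  have g3 := allN_get (n := 3) (f := fun c => !(s1 p.2.val β.2.val c) ||
    !(ex D X U p.1 (ρ p.1) c)) g2 a.2.val (ZMod.val_lt _)
  simp only [f2, s1_of c3] at g3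
  exact absurd g3 (by decide)

theorem cf_of {V Z U : Fin D.n} {ε ε' : Bool → Bool} {a : LV}
    (h : (tab D).Conf V Z U ε ε' a) : cf D V Z U a.1 (ε a.1) (ε' a.1) a.2.val = true := by
  obtain ⟨α, β, h1, h2, h3, c1, c2, c3⟩ := h
  have hα : α.1 = a.1 := c1.trans c2
  have f1 : nt D V Z a.1 (ε a.1) α.2.val = true := by
    have : nt D V Z α.1 (ε α.1) α.2.val = true := h1
    rw [hα] at this
    exact this
  have f2 : nt D V U a.1 (ε' a.1) β.2.val = true := by
    have : nt D V U β.1 (ε' β.1) β.2.val = true := h2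
    rw [c2] at this
    exact this
  have f3 : (fl D V Z a.1 (ε a.1) α.2.val || fl D V U a.1 (ε' a.1) β.2.val) = true := by
    rw [Bool.or_eq_true]
    rcases h3 with h3 | h3
    · left
      have : fl D V Z α.1 (ε α.1) α.2.val = true := h3
      rw [hα] at this
      exact this
    · right
      have : fl D V U β.1 (ε' β.1) β.2.val = true := h3
      rw [c2] at this
      exact this
  unfold cf
  refine anyN_of (ZMod.val_lt α.2) ?_
  rw [f1, Bool.true_and]
  refine anyN_of (ZMod.val_lt β.2) ?_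
  rw [f2, s1_of c3, f3]
  rfl

theorem sib_of {X Y W : Fin D.n} {εx εy ρ : Bool → Bool} {p q : LV}
    (h : sib D X Y W (εx p.1) p.1 p.2.val (εy q.1) q.1 q.2.val (ρ p.1) = true) :
    ∀ (V : Fin D.n) (τw τx τy : Bool → Bool), ¬ (tab D).wild V → GTab.CV τw τx εx →
      GTab.CV τw τy εy → GTab.CV τx τy ρ →
      ¬ ((tab D).Conf V W X τw τx p ∧ (tab D).Conf V W Y τw τy q) := by
  rintro V τw τx τy hw h1 h2 h3 ⟨h4, h5⟩
  have g0 := allN_get h V V.2
  have hwf : bt D.wild V = false := by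
    cases hh : bt D.wild V with
    | false => rfl
    | true => exact absurd hh hw
  rw [hwf] at g0
  have g1 := allL_get (allL_get (f := fun tw => allL fun tx =>
    cond (cs tw tx (εx p.1) && cf D V W X p.1 tw tx p.2.val)
      (allL fun tw' => allL fun ty => cond (cs tw' ty (εy q.1) && cf D V W Y q.1 tw' ty q.2.val)
        (bq p.1 q.1 && !(bq tw tw' && cs tx ty (ρ p.1))) true) true) g0 (τw p.1)) (τx p.1)
  simp only [cs_of (h1 p.1), cf_of h4] at g1
  have g2 := allL_get (allL_get (f := fun tw' => allL fun ty =>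
    cond (cs tw' ty (εy q.1) && cf D V W Y q.1 tw' ty q.2.val)
        (bq p.1 q.1 && !(bq (τw p.1) tw' && cs (τx p.1) ty (ρ p.1))) true) g1 (τw q.1)) (τy q.1)
  simp only [cs_of (h2 q.1), cf_of h5] at g2
  have g3 : (bq p.1 q.1 && !(bq (τw p.1) (τw q.1) && cs (τx p.1) (τy q.1) (ρ p.1))) = true := g2
  rw [Bool.and_eq_true] at g3
  have e := of_bq g3.1
  have g4 := g3.2
  rw [← e, bq_of rfl, cs_of (h3 p.1)] at g4
  exact absurd g4 (by decide)

end GC

end Pool.Agent.RA6
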