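import Pool.Agent.RA6.GCheck99

/-!
Finite checker for `GTab` on `Fin n`, second part.
-/

namespace Pool.Agent.RA6

namespace GC

open FOC

variable {D : Dat}

theorem n1_of_thirdA {X Y W : Fin D.n} {mR mB : ℕ} {ρ : Bool → Bool} {xe ye : Prop}
    {xb yb : Bool} (hx : xe → xb = true) (hy : ye → yb = true) {p q : LV} {need msk : ℕ}
    (h : thirdA D X Y W mR mB (ρ false) (ρ true) xb yb p.1 p.2.val q.1 q.2.val need msk = true)
    (Z : Fin D.n) (b1 b2 : LV) (σx σy : Bool → Bool) (h1 : (tab D).Poss2 X Z σx b1)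
    (h2 : (tab D).Poss2 Y Z σy b2) (h3 : GTab.CV σx σy ρ) (h4 : ¬ (b1 = p ∧ b2 = q)) :
    N1 ((tab D).Lst W Z (GTab.view (mm mR mB) σx σy) xe ye p q b1 b2) := by
  have g := third_of (allN_get h Z Z.2) h1 h2 h3 h4
  unfold th3 at g
  rw [Bool.and_eq_true] at g
  exact N1.mono (fun α hα => inL_of hx hy hα) (cnt_n1 g.1)

theorem n2_of_thirdA {X Y W : Fin D.n} {mR mB : ℕ} {ρ : Bool → Bool} {xe ye : Prop}
    {xb yb : Bool} (hx : xe → xb = true) (hy : ye → yb = true) {p q : LV} {msk : ℕ}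
    (h : thirdA D X Y W mR mB (ρ false) (ρ true) xb yb p.1 p.2.val q.1 q.2.val 2 msk = true)
    (Z : Fin D.n) (b1 b2 : LV) (σx σy : Bool → Bool) (h1 : (tab D).Poss2 X Z σx b1)
    (h2 : (tab D).Poss2 Y Z σy b2) (h3 : GTab.CV σx σy ρ) (h4 : ¬ (b1 = p ∧ b2 = q))
    (ht : (tbit msk D.n W Z false (GTab.view (mm mR mB) σx σy false) ||
      tbit msk D.n W Z true (GTab.view (mm mR mB) σx σy true)) = true) :
    N2 ((tab D).Lst W Z (GTab.view (mm mR mB) σx σy) xe ye p q b1 b2) := by
  have g := third_of (allN_get h Z Z.2) h1 h2 h3 h4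
  unfold th3 at g
  rw [Bool.and_eq_true] at g
  exact N2.mono (fun α hα => inL_of hx hy hα) (cnt_n2 (ble_of g.2 ht))

theorem n3_of_thirdA {X Y W : Fin D.n} {mR mB : ℕ} {ρ : Bool → Bool} {xe ye : Prop}
    {xb yb : Bool} (hx : xe → xb = true) (hy : ye → yb = true) {p q : LV} {msk : ℕ}
    (h : thirdA D X Y W mR mB (ρ false) (ρ true) xb yb p.1 p.2.val q.1 q.2.val 3 msk = true)
    (Z : Fin D.n) (b1 b2 : LV) (σx σy : Bool → Bool) (h1 : (tab D).Poss2 X Z σx b1)
    (h2 : (tab D).Poss2 Y Z σy b2) (h3 : GTab.CV σx σy ρ) (h4 : ¬ (b1 = p ∧ b2 = q))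
    (ht : (tbit msk D.n W Z false (GTab.view (mm mR mB) σx σy false) ||
      tbit msk D.n W Z true (GTab.view (mm mR mB) σx σy true)) = true) :
    N3 ((tab D).Lst W Z (GTab.view (mm mR mB) σx σy) xe ye p q b1 b2) := by
  have g := third_of (allN_get h Z Z.2) h1 h2 h3 h4
  unfold th3 at g
  rw [Bool.and_eq_true] at g
  exact N3.mono (fun α hα => inL_of hx hy hα) (cnt_n3 (ble_of g.2 ht))

theorem serve_of (hT : cT D = true) {X Y W : Fin D.n} {ρ : Bool → Bool} {p q : LV}
    {mR mB mode : ℕ}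
    (h : sv D X Y (ρ false) (ρ true) p.1 p.2.val q.1 q.2.val W mR mB mode = true) :
    (tab D).Serve X Y ρ p q W (mm mR mB) := by
  unfold sv at h
  rw [Bool.and_eq_true] at h
  have h := h.2
  have ex1 : (cond p.1 (vw mB true (ρ true)) (vw mR true (ρ false))) =
      GTab.view (mm mR mB) (fun _ => true) ρ p.1 := by
    cases hp : p.1
    · rw [view_R]; rfl
    · rw [view_B]; rfl
  have ey1 : (cond q.1 (vw mB (ρ true) true) (vw mR (ρ false) true)) =
      GTab.view (mm mR mB) ρ (fun _ => true) q.1 := by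
    cases hq : q.1
    · rw [view_R]; rfl
    · rw [view_B]; rfl
  rw [ex1, ey1] at h
  set εx := GTab.view (mm mR mB) (fun _ => true) ρ with hεx
  set εy := GTab.view (mm mR mB) ρ (fun _ => true) with hεy
  unfold sv0 at h
  rw [Bool.and_eq_true, Bool.and_eq_true, Bool.and_eq_true] at h
  obtain ⟨h1, h2, h3, h4⟩ := h
  have hx : ¬ (tab D).Nat' W X εx p → (!(nt D W X p.1 (εx p.1) p.2.val)) = true := by
    intro hn
    cases hh : nt D W X p.1 (εx p.1) p.2.val with
    | false => rfl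
    | true => exact absurd hh hn
  have hy : ¬ (tab D).Nat' W Y εy q → (!(nt D W Y q.1 (εy q.1) q.2.val)) = true := by
    intro hn
    cases hh : nt D W Y q.1 (εy q.1) q.2.val with
    | false => rfl
    | true => exact absurd hh hn
  have er : (cond p.1 (ρ true) (ρ false)) = ρ p.1 := by cases p.1 <;> rfl
  rw [er] at h4
  have hsib : ¬ (tab D).Nat' W X εx p → ¬ (tab D).Nat' W Y εy q →
      ∀ (V : Fin D.n) (τw τx τy : Bool → Bool), ¬ (tab D).wild V → GTab.CV τw τx εx →
      GTab.CV τw τy εy → GTab.CV τx τy ρ →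
      ¬ ((tab D).Conf V W X τw τx p ∧ (tab D).Conf V W Y τw τy q) := by
    intro hxe hye
    refine sib_of ?_
    rw [Bool.or_eq_true, Bool.or_eq_true] at h4
    rcases h4 with (h4 | h4) | h4
    · exact absurd h4 hxe
    · exact absurd h4 hye
    · exact h4
  have hE1 : ¬ (tab D).Nat' W X εx p → (tab D).Ex W X εx p := by
    intro hn
    rw [Bool.or_eq_true] at h1
    rcases h1 with h1 | h1
    · exact absurd h1 hn
    · exact h1
  have hE2 : ¬ (tab D).Nat' W Y εy q → (tab D).Ex W Y εy q := by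
    intro hn
    rw [Bool.or_eq_true] at h2
    rcases h2 with h2 | h2
    · exact absurd h2 hn
    · exact h2
  have nw : (!(bt D.wild W)) = true → ¬ (tab D).wild W := by
    intro hh hw
    have hw' : bt D.wild W = true := hw
    rw [hw'] at hh
    exact absurd hh (by decide)
  unfold svm at h3
  cases m0 : Nat.beq mode 0 with
  | true =>
    rw [m0] at h3
    have h3' : (!(bt D.wild W) && (!(nt D W X p.1 (εx p.1) p.2.val &&
      nt D W Y q.1 (εy q.1) q.2.val) && thirdA D X Y W mR mB (ρ false) (ρ true)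
      (!(nt D W X p.1 (εx p.1) p.2.val)) (!(nt D W Y q.1 (εy q.1) q.2.val)) p.1 p.2.val q.1
      q.2.val 2 D.tou)) = true := h3
    rw [Bool.and_eq_true, Bool.and_eq_true] at h3'
    obtain ⟨a1, a2, a3⟩ := h3'
    refine ⟨hE1, hE2, n1_of_thirdA hx hy a3, Or.inl ⟨nw a1, ?_, ?_⟩, hsib⟩
    · by_cases hn : (tab D).Nat' W X εx p
      · right
        intro hn2
        have e1 : nt D W X p.1 (εx p.1) p.2.val = true := hn
        have e2 : nt D W Y q.1 (εy q.1) q.2.val = true := hn2
        rw [e1, e2] at a2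
        exact absurd a2 (by decide)
      · exact Or.inl hn
    · intro Z b1 b2 σx σy g1 g2 g3 g4 g5
      exact n2_of_thirdA hx hy a3 Z b1 b2 σx σy g1 g2 g3 g4 (touch_of hT g5)
  | false =>
    rw [m0] at h3
    cases m1 : Nat.beq mode 1 with
    | true =>
      rw [m1] at h3
      have h3' : (!(bt D.wild W) && ((nt D W X p.1 (εx p.1) p.2.val &&
        nt D W Y q.1 (εy q.1) q.2.val) && thirdA D X Y W mR mB (ρ false) (ρ true)
        (!(nt D W X p.1 (εx p.1) p.2.val)) (!(nt D W Y q.1 (εy q.1) q.2.val)) p.1 p.2.val q.1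
        q.2.val 3 D.tou)) = true := h3
      rw [Bool.and_eq_true, Bool.and_eq_true, Bool.and_eq_true] at h3'
      obtain ⟨a1, ⟨a2, a2'⟩, a3⟩ := h3'
      refine ⟨hE1, hE2, n1_of_thirdA hx hy a3, Or.inr (Or.inl ⟨nw a1, ?_, ?_, ?_⟩), hsib⟩
      · exact fun hn => hn a2
      · exact fun hn => hn a2'
      · intro Z b1 b2 σx σy g1 g2 g3 g4 g5
        exact n3_of_thirdA hx hy a3 Z b1 b2 σx σy g1 g2 g3 g4 (touch_of hT g5)
    | false =>
      rw [m1] at h3
      have h3' : (((!(nt D W X p.1 (εx p.1) p.2.val) || hroot D W X p.1 (εx p.1) p.2.val) &&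
        (!(nt D W Y q.1 (εy q.1) q.2.val) || hroot D W Y q.1 (εy q.1) q.2.val)) &&
        (cond (Nat.beq mode 2)
          (!(bt D.wild W) && thirdA D X Y W mR mB (ρ false) (ρ true)
            (!(nt D W X p.1 (εx p.1) p.2.val)) (!(nt D W Y q.1 (εy q.1) q.2.val)) p.1 p.2.val
            q.1 q.2.val 2 D.pto)
          (thirdA D X Y W mR mB (ρ false) (ρ true) (!(nt D W X p.1 (εx p.1) p.2.val))
            (!(nt D W Y q.1 (εy q.1) q.2.val)) p.1 p.2.val q.1 q.2.val 3 D.pto))) = true := h3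
      rw [Bool.and_eq_true, Bool.and_eq_true] at h3'
      obtain ⟨⟨a1, a2⟩, a3⟩ := h3'
      have r1 : ¬ ¬ (tab D).Nat' W X εx p → (tab D).HRoot W X εx p := by
        intro hn
        have e1 : nt D W X p.1 (εx p.1) p.2.val = true := not_not.mp hn
        rw [e1, Bool.or_eq_true] at a1
        rcases a1 with a1 | a1
        · exact absurd a1 (by decide)
        · exact hroot_of a1
      have r2 : ¬ ¬ (tab D).Nat' W Y εy q → (tab D).HRoot W Y εy q := by
        intro hn
        have e1 : nt D W Y q.1 (εy q.1) q.2.val = true := not_not.mp hn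
        rw [e1, Bool.or_eq_true] at a2
        rcases a2 with a2 | a2
        · exact absurd a2 (by decide)
        · exact hroot_of a2
      cases m2 : Nat.beq mode 2 with
      | true =>
        rw [m2] at a3
        have a3' : (!(bt D.wild W) && thirdA D X Y W mR mB (ρ false) (ρ true)
            (!(nt D W X p.1 (εx p.1) p.2.val)) (!(nt D W Y q.1 (εy q.1) q.2.val)) p.1 p.2.val
            q.1 q.2.val 2 D.pto) = true := a3
        rw [Bool.and_eq_true] at a3'
        obtain ⟨a4, a5⟩ := a3'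
        refine ⟨hE1, hE2, n1_of_thirdA hx hy a5,
          Or.inr (Or.inr (Or.inl ⟨nw a4, r1, r2, ?_⟩)), hsib⟩
        intro Z b1 b2 σx σy g1 g2 g3 g4 g5
        exact n2_of_thirdA hx hy a5 Z b1 b2 σx σy g1 g2 g3 g4 (ptouch_of hT g5)
      | false =>
        rw [m2] at a3
        have a5 : thirdA D X Y W mR mB (ρ false) (ρ true)
            (!(nt D W X p.1 (εx p.1) p.2.val)) (!(nt D W Y q.1 (εy q.1) q.2.val)) p.1 p.2.val
            q.1 q.2.val 3 D.pto = true := a3
        refine ⟨hE1, hE2, n1_of_thirdA hx hy a5,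
          Or.inr (Or.inr (Or.inr ⟨r1, r2, ?_⟩)), hsib⟩
        intro Z b1 b2 σx σy g1 g2 g3 g4 g5
        exact n3_of_thirdA hx hy a5 Z b1 b2 σx σy g1 g2 g3 g4 (ptouch_of hT g5)

/-- Some colour of the hosts for which the request is legal. -/
def ndd (D : Dat) (X Y : ℕ) (rR rB : Bool) (pL : Bool) (p : ℕ) (qL : Bool) (q : ℕ) : Bool :=
  anyN 3 fun k => (!(bad false k pL p qL q) && ps D X Y false rR k) ||
    (!(bad true k pL p qL q) && ps D X Y true rB k)

/-- The row of servers: sixteen bits per entry, `64 * W + 16 * mR + 4 * mB + mode`. -/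
def srv (r : ℕ) (rR rB : Bool) (pL : Bool) (p : ℕ) (qL : Bool) (q : ℕ) : ℕ :=
  (r >>> (16 * ((cond rR 36 0 + cond rB 72 0) + 6 * (cond pL 3 0 + p) + (cond qL 3 0 + q)))) %
    65536

def svc (D : Dat) (X Y : ℕ) (rR rB : Bool) (pL : Bool) (p : ℕ) (qL : Bool) (q : ℕ) (c : ℕ) :
    Bool :=
  sv D X Y rR rB pL p qL q (c / 64) (c / 16 % 4) (c / 4 % 4) (c % 4)

def rq (D : Dat) (X Y r : ℕ) (rR rB : Bool) (pL : Bool) (p : ℕ) (qL : Bool) (q : ℕ) : Bool :=
  cond (ndd D X Y rR rB pL p qL q)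
    (svc D X Y rR rB pL p qL q (srv r rR rB pL p qL q)) true

def pair (D : Dat) (X Y r : ℕ) : Bool :=
  allL fun rR => allL fun rB => allL fun pL => allN 3 fun p => allL fun qL => allN 3 fun q =>
    rq D X Y r rR rB pL p qL q

def rows (D : Dat) (X : ℕ) : ℕ → List ℕ → Bool
  | _, [] => true
  | Y, r :: l => pair D X Y r && rows D X (Y + 1) l

theorem rows_get {X : ℕ} : ∀ (l : List ℕ) (Y : ℕ), rows D X Y l = true → ∀ j, j < l.length →
    ∃ r, pair D X (Y + j) r = true := by
  intro l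
  induction l with
  | nil => intro Y _ j hj; exact absurd hj (Nat.not_lt_zero j)
  | cons a l ih =>
    intro Y h j hj
    have h' : (pair D X Y a && rows D X (Y + 1) l) = true := h
    rw [Bool.and_eq_true] at h'
    rcases j with _ | j
    · exact ⟨a, h'.1⟩
    · obtain ⟨r, hr⟩ := ih (Y + 1) h'.2 j (by simpa using hj)
      refine ⟨r, ?_⟩
      have e : Y + 1 + j = Y + (j + 1) := by omega
      rw [← e]
      exact hr

def rows2 (D : Dat) : ℕ → List (List ℕ) → Bool
  | _, [] => true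
  | X, r :: l => (Nat.beq r.length D.n && rows D X 0 r) && rows2 D (X + 1) l

theorem rows2_get : ∀ (l : List (List ℕ)) (X : ℕ), rows2 D X l = true → ∀ i, i < l.length →
    ∀ Y, Y < D.n → ∃ r, pair D (X + i) Y r = true := by
  intro l
  induction l with
  | nil => intro X _ i hi; exact absurd hi (Nat.not_lt_zero i)
  | cons a l ih =>
    intro X h i hi Y hY
    have h' : ((Nat.beq a.length D.n && rows D X 0 a) && rows2 D (X + 1) l) = true := h
    rw [Bool.and_eq_true, Bool.and_eq_true] at h'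
    rcases i with _ | i
    · have hl := Nat.eq_of_beq_eq_true h'.1.1
      obtain ⟨r, hr⟩ := rows_get a 0 h'.1.2 Y (by omega)
      rw [Nat.zero_add] at hr
      exact ⟨r, hr⟩
    · obtain ⟨r, hr⟩ := ih (X + 1) h'.2 i (by simpa using hi) Y hY
      refine ⟨r, ?_⟩
      have e : X + 1 + i = X + (i + 1) := by omega
      rw [← e]
      exact hr

theorem fin_of_pair (hT : cT D = true) {X Y : Fin D.n} {r : ℕ} (h : pair D X Y r = true)
    (ρ : Bool → Bool) (k p q : LV) (hk : (tab D).Poss2 X Y ρ k) (hb : ¬ BadLV k p q) :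
    ∃ (W : Fin D.n) (m : Bool → Fin 3), (tab D).Serve X Y ρ p q W m := by
  have g := allN_get (n := 3) (allL_get (allN_get (n := 3) (allL_get (allL_get (allL_get h
    (ρ false)) (ρ true)) p.1) p.2.val (ZMod.val_lt _)) q.1) q.2.val (ZMod.val_lt _)
  have hn : ndd D X Y (ρ false) (ρ true) p.1 p.2.val q.1 q.2.val = true := by
    unfold ndd
    refine anyN_of (k := k.2.val) (ZMod.val_lt _) ?_
    have hp := ps_of hk
    have hnb : (!(bad k.1 k.2.val p.1 p.2.val q.1 q.2.val)) = true := by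
      cases hh : bad k.1 k.2.val p.1 p.2.val q.1 q.2.val with
      | false => rfl
      | true => exact absurd (bad_of hh) hb
    cases hk1 : k.1
    · rw [hk1] at hp hnb
      rw [hp, hnb]; rfl
    · rw [hk1] at hp hnb
      rw [hp, hnb]
      simp
  unfold rq at g
  rw [hn] at g
  have g' : svc D X Y (ρ false) (ρ true) p.1 p.2.val q.1 q.2.val
    (srv r (ρ false) (ρ true) p.1 p.2.val q.1 q.2.val) = true := g
  generalize hc : srv r (ρ false) (ρ true) p.1 p.2.val q.1 q.2.val = c at g'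
  unfold svc at g'
  have hW : c / 64 < D.n := by
    unfold sv at g'
    rw [Bool.and_eq_true] at g'
    have := g'.1
    exact Nat.lt_of_lt_of_le (Nat.lt_succ_self _) (Nat.le_of_ble_eq_true this)
  exact ⟨⟨c / 64, hW⟩, mm (c / 16 % 4) (c / 4 % 4), serve_of (W := ⟨c / 64, hW⟩) hT g'⟩

/-- The complete check. -/
def chk (D : Dat) (R : List (List ℕ)) : Bool :=
  cSub D && (c0 D && (c1 D && (cT D && (Nat.beq R.length D.n && rows2 D 0 R))))

theorem good_of_chk {R : List (List ℕ)} (h : chk D R = true) : (tab D).Good := by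
  unfold chk at h
  rw [Bool.and_eq_true, Bool.and_eq_true, Bool.and_eq_true, Bool.and_eq_true,
    Bool.and_eq_true] at h
  obtain ⟨h1, h2, h3, h4, h5, h6⟩ := h
  refine ⟨?_, ?_, ?_, ?_⟩
  · intro W X L e a hf
    have hf' : fl D W X L e a.val = true := hf
    have g := allN_get (n := 3) (allL_get (allL_get (allN_get (allN_get h1 W W.2) X X.2) L) e)
      a.val (ZMod.val_lt _)
    rw [hf'] at g
    exact g
  · obtain ⟨W, hW, g1⟩ := anyN_get h2
    obtain ⟨X, hX, g2⟩ := anyN_get g1
    obtain ⟨a, ha, g3⟩ := anyN_get g2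
    rw [Bool.or_eq_true] at g3
    rcases g3 with g3 | g3
    · refine ⟨⟨W, hW⟩, ⟨X, hX⟩, false, (a : ZMod 3), ?_⟩
      show nt D W X false false ((a : ℕ) : ZMod 3).val = true
      rw [val_cast3 ha]
      exact g3
    · refine ⟨⟨W, hW⟩, ⟨X, hX⟩, true, (a : ZMod 3), ?_⟩
      show nt D W X true false ((a : ℕ) : ZMod 3).val = true
      rw [val_cast3 ha]
      exact g3
  · intro W Z U L e1 e2 e3 α β γ hc n1 n2 n3 n4 hs
    have g1 := allL_get (allL_get (allL_get (allL_get (allN_get (allN_get (allN_get h3 W W.2)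
      Z Z.2) U U.2) L) e1) e2) e3
    simp only [cs_of hc] at g1
    have g2 := allN_get (n := 3) (f := fun a => cond (nt D W Z L e1 a)
        (allN 3 fun b => cond (nt D W U L e2 b && (fl D W Z L e1 a || fl D W U L e2 b))
          (allN 3 fun c => !(s1 a b c) || !(nt D Z U L e3 c)) true) true) g1 α.val
      (ZMod.val_lt _)
    have n1' : nt D W Z L e1 α.val = true := n1
    simp only [n1'] at g2
    have g3 := allN_get (n := 3) (f := fun b => cond (nt D W U L e2 b &&
        (fl D W Z L e1 α.val || fl D W U L e2 b))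
          (allN 3 fun c => !(s1 α.val b c) || !(nt D Z U L e3 c)) true) g2 β.val (ZMod.val_lt _)
    have n2' : nt D W U L e2 β.val = true := n2
    have n3' : (fl D W Z L e1 α.val || fl D W U L e2 β.val) = true := by
      rw [Bool.or_eq_true]
      exact n3
    simp only [n2', n3'] at g3
    have g4 := allN_get (n := 3) (f := fun c => !(s1 α.val β.val c) || !(nt D Z U L e3 c)) g3
      γ.val (ZMod.val_lt _)
    have n4' : nt D Z U L e3 γ.val = true := n4
    simp only [n4', s1_of hs] at g4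
    exact absurd g4 (by decide)
  · intro X Y ρ k p q hk hb
    have hl := Nat.eq_of_beq_eq_true h5
    obtain ⟨r, hr⟩ := rows2_get R 0 h6 X (by rw [hl]; exact X.2) Y Y.2
    rw [Nat.zero_add] at hr
    exact fin_of_pair h4 hr ρ k p q hk hb

theorem rep_of_chk {R : List (List ℕ)} (h : chk D R = true) :
    ∃ (U : Type) (r : Set Atom → Set (U × U)), IsRepresentation U r :=
  GTab.rep_of_good (good_of_chk h)

end GC

end Pool.Agent.RA6
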