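import Pool.Agent.RA6.GList99

/-!
General frame: age ordered tables with lists of both letters, classes for each letter,
exceptional colours at the hosts, requests which have a witness are not served.
-/

namespace Pool.Agent.RA6

/-- The three Booleans are the equalities of the three pairs of some triple. -/
def Cons (a b c : Bool) : Prop :=
  (a = true → b = true → c = true) ∧ (a = true → c = true → b = true) ∧
    (b = true → c = true → a = true)

instance (a b c : Bool) : Decidable (Cons a b c) := by unfold Cons; infer_instance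

theorem cons_dec (p q r : ℕ) : Cons (decide (p = q)) (decide (p = r)) (decide (q = r)) := by
  refine ⟨?_, ?_, ?_⟩ <;> simp only [decide_eq_true_eq] <;> intro h1 h2 <;> omega

/-- A table. `W` is the part of the younger vertex, `X` of the older one, then letter, equality
of the classes of this letter, value. -/
structure GTab (T : Type) where
  nat : T → T → Bool → Bool → ZMod 3 → Prop
  fl : T → T → Bool → Bool → ZMod 3 → Prop
  ex : T → T → Bool → Bool → ZMod 3 → Prop
  wild : T → Prop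

namespace GTab

variable {T : Type} (t : GTab T)

/-- Natural colour; `ε` is the view (equality of classes for both letters). -/
def Nat' (W X : T) (ε : Bool → Bool) (a : LV) : Prop := t.nat W X a.1 (ε a.1) a.2
/-- List colour. -/
def Fl (W X : T) (ε : Bool → Bool) (a : LV) : Prop := t.fl W X a.1 (ε a.1) a.2
/-- Exceptional colour. -/
def Ex (W X : T) (ε : Bool → Bool) (a : LV) : Prop := t.ex W X a.1 (ε a.1) a.2
/-- Possible colour of a younger vertex at an older one. -/
def Poss (W X : T) (ε : Bool → Bool) (a : LV) : Prop := t.Nat' W X ε a ∨ t.Ex W X ε a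
/-- Possible colour in one of the two age orders. -/
def Poss2 (W X : T) (ε : Bool → Bool) (a : LV) : Prop := t.Poss W X ε a ∨ t.Poss X W ε a

/-- The exceptional edge of colour `a` between parts `Z` and `U` can conflict for a viewer of
part `V`. -/
def Conf (V Z U : T) (ε ε' : Bool → Bool) (a : LV) : Prop :=
  ∃ α β : LV, t.Nat' V Z ε α ∧ t.Nat' V U ε' β ∧ (t.Fl V Z ε α ∨ t.Fl V U ε' β) ∧ BadLV α β a

/-- Consistent views. -/
def CV (a b c : Bool → Bool) : Prop := ∀ L, Cons (a L) (b L) (c L)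

/-- A vertex of part `Z` seen by a viewer of part `W` can be incident with an edge which
conflicts with a list colour of it. -/
def Touch (W Z : T) (ε : Bool → Bool) : Prop :=
  ∃ (U : T) (ε' ρ : Bool → Bool) (a α β : LV), CV ε ε' ρ ∧
    (t.Ex Z U ρ a ∨ t.Ex U Z ρ a) ∧ t.Fl W Z ε α ∧ t.Nat' W U ε' β ∧ BadLV α β a

/-- The same with an older neighbour. -/
def PTouch (W Z : T) (ε : Bool → Bool) : Prop :=
  ∃ (U : T) (ε' ρ : Bool → Bool) (a α β : LV), CV ε ε' ρ ∧
    t.Ex Z U ρ a ∧ t.Fl W Z ε α ∧ t.Nat' W U ε' β ∧ BadLV α β a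

/-- A natural host of part `X` at which the newborn of part `W` has the colour `p` has no
conflicting older neighbour. -/
def HRoot (W X : T) (ε : Bool → Bool) (p : LV) : Prop :=
  ∀ (U : T) (ε' ρ : Bool → Bool) (a β : LV), CV ε ε' ρ → t.Ex X U ρ a → t.Fl W U ε' β →
    ¬ BadLV p β a

/-- The class choice of the newborn: new, that of the first host, that of the second host. -/
def view (m : Bool → Fin 3) (σx σy : Bool → Bool) (L : Bool) : Bool :=
  if m L = 0 then false else if m L = 1 then σx L else σy L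

/-- The list of a third vertex. -/
def Lst (W Z : T) (ε : Bool → Bool) (xe ye : Prop) (p q b1 b2 : LV) (α : LV) : Prop :=
  t.Fl W Z ε α ∧ (xe → ¬ BadLV p α b1) ∧ (ye → ¬ BadLV q α b2)

/-- A service. `ρ` is the equality of the classes of the two hosts. -/
def Serve (X Y : T) (ρ : Bool → Bool) (p q : LV) (W : T) (m : Bool → Fin 3) : Prop :=
  let εx := view m (fun _ => true) ρ
  let εy := view m ρ (fun _ => true)
  let xe := ¬ t.Nat' W X εx p
  let ye := ¬ t.Nat' W Y εy q
  (xe → t.Ex W X εx p) ∧ (ye → t.Ex W Y εy q) ∧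
  (∀ (Z : T) (b1 b2 : LV) (σx σy : Bool → Bool), t.Poss2 X Z σx b1 → t.Poss2 Y Z σy b2 →
    CV σx σy ρ → ¬ (b1 = p ∧ b2 = q) → N1 (t.Lst W Z (view m σx σy) xe ye p q b1 b2)) ∧
  ((¬ t.wild W ∧ (xe ∨ ye) ∧ (∀ (Z : T) (b1 b2 : LV) (σx σy : Bool → Bool), t.Poss2 X Z σx b1 →
      t.Poss2 Y Z σy b2 → CV σx σy ρ → ¬ (b1 = p ∧ b2 = q) → t.Touch W Z (view m σx σy) →
      N2 (t.Lst W Z (view m σx σy) xe ye p q b1 b2))) ∨
   (¬ t.wild W ∧ ¬ xe ∧ ¬ ye ∧ (∀ (Z : T) (b1 b2 : LV) (σx σy : Bool → Bool), t.Poss2 X Z σx b1 →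
      t.Poss2 Y Z σy b2 → CV σx σy ρ → ¬ (b1 = p ∧ b2 = q) → t.Touch W Z (view m σx σy) →
      N3 (t.Lst W Z (view m σx σy) xe ye p q b1 b2))) ∨
   (¬ t.wild W ∧ (¬ xe → t.HRoot W X εx p) ∧ (¬ ye → t.HRoot W Y εy q) ∧
      (∀ (Z : T) (b1 b2 : LV) (σx σy : Bool → Bool), t.Poss2 X Z σx b1 →
      t.Poss2 Y Z σy b2 → CV σx σy ρ → ¬ (b1 = p ∧ b2 = q) → t.PTouch W Z (view m σx σy) →
      N2 (t.Lst W Z (view m σx σy) xe ye p q b1 b2))) ∨
   ((¬ xe → t.HRoot W X εx p) ∧ (¬ ye → t.HRoot W Y εy q) ∧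
      (∀ (Z : T) (b1 b2 : LV) (σx σy : Bool → Bool), t.Poss2 X Z σx b1 →
      t.Poss2 Y Z σy b2 → CV σx σy ρ → ¬ (b1 = p ∧ b2 = q) → t.PTouch W Z (view m σx σy) →
      N3 (t.Lst W Z (view m σx σy) xe ye p q b1 b2)))) ∧
  (xe → ye → ∀ (V : T) (τw τx τy : Bool → Bool), ¬ t.wild V → CV τw τx εx → CV τw τy εy →
    CV τx τy ρ →
    ¬ (t.Conf V W X τw τx p ∧ t.Conf V W Y τw τy q))

/-- The conditions on a table. -/
structure Good : Prop where
  sub : ∀ W X L e a, t.fl W X L e a → t.nat W X L e a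
  h0 : ∃ (W X : T) (L : Bool) (a : ZMod 3), t.nat W X L false a
  h1 : ∀ (W Z U : T) (L : Bool) (e1 e2 e3 : Bool) (α β γ : ZMod 3), Cons e1 e2 e3 →
    t.nat W Z L e1 α → t.nat W U L e2 β → (t.fl W Z L e1 α ∨ t.fl W U L e2 β) →
    t.nat Z U L e3 γ → α + β + γ ≠ 1
  h4 : ∀ (X Y : T) (ρ : Bool → Bool) (k p q : LV), t.Poss2 X Y ρ k → ¬ BadLV k p q →
    ∃ (W : T) (m : Bool → Fin 3), t.Serve X Y ρ p q W m

/-- The view of `j` from `i`. -/
def rel (k : Bool → ℕ → ℕ) (i j : ℕ) (L : Bool) : Bool := decide (k L i = k L j)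

/-- The view of `j` from a newborn with classes `kn`. -/
def reln (k : Bool → ℕ → ℕ) (kn : Bool → ℕ) (j : ℕ) (L : Bool) : Bool := decide (kn L = k L j)

theorem rel_symm (k : Bool → ℕ → ℕ) (i j : ℕ) : rel k i j = rel k j i := by
  funext L
  show decide (k L i = k L j) = decide (k L j = k L i)
  exact decide_eq_decide.mpr eq_comm

/-- The invariant. -/
structure St (n : ℕ) (P : ℕ → T) (c : ℕ → ℕ → LV) (E : ℕ → ℕ → Prop) (k : Bool → ℕ → ℕ) :
    Prop where
  symm : ∀ i j, c i j = c j i
  elt : ∀ w h, E w h → h < w ∧ w < n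
  kle : ∀ L z, z < n → k L z ≤ z
  dft : ∀ w x, x < w → w < n → ¬ E w x → t.Nat' (P w) (P x) (rel k w x) (c w x)
  exc : ∀ w x, E w x → t.Ex (P w) (P x) (rel k w x) (c w x)
  two : ∀ v a b c, E v a → E v b → E v c → a = b ∨ b = c ∨ a = c
  sib : ∀ w x y, E w x → E w y → x ≠ y → ∀ (V : T) (kn : Bool → ℕ), ¬ t.wild V →
    ¬ (t.Conf V (P w) (P x) (reln k kn w) (reln k kn x) (c w x) ∧
      t.Conf V (P w) (P y) (reln k kn w) (reln k kn y) (c w y))
  tri : ∀ i j l, i < n → j < n → l < n → i ≠ j → j ≠ l → i ≠ l →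
    ¬ BadLV (c i j) (c j l) (c i l)

variable {t}

theorem St.poss {n : ℕ} {P : ℕ → T} {c : ℕ → ℕ → LV} {E : ℕ → ℕ → Prop} {k : Bool → ℕ → ℕ}
    (h : t.St n P c E k) {w x : ℕ} (hx : x < w) (hw : w < n) :
    t.Poss (P w) (P x) (rel k w x) (c w x) := by
  by_cases he : E w x
  · exact Or.inr (h.exc _ _ he)
  · exact Or.inl (h.dft _ _ hx hw he)

theorem St.poss2 {n : ℕ} {P : ℕ → T} {c : ℕ → ℕ → LV} {E : ℕ → ℕ → Prop}
    {k : Bool → ℕ → ℕ} (h : t.St n P c E k) {w x : ℕ} (hx : x < n) (hw : w < n) (hne : w ≠ x) :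
    t.Poss2 (P w) (P x) (rel k w x) (c w x) := by
  rcases Nat.lt_or_gt_of_ne hne with h1 | h1
  · right
    rw [h.symm w x, rel_symm k w x]
    exact h.poss h1 hx
  · left
    exact h.poss h1 hw

theorem badLV_kill1 (a β : LV) : ∃ κ, ∀ α, BadLV α β a → α = κ := by
  refine ⟨(β.1, 1 - β.2 - a.2), ?_⟩
  rintro α ⟨h1, _, h3⟩
  refine Prod.ext h1 ?_
  show α.2 = 1 - β.2 - a.2
  rw [← h3]; ring

theorem badLV_kill2 (a α : LV) : ∃ κ, ∀ β, BadLV α β a → β = κ := by
  refine ⟨(α.1, 1 - α.2 - a.2), ?_⟩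
  rintro β ⟨h1, _, h3⟩
  refine Prod.ext h1.symm ?_
  show β.2 = 1 - α.2 - a.2
  rw [← h3]; ring

/-- The colours of a newborn. -/
theorem exists_newborn (hg : t.Good) {n : ℕ} {P : ℕ → T} {c : ℕ → ℕ → LV} {E : ℕ → ℕ → Prop}
    {k : Bool → ℕ → ℕ} (h : t.St n P c E k) {x y : ℕ} (hx : x < n) (hy : y < n) (hxy : x ≠ y)
    {p q : LV} (hb : ¬ BadLV (c x y) p q)
    (hw : ∀ z, z < n → z ≠ x → z ≠ y → ¬ (c x z = p ∧ c y z = q))
    (W : T) (m : Bool → Fin 3) (hs : t.Serve (P x) (P y) (rel k x y) p q W m)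
    (kn : Bool → ℕ)
    (hkn : ∀ L, kn L = if m L = 0 then n else if m L = 1 then k L x else k L y) :
    ∃ g : ℕ → LV, g x = p ∧ g y = q ∧
      (∀ z, z < n → z ≠ x → z ≠ y → t.Nat' W (P z) (reln k kn z) (g z)) ∧
      (t.Nat' W (P x) (reln k kn x) p ∨ t.Ex W (P x) (reln k kn x) p) ∧
      (t.Nat' W (P y) (reln k kn y) q ∨ t.Ex W (P y) (reln k kn y) q) ∧
      (¬ t.Nat' W (P x) (reln k kn x) p → ¬ t.Nat' W (P y) (reln k kn y) q →
        ∀ (V : T) (τw τx τy : Bool → Bool), ¬ t.wild V → CV τw τx (reln k kn x) →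
        CV τw τy (reln k kn y) → CV τx τy (rel k x y) → ¬ (t.Conf V W (P x) τw τx p ∧ t.Conf V W (P y) τw τy q)) ∧
      (∀ z u, z < n → u < n → z ≠ u → ¬ BadLV (g z) (g u) (c z u)) := by
  classical
  -- the views
  have hview : ∀ z, z < n → reln k kn z = view m (rel k x z) (rel k y z) := by
    intro z hz
    funext L
    show decide (kn L = k L z) = if m L = 0 then false else if m L = 1 then
      decide (k L x = k L z) else decide (k L y = k L z)
    rw [hkn L]
    by_cases h0 : m L = 0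
    · rw [if_pos h0, if_pos h0]
      have := h.kle L z hz
      exact decide_eq_false (by omega)
    · rw [if_neg h0, if_neg h0]
      by_cases h1 : m L = 1
      · rw [if_pos h1, if_pos h1]
      · rw [if_neg h1, if_neg h1]
  have hviewx : reln k kn x = view m (fun _ => true) (rel k x y) := by
    rw [hview x hx]
    funext L
    show (if m L = 0 then false else if m L = 1 then decide (k L x = k L x) else
      decide (k L y = k L x)) = if m L = 0 then false else if m L = 1 then true else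
      decide (k L x = k L y)
    rw [decide_eq_true (rfl : k L x = k L x), show decide (k L y = k L x) =
      decide (k L x = k L y) from decide_eq_decide.mpr eq_comm]
  have hviewy : reln k kn y = view m (rel k x y) (fun _ => true) := by
    rw [hview y hy]
    funext L
    show (if m L = 0 then false else if m L = 1 then decide (k L x = k L y) else
      decide (k L y = k L y)) = if m L = 0 then false else if m L = 1 then
      decide (k L x = k L y) else true
    rw [decide_eq_true (rfl : k L y = k L y)]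
  obtain ⟨s1, s2, s3, s4, s5⟩ := hs
  rw [← hviewx, ← hviewy] at s3 s4 s5
  rw [← hviewx] at s1
  rw [← hviewy] at s2
  -- exceptional hosts
  set xe : Prop := ¬ t.Nat' W (P x) (reln k kn x) p with hxe
  set ye : Prop := ¬ t.Nat' W (P y) (reln k kn y) q with hye
  -- consistency of views
  have hcv : ∀ z u, CV (reln k kn z) (reln k kn u) (rel k z u) := by
    intro z u L
    exact cons_dec (kn L) (k L z) (k L u)
  have hcv2 : ∀ z, CV (rel k x z) (rel k y z) (rel k x y) := by
    intro z L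
    have h1 := cons_dec (k L z) (k L x) (k L y)
    have e1 : decide (k L z = k L x) = decide (k L x = k L z) := decide_eq_decide.mpr eq_comm
    have e2 : decide (k L z = k L y) = decide (k L y = k L z) := decide_eq_decide.mpr eq_comm
    rw [e1, e2] at h1
    exact h1
  -- the lists
  let A : ℕ → LV → Prop := fun z α => t.Lst W (P z) (reln k kn z) xe ye p q (c x z) (c y z) α
  have hA1 : ∀ z, z < n → z ≠ x → z ≠ y → N1 (A z) := by
    intro z hz h1 h2
    have := s3 (P z) (c x z) (c y z) (rel k x z) (rel k y z) (h.poss2 hz hx h1.symm)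
      (h.poss2 hz hy h2.symm) (hcv2 z) (hw z hz h1 h2)
    rw [← hview z hz] at this
    exact this
  let B : ℕ → ℕ → LV → LV → Prop := fun v u α β => BadLV α β (c v u)
  have k1 : ∀ v u β, ∃ κ, ∀ α, B v u α β → α = κ := fun v u β => badLV_kill1 (c v u) β
  have k2 : ∀ v u α, ∃ κ, ∀ β, B v u α β → β = κ := fun v u α => badLV_kill2 (c v u) α
  let M : ℕ → LV → Prop := fun z α => if z = x then α = p else if z = y then α = q else A z α
  have Mx : ∀ α, M x α ↔ α = p := by
    intro α
    show (if x = x then α = p else _) ↔ _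
    rw [if_pos rfl]
  have My : ∀ α, M y α ↔ α = q := by
    intro α
    show (if y = x then α = p else if y = y then α = q else _) ↔ _
    rw [if_neg hxy.symm, if_pos rfl]
  have Mz : ∀ z, z ≠ x → z ≠ y → ∀ α, M z α ↔ A z α := by
    intro z h1 h2 α
    show (if z = x then α = p else if z = y then α = q else A z α) ↔ _
    rw [if_neg h1, if_neg h2]
  -- exceptional host
  let XE : ℕ → Prop := fun z => (z = x ∧ xe) ∨ (z = y ∧ ye)
  let G : ℕ → ℕ → Prop := fun v u => E v u ∧ ¬ XE v ∧ ¬ XE u ∧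
    ¬ ((v = x ∧ u = y) ∨ (v = y ∧ u = x)) ∧ ∃ α β, M v α ∧ M u β ∧ BadLV α β (c v u)
  have hG : ∀ v u, G v u → u < v := fun v u hvu => (h.elt v u hvu.1).1
  have hMN : ∀ v, v < n → ¬ XE v → ∀ α, M v α → t.Nat' W (P v) (reln k kn v) α := by
    intro v hv hxv α hα
    by_cases h1 : v = x
    · rw [h1] at hα ⊢
      rw [(Mx α).mp hα]
      by_contra hh
      exact hxv (Or.inl ⟨h1, hh⟩)
    · by_cases h2 : v = y
      · rw [h2] at hα ⊢
        rw [(My α).mp hα]
        by_contra hh
        exact hxv (Or.inr ⟨h2, hh⟩)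
      · exact hg.sub _ _ _ _ _ ((Mz v h1 h2 α).mp hα).1
  have hMF : ∀ v, v ≠ x → v ≠ y → ∀ α, M v α → t.Fl W (P v) (reln k kn v) α :=
    fun v h1 h2 α hα => ((Mz v h1 h2 α).mp hα).1
  have hGconf : ∀ v u, G v u →
      t.Conf W (P v) (P u) (reln k kn v) (reln k kn u) (c v u) := by
    rintro v u ⟨h1, h2, h3, h4, α, β, h5, h6, h7⟩
    have hl := h.elt v u h1
    refine ⟨α, β, hMN v hl.2 h2 α h5, hMN u (by omega) h3 β h6, ?_, h7⟩
    by_cases hvx : v = x
    · by_cases huy : u = y
      · exact absurd (Or.inl ⟨hvx, huy⟩) h4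
      · exact Or.inr (hMF u (by omega) huy β h6)
    · by_cases hvy : v = y
      · by_cases hux : u = x
        · exact absurd (Or.inr ⟨hvy, hux⟩) h4
        · exact Or.inr (hMF u hux (by omega) β h6)
      · exact Or.inl (hMF v hvx hvy α h5)
  have hu : ¬ t.wild W → ∀ v u u', G v u → G v u' → u = u' := by
    intro hwW v u u' h1 h2
    by_contra hne
    exact h.sib v u u' h1.1 h2.1 hne W kn hwW ⟨hGconf v u h1, hGconf v u' h2⟩
  have htouch : ∀ v, v < n → v ≠ x → v ≠ y → Inc G n v →
      t.Touch W (P v) (view m (rel k x v) (rel k y v)) := by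
    intro v hv h1 h2 hi
    rw [← hview v hv]
    rcases hi with ⟨u, hgu⟩ | ⟨w, hwn, hgw⟩
    · obtain ⟨g1, g2, g3, g4, α, β, g5, g6, g7⟩ := hgu
      have hl := h.elt v u g1
      exact ⟨P u, reln k kn u, rel k v u, c v u, α, β, hcv v u, Or.inl (h.exc v u g1),
        hMF v h1 h2 α g5, hMN u (by omega) g3 β g6, g7⟩
    · obtain ⟨g1, g2, g3, g4, α, β, g5, g6, g7⟩ := hgw
      have hl := h.elt w v g1
      refine ⟨P w, reln k kn w, rel k v w, c w v, β, α, hcv v w, Or.inr ?_,
        hMF v h1 h2 β g6, hMN w hwn g2 α g5, badLV_swap g7⟩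
      rw [rel_symm k v w]
      exact h.exc w v g1
  have hptouch : ∀ v, v < n → v ≠ x → v ≠ y → (∃ u, G v u) →
      t.PTouch W (P v) (view m (rel k x v) (rel k y v)) := by
    intro v hv h1 h2 hi
    rw [← hview v hv]
    obtain ⟨u, g1, g2, g3, g4, α, β, g5, g6, g7⟩ := hi
    have hl := h.elt v u g1
    exact ⟨P u, reln k kn u, rel k v u, c v u, α, β, hcv v u, h.exc v u g1,
        hMF v h1 h2 α g5, hMN u (by omega) g3 β g6, g7⟩
  have hM1 : ∀ v, v < n → N1 (M v) := by
    intro v hv
    by_cases h1 : v = x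
    · exact ⟨p, by rw [h1]; exact (Mx p).mpr rfl⟩
    · by_cases h2 : v = y
      · exact ⟨q, by rw [h2]; exact (My q).mpr rfl⟩
      · obtain ⟨a, ha⟩ := hA1 v hv h1 h2
        exact ⟨a, (Mz v h1 h2 a).mpr ha⟩
  have incx : xe → ∀ n', ¬ Inc G n' x := by
    rintro hxe' n' (⟨u, hg1⟩ | ⟨w, _, hg1⟩)
    · exact hg1.2.1 (Or.inl ⟨rfl, hxe'⟩)
    · exact hg1.2.2.1 (Or.inl ⟨rfl, hxe'⟩)
  have incy : ye → ∀ n', ¬ Inc G n' y := by
    rintro hye' n' (⟨u, hg1⟩ | ⟨w, _, hg1⟩)
    · exact hg1.2.1 (Or.inr ⟨rfl, hye'⟩)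
    · exact hg1.2.2.1 (Or.inr ⟨rfl, hye'⟩)
  have core : ∃ f : ℕ → LV, (∀ v, v < n → M v (f v)) ∧
      ∀ v u, v < n → G v u → ¬ B v u (f v) (f u) := by
    rcases s4 with ⟨hwW, s41, s42⟩ | ⟨hwW, s41, s42, s43⟩ | ⟨hwW, s41, s42, s43⟩ |
      ⟨s41, s42, s43⟩
    · -- an exceptional host
      have hN2 : ∀ v, v < n → v ≠ x → v ≠ y → Inc G n v → N2 (M v) := by
        intro v hv h1 h2 hi κ
        obtain ⟨a, ha, ha2⟩ := by
          have := s42 (P v) (c x v) (c y v) (rel k x v) (rel k y v) (h.poss2 hv hx h1.symm)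
            (h.poss2 hv hy h2.symm) (hcv2 v) (hw v hv h1 h2) (htouch v hv h1 h2 hi) κ
          rw [← hview v hv] at this
          exact this
        exact ⟨a, (Mz v h1 h2 a).mpr ha, ha2⟩
      by_cases hxe1 : xe
      · refine glist1i hG (hu hwW) k1 k2 n M y ?_ hM1
        intro v hv hvy hi
        by_cases h1 : v = x
        · exact absurd (h1 ▸ hi) (incx hxe1 n)
        · exact hN2 v hv h1 hvy hi
      · have hye1 : ye := by
          rcases s41 with s41 | s41
          · exact absurd s41 hxe1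
          · exact s41
        refine glist1i hG (hu hwW) k1 k2 n M x ?_ hM1
        intro v hv hvx hi
        by_cases h1 : v = y
        · exact absurd (h1 ▸ hi) (incy hye1 n)
        · exact hN2 v hv hvx h1 hi
    · -- both hosts natural
      obtain ⟨f, f1, f2, f3, f4⟩ := glist2i hG (hu hwW) k1 k2 n M x y p q hx hy hxy
        (by
          intro v hv h1 h2 hi κ κ'
          obtain ⟨a, ha, ha2, ha3⟩ := by
            have := s43 (P v) (c x v) (c y v) (rel k x v) (rel k y v) (h.poss2 hv hx h1.symm)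
              (h.poss2 hv hy h2.symm) (hcv2 v) (hw v hv h1 h2) (htouch v hv h1 h2 hi) κ κ'
            rw [← hview v hv] at this
            exact this
          exact ⟨a, (Mz v h1 h2 a).mpr ha, ha2, ha3⟩)
        (fun v hv _ _ => hM1 v hv)
        (fun hg1 _ => hg1.2.2.2.1 (Or.inl ⟨rfl, rfl⟩))
        (fun hg1 _ => hg1.2.2.2.1 (Or.inr ⟨rfl, rfl⟩))
      refine ⟨f, ?_, f4⟩
      intro v hv
      by_cases h1 : v = x
      · rw [h1]; exact (Mx _).mpr f1
      · by_cases h2 : v = y
        · rw [h2]; exact (My _).mpr f2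
        · exact f3 v hv h1 h2
    · -- greedy in age order
      refine glistB hG (hu hwW) k1 M n ?_ hM1
      rintro v hv ⟨u, hgu⟩
      by_cases h1 : v = x
      · exfalso
        obtain ⟨g1, g2, g3, g4, α, β, g5, g6, g7⟩ := hgu
        have hl := h.elt v u g1
        rw [h1] at g1 g2 g4 g5 g7
        have hnx : ¬ xe := fun hh => g2 (Or.inl ⟨rfl, hh⟩)
        have huy : u ≠ y := fun hh => g4 (Or.inl ⟨rfl, hh⟩)
        have hux : u ≠ x := by omega
        have e1 := (Mx α).mp g5
        rw [e1] at g7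
        exact s41 hnx (P u) (reln k kn u) (rel k x u) (c x u) β (hcv x u) (h.exc x u g1)
          (hMF u hux huy β g6) g7
      · by_cases h2 : v = y
        · exfalso
          obtain ⟨g1, g2, g3, g4, α, β, g5, g6, g7⟩ := hgu
          have hl := h.elt v u g1
          rw [h2] at g1 g2 g4 g5 g7
          have hny : ¬ ye := fun hh => g2 (Or.inr ⟨rfl, hh⟩)
          have hux : u ≠ x := fun hh => g4 (Or.inr ⟨rfl, hh⟩)
          have huy : u ≠ y := by omega
          have e1 := (My α).mp g5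
          rw [e1] at g7
          exact s42 hny (P u) (reln k kn u) (rel k y u) (c y u) β (hcv y u) (h.exc y u g1)
            (hMF u hux huy β g6) g7
        · intro κ
          obtain ⟨a, ha, ha2⟩ := by
            have := s43 (P v) (c x v) (c y v) (rel k x v) (rel k y v)
              (h.poss2 hv hx (Ne.symm h1)) (h.poss2 hv hy (Ne.symm h2)) (hcv2 v)
              (hw v hv h1 h2) (hptouch v hv h1 h2 ⟨u, hgu⟩) κ
            rw [← hview v hv] at this
            exact this
          exact ⟨a, (Mz v h1 h2 a).mpr ha, ha2⟩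
    · -- wild: greedy in age order with two older neighbours
      refine glistW hG (fun v a b c ha hb hc => h.two v a b c ha.1 hb.1 hc.1) k1 M n ?_ hM1
      rintro v hv ⟨u, hgu⟩
      by_cases h1 : v = x
      · exfalso
        obtain ⟨g1, g2, g3, g4, α, β, g5, g6, g7⟩ := hgu
        have hl := h.elt v u g1
        rw [h1] at g1 g2 g4 g5 g7
        have hnx : ¬ xe := fun hh => g2 (Or.inl ⟨rfl, hh⟩)
        have huy : u ≠ y := fun hh => g4 (Or.inl ⟨rfl, hh⟩)
        have hux : u ≠ x := by omega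
        have e1 := (Mx α).mp g5
        rw [e1] at g7
        exact s41 hnx (P u) (reln k kn u) (rel k x u) (c x u) β (hcv x u) (h.exc x u g1)
          (hMF u hux huy β g6) g7
      · by_cases h2 : v = y
        · exfalso
          obtain ⟨g1, g2, g3, g4, α, β, g5, g6, g7⟩ := hgu
          have hl := h.elt v u g1
          rw [h2] at g1 g2 g4 g5 g7
          have hny : ¬ ye := fun hh => g2 (Or.inr ⟨rfl, hh⟩)
          have hux : u ≠ x := fun hh => g4 (Or.inr ⟨rfl, hh⟩)
          have huy : u ≠ y := by omega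
          have e1 := (My α).mp g5
          rw [e1] at g7
          exact s42 hny (P u) (reln k kn u) (rel k y u) (c y u) β (hcv y u) (h.exc y u g1)
            (hMF u hux huy β g6) g7
        · intro κ κ'
          obtain ⟨a, ha, ha2, ha3⟩ := by
            have := s43 (P v) (c x v) (c y v) (rel k x v) (rel k y v)
              (h.poss2 hv hx (Ne.symm h1)) (h.poss2 hv hy (Ne.symm h2)) (hcv2 v)
              (hw v hv h1 h2) (hptouch v hv h1 h2 ⟨u, hgu⟩) κ κ'
            rw [← hview v hv] at this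
            exact this
          exact ⟨a, (Mz v h1 h2 a).mpr ha, ha2, ha3⟩
  obtain ⟨f, hfM, hfG⟩ := core
  have fx : f x = p := (Mx _).mp (hfM x hx)
  have fy : f y = q := (My _).mp (hfM y hy)
  have fz : ∀ z, z < n → z ≠ x → z ≠ y → A z (f z) := fun z hz h1 h2 =>
    (Mz z h1 h2 _).mp (hfM z hz)
  refine ⟨f, fx, fy, ?_, ?_, ?_, s5, ?_⟩
  · intro z hz h1 h2
    exact hg.sub _ _ _ _ _ (fz z hz h1 h2).1
  · by_cases hh : t.Nat' W (P x) (reln k kn x) p
    · exact Or.inl hh
    · exact Or.inr (s1 hh)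
  · by_cases hh : t.Nat' W (P y) (reln k kn y) q
    · exact Or.inl hh
    · exact Or.inr (s2 hh)
  · have main : ∀ z u, z < n → u < z → ¬ BadLV (f z) (f u) (c z u) := by
      intro z u hz huz hbad
      have hun : u < n := lt_trans huz hz
      by_cases hxy1 : z = x ∧ u = y
      · rw [hxy1.1, hxy1.2, fx, fy] at hbad
        exact hb (badLV_rot (badLV_rot hbad))
      by_cases hxy2 : z = y ∧ u = x
      · rw [hxy2.1, hxy2.2, fx, fy, h.symm y x] at hbad
        exact hb (badLV_rot (badLV_rot (badLV_swap hbad)))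
      by_cases hzx : z = x ∧ xe
      · rw [hzx.1, fx] at hbad
        have h1 : u ≠ x := by omega
        have h2 : u ≠ y := fun hh => hxy1 ⟨hzx.1, hh⟩
        exact (fz u hun h1 h2).2.1 hzx.2 hbad
      by_cases hzy : z = y ∧ ye
      · rw [hzy.1, fy] at hbad
        have h1 : u ≠ x := fun hh => hxy2 ⟨hzy.1, hh⟩
        have h2 : u ≠ y := by omega
        exact (fz u hun h1 h2).2.2 hzy.2 hbad
      by_cases hux : u = x ∧ xe
      · rw [hux.1, fx, h.symm z x] at hbad
        have h1 : z ≠ x := by omega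
        have h2 : z ≠ y := fun hh => hxy2 ⟨hh, hux.1⟩
        exact (fz z hz h1 h2).2.1 hux.2 (badLV_swap hbad)
      by_cases huy : u = y ∧ ye
      · rw [huy.1, fy, h.symm z y] at hbad
        have h1 : z ≠ x := fun hh => hxy1 ⟨hh, huy.1⟩
        have h2 : z ≠ y := by omega
        exact (fz z hz h1 h2).2.2 huy.2 (badLV_swap hbad)
      have hXz : ¬ XE z := by
        rintro (hh | hh)
        · exact hzx hh
        · exact hzy hh
      have hXu : ¬ XE u := by
        rintro (hh | hh)
        · exact hux hh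
        · exact huy hh
      have hnb : ¬ ((z = x ∧ u = y) ∨ (z = y ∧ u = x)) := by
        rintro (hh | hh)
        · exact hxy1 hh
        · exact hxy2 hh
      have nz := hMN z hz hXz _ (hfM z hz)
      have nu := hMN u hun hXu _ (hfM u hun)
      by_cases he : E z u
      · exact hfG z u hz ⟨he, hXz, hXu, hnb, f z, f u, hfM z hz, hfM u hun, hbad⟩ hbad
      · have h5 := h.dft z u huz hz he
        have hfl : t.Fl W (P z) (reln k kn z) (f z) ∨ t.Fl W (P u) (reln k kn u) (f u) := by
          by_cases h1 : z = x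
          · right
            exact hMF u (by omega) (fun hh => hxy1 ⟨h1, hh⟩) _ (hfM u hun)
          · by_cases h2 : z = y
            · right
              exact hMF u (fun hh => hxy2 ⟨h2, hh⟩) (by omega) _ (hfM u hun)
            · left
              exact hMF z h1 h2 _ (hfM z hz)
        obtain ⟨e1, e2, e3⟩ := hbad
        have hc := hcv z u (f z).1
        unfold Nat' at nz nu h5
        unfold Fl at hfl
        rw [← e1] at nu hfl
        rw [← e2, ← e1] at h5
        exact hg.h1 W (P z) (P u) (f z).1 _ _ _ _ _ _ hc nz nu hfl h5 e3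
    intro z u hz hun hzu hbad
    rcases Nat.lt_or_gt_of_ne hzu with h1 | h1
    · rw [h.symm z u] at hbad
      exact main u z hun h1 (badLV_swap hbad)
    · exact main z u hz h1 hbad

end GTab

end Pool.Agent.RA6
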