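import Pool.Agent.RA6.GFrame99

/-!
General frame, second part: the one point extension property.
-/

namespace Pool.Agent.RA6

namespace GTab

variable {T : Type} {t : GTab T}

/-- States of the construction. -/
def State (t : GTab T) (n : ℕ) : Type :=
  {s : (ℕ → T) × (ℕ → ℕ → LV) × (ℕ → ℕ → Prop) × (Bool → ℕ → ℕ) //
    t.St n s.1 s.2.1 s.2.2.1 s.2.2.2}

/-- The colour in a state. -/
def State.col {t : GTab T} {n : ℕ} (s : State t n) (i j : ℕ) : ZMod 6 := lvZ (s.1.2.1 i j)

theorem stepClass (hg : t.Good) : StepClass' (State t) (fun {n} s => s.col (n := n)) := by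
  classical
  refine ⟨?_, ?_, ?_⟩
  · intro n s i j _ _ _
    show lvZ (s.1.2.1 i j) = lvZ (s.1.2.1 j i)
    rw [s.2.symm]
  · intro n s i j l hi hj hl h1 h2 h3 hf
    exact s.2.tri i j l hi hj hl h1 h2 h3 ((badLV_iff _ _ _).mpr hf)
  · rintro n ⟨⟨P, c, E, k⟩, h⟩ x y a b hx hy hxy hf hnw
    have h' : t.St n P c E k := h
    have hb : ¬ BadLV (c x y) (zLV a) (zLV b) := by
      intro hb
      have := (badLV_iff _ _ _).mp hb
      rw [lvZ_zLV, lvZ_zLV] at this
      exact hf this
    have hw : ∀ z, z < n → z ≠ x → z ≠ y → ¬ (c x z = zLV a ∧ c y z = zLV b) := by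
      rintro z hz h1 h2 ⟨h3, h4⟩
      refine hnw ⟨z, hz, h1, h2, ?_, ?_⟩
      · show lvZ (c x z) = a
        rw [h3, lvZ_zLV]
      · show lvZ (c z y) = b
        rw [h'.symm z y, h4, lvZ_zLV]
    obtain ⟨W, m, hs⟩ := hg.h4 (P x) (P y) (rel k x y) (c x y) (zLV a) (zLV b)
      (h'.poss2 hy hx hxy) hb
    let kn : Bool → ℕ := fun L => if m L = 0 then n else if m L = 1 then k L x else k L y
    obtain ⟨g, gx, gy, hdz, hpx, hqy, hsib, htri⟩ :=
      exists_newborn hg h' hx hy hxy hb hw W m hs kn (fun _ => rfl)
    have hnx : n ≠ x := by omega
    have hny : n ≠ y := by omega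
    let P' : ℕ → T := Function.update P n W
    let c' : ℕ → ℕ → LV := fun i j => if i = n then g j else if j = n then g i else c i j
    let k' : Bool → ℕ → ℕ := fun L => Function.update (k L) n (kn L)
    let iE : ℕ → Prop := fun z => (z = x ∧ ¬ t.Nat' W (P x) (reln k kn x) (zLV a)) ∨
      (z = y ∧ ¬ t.Nat' W (P y) (reln k kn y) (zLV b))
    let E' : ℕ → ℕ → Prop := fun w z => E w z ∨ (w = n ∧ iE z)
    have iElt : ∀ z, iE z → z < n := by
      rintro z (hz | hz)
      · rw [hz.1]; exact hx
      · rw [hz.1]; exact hy
    have P'n : P' n = W := Function.update_self _ _ _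
    have P'z : ∀ z, z < n → P' z = P z := fun z hz => Function.update_of_ne (by omega) _ _
    have k'n : ∀ L, k' L n = kn L := fun L => Function.update_self _ _ _
    have k'z : ∀ L z, z < n → k' L z = k L z := fun L z hz =>
      Function.update_of_ne (by omega) _ _
    have c'n : ∀ z, c' n z = g z := fun z => if_pos rfl
    have c'n2 : ∀ z, z < n → c' z n = g z := by
      intro z hz
      show (if z = n then g n else if n = n then g z else c z n) = g z
      rw [if_neg (by omega), if_pos rfl]
    have c'z : ∀ z u, z < n → u < n → c' z u = c z u := by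
      intro z u hz hu
      show (if z = n then g u else if u = n then g z else c z u) = c z u
      rw [if_neg (by omega), if_neg (by omega)]
    have r'n : ∀ z, z < n → rel k' n z = reln k kn z := by
      intro z hz
      funext L
      show decide (k' L n = k' L z) = decide (kn L = k L z)
      rw [k'n, k'z L z hz]
    have r'z : ∀ z u, z < n → u < n → rel k' z u = rel k z u := by
      intro z u hz hu
      funext L
      show decide (k' L z = k' L u) = decide (k L z = k L u)
      rw [k'z L z hz, k'z L u hu]
    have rn'z : ∀ (kv : Bool → ℕ) z, z < n → reln k' kv z = reln k kv z := by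
      intro kv z hz
      funext L
      show decide (kv L = k' L z) = decide (kv L = k L z)
      rw [k'z L z hz]
    have iEex : ∀ z, iE z → t.Ex W (P z) (reln k kn z) (g z) := by
      rintro z (hz | hz)
      · rw [hz.1, gx]
        rcases hpx with h1 | h1
        · exact absurd h1 hz.2
        · exact h1
      · rw [hz.1, gy]
        rcases hqy with h1 | h1
        · exact absurd h1 hz.2
        · exact h1
    have hst : t.St (n + 1) P' c' E' k' := by
      refine ⟨?_, ?_, ?_, ?_, ?_, ?_, ?_, ?_⟩
      · intro i j
        show (if i = n then g j else if j = n then g i else c i j) =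
          (if j = n then g i else if i = n then g j else c j i)
        by_cases hi : i = n
        · by_cases hj : j = n
          · rw [if_pos hi, if_pos hj, hi, hj]
          · rw [if_pos hi, if_neg hj, if_pos hi]
        · by_cases hj : j = n
          · rw [if_neg hi, if_pos hj, if_pos hj]
          · rw [if_neg hi, if_neg hj, if_neg hj, if_neg hi, h'.symm]
      · rintro w z (hw1 | ⟨hw1, hz⟩)
        · have := h'.elt w z hw1
          exact ⟨this.1, by omega⟩
        · have := iElt z hz
          exact ⟨by omega, by omega⟩
      · intro L z hz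
        by_cases hzn : z = n
        · rw [hzn, k'n]
          show (if m L = 0 then n else if m L = 1 then k L x else k L y) ≤ n
          have h1 := h'.kle L x hx
          have h2 := h'.kle L y hy
          split_ifs <;> omega
        · rw [k'z L z (by omega)]
          exact h'.kle L z (by omega)
      · intro w z hzw hw1 hne
        by_cases hwn : w = n
        · subst hwn
          rw [P'n, P'z z hzw, c'n, r'n z hzw]
          by_cases hzx : z = x
          · subst hzx
            rw [gx]
            by_contra hd
            exact hne (Or.inr ⟨rfl, Or.inl ⟨rfl, hd⟩⟩)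
          · by_cases hzy : z = y
            · subst hzy
              rw [gy]
              by_contra hd
              exact hne (Or.inr ⟨rfl, Or.inr ⟨rfl, hd⟩⟩)
            · exact hdz z hzw hzx hzy
        · have hwn' : w < n := by omega
          rw [P'z w hwn', P'z z (by omega), c'z w z hwn' (by omega), r'z w z hwn' (by omega)]
          exact h'.dft w z hzw hwn' (fun he => hne (Or.inl he))
      · rintro w z (hw1 | ⟨hw1, hz⟩)
        · have := h'.elt w z hw1
          rw [P'z w this.2, P'z z (by omega), c'z w z this.2 (by omega),
            r'z w z this.2 (by omega)]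
          exact h'.exc w z hw1
        · subst hw1
          rw [P'n, P'z z (iElt z hz), c'n, r'n z (iElt z hz)]
          exact iEex z hz
      · rintro v z1 z2 z3 h1 h2 h3
        by_cases hv : v = n
        · have hE : ∀ z, E' v z → z = x ∨ z = y := by
            rintro z (hz | ⟨_, hz | hz⟩)
            · have := h'.elt v z hz
              omega
            · exact Or.inl hz.1
            · exact Or.inr hz.1
          rcases hE z1 h1 with e1 | e1 <;> rcases hE z2 h2 with e2 | e2 <;>
            rcases hE z3 h3 with e3 | e3 <;> rw [e1, e2, e3] <;> simp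
        · have hE : ∀ z, E' v z → E v z := by
            rintro z (hz | ⟨hz, _⟩)
            · exact hz
            · exact absurd hz hv
          exact h'.two v z1 z2 z3 (hE z1 h1) (hE z2 h2) (hE z3 h3)
      · rintro w z1 z2 (hw1 | ⟨hw1, hz⟩) h2 hne V kv hwV
        · have h3 := h'.elt w z1 hw1
          rcases h2 with h2 | ⟨h2, _⟩
          · have h4 := h'.elt w z2 h2
            rw [P'z w h3.2, P'z z1 (by omega), P'z z2 (by omega), c'z w z1 h3.2 (by omega),
              c'z w z2 h3.2 (by omega), rn'z kv w h3.2, rn'z kv z1 (by omega),
              rn'z kv z2 (by omega)]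
            exact h'.sib w z1 z2 hw1 h2 hne V kv hwV
          · omega
        · subst hw1
          rcases h2 with h2 | ⟨_, hz2⟩
          · have h4 := h'.elt _ z2 h2
            omega
          · have l1 := iElt _ hz
            have l2 := iElt _ hz2
            rw [c'n, c'n, P'n, P'z z1 l1, P'z z2 l2, rn'z kv z1 l1, rn'z kv z2 l2]
            have cw : ∀ z, z < w → CV (reln k' kv w) (reln k kv z) (reln k kn z) := by
              intro z hz3 L
              have := cons_dec (kv L) (kn L) (k L z)
              show Cons (decide (kv L = k' L w)) (decide (kv L = k L z))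
                (decide (kn L = k L z))
              rw [k'n]
              exact this
            have cxy : ∀ z z', CV (reln k kv z) (reln k kv z') (rel k z z') := by
              intro z z' L
              exact cons_dec (kv L) (k L z) (k L z')
            rcases hz with ⟨h5, h6⟩ | ⟨h5, h6⟩
            · rcases hz2 with ⟨h7, h8⟩ | ⟨h7, h8⟩
              · exact absurd (h5.trans h7.symm) hne
              · rw [h5, h7, gx, gy]
                exact hsib h6 h8 V _ _ _ hwV (cw x hx) (cw y hy) (cxy x y)
            · rcases hz2 with ⟨h7, h8⟩ | ⟨h7, h8⟩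
              · rw [h5, h7, gx, gy]
                rintro ⟨h9, h10⟩
                exact hsib h8 h6 V _ _ _ hwV (cw x hx) (cw y hy) (cxy x y) ⟨h10, h9⟩
              · exact absurd (h5.trans h7.symm) hne
      · intro i j l hi hj hl hij hjl hil
        by_cases hin : i = n
        · subst hin
          rw [c'n, c'n, c'z j l (by omega) (by omega)]
          intro hbad
          exact htri j l (by omega) (by omega) hjl (badLV_swap (badLV_rot (badLV_rot hbad)))
        · by_cases hjn : j = n
          · subst hjn
            rw [c'n, c'n2 i (by omega), c'z i l (by omega) (by omega)]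
            exact htri i l (by omega) (by omega) hil
          · by_cases hln : l = n
            · subst hln
              rw [c'n2 j (by omega), c'n2 i (by omega), c'z i j (by omega) (by omega)]
              intro hbad
              exact htri i j (by omega) (by omega) hij (badLV_swap (badLV_rot hbad))
            · rw [c'z i j (by omega) (by omega), c'z j l (by omega) (by omega),
                c'z i l (by omega) (by omega)]
              exact h'.tri i j l (by omega) (by omega) (by omega) hij hjl hil
    refine ⟨⟨⟨P', c', E', k'⟩, hst⟩, ?_, ?_, ?_⟩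
    · intro i j hi hj _
      show lvZ (c' i j) = lvZ (c i j)
      rw [c'z i j hi hj]
    · show lvZ (c' x n) = a
      rw [c'n2 x hx, gx, lvZ_zLV]
    · show lvZ (c' n y) = b
      rw [c'n, gy, lvZ_zLV]

/-- A start: two vertices in different classes. -/
theorem start (hg : t.Good) : Nonempty (State t 2) := by
  obtain ⟨W, X, L, a, h0⟩ := hg.h0
  refine ⟨⟨⟨fun i => if i = 0 then X else W, fun _ _ => (L, a), fun _ _ => False,
    fun _ i => i⟩, ?_⟩⟩
  refine ⟨fun _ _ => rfl, fun _ _ h => h.elim, fun _ _ _ => le_refl _, ?_,
    fun _ _ h => h.elim, fun _ _ _ _ h => h.elim, fun _ _ _ h => h.elim, ?_⟩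
  · intro w x hxw hw _
    have h1 : w = 1 := by omega
    have h2 : x = 0 := by omega
    subst h1 h2
    exact h0
  · intro i j k hi hj hk hij hjk hik
    omega

/-- A good table gives a representation. -/
theorem rep_of_good (hg : t.Good) :
    ∃ (U : Type) (r : Set Atom → Set (U × U)), IsRepresentation U r := by
  obtain ⟨s⟩ := start hg
  obtain ⟨U, c, _, hc⟩ := colouring_of_step' (stepClass hg) 2 (le_refl 2) s
  obtain ⟨r, hr⟩ := rep_of_colouring hc
  exact ⟨U, r, hr⟩

end GTab

end Pool.Agent.RA6
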