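import Pool.Agent.RA6.FOFrame99

/-!
List colouring of a forest with arbitrary constraints that kill at most one colour.
-/

namespace Pool.Agent.RA6

/-- At least one element. -/
def N1 {C : Type} (A : C → Prop) : Prop := ∃ α, A α
/-- At least two elements. -/
def N2 {C : Type} (A : C → Prop) : Prop := ∀ κ, ∃ α, A α ∧ α ≠ κ
/-- At least three elements. -/
def N3 {C : Type} (A : C → Prop) : Prop := ∀ κ κ', ∃ α, A α ∧ α ≠ κ ∧ α ≠ κ'

section glists

variable {C : Type} {G : ℕ → ℕ → Prop} (hG : ∀ v u, G v u → u < v)
  (hu : ∀ v u u', G v u → G v u' → u = u') {B : ℕ → ℕ → C → C → Prop}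
  (k1 : ∀ v u β, ∃ κ, ∀ α, B v u α β → α = κ)
  (k2 : ∀ v u α, ∃ κ, ∀ β, B v u α β → β = κ)

include hG hu k1 k2

theorem glist1 : ∀ (n : ℕ) (A : ℕ → C → Prop) (e : ℕ),
    (∀ v, v < n → v ≠ e → N2 (A v)) → N1 (A e) →
    ∃ f : ℕ → C, (∀ v, v < n → A v (f v)) ∧ ∀ v u, v < n → G v u → ¬ B v u (f v) (f u) := by
  classical
  intro n
  induction n with
  | zero =>
    rintro A e _ ⟨b, _⟩
    exact ⟨fun _ => b, fun v hv => absurd hv (Nat.not_lt_zero v),
      fun v u hv => absurd hv (Nat.not_lt_zero v)⟩
  | succ n ih =>
    intro A e h1 h2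
    by_cases hn : n = e
    · obtain ⟨b, hb⟩ := h2
      by_cases hg : ∃ u, G n u
      · obtain ⟨u, hgu⟩ := hg
        have hun : u < n := hG _ _ hgu
        obtain ⟨κ, hκ⟩ := k2 n u b
        obtain ⟨f, hf1, hf2⟩ := ih (fun v => if v = u then (fun β => A u β ∧ β ≠ κ) else A v) u
          (by
            intro v hv hvu
            rw [if_neg hvu]
            exact h1 v (by omega) (by omega))
          (by
            rw [if_pos rfl]
            exact h1 u (by omega) (by omega) κ)
        refine ⟨Function.update f n b, ?_, ?_⟩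
        · intro v hv
          by_cases hvn : v = n
          · subst hvn
            rw [Function.update_self, hn]
            exact hb
          · rw [Function.update_of_ne hvn]
            have := hf1 v (by omega)
            by_cases hvu : v = u
            · subst hvu
              rw [if_pos rfl] at this
              exact this.1
            · rw [if_neg hvu] at this
              exact this
        · intro v u' hv hgv
          have hlt := hG _ _ hgv
          by_cases hvn : v = n
          · subst hvn
            have e1 : u' = u := hu _ _ _ hgv hgu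
            subst e1
            rw [Function.update_self, Function.update_of_ne (by omega)]
            have := hf1 u' hun
            rw [if_pos rfl] at this
            intro hB
            exact this.2 (hκ _ hB)
          · rw [Function.update_of_ne hvn, Function.update_of_ne (by omega)]
            exact hf2 v u' (by omega) hgv
      · obtain ⟨f, hf1, hf2⟩ := ih A e (fun v hv hve => h1 v (by omega) hve) ⟨b, hb⟩
        refine ⟨Function.update f n b, ?_, ?_⟩
        · intro v hv
          by_cases hvn : v = n
          · subst hvn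
            rw [Function.update_self, hn]
            exact hb
          · rw [Function.update_of_ne hvn]
            exact hf1 v (by omega)
        · intro v u' hv hgv
          have hlt := hG _ _ hgv
          by_cases hvn : v = n
          · subst hvn
            exact absurd ⟨u', hgv⟩ hg
          · rw [Function.update_of_ne hvn, Function.update_of_ne (by omega)]
            exact hf2 v u' (by omega) hgv
    · obtain ⟨f, hf1, hf2⟩ := ih A e (fun v hv hve => h1 v (by omega) hve) h2
      have hc : N2 (A n) := h1 n (by omega) hn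
      obtain ⟨t, ht, ht2⟩ : ∃ t, A n t ∧ ∀ u, G n u → ¬ B n u t (f u) := by
        by_cases hg : ∃ u, G n u
        · obtain ⟨u, hgu⟩ := hg
          obtain ⟨κ, hκ⟩ := k1 n u (f u)
          obtain ⟨t, ht, htκ⟩ := hc κ
          refine ⟨t, ht, ?_⟩
          intro u' hgu'
          have e1 : u' = u := hu _ _ _ hgu' hgu
          subst e1
          intro hB
          exact htκ (hκ _ hB)
        · obtain ⟨t, ht, _⟩ := hc (f n)
          exact ⟨t, ht, fun u hgu => absurd ⟨u, hgu⟩ hg⟩
      refine ⟨Function.update f n t, ?_, ?_⟩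
      · intro v hv
        by_cases hvn : v = n
        · subst hvn
          rw [Function.update_self]
          exact ht
        · rw [Function.update_of_ne hvn]
          exact hf1 v (by omega)
      · intro v u' hv hgv
        have hlt := hG _ _ hgv
        by_cases hvn : v = n
        · subst hvn
          rw [Function.update_self, Function.update_of_ne (by omega)]
          exact ht2 u' hgv
        · rw [Function.update_of_ne hvn, Function.update_of_ne (by omega)]
          exact hf2 v u' (by omega) hgv

theorem glist2_top (n e : ℕ) (b1 b2 : C) (A : ℕ → C → Prop) (hne : n ≠ e)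
    (hA : ∀ v, v < n → v ≠ e → N3 (A v)) (hc : G n e → ¬ B n e b1 b2) :
    ∃ f : ℕ → C, f n = b1 ∧ (e < n → f e = b2) ∧ (∀ v, v < n → v ≠ e → A v (f v)) ∧
      ∀ v u, v < n + 1 → G v u → ¬ B v u (f v) (f u) := by
  classical
  have hA2 : ∀ v, v < n → v ≠ e → N2 (A v) := by
    intro v hv hve κ
    obtain ⟨t, ht, h1, _⟩ := hA v hv hve κ κ
    exact ⟨t, ht, h1⟩
  by_cases hg : ∃ u, G n u
  · obtain ⟨u, hgu⟩ := hg
    have hun : u < n := hG _ _ hgu
    obtain ⟨κ, hκ⟩ := k2 n u b1
    obtain ⟨f, hf1, hf2⟩ := glist1 hG hu k1 k2 n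
      (fun v => if v = e then (fun β => β = b2) else if v = u then (fun β => A u β ∧ β ≠ κ)
        else A v) e
      (by
        intro v hv hve
        rw [if_neg hve]
        by_cases hvu : v = u
        · rw [if_pos hvu]
          intro κ'
          obtain ⟨t, ht, h1, h2⟩ := hA v hv hve κ κ'
          rw [hvu] at ht
          exact ⟨t, ⟨ht, h1⟩, h2⟩
        · rw [if_neg hvu]
          exact hA2 v hv hve)
      (by rw [if_pos rfl]; exact ⟨b2, rfl⟩)
    have hfe : e < n → f e = b2 := by
      intro hen
      have := hf1 e hen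
      rw [if_pos rfl] at this
      exact this
    refine ⟨Function.update f n b1, Function.update_self _ _ _, ?_, ?_, ?_⟩
    · intro hen
      rw [Function.update_of_ne (by omega)]
      exact hfe hen
    · intro v hv hve
      rw [Function.update_of_ne (by omega)]
      have := hf1 v hv
      rw [if_neg hve] at this
      by_cases hvu : v = u
      · rw [if_pos hvu] at this
        rw [hvu] at this ⊢
        exact this.1
      · rw [if_neg hvu] at this
        exact this
    · intro v u' hv hgv
      have hlt := hG _ _ hgv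
      by_cases hvn : v = n
      · subst hvn
        have e1 : u' = u := hu _ _ _ hgv hgu
        subst e1
        rw [Function.update_self, Function.update_of_ne (by omega)]
        by_cases hue : u' = e
        · subst hue
          rw [hfe hun]
          exact hc hgv
        · have := hf1 u' hun
          rw [if_neg hue, if_pos rfl] at this
          intro hB
          exact this.2 (hκ _ hB)
      · rw [Function.update_of_ne hvn, Function.update_of_ne (by omega)]
        exact hf2 v u' (by omega) hgv
  · obtain ⟨f, hf1, hf2⟩ := glist1 hG hu k1 k2 n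
      (fun v => if v = e then (fun β => β = b2) else A v) e
      (by
        intro v hv hve
        rw [if_neg hve]
        exact hA2 v hv hve)
      (by rw [if_pos rfl]; exact ⟨b2, rfl⟩)
    refine ⟨Function.update f n b1, Function.update_self _ _ _, ?_, ?_, ?_⟩
    · intro hen
      rw [Function.update_of_ne (by omega)]
      have := hf1 e hen
      rw [if_pos rfl] at this
      exact this
    · intro v hv hve
      rw [Function.update_of_ne (by omega)]
      have := hf1 v hv
      rw [if_neg hve] at this
      exact this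
    · intro v u' hv hgv
      have hlt := hG _ _ hgv
      by_cases hvn : v = n
      · subst hvn
        exact absurd ⟨u', hgv⟩ hg
      · rw [Function.update_of_ne hvn, Function.update_of_ne (by omega)]
        exact hf2 v u' (by omega) hgv

theorem glist2 (A : ℕ → C → Prop) : ∀ (n e1 e2 : ℕ) (b1 b2 : C), e1 ≠ e2 →
    (∀ v, v < n → v ≠ e1 → v ≠ e2 → N3 (A v)) →
    (G e1 e2 → ¬ B e1 e2 b1 b2) → (G e2 e1 → ¬ B e2 e1 b2 b1) →
    ∃ f : ℕ → C, (e1 < n → f e1 = b1) ∧ (e2 < n → f e2 = b2) ∧
      (∀ v, v < n → v ≠ e1 → v ≠ e2 → A v (f v)) ∧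
      ∀ v u, v < n → G v u → ¬ B v u (f v) (f u) := by
  classical
  intro n
  induction n with
  | zero =>
    intro e1 e2 b1 b2 _ _ _ _
    exact ⟨fun _ => b1, fun h => absurd h (Nat.not_lt_zero _),
      fun h => absurd h (Nat.not_lt_zero _), fun v hv => absurd hv (Nat.not_lt_zero v),
      fun v u hv => absurd hv (Nat.not_lt_zero v)⟩
  | succ n ih =>
    intro e1 e2 b1 b2 hne hA h1 h2
    by_cases hn1 : n = e1
    · subst hn1
      obtain ⟨f, hf1, hf2, hf3, hf4⟩ := glist2_top hG hu k1 k2 n e2 b1 b2 A hne
        (fun v hv hv2 => hA v (by omega) (by omega) hv2) h1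
      exact ⟨f, fun _ => hf1, fun h => hf2 (by omega),
        fun v hv hv1 hv2 => hf3 v (by omega) hv2, hf4⟩
    · by_cases hn2 : n = e2
      · subst hn2
        obtain ⟨f, hf1, hf2, hf3, hf4⟩ := glist2_top hG hu k1 k2 n e1 b2 b1 A hne.symm
          (fun v hv hv2 => hA v (by omega) hv2 (by omega)) h2
        exact ⟨f, fun h => hf2 (by omega), fun _ => hf1,
          fun v hv hv1 hv2 => hf3 v (by omega) hv1, hf4⟩
      · obtain ⟨f, hf1, hf2, hf3, hf4⟩ := ih e1 e2 b1 b2 hne
          (fun v hv hv1 hv2 => hA v (by omega) hv1 hv2) h1 h2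
        obtain ⟨t, ht, ht2⟩ : ∃ t, A n t ∧ ∀ u, G n u → ¬ B n u t (f u) := by
          by_cases hg : ∃ u, G n u
          · obtain ⟨u, hgu⟩ := hg
            obtain ⟨κ, hκ⟩ := k1 n u (f u)
            obtain ⟨t, ht, htκ, _⟩ := hA n (by omega) hn1 hn2 κ κ
            refine ⟨t, ht, ?_⟩
            intro u' hgu'
            have e1 : u' = u := hu _ _ _ hgu' hgu
            subst e1
            intro hB
            exact htκ (hκ _ hB)
          · obtain ⟨t, ht, _⟩ := hA n (by omega) hn1 hn2 (f n) (f n)
            exact ⟨t, ht, fun u hgu => absurd ⟨u, hgu⟩ hg⟩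
        refine ⟨Function.update f n t, ?_, ?_, ?_, ?_⟩
        · intro h
          rw [Function.update_of_ne (fun h => hn1 h.symm)]
          exact hf1 (by omega)
        · intro h
          rw [Function.update_of_ne (fun h => hn2 h.symm)]
          exact hf2 (by omega)
        · intro v hv hv1 hv2
          by_cases hvn : v = n
          · subst hvn
            rw [Function.update_self]
            exact ht
          · rw [Function.update_of_ne hvn]
            exact hf3 v (by omega) hv1 hv2
        · intro v u' hv hgv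
          have hlt := hG _ _ hgv
          by_cases hvn : v = n
          · subst hvn
            rw [Function.update_self, Function.update_of_ne (by omega)]
            exact ht2 u' hgv
          · rw [Function.update_of_ne hvn, Function.update_of_ne (by omega)]
            exact hf4 v u' (by omega) hgv

omit k2 in
theorem glistB [Nonempty C] (A : ℕ → C → Prop) : ∀ (n : ℕ),
    (∀ v, v < n → (∃ u, G v u) → N2 (A v)) → (∀ v, v < n → N1 (A v)) →
    ∃ f : ℕ → C, (∀ v, v < n → A v (f v)) ∧ ∀ v u, v < n → G v u → ¬ B v u (f v) (f u) := by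
  classical
  intro n
  induction n with
  | zero =>
    intro _ _
    obtain ⟨b⟩ := (inferInstance : Nonempty C)
    exact ⟨fun _ => b, fun v hv => absurd hv (Nat.not_lt_zero v),
      fun v u hv => absurd hv (Nat.not_lt_zero v)⟩
  | succ n ih =>
    intro h2 h1
    obtain ⟨f, hf1, hf2⟩ := ih (fun v hv hg => h2 v (by omega) hg) (fun v hv => h1 v (by omega))
    obtain ⟨t, ht, ht2⟩ : ∃ t, A n t ∧ ∀ u, G n u → ¬ B n u t (f u) := by
      by_cases hg : ∃ u, G n u
      · obtain ⟨u, hgu⟩ := hg
        obtain ⟨κ, hκ⟩ := k1 n u (f u)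
        obtain ⟨t, ht, htκ⟩ := h2 n (by omega) ⟨u, hgu⟩ κ
        refine ⟨t, ht, ?_⟩
        intro u' hgu'
        have e1 : u' = u := hu _ _ _ hgu' hgu
        subst e1
        intro hB
        exact htκ (hκ _ hB)
      · obtain ⟨t, ht⟩ := h1 n (by omega)
        exact ⟨t, ht, fun u hgu => absurd ⟨u, hgu⟩ hg⟩
    refine ⟨Function.update f n t, ?_, ?_⟩
    · intro v hv
      by_cases hvn : v = n
      · subst hvn
        rw [Function.update_self]
        exact ht
      · rw [Function.update_of_ne hvn]
        exact hf1 v (by omega)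
    · intro v u' hv hgv
      have hlt := hG _ _ hgv
      by_cases hvn : v = n
      · subst hvn
        rw [Function.update_self, Function.update_of_ne (by omega)]
        exact ht2 u' hgv
      · rw [Function.update_of_ne hvn, Function.update_of_ne (by omega)]
        exact hf2 v u' (by omega) hgv

end glists

section wild

variable {C : Type} {G : ℕ → ℕ → Prop} (hG : ∀ v u, G v u → u < v)
  (hu : ∀ v a b c, G v a → G v b → G v c → a = b ∨ b = c ∨ a = c)
  {B : ℕ → ℕ → C → C → Prop} (k1 : ∀ v u β, ∃ κ, ∀ α, B v u α β → α = κ)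

include hG hu k1

/-- At most two older neighbours, lists of size three where there is an older neighbour. -/
theorem glistW [Nonempty C] (A : ℕ → C → Prop) : ∀ (n : ℕ),
    (∀ v, v < n → (∃ u, G v u) → N3 (A v)) → (∀ v, v < n → N1 (A v)) →
    ∃ f : ℕ → C, (∀ v, v < n → A v (f v)) ∧ ∀ v u, v < n → G v u → ¬ B v u (f v) (f u) := by
  classical
  intro n
  induction n with
  | zero =>
    intro _ _
    obtain ⟨b⟩ := (inferInstance : Nonempty C)
    exact ⟨fun _ => b, fun v hv => absurd hv (Nat.not_lt_zero v),
      fun v u hv => absurd hv (Nat.not_lt_zero v)⟩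
  | succ n ih =>
    intro h2 h1
    obtain ⟨f, hf1, hf2⟩ := ih (fun v hv hg => h2 v (by omega) hg) (fun v hv => h1 v (by omega))
    obtain ⟨t, ht, ht2⟩ : ∃ t, A n t ∧ ∀ u, G n u → ¬ B n u t (f u) := by
      by_cases hg : ∃ u, G n u
      · obtain ⟨u, hgu⟩ := hg
        obtain ⟨κ, hκ⟩ := k1 n u (f u)
        by_cases hg2 : ∃ u', u' ≠ u ∧ G n u'
        · obtain ⟨u', hne, hgu'⟩ := hg2
          obtain ⟨κ', hκ'⟩ := k1 n u' (f u')
          obtain ⟨t, ht, h3, h4⟩ := h2 n (by omega) ⟨u, hgu⟩ κ κ'
          refine ⟨t, ht, ?_⟩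
          intro w hgw hB
          rcases hu n u u' w hgu hgu' hgw with h5 | h5 | h5
          · exact hne h5.symm
          · subst h5
            exact h4 (hκ' _ hB)
          · subst h5
            exact h3 (hκ _ hB)
        · obtain ⟨t, ht, h3, _⟩ := h2 n (by omega) ⟨u, hgu⟩ κ κ
          refine ⟨t, ht, ?_⟩
          intro w hgw hB
          by_cases hwu : w = u
          · subst hwu
            exact h3 (hκ _ hB)
          · exact hg2 ⟨w, hwu, hgw⟩
      · obtain ⟨t, ht⟩ := h1 n (by omega)
        exact ⟨t, ht, fun u hgu => absurd ⟨u, hgu⟩ hg⟩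
    refine ⟨Function.update f n t, ?_, ?_⟩
    · intro v hv
      by_cases hvn : v = n
      · subst hvn
        rw [Function.update_self]
        exact ht
      · rw [Function.update_of_ne hvn]
        exact hf1 v (by omega)
    · intro v u' hv hgv
      have hlt := hG _ _ hgv
      by_cases hvn : v = n
      · subst hvn
        rw [Function.update_self, Function.update_of_ne (by omega)]
        exact ht2 u' hgv
      · rw [Function.update_of_ne hvn, Function.update_of_ne (by omega)]
        exact hf2 v u' (by omega) hgv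

end wild

section inc

variable {G : ℕ → ℕ → Prop} (hG : ∀ v u, G v u → u < v)
  (hu : ∀ v u u', G v u → G v u' → u = u') {B : ℕ → ℕ → LV → LV → Prop}
  (k1 : ∀ v u β, ∃ κ, ∀ α, B v u α β → α = κ)
  (k2 : ∀ v u α, ∃ κ, ∀ β, B v u α β → β = κ)

/-- Incident with an edge. -/
def Inc (G : ℕ → ℕ → Prop) (n v : ℕ) : Prop := (∃ u, G v u) ∨ ∃ w, w < n ∧ G w v

theorem n3_true : N3 (fun _ : LV => True) := by
  intro κ κ'
  revert κ κ'
  decide

theorem n2_true : N2 (fun _ : LV => True) := by
  intro κ
  revert κ
  decide

include hG hu k1 k2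

/-- Lists of size two at the vertices with edges, except one vertex. -/
theorem glist1i (n : ℕ) (A : ℕ → LV → Prop) (e : ℕ)
    (h2 : ∀ v, v < n → v ≠ e → Inc G n v → N2 (A v)) (h1 : ∀ v, v < n → N1 (A v)) :
    ∃ f : ℕ → LV, (∀ v, v < n → A v (f v)) ∧
      ∀ v u, v < n → G v u → ¬ B v u (f v) (f u) := by
  classical
  obtain ⟨f, hf1, hf2⟩ := glist1 hG hu k1 k2 n
    (fun v => if Inc G n v ∧ v < n then A v else fun _ => True) e
    (by
      intro v hv hve
      by_cases hi : Inc G n v
      · rw [if_pos ⟨hi, hv⟩]
        exact h2 v hv hve hi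
      · rw [if_neg (fun h => hi h.1)]
        exact n2_true)
    (by
      by_cases hi : Inc G n e ∧ e < n
      · rw [if_pos hi]
        exact h1 e hi.2
      · rw [if_neg hi]
        exact ⟨(true, 0), trivial⟩)
  have h1' : ∀ v, ∃ a, v < n → A v a := by
    intro v
    by_cases hv : v < n
    · obtain ⟨a, ha⟩ := h1 v hv
      exact ⟨a, fun _ => ha⟩
    · exact ⟨(true, 0), fun h => absurd h hv⟩
  choose g hg using h1'
  refine ⟨fun v => if Inc G n v then f v else g v, ?_, ?_⟩
  · intro v hv
    by_cases hi : Inc G n v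
    · have := hf1 v hv
      rw [if_pos ⟨hi, hv⟩] at this
      show A v (if Inc G n v then f v else g v)
      rw [if_pos hi]
      exact this
    · show A v (if Inc G n v then f v else g v)
      rw [if_neg hi]
      exact hg v hv
  · intro v u hv hgv
    have hv1 : Inc G n v := Or.inl ⟨u, hgv⟩
    have hu1 : Inc G n u := Or.inr ⟨v, hv, hgv⟩
    show ¬ B v u (if Inc G n v then f v else g v) (if Inc G n u then f u else g u)
    rw [if_pos hv1, if_pos hu1]
    exact hf2 v u hv hgv

/-- Two prescribed vertices, lists of size three at the other vertices with edges. -/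
theorem glist2i (n : ℕ) (A : ℕ → LV → Prop) (e1 e2 : ℕ) (b1 b2 : LV) (he1 : e1 < n)
    (he2 : e2 < n) (hne : e1 ≠ e2)
    (h3 : ∀ v, v < n → v ≠ e1 → v ≠ e2 → Inc G n v → N3 (A v))
    (h1 : ∀ v, v < n → v ≠ e1 → v ≠ e2 → N1 (A v))
    (hc1 : G e1 e2 → ¬ B e1 e2 b1 b2) (hc2 : G e2 e1 → ¬ B e2 e1 b2 b1) :
    ∃ f : ℕ → LV, f e1 = b1 ∧ f e2 = b2 ∧
      (∀ v, v < n → v ≠ e1 → v ≠ e2 → A v (f v)) ∧
      ∀ v u, v < n → G v u → ¬ B v u (f v) (f u) := by
  classical
  obtain ⟨f, hf1, hf2, hf3, hf4⟩ := glist2 hG hu k1 k2
    (fun v => if Inc G n v then A v else fun _ => True) n e1 e2 b1 b2 hne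
    (by
      intro v hv hv1 hv2
      by_cases hi : Inc G n v
      · rw [if_pos hi]
        exact h3 v hv hv1 hv2 hi
      · rw [if_neg hi]
        exact n3_true) hc1 hc2
  have h1' : ∀ v, ∃ a, v < n → v ≠ e1 → v ≠ e2 → A v a := by
    intro v
    by_cases hv : v < n ∧ v ≠ e1 ∧ v ≠ e2
    · obtain ⟨a, ha⟩ := h1 v hv.1 hv.2.1 hv.2.2
      exact ⟨a, fun _ _ _ => ha⟩
    · exact ⟨(true, 0), fun h h' h'' => absurd ⟨h, h', h''⟩ hv⟩
  choose g hg using h1'
  have hval : ∀ v, Inc G n v → (if Inc G n v ∨ v = e1 ∨ v = e2 then f v else g v) = f v :=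
    fun v hv => if_pos (Or.inl hv)
  refine ⟨fun v => if Inc G n v ∨ v = e1 ∨ v = e2 then f v else g v, ?_, ?_, ?_, ?_⟩
  · show (if _ then f e1 else g e1) = b1
    rw [if_pos (Or.inr (Or.inl rfl))]
    exact hf1 he1
  · show (if _ then f e2 else g e2) = b2
    rw [if_pos (Or.inr (Or.inr rfl))]
    exact hf2 he2
  · intro v hv hv1 hv2
    by_cases hi : Inc G n v
    · have := hf3 v hv hv1 hv2
      rw [if_pos hi] at this
      show A v (if Inc G n v ∨ v = e1 ∨ v = e2 then f v else g v)
      rw [hval v hi]
      exact this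
    · show A v (if Inc G n v ∨ v = e1 ∨ v = e2 then f v else g v)
      rw [if_neg (by rintro (h | h | h) <;> [exact hi h; exact hv1 h; exact hv2 h])]
      exact hg v hv hv1 hv2
  · intro v u hv hgv
    have hv1 : Inc G n v := Or.inl ⟨u, hgv⟩
    have hu1 : Inc G n u := Or.inr ⟨v, hv, hgv⟩
    show ¬ B v u (if _ then f v else g v) (if _ then f u else g u)
    rw [hval v hv1, hval u hu1]
    exact hf4 v u hv hgv

end inc

end Pool.Agent.RA6
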