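import Pool.Agent.RA6.Frame99c

/-!
A generic certificate theorem for MP_cf0286_al, generation schedule: the requests on all pairs of
the current finite graph are served (new vertices have level 2, the newest complete generation
has level 1, everything older has level 0), then the levels are promoted. A request is only ever
served at a pair of vertices of level at most 1, not both of level 0; all requests at pairs of
level 0 have witnesses.
-/

namespace Pool.Agent.RA6

/-- Promotion of levels. -/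
def plev : ℕ → ℕ
  | 0 => 0
  | 1 => 0
  | (n + 2) => n + 1

theorem plev_le (n : ℕ) (h : n ≤ 2) : plev n ≤ 1 := by
  match n, h with
  | 0, _ => decide
  | 1, _ => decide
  | 2, _ => decide

theorem plev_zero (n : ℕ) (h : plev n = 0) : n ≤ 1 := by
  match n, h with
  | 0, _ => decide
  | 1, _ => decide
  | (k + 2), h => simp [plev] at h

/-- A local closure certificate for the generation schedule. `Tri p q r`: an ordered triple
`x, y, z` may have the types `p` (of `x, y`), `q` (of `x, z`), `r` (of `y, z`); `old t`: the first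
vertex is older; `la t`: the level of the first vertex. `ok t` says that requests at a pair of
type `t` are served now: both levels are at most 1 and one of them is 1. For such a pair `x, y`
and a request `(a, b)`:
* `A t a b = some (c, d)`: first make sure that the request `(c, d)` at `x, y` is served;
* `R t a b p q = some (false, c)`: for a further vertex `w` of level at most 1 (`p` the type of
  `x, w`, `q` the type of `y, w`) serve the request `(a, c)` at `x, w` instead; `some (true, c)`: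
  serve `(c, b)` at `w, y` instead;
* otherwise the newborn `z` gets the types `gx t a b` (of `x, z`), `gy t a b` (of `y, z`) and
  `F t a b p q` (of `w, z`). -/
structure GenCert (T : Type) where
  flip : T → T
  col : T → ZMod 6
  old : T → Bool
  la : T → ℕ
  pr : T → T
  Tri : T → T → T → Prop
  gx : T → ZMod 6 → ZMod 6 → T
  gy : T → ZMod 6 → ZMod 6 → T
  F : T → ZMod 6 → ZMod 6 → T → T → T
  R : T → ZMod 6 → ZMod 6 → T → T → Option (Bool × ZMod 6)
  A : T → ZMod 6 → ZMod 6 → Option (ZMod 6 × ZMod 6)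
  rk : T → ZMod 6 → ZMod 6 → ℕ
  flip_flip : ∀ t, flip (flip t) = t
  col_flip : ∀ t, col (flip t) = col t
  old_flip : ∀ t, old (flip t) = !old t
  pr_flip : ∀ t, pr (flip t) = flip (pr t)
  pr_col : ∀ t, col (pr t) = col t
  pr_old : ∀ t, old (pr t) = old t
  pr_la : ∀ t, la t ≤ 2 → la (pr t) = plev (la t)
  pr_tri : ∀ p q r, Tri p q r → Tri (pr p) (pr q) (pr r)
  tri_swap12 : ∀ p q r, Tri p q r → Tri (flip p) r q
  tri_swap23 : ∀ p q r, Tri p q r → Tri q p (flip r)
  tri_ok : ∀ p q r, Tri p q r → ¬ Forbidden (col p) (col r) (col q)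
  gx_ok : ∀ t a b, la t ≤ 1 → la (flip t) ≤ 1 → 1 ≤ la t + la (flip t) →
    ¬ Forbidden (col t) a b → A t a b = none →
    col (gx t a b) = a ∧ old (gx t a b) = true ∧ la (gx t a b) = la t ∧ la (flip (gx t a b)) = 2
  gy_ok : ∀ t a b, la t ≤ 1 → la (flip t) ≤ 1 → 1 ≤ la t + la (flip t) →
    ¬ Forbidden (col t) a b → A t a b = none →
    col (gy t a b) = b ∧ old (gy t a b) = true ∧ la (gy t a b) = la (flip t) ∧
      la (flip (gy t a b)) = 2
  F_ok : ∀ t a b, la t ≤ 1 → la (flip t) ≤ 1 → 1 ≤ la t + la (flip t) →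
    ¬ Forbidden (col t) a b → A t a b = none → ∀ p q, Tri t p q →
    ¬ (col p = a ∧ col q = b) → R t a b p q = none →
    old (F t a b p q) = true ∧ la (F t a b p q) = la (flip p) ∧ la (flip (F t a b p q)) = 2 ∧
    Tri p (gx t a b) (F t a b p q) ∧ Tri q (gy t a b) (F t a b p q)
  tri_new : ∀ t a b, la t ≤ 1 → la (flip t) ≤ 1 → 1 ≤ la t + la (flip t) →
    ¬ Forbidden (col t) a b → A t a b = none → Tri t (gx t a b) (gy t a b)
  tri_w : ∀ t a b, la t ≤ 1 → la (flip t) ≤ 1 → 1 ≤ la t + la (flip t) →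
    ¬ Forbidden (col t) a b → A t a b = none → ∀ p q p' q' u, Tri t p q →
    Tri t p' q' → Tri p p' u → Tri q q' u → ¬ (col p = a ∧ col q = b) →
    ¬ (col p' = a ∧ col q' = b) → R t a b p q = none → R t a b p' q' = none →
    Tri u (F t a b p q) (F t a b p' q')
  red_x : ∀ t a b, la t ≤ 1 → la (flip t) ≤ 1 → 1 ≤ la t + la (flip t) →
    ¬ Forbidden (col t) a b → ∀ p q c, Tri t p q → R t a b p q = some (false, c) →
    ¬ Forbidden (col p) a c ∧ ¬ (col t = a ∧ col q = c) ∧ la (flip p) ≤ 1 ∧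
    (la p + la (flip p) = 0 ∨ rk p a c < rk t a b ∨ (rk p a c = rk t a b ∧ old q = false)) ∧
    ∀ p' q' v, Tri t p' q' → Tri p p' v → Tri q q' v → col p' = a → col v = c → col q' = b
  red_y : ∀ t a b, la t ≤ 1 → la (flip t) ≤ 1 → 1 ≤ la t + la (flip t) →
    ¬ Forbidden (col t) a b → ∀ p q c, Tri t p q → R t a b p q = some (true, c) →
    ¬ Forbidden (col q) c b ∧ ¬ (col p = c ∧ col t = b) ∧ la (flip q) ≤ 1 ∧
    (la q + la (flip q) = 0 ∨ rk (flip q) c b < rk t a b ∨
      (rk (flip q) c b = rk t a b ∧ old p = false)) ∧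
    ∀ p' q' v, Tri t p' q' → Tri p p' v → Tri q q' v → col q' = b → col v = c → col p' = a
  aux : ∀ t a b, la t ≤ 1 → la (flip t) ≤ 1 → 1 ≤ la t + la (flip t) →
    ¬ Forbidden (col t) a b → ∀ c d, A t a b = some (c, d) →
    ¬ Forbidden (col t) c d ∧ rk t c d < rk t a b ∧
    ∀ p q, Tri t p q → col p = c → col q = d → R t a b p q ≠ none

section

variable {T : Type} (C : GenCert T)

/-- The states: typed complete graphs with levels, all of whose triangles are allowed. -/
def GState (n : ℕ) : Type :=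
  {s : (ℕ → ℕ → T) × (ℕ → ℕ) // (∀ i j, i < n → j < n → i ≠ j → s.1 j i = C.flip (s.1 i j)) ∧
    (∀ i j, i < n → j < n → i ≠ j → (C.old (s.1 i j) = true ↔ i < j)) ∧
    (∀ i j, i < n → j < n → i ≠ j → C.la (s.1 i j) = s.2 i) ∧
    (∀ i, i < n → s.2 i ≤ 2) ∧
    ∀ i j k, i < n → j < n → k < n → i ≠ j → j ≠ k → i ≠ k → C.Tri (s.1 i j) (s.1 i k) (s.1 j k)}

/-- The types of the newborn. -/
def gnewT (t : ℕ → ℕ → T) (x y : ℕ) (a b : ZMod 6) (w : ℕ) : T :=
  if w = x then C.gx (t x y) a b else if w = y then C.gy (t x y) a b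
  else C.F (t x y) a b (t x w) (t y w)

/-- The extended typed graph. -/
def gextT (t : ℕ → ℕ → T) (n x y : ℕ) (a b : ZMod 6) (i j : ℕ) : T :=
  if j = n then gnewT C t x y a b i else if i = n then C.flip (gnewT C t x y a b j) else t i j

/-- The extended level function. -/
def gextL (l : ℕ → ℕ) (n : ℕ) (i : ℕ) : ℕ := if i = n then 2 else l i

theorem gextT_old (t : ℕ → ℕ → T) (n x y : ℕ) (a b : ZMod 6)
    (i j : ℕ) (hi : i < n) (hj : j < n) : gextT C t n x y a b i j = t i j := by
  unfold gextT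
  rw [if_neg (by omega), if_neg (by omega)]

theorem gextT_new (t : ℕ → ℕ → T) (n x y : ℕ) (a b : ZMod 6)
    (i : ℕ) : gextT C t n x y a b i n = gnewT C t x y a b i := by
  unfold gextT
  rw [if_pos rfl]

theorem gextT_new' (t : ℕ → ℕ → T) (n x y : ℕ) (a b : ZMod 6)
    (i : ℕ) (hi : i < n) : gextT C t n x y a b n i = C.flip (gnewT C t x y a b i) := by
  unfold gextT
  rw [if_neg (by omega), if_pos rfl]

/-- The hypotheses under which the request is served directly. -/
structure GDirect (n : ℕ) (s : GState C n) (x y : ℕ) (a b : ZMod 6) : Prop where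
  hx : x < n
  hy : y < n
  hxy : x ≠ y
  hlx : C.la (s.1.1 x y) ≤ 1
  hly : C.la (C.flip (s.1.1 x y)) ≤ 1
  hl : 1 ≤ C.la (s.1.1 x y) + C.la (C.flip (s.1.1 x y))
  hf : ¬ Forbidden (C.col (s.1.1 x y)) a b
  hA : C.A (s.1.1 x y) a b = none
  hw : ∀ w, w < n → w ≠ x → w ≠ y → ¬ (C.col (s.1.1 x w) = a ∧ C.col (s.1.1 y w) = b)
  hR : ∀ w, w < n → w ≠ x → w ≠ y → C.R (s.1.1 x y) a b (s.1.1 x w) (s.1.1 y w) = none

variable {C}

/-- The newborn's triangles are allowed. -/
theorem gnewT_tri {n : ℕ} {s : GState C n} {x y : ℕ} {a b : ZMod 6}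
    (h : GDirect C n s x y a b) (i j : ℕ) (hi : i < n) (hj : j < n) (hij : i ≠ j) :
    C.Tri (s.1.1 i j) (gnewT C s.1.1 x y a b i) (gnewT C s.1.1 x y a b j) := by
  obtain ⟨⟨t, l⟩, hflip, hold, hla, hl2, htri⟩ := s
  obtain ⟨hx, hy, hxy, hlx, hly, hl, hf, hA, hw, hR⟩ := h
  simp only at hf hw hA hR hlx hly hl ⊢
  have swap : ∀ i j, i < n → j < n → i ≠ j →
      C.Tri (t i j) (gnewT C t x y a b i) (gnewT C t x y a b j) →
      C.Tri (t j i) (gnewT C t x y a b j) (gnewT C t x y a b i) := by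
    intro i j h1 h2 h3 h4
    have h5 : t j i = C.flip (t i j) := hflip i j h1 h2 h3
    rw [h5]
    exact C.tri_swap12 _ _ _ h4
  have ex : gnewT C t x y a b x = C.gx (t x y) a b := by unfold gnewT; rw [if_pos rfl]
  have ey : gnewT C t x y a b y = C.gy (t x y) a b := by
    unfold gnewT; rw [if_neg (Ne.symm hxy), if_pos rfl]
  have ew : ∀ w, w ≠ x → w ≠ y → gnewT C t x y a b w = C.F (t x y) a b (t x w) (t y w) := by
    intro w h1 h2
    unfold gnewT; rw [if_neg h1, if_neg h2]
  have hxy' : C.Tri (t x y) (gnewT C t x y a b x) (gnewT C t x y a b y) := by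
    rw [ex, ey]
    exact C.tri_new _ _ _ hlx hly hl hf hA
  have hxw : ∀ w, w < n → w ≠ x → w ≠ y →
      C.Tri (t x w) (gnewT C t x y a b x) (gnewT C t x y a b w) := by
    intro w h1 h2 h3
    rw [ex, ew w h2 h3]
    exact (C.F_ok _ _ _ hlx hly hl hf hA _ _
      (htri x y w hx hy h1 hxy (Ne.symm h3) (Ne.symm h2)) (hw w h1 h2 h3)
      (hR w h1 h2 h3)).2.2.2.1
  have hyw : ∀ w, w < n → w ≠ x → w ≠ y →
      C.Tri (t y w) (gnewT C t x y a b y) (gnewT C t x y a b w) := by
    intro w h1 h2 h3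
    rw [ey, ew w h2 h3]
    exact (C.F_ok _ _ _ hlx hly hl hf hA _ _
      (htri x y w hx hy h1 hxy (Ne.symm h3) (Ne.symm h2)) (hw w h1 h2 h3)
      (hR w h1 h2 h3)).2.2.2.2
  by_cases hix : i = x
  · subst hix
    by_cases hjy : j = y
    · subst hjy; exact hxy'
    · exact hxw j hj (Ne.symm hij) hjy
  · by_cases hiy : i = y
    · subst hiy
      by_cases hjx : j = x
      · subst hjx; exact swap _ _ hj hi (Ne.symm hij) hxy'
      · exact hyw j hj hjx (Ne.symm hij)
    · by_cases hjx : j = x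
      · subst hjx
        exact swap _ _ hj hi (Ne.symm hij) (hxw i hi hix hiy)
      · by_cases hjy : j = y
        · subst hjy
          exact swap _ _ hj hi (Ne.symm hij) (hyw i hi hix hiy)
        · rw [ew i hix hiy, ew j hjx hjy]
          exact C.tri_w _ _ _ hlx hly hl hf hA _ _ _ _ _
            (htri x y i hx hy hi hxy (Ne.symm hiy) (Ne.symm hix))
            (htri x y j hx hy hj hxy (Ne.symm hjy) (Ne.symm hjx))
            (htri x i j hx hi hj (Ne.symm hix) hij (Ne.symm hjx))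
            (htri y i j hy hi hj (Ne.symm hiy) hij (Ne.symm hjy))
            (hw i hi hix hiy) (hw j hj hjx hjy) (hR i hi hix hiy) (hR j hj hjx hjy)

/-- Age and levels of the newborn's types. -/
theorem gnewT_data {n : ℕ} {s : GState C n} {x y : ℕ} {a b : ZMod 6}
    (h : GDirect C n s x y a b) (w : ℕ) (h1 : w < n) :
    C.old (gnewT C s.1.1 x y a b w) = true ∧ C.la (gnewT C s.1.1 x y a b w) = s.1.2 w ∧
      C.la (C.flip (gnewT C s.1.1 x y a b w)) = 2 := by
  have hlf : ∀ i j, i < n → j < n → i ≠ j → C.la (C.flip (s.1.1 i j)) = s.1.2 j := by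
    intro i j hi hj hij
    rw [← s.2.1 i j hi hj hij]
    exact s.2.2.2.1 j i hj hi (Ne.symm hij)
  unfold gnewT
  split_ifs with h2 h3
  · subst h2
    obtain ⟨_, e1, e2, e3⟩ := C.gx_ok _ _ _ h.hlx h.hly h.hl h.hf h.hA
    refine ⟨e1, ?_, e3⟩
    rw [e2]
    exact s.2.2.2.1 _ _ h.hx h.hy h.hxy
  · subst h3
    obtain ⟨_, e1, e2, e3⟩ := C.gy_ok _ _ _ h.hlx h.hly h.hl h.hf h.hA
    refine ⟨e1, ?_, e3⟩
    rw [e2]
    exact hlf _ _ h.hx h.hy h.hxy
  · obtain ⟨e1, e2, e3, _, _⟩ := C.F_ok _ _ _ h.hlx h.hly h.hl h.hf h.hA _ _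
      (s.2.2.2.2.2 x y w h.hx h.hy h1 h.hxy (Ne.symm h3) (Ne.symm h2)) (h.hw w h1 h2 h3)
      (h.hR w h1 h2 h3)
    refine ⟨e1, ?_, e3⟩
    rw [e2]
    exact hlf _ _ h.hx h1 (Ne.symm h2)

theorem glt_of_old_false {n : ℕ} (s : GState C n) (i j : ℕ) (hi : i < n) (hj : j < n)
    (hij : i ≠ j) (h : C.old (s.1.1 i j) = false) : j < i := by
  have h1 := s.2.2.1 i j hi hj hij
  by_contra hc
  have h2 : i < j := by omega
  rw [h1.mpr h2] at h
  exact absurd h (by decide)

theorem gla_flip {n : ℕ} (s : GState C n) (i j : ℕ) (hi : i < n) (hj : j < n) (hij : i ≠ j) :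
    C.la (C.flip (s.1.1 i j)) = s.1.2 j := by
  rw [← s.2.1 i j hi hj hij]
  exact s.2.2.2.1 j i hj hi (Ne.symm hij)

/-- The extended state. -/
def gextS {n : ℕ} {s : GState C n} {x y : ℕ} {a b : ZMod 6} (h : GDirect C n s x y a b) :
    GState C (n + 1) := by
  have key := gnewT_tri h
  have keyo := gnewT_data h
  refine ⟨⟨gextT C s.1.1 n x y a b, gextL s.1.2 n⟩, ?_, ?_, ?_, ?_, ?_⟩
  · intro i j hi hj hij
    show gextT C s.1.1 n x y a b j i = C.flip (gextT C s.1.1 n x y a b i j)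
    by_cases h1 : i = n
    · subst h1
      have hj' : j < i := by omega
      rw [gextT_new, gextT_new' _ _ _ _ _ _ _ _ hj', C.flip_flip]
    · by_cases h2 : j = n
      · subst h2
        have hi' : i < j := by omega
        rw [gextT_new, gextT_new' _ _ _ _ _ _ _ _ hi']
      · rw [gextT_old _ _ _ _ _ _ _ _ _ (by omega) (by omega),
          gextT_old _ _ _ _ _ _ _ _ _ (by omega) (by omega)]
        exact s.2.1 i j (by omega) (by omega) hij
  · intro i j hi hj hij
    show C.old (gextT C s.1.1 n x y a b i j) = true ↔ i < j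
    by_cases h1 : i = n
    · subst h1
      have hj' : j < i := by omega
      rw [gextT_new' _ _ _ _ _ _ _ _ hj', C.old_flip, (keyo j hj').1]
      constructor
      · intro hc; exact absurd hc (by decide)
      · intro hc; omega
    · by_cases h2 : j = n
      · subst h2
        have hi' : i < j := by omega
        rw [gextT_new, (keyo i hi').1]
        exact ⟨fun _ => hi', fun _ => rfl⟩
      · rw [gextT_old _ _ _ _ _ _ _ _ _ (by omega) (by omega)]
        exact s.2.2.1 i j (by omega) (by omega) hij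
  · intro i j hi hj hij
    show C.la (gextT C s.1.1 n x y a b i j) = gextL s.1.2 n i
    by_cases h1 : i = n
    · subst h1
      have hj' : j < i := by omega
      rw [gextT_new' _ _ _ _ _ _ _ _ hj', (keyo j hj').2.2]
      unfold gextL
      rw [if_pos rfl]
    · have e : gextL s.1.2 n i = s.1.2 i := by unfold gextL; rw [if_neg h1]
      rw [e]
      by_cases h2 : j = n
      · subst h2
        have hi' : i < j := by omega
        rw [gextT_new]
        exact (keyo i hi').2.1
      · rw [gextT_old _ _ _ _ _ _ _ _ _ (by omega) (by omega)]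
        exact s.2.2.2.1 i j (by omega) (by omega) hij
  · intro i hi
    show gextL s.1.2 n i ≤ 2
    unfold gextL
    split_ifs with h1
    · exact le_refl 2
    · exact s.2.2.2.2.1 i (by omega)
  · intro i j k hi hj hk hij hjk hik
    show C.Tri (gextT C s.1.1 n x y a b i j) (gextT C s.1.1 n x y a b i k)
      (gextT C s.1.1 n x y a b j k)
    by_cases h1 : k = n
    · subst h1
      have hi' : i < k := by omega
      have hj' : j < k := by omega
      rw [gextT_new, gextT_new, gextT_old _ _ _ _ _ _ _ _ _ hi' hj']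
      exact key i j hi' hj' hij
    · have hk' : k < n := by omega
      by_cases h2 : j = n
      · subst h2
        have hi' : i < j := by omega
        rw [gextT_new, gextT_new' _ _ _ _ _ _ _ _ hk', gextT_old _ _ _ _ _ _ _ _ _ hi' hk']
        exact C.tri_swap23 _ _ _ (key i k hi' hk' hik)
      · have hj' : j < n := by omega
        by_cases h3 : i = n
        · subst h3
          rw [gextT_new' _ _ _ _ _ _ _ _ hj', gextT_new' _ _ _ _ _ _ _ _ hk',
            gextT_old _ _ _ _ _ _ _ _ _ hj' hk']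
          have h4 := C.tri_swap23 _ _ _ (key j k hj' hk' hjk)
          exact C.tri_swap12 _ _ _ h4 |> C.tri_swap23 _ _ _ |> fun h => by
            simpa [C.flip_flip] using C.tri_swap23 _ _ _ h
        · have hi' : i < n := by omega
          rw [gextT_old _ _ _ _ _ _ _ _ _ hi' hj', gextT_old _ _ _ _ _ _ _ _ _ hi' hk',
            gextT_old _ _ _ _ _ _ _ _ _ hj' hk']
          exact s.2.2.2.2.2 i j k hi' hj' hk' hij hjk hik

/-- `s'` extends `s` by vertices of level 2. -/
def GExt {n m : ℕ} (s : GState C n) (s' : GState C m) : Prop :=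
  n ≤ m ∧ (∀ i j, i < n → j < n → i ≠ j → s'.1.1 i j = s.1.1 i j) ∧
    (∀ i, i < n → s'.1.2 i = s.1.2 i) ∧ ∀ i, n ≤ i → i < m → s'.1.2 i = 2

theorem GExt.refl {n : ℕ} (s : GState C n) : GExt s s :=
  ⟨le_refl n, fun _ _ _ _ _ => rfl, fun _ _ => rfl, fun i h1 h2 => by omega⟩

theorem GExt.trans {n m k : ℕ} {s : GState C n} {s' : GState C m} {s'' : GState C k}
    (h : GExt s s') (h' : GExt s' s'') : GExt s s'' := by
  refine ⟨h.1.trans h'.1, ?_, ?_, ?_⟩
  · intro i j hi hj hij
    rw [h'.2.1 i j (lt_of_lt_of_le hi h.1) (lt_of_lt_of_le hj h.1) hij, h.2.1 i j hi hj hij]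
  · intro i hi
    rw [h'.2.2.1 i (lt_of_lt_of_le hi h.1), h.2.2.1 i hi]
  · intro i h1 h2
    by_cases h3 : i < m
    · rw [h'.2.2.1 i h3]
      exact h.2.2.2 i h1 h3
    · exact h'.2.2.2 i (by omega) h2

/-- The request is served in the state. -/
def GServed {n : ℕ} (s : GState C n) (x y : ℕ) (a b : ZMod 6) : Prop :=
  ∃ w, w < n ∧ w ≠ x ∧ w ≠ y ∧ C.col (s.1.1 x w) = a ∧ C.col (s.1.1 y w) = b

theorem GServed.ext {n m : ℕ} {s : GState C n} {s' : GState C m} (h : GExt s s') {x y : ℕ}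
    {a b : ZMod 6} (hx : x < n) (hy : y < n) (hs : GServed s x y a b) : GServed s' x y a b := by
  obtain ⟨w, hw, hwx, hwy, h1, h2⟩ := hs
  refine ⟨w, lt_of_lt_of_le hw h.1, hwx, hwy, ?_, ?_⟩
  · rw [h.2.1 x w hx hw (Ne.symm hwx)]; exact h1
  · rw [h.2.1 y w hy hw (Ne.symm hwy)]; exact h2

/-- All requests at pairs of level 0 are served. -/
def Zero {n : ℕ} (s : GState C n) : Prop :=
  ∀ x y a b, x < n → y < n → x ≠ y → s.1.2 x = 0 → s.1.2 y = 0 →
    ¬ Forbidden (C.col (s.1.1 x y)) a b → GServed s x y a b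

theorem Zero.ext {n m : ℕ} {s : GState C n} {s' : GState C m} (h : GExt s s') (hz : Zero s) :
    Zero s' := by
  intro x y a b hx hy hxy h1 h2 hf
  have hx' : x < n := by
    by_contra hc
    rw [h.2.2.2 x (by omega) hx] at h1
    exact absurd h1 (by decide)
  have hy' : y < n := by
    by_contra hc
    rw [h.2.2.2 y (by omega) hy] at h2
    exact absurd h2 (by decide)
  rw [h.2.2.1 x hx'] at h1
  rw [h.2.2.1 y hy'] at h2
  rw [h.2.1 x y hx' hy' hxy] at hf
  exact (hz x y a b hx' hy' hxy h1 h2 hf).ext h hx' hy'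

/-- Every request at a pair of level at most 1 is served in an extension. -/
theorem gserve (k : ℕ) : ∀ (l : ℕ) (n : ℕ) (s : GState C n) (x y : ℕ) (a b : ZMod 6),
    Zero s → x < n → y < n → x ≠ y → s.1.2 x ≤ 1 → s.1.2 y ≤ 1 →
    ¬ Forbidden (C.col (s.1.1 x y)) a b →
    C.rk (s.1.1 x y) a b = k → x + y = l →
    ∃ m, ∃ s' : GState C m, GExt s s' ∧ GServed s' x y a b := by
  induction k using Nat.strong_induction_on with
  | _ k ihk =>
  intro l
  induction l using Nat.strong_induction_on with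
  | _ l ihl =>
  -- the redirect step, in any state
  have red : ∀ (n : ℕ) (s : GState C n) (x y : ℕ) (a b : ZMod 6),
      Zero s → x < n → y < n → x ≠ y → s.1.2 x ≤ 1 → s.1.2 y ≤ 1 → 1 ≤ s.1.2 x + s.1.2 y →
      ¬ Forbidden (C.col (s.1.1 x y)) a b →
      C.rk (s.1.1 x y) a b = k → x + y = l →
      ∀ w, w < n → w ≠ x → w ≠ y → C.R (s.1.1 x y) a b (s.1.1 x w) (s.1.1 y w) ≠ none →
      ∃ m, ∃ s' : GState C m, GExt s s' ∧ GServed s' x y a b := by
    intro n s x y a b hz hx hy hxy hlx hly hlev hf hrk hl w hw hwx hwy hR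
    have htri := s.2.2.2.2.2 x y w hx hy hw hxy (Ne.symm hwy) (Ne.symm hwx)
    have a1 : C.la (s.1.1 x y) ≤ 1 := by rw [s.2.2.2.1 x y hx hy hxy]; exact hlx
    have a2 : C.la (C.flip (s.1.1 x y)) ≤ 1 := by rw [gla_flip s x y hx hy hxy]; exact hly
    have a3 : 1 ≤ C.la (s.1.1 x y) + C.la (C.flip (s.1.1 x y)) := by
      rw [s.2.2.2.1 x y hx hy hxy, gla_flip s x y hx hy hxy]; exact hlev
    have hcases : ∃ side c, C.R (s.1.1 x y) a b (s.1.1 x w) (s.1.1 y w) = some (side, c) := by
      cases hr : C.R (s.1.1 x y) a b (s.1.1 x w) (s.1.1 y w) with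
      | none => exact absurd hr hR
      | some v => exact ⟨v.1, v.2, rfl⟩
    obtain ⟨side, c, hr⟩ := hcases
    cases side with
    | false =>
      obtain ⟨h1, h2, h5, h3, h4⟩ := C.red_x _ _ _ a1 a2 a3 hf _ _ _ htri hr
      have hlw : s.1.2 w ≤ 1 := by
        rw [← gla_flip s x w hx hw (Ne.symm hwx)]; exact h5
      have ih : ∃ m, ∃ s' : GState C m, GExt s s' ∧ GServed s' x w a c := by
        rcases h3 with h3 | h3 | ⟨h3, h3'⟩
        · refine ⟨n, s, GExt.refl s, hz x w a c hx hw (Ne.symm hwx) ?_ ?_ h1⟩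
          · rw [← s.2.2.2.1 x w hx hw (Ne.symm hwx)]; omega
          · rw [← gla_flip s x w hx hw (Ne.symm hwx)]; omega
        · exact ihk _ (by omega) _ n s x w a c hz hx hw (Ne.symm hwx) hlx hlw h1 rfl rfl
        · have hlt := glt_of_old_false s y w hy hw (Ne.symm hwy) h3'
          exact ihl (x + w) (by omega) n s x w a c hz hx hw (Ne.symm hwx) hlx hlw h1
            (by omega) rfl
      obtain ⟨m, s', hext, u, hu, hux, huw, hc1, hc2⟩ := ih
      have huy : u ≠ y := by
        rintro rfl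
        apply h2
        rw [hext.2.1 x u hx hy hxy] at hc1
        rw [hext.2.1 w u hw hy hwy] at hc2
        refine ⟨hc1, ?_⟩
        rw [s.2.1 w u hw hy hwy, C.col_flip]
        exact hc2
      refine ⟨m, s', hext, u, hu, hux, huy, hc1, ?_⟩
      have hx' : x < m := lt_of_lt_of_le hx hext.1
      have hy' : y < m := lt_of_lt_of_le hy hext.1
      have hw' : w < m := lt_of_lt_of_le hw hext.1
      refine h4 (s'.1.1 x u) (s'.1.1 y u) (s'.1.1 w u) ?_ ?_ ?_ hc1 hc2
      · rw [← hext.2.1 x y hx hy hxy]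
        exact s'.2.2.2.2.2 x y u hx' hy' hu hxy (Ne.symm huy) (Ne.symm hux)
      · rw [← hext.2.1 x w hx hw (Ne.symm hwx)]
        exact s'.2.2.2.2.2 x w u hx' hw' hu (Ne.symm hwx) (Ne.symm huw) (Ne.symm hux)
      · rw [← hext.2.1 y w hy hw (Ne.symm hwy)]
        exact s'.2.2.2.2.2 y w u hy' hw' hu (Ne.symm hwy) (Ne.symm huw) (Ne.symm huy)
    | true =>
      obtain ⟨h1, h2, h5, h3, h4⟩ := C.red_y _ _ _ a1 a2 a3 hf _ _ _ htri hr
      have hlw : s.1.2 w ≤ 1 := by
        rw [← gla_flip s y w hy hw (Ne.symm hwy)]; exact h5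
      have hwyt : s.1.1 w y = C.flip (s.1.1 y w) := s.2.1 y w hy hw (Ne.symm hwy)
      have hcol : C.col (s.1.1 w y) = C.col (s.1.1 y w) := by rw [hwyt, C.col_flip]
      have h1' : ¬ Forbidden (C.col (s.1.1 w y)) c b := by rw [hcol]; exact h1
      have ih : ∃ m, ∃ s' : GState C m, GExt s s' ∧ GServed s' w y c b := by
        rcases h3 with h3 | h3 | ⟨h3, h3'⟩
        · refine ⟨n, s, GExt.refl s, hz w y c b hw hy hwy ?_ ?_ h1'⟩
          · rw [← gla_flip s y w hy hw (Ne.symm hwy)]; omega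
          · rw [← s.2.2.2.1 y w hy hw (Ne.symm hwy)]; omega
        · rw [← hwyt] at h3
          exact ihk _ (by omega) _ n s w y c b hz hw hy hwy hlw hly h1' rfl rfl
        · have hlt := glt_of_old_false s x w hx hw (Ne.symm hwx) h3'
          rw [← hwyt] at h3
          exact ihl (w + y) (by omega) n s w y c b hz hw hy hwy hlw hly h1' (by omega) rfl
      obtain ⟨m, s', hext, u, hu, huw, huy, hc1, hc2⟩ := ih
      have hux : u ≠ x := by
        rintro rfl
        apply h2
        rw [hext.2.1 w u hw hx hwx] at hc1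
        rw [hext.2.1 y u hy hx (Ne.symm hxy)] at hc2
        refine ⟨?_, ?_⟩
        · rw [s.2.1 w u hw hx hwx, C.col_flip]
          exact hc1
        · rw [s.2.1 y u hy hx (Ne.symm hxy), C.col_flip]
          exact hc2
      refine ⟨m, s', hext, u, hu, hux, huy, ?_, hc2⟩
      have hx' : x < m := lt_of_lt_of_le hx hext.1
      have hy' : y < m := lt_of_lt_of_le hy hext.1
      have hw' : w < m := lt_of_lt_of_le hw hext.1
      refine h4 (s'.1.1 x u) (s'.1.1 y u) (s'.1.1 w u) ?_ ?_ ?_ hc2 hc1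
      · rw [← hext.2.1 x y hx hy hxy]
        exact s'.2.2.2.2.2 x y u hx' hy' hu hxy (Ne.symm huy) (Ne.symm hux)
      · rw [← hext.2.1 x w hx hw (Ne.symm hwx)]
        exact s'.2.2.2.2.2 x w u hx' hw' hu (Ne.symm hwx) (Ne.symm huw) (Ne.symm hux)
      · rw [← hext.2.1 y w hy hw (Ne.symm hwy)]
        exact s'.2.2.2.2.2 y w u hy' hw' hu (Ne.symm hwy) (Ne.symm huw) (Ne.symm huy)
  intro n s x y a b hz hx hy hxy hlx hly hf hrk hl
  by_cases hs : GServed s x y a b
  · exact ⟨n, s, GExt.refl s, hs⟩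
  have hlev : 1 ≤ s.1.2 x + s.1.2 y := by
    by_contra hc
    exact hs (hz x y a b hx hy hxy (by omega) (by omega) hf)
  by_cases hR : ∃ w, w < n ∧ w ≠ x ∧ w ≠ y ∧
      C.R (s.1.1 x y) a b (s.1.1 x w) (s.1.1 y w) ≠ none
  · obtain ⟨w, hw, hwx, hwy, hr⟩ := hR
    exact red n s x y a b hz hx hy hxy hlx hly hlev hf hrk hl w hw hwx hwy hr
  have a1 : C.la (s.1.1 x y) ≤ 1 := by rw [s.2.2.2.1 x y hx hy hxy]; exact hlx
  have a2 : C.la (C.flip (s.1.1 x y)) ≤ 1 := by rw [gla_flip s x y hx hy hxy]; exact hly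
  have a3 : 1 ≤ C.la (s.1.1 x y) + C.la (C.flip (s.1.1 x y)) := by
    rw [s.2.2.2.1 x y hx hy hxy, gla_flip s x y hx hy hxy]; exact hlev
  cases hA : C.A (s.1.1 x y) a b with
  | some v =>
    obtain ⟨h1, h2, h3⟩ := C.aux _ _ _ a1 a2 a3 hf v.1 v.2 hA
    obtain ⟨m, s', hext, u, hu, hux, huy, hc1, hc2⟩ :=
      ihk _ (by omega) _ n s x y v.1 v.2 hz hx hy hxy hlx hly h1 rfl rfl
    have hx' : x < m := lt_of_lt_of_le hx hext.1
    have hy' : y < m := lt_of_lt_of_le hy hext.1
    have e : s'.1.1 x y = s.1.1 x y := hext.2.1 x y hx hy hxy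
    have ex := hext.2.2.1 x hx
    have ey := hext.2.2.1 y hy
    have hr : C.R (s'.1.1 x y) a b (s'.1.1 x u) (s'.1.1 y u) ≠ none := by
      rw [e]
      refine h3 _ _ ?_ hc1 hc2
      rw [← e]
      exact s'.2.2.2.2.2 x y u hx' hy' hu hxy (Ne.symm huy) (Ne.symm hux)
    obtain ⟨m', s'', hext', hs''⟩ := red m s' x y a b (hz.ext hext) hx' hy' hxy
      (by rw [ex]; exact hlx) (by rw [ey]; exact hly) (by rw [ex, ey]; exact hlev)
      (by rw [e]; exact hf) (by rw [e]; exact hrk) hl u hu hux huy hr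
    exact ⟨m', s'', hext.trans hext', hs''⟩
  | none =>
    have hD : GDirect C n s x y a b := by
      refine ⟨hx, hy, hxy, a1, a2, a3, hf, hA, ?_, ?_⟩
      · intro w h1 h2 h3 h4
        exact hs ⟨w, h1, h2, h3, h4.1, h4.2⟩
      · intro w h1 h2 h3
        by_contra hc
        exact hR ⟨w, h1, h2, h3, hc⟩
    refine ⟨n + 1, gextS hD, ⟨Nat.le_succ n, ?_, ?_, ?_⟩, n, Nat.lt_succ_self n, by omega,
      by omega, ?_, ?_⟩
    · intro i j hi hj _
      show gextT C s.1.1 n x y a b i j = s.1.1 i j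
      exact gextT_old _ _ _ _ _ _ _ _ _ hi hj
    · intro i hi
      show gextL s.1.2 n i = s.1.2 i
      unfold gextL
      rw [if_neg (by omega)]
    · intro i h1 h2
      show gextL s.1.2 n i = 2
      unfold gextL
      rw [if_pos (by omega)]
    · show C.col (gextT C s.1.1 n x y a b x n) = a
      rw [gextT_new]
      unfold gnewT
      rw [if_pos rfl]
      exact (C.gx_ok _ _ _ a1 a2 a3 hf hA).1
    · show C.col (gextT C s.1.1 n x y a b y n) = b
      rw [gextT_new]
      unfold gnewT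
      rw [if_neg (Ne.symm hxy), if_pos rfl]
      exact (C.gy_ok _ _ _ a1 a2 a3 hf hA).1

/-- One pass over a list of requests. -/
theorem gserve_list : ∀ (L : List ((ℕ × ℕ) × (ZMod 6 × ZMod 6))) (n : ℕ) (s : GState C n),
    Zero s → ∀ n0, n0 ≤ n → (∀ i, i < n0 → s.1.2 i ≤ 1) →
    ∃ m, ∃ s' : GState C m, GExt s s' ∧ ∀ r ∈ L, r.1.1 < n0 → r.1.2 < n0 → r.1.1 ≠ r.1.2 →
      ¬ Forbidden (C.col (s.1.1 r.1.1 r.1.2)) r.2.1 r.2.2 →
      GServed s' r.1.1 r.1.2 r.2.1 r.2.2 := by
  intro L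
  induction L with
  | nil => intro n s _ n0 _ _; exact ⟨n, s, GExt.refl s, fun r hr => absurd hr (by simp)⟩
  | cons r L ih =>
    intro n s hz n0 hn0 hlev
    by_cases hr : r.1.1 < n0 ∧ r.1.2 < n0 ∧ r.1.1 ≠ r.1.2 ∧
        ¬ Forbidden (C.col (s.1.1 r.1.1 r.1.2)) r.2.1 r.2.2
    · obtain ⟨h1, h2, h3, h4⟩ := hr
      have h1' : r.1.1 < n := lt_of_lt_of_le h1 hn0
      have h2' : r.1.2 < n := lt_of_lt_of_le h2 hn0
      obtain ⟨m, s', hext, hsv⟩ := gserve _ _ n s r.1.1 r.1.2 r.2.1 r.2.2 hz h1' h2' h3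
        (hlev _ h1) (hlev _ h2) h4 rfl rfl
      obtain ⟨m', s'', hext', hsv'⟩ := ih m s' (hz.ext hext) n0 (hn0.trans hext.1)
        (fun i hi => by rw [hext.2.2.1 i (lt_of_lt_of_le hi hn0)]; exact hlev i hi)
      refine ⟨m', s'', hext.trans hext', ?_⟩
      intro r' hr' g1 g2 g3 g4
      have g1' : r'.1.1 < n := lt_of_lt_of_le g1 hn0
      have g2' : r'.1.2 < n := lt_of_lt_of_le g2 hn0
      rcases List.mem_cons.mp hr' with h | h
      · subst h
        exact hsv.ext hext' (lt_of_lt_of_le h1' hext.1) (lt_of_lt_of_le h2' hext.1)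
      · exact hsv' r' h g1 g2 g3 (by rw [hext.2.1 _ _ g1' g2' g3]; exact g4)
    · obtain ⟨m', s'', hext', hsv'⟩ := ih n s hz n0 hn0 hlev
      refine ⟨m', s'', hext', ?_⟩
      intro r' hr' g1 g2 g3 g4
      rcases List.mem_cons.mp hr' with h | h
      · subst h
        exact absurd ⟨g1, g2, g3, g4⟩ hr
      · exact hsv' r' h g1 g2 g3 g4

/-- The promoted state. -/
def promote {n : ℕ} (s : GState C n) : GState C n := by
  refine ⟨⟨fun i j => C.pr (s.1.1 i j), fun i => plev (s.1.2 i)⟩, ?_, ?_, ?_, ?_, ?_⟩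
  · intro i j hi hj hij
    show C.pr (s.1.1 j i) = C.flip (C.pr (s.1.1 i j))
    rw [s.2.1 i j hi hj hij, C.pr_flip]
  · intro i j hi hj hij
    show C.old (C.pr (s.1.1 i j)) = true ↔ i < j
    rw [C.pr_old]
    exact s.2.2.1 i j hi hj hij
  · intro i j hi hj hij
    show C.la (C.pr (s.1.1 i j)) = plev (s.1.2 i)
    have h := s.2.2.2.1 i j hi hj hij
    rw [C.pr_la _ (by rw [h]; exact s.2.2.2.2.1 i hi), h]
  · intro i hi
    show plev (s.1.2 i) ≤ 2
    exact (plev_le _ (s.2.2.2.2.1 i hi)).trans (by decide)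
  · intro i j k hi hj hk hij hjk hik
    exact C.pr_tri _ _ _ (s.2.2.2.2.2 i j k hi hj hk hij hjk hik)

/-- The closed stage states. -/
def Stage (C : GenCert T) (n : ℕ) : Type :=
  {s : GState C n // Zero s ∧ ∀ i, i < n → s.1.2 i ≤ 1}

theorem stageClass (C : GenCert T) :
    StepClass3 (Stage C) (fun {n} (s : Stage C n) i j => C.col (s.1.1.1 i j)) where
  symm := by
    intro n s i j hi hj hij
    show C.col (s.1.1.1 i j) = C.col (s.1.1.1 j i)
    rw [s.1.2.1 i j hi hj hij, C.col_flip]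
  no_forb := by
    intro n s i j k hi hj hk hij hjk hik
    exact C.tri_ok _ _ _ (s.1.2.2.2.2.2 i j k hi hj hk hij hjk hik)
  step := by
    intro n s x y a b hx hy hxy hf
    obtain ⟨s, hz, hlev⟩ := s
    -- the list of all requests on the vertices below n
    obtain ⟨m, s', hext, hsv⟩ := gserve_list
      (((Finset.range n ×ˢ Finset.range n) ×ˢ ((Finset.univ : Finset (ZMod 6)) ×ˢ
        (Finset.univ : Finset (ZMod 6)))).toList) n s hz n (le_refl n) hlev
    have hall : ∀ x y a b, x < n → y < n → x ≠ y → ¬ Forbidden (C.col (s.1.1 x y)) a b →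
        GServed s' x y a b := by
      intro x y a b hx hy hxy hf
      refine hsv ((x, y), (a, b)) ?_ hx hy hxy hf
      simp [hx, hy]
    have hcolp : ∀ i j, C.col ((promote s').1.1 i j) = C.col (s'.1.1 i j) := fun i j =>
      C.pr_col _
    have hz' : Zero (promote s') := by
      intro x y a b hx hy hxy h1 h2 hf
      have e1 : s'.1.2 x ≤ 1 := plev_zero _ h1
      have e2 : s'.1.2 y ≤ 1 := plev_zero _ h2
      have hx' : x < n := by
        by_contra hc
        rw [hext.2.2.2 x (by omega) hx] at e1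
        exact absurd e1 (by decide)
      have hy' : y < n := by
        by_contra hc
        rw [hext.2.2.2 y (by omega) hy] at e2
        exact absurd e2 (by decide)
      rw [hcolp, hext.2.1 x y hx' hy' hxy] at hf
      obtain ⟨w, hw, hwx, hwy, g1, g2⟩ := hall x y a b hx' hy' hxy hf
      exact ⟨w, hw, hwx, hwy, by rw [hcolp]; exact g1, by rw [hcolp]; exact g2⟩
    refine ⟨m, hext.1, ⟨promote s', hz', fun i hi => plev_le _ (s'.2.2.2.2.1 i hi)⟩, ?_, ?_⟩
    · intro i j hi hj hij
      show C.col ((promote s').1.1 i j) = C.col (s.1.1 i j)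
      rw [hcolp, hext.2.1 i j hi hj hij]
    · obtain ⟨w, hw, hwx, hwy, g1, g2⟩ := hall x y a b hx hy hxy hf
      refine ⟨w, hw, hwx, hwy, ?_, ?_⟩
      · show C.col ((promote s').1.1 x w) = a
        rw [hcolp]; exact g1
      · show C.col ((promote s').1.1 w y) = b
        rw [hcolp, s'.2.1 y w (lt_of_lt_of_le hy hext.1) hw (Ne.symm hwy), C.col_flip]
        exact g2

end

/-- A certificate for the generation schedule gives a representation. `t0` is the type of the
first pair of vertices (both of level 1). -/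
theorem rep_of_genCert {T : Type} (C : GenCert T) (t0 : T) (h0 : C.old t0 = true)
    (h1 : C.la t0 = 1) (h2 : C.la (C.flip t0) = 1) :
    ∃ (U : Type) (r : Set Atom → Set (U × U)), Nonempty U ∧ IsRepresentation U r := by
  refine rep_of_step3 (stageClass C) 2 (le_refl 2)
    ⟨⟨⟨fun i j => if i < j then t0 else C.flip t0, fun _ => 1⟩, ?_, ?_, ?_, ?_, ?_⟩, ?_, ?_⟩
  · intro i j hi hj hij
    show (if j < i then t0 else C.flip t0) = C.flip (if i < j then t0 else C.flip t0)
    rcases lt_or_gt_of_ne hij with h | h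
    · rw [if_pos h, if_neg (by omega)]
    · rw [if_pos h, if_neg (by omega), C.flip_flip]
  · intro i j hi hj hij
    show C.old (if i < j then t0 else C.flip t0) = true ↔ i < j
    rcases lt_or_gt_of_ne hij with h | h
    · rw [if_pos h]
      exact ⟨fun _ => h, fun _ => h0⟩
    · rw [if_neg (by omega), C.old_flip, h0]
      constructor
      · intro hc; exact absurd hc (by decide)
      · intro hc; omega
  · intro i j hi hj hij
    show C.la (if i < j then t0 else C.flip t0) = 1
    split_ifs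
    · exact h1
    · exact h2
  · intro i hi
    show (1 : ℕ) ≤ 2
    decide
  · intro i j k hi hj hk hij hjk hik
    omega
  · intro x y a b hx hy hxy g1 g2 hf
    exact absurd g1 (by show ¬ ((1 : ℕ) = 0); decide)
  · intro i hi
    show (1 : ℕ) ≤ 1
    exact le_refl 1

end Pool.Agent.RA6
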