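import Pool.Agent.RA6.Frame99b

/-!
A generic certificate theorem for MP_cf0286_al: a finite (or infinite) local closure, i.e. a set
of types of ordered pairs with a set of allowed typed triangles and a local extension rule,
gives a representation.
-/

namespace Pool.Agent.RA6

/-- A local closure certificate. `Tri p q r` says that an ordered triple `x, y, z` of vertices
may have the types `p` (of `x, y`), `q` (of `x, z`) and `r` (of `y, z`). `gx t a b`, `gy t a b`
are the types of the pairs `x, z` and `y, z` if the newborn `z` serves the request `(a, b)` at a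
pair `x, y` of type `t`; `F t a b p q` is the type of `w, z` for a further vertex `w`, where `p`
is the type of `x, w` and `q` the type of `y, w`. -/
structure LocalCert (T : Type) where
  flip : T → T
  col : T → ZMod 6
  Tri : T → T → T → Prop
  gx : T → ZMod 6 → ZMod 6 → T
  gy : T → ZMod 6 → ZMod 6 → T
  F : T → ZMod 6 → ZMod 6 → T → T → T
  flip_flip : ∀ t, flip (flip t) = t
  col_flip : ∀ t, col (flip t) = col t
  tri_swap12 : ∀ p q r, Tri p q r → Tri (flip p) r q
  tri_swap23 : ∀ p q r, Tri p q r → Tri q p (flip r)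
  tri_ok : ∀ p q r, Tri p q r → ¬ Forbidden (col p) (col r) (col q)
  gx_col : ∀ t a b, ¬ Forbidden (col t) a b → col (gx t a b) = a
  gy_col : ∀ t a b, ¬ Forbidden (col t) a b → col (gy t a b) = b
  tri_new : ∀ t a b, ¬ Forbidden (col t) a b → Tri t (gx t a b) (gy t a b)
  tri_x : ∀ t a b, ¬ Forbidden (col t) a b → ∀ p q, Tri t p q → ¬ (col p = a ∧ col q = b) →
    Tri p (gx t a b) (F t a b p q)
  tri_y : ∀ t a b, ¬ Forbidden (col t) a b → ∀ p q, Tri t p q → ¬ (col p = a ∧ col q = b) →
    Tri q (gy t a b) (F t a b p q)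
  tri_w : ∀ t a b, ¬ Forbidden (col t) a b → ∀ p q p' q' u, Tri t p q → Tri t p' q' →
    Tri p p' u → Tri q q' u → ¬ (col p = a ∧ col q = b) → ¬ (col p' = a ∧ col q' = b) →
    Tri u (F t a b p q) (F t a b p' q')

/-- The states: typed complete graphs all of whose triangles are allowed. -/
def LState {T : Type} (C : LocalCert T) (n : ℕ) : Type :=
  {t : ℕ → ℕ → T // (∀ i j, i < n → j < n → i ≠ j → t j i = C.flip (t i j)) ∧
    ∀ i j k, i < n → j < n → k < n → i ≠ j → j ≠ k → i ≠ k → C.Tri (t i j) (t i k) (t j k)}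

/-- The types of the newborn. -/
def newT {T : Type} (C : LocalCert T) (t : ℕ → ℕ → T) (x y : ℕ) (a b : ZMod 6) (w : ℕ) : T :=
  if w = x then C.gx (t x y) a b else if w = y then C.gy (t x y) a b
  else C.F (t x y) a b (t x w) (t y w)

/-- The extended typed graph. -/
def extT {T : Type} (C : LocalCert T) (t : ℕ → ℕ → T) (n x y : ℕ) (a b : ZMod 6)
    (i j : ℕ) : T :=
  if j = n then newT C t x y a b i else if i = n then C.flip (newT C t x y a b j) else t i j

theorem extT_old {T : Type} (C : LocalCert T) (t : ℕ → ℕ → T) (n x y : ℕ) (a b : ZMod 6)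
    (i j : ℕ) (hi : i < n) (hj : j < n) : extT C t n x y a b i j = t i j := by
  unfold extT
  rw [if_neg (by omega), if_neg (by omega)]

theorem extT_new {T : Type} (C : LocalCert T) (t : ℕ → ℕ → T) (n x y : ℕ) (a b : ZMod 6)
    (i : ℕ) : extT C t n x y a b i n = newT C t x y a b i := by
  unfold extT
  rw [if_pos rfl]

theorem extT_new' {T : Type} (C : LocalCert T) (t : ℕ → ℕ → T) (n x y : ℕ) (a b : ZMod 6)
    (i : ℕ) (hi : i < n) : extT C t n x y a b n i = C.flip (newT C t x y a b i) := by
  unfold extT
  rw [if_neg (by omega), if_pos rfl]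

/-- The newborn's triangles are allowed. -/
theorem newT_tri {T : Type} (C : LocalCert T) (n : ℕ) (s : LState C n) (x y : ℕ) (a b : ZMod 6)
    (hx : x < n) (hy : y < n) (hxy : x ≠ y) (hf : ¬ Forbidden (C.col (s.1 x y)) a b)
    (hw : ¬ ∃ w, w < n ∧ w ≠ x ∧ w ≠ y ∧ C.col (s.1 x w) = a ∧ C.col (s.1 w y) = b)
    (i j : ℕ) (hi : i < n) (hj : j < n) (hij : i ≠ j) :
    C.Tri (s.1 i j) (newT C s.1 x y a b i) (newT C s.1 x y a b j) := by
  obtain ⟨t, hflip, htri⟩ := s
  simp only at hf hw ⊢
  have hnw : ∀ w, w < n → w ≠ x → w ≠ y → ¬ (C.col (t x w) = a ∧ C.col (t y w) = b) := by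
    intro w h1 h2 h3 h4
    refine hw ⟨w, h1, h2, h3, h4.1, ?_⟩
    rw [hflip y w hy h1 (Ne.symm h3), C.col_flip]
    exact h4.2
  have swap : ∀ i j, i < n → j < n → i ≠ j →
      C.Tri (t i j) (newT C t x y a b i) (newT C t x y a b j) →
      C.Tri (t j i) (newT C t x y a b j) (newT C t x y a b i) := by
    intro i j h1 h2 h3 h4
    rw [hflip i j h1 h2 h3]
    exact C.tri_swap12 _ _ _ h4
  have hxy' : C.Tri (t x y) (newT C t x y a b x) (newT C t x y a b y) := by
    have e1 : newT C t x y a b x = C.gx (t x y) a b := by unfold newT; rw [if_pos rfl]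
    have e2 : newT C t x y a b y = C.gy (t x y) a b := by
      unfold newT; rw [if_neg (Ne.symm hxy), if_pos rfl]
    rw [e1, e2]
    exact C.tri_new _ _ _ hf
  have hxw : ∀ w, w < n → w ≠ x → w ≠ y →
      C.Tri (t x w) (newT C t x y a b x) (newT C t x y a b w) := by
    intro w h1 h2 h3
    have e1 : newT C t x y a b x = C.gx (t x y) a b := by unfold newT; rw [if_pos rfl]
    have e2 : newT C t x y a b w = C.F (t x y) a b (t x w) (t y w) := by
      unfold newT; rw [if_neg h2, if_neg h3]
    rw [e1, e2]
    exact C.tri_x _ _ _ hf _ _ (htri x y w hx hy h1 hxy (Ne.symm h3) (Ne.symm h2))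
      (hnw w h1 h2 h3)
  have hyw : ∀ w, w < n → w ≠ x → w ≠ y →
      C.Tri (t y w) (newT C t x y a b y) (newT C t x y a b w) := by
    intro w h1 h2 h3
    have e1 : newT C t x y a b y = C.gy (t x y) a b := by
      unfold newT; rw [if_neg (Ne.symm hxy), if_pos rfl]
    have e2 : newT C t x y a b w = C.F (t x y) a b (t x w) (t y w) := by
      unfold newT; rw [if_neg h2, if_neg h3]
    rw [e1, e2]
    exact C.tri_y _ _ _ hf _ _ (htri x y w hx hy h1 hxy (Ne.symm h3) (Ne.symm h2))
      (hnw w h1 h2 h3)
  by_cases hix : i = x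
  · subst hix
    by_cases hjy : j = y
    · subst hjy; exact hxy'
    · exact hxw j hj (Ne.symm hij) hjy
  · by_cases hiy : i = y
    · subst hiy
      by_cases hjx : j = x
      · subst hjx; exact swap _ _ hj hi (Ne.symm hij) hxy'
      · exact hyw j hj hjx (Ne.symm hij)
    · by_cases hjx : j = x
      · subst hjx
        exact swap _ _ hj hi (Ne.symm hij) (hxw i hi hix hiy)
      · by_cases hjy : j = y
        · subst hjy
          exact swap _ _ hj hi (Ne.symm hij) (hyw i hi hix hiy)
        · have e1 : newT C t x y a b i = C.F (t x y) a b (t x i) (t y i) := by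
            unfold newT; rw [if_neg hix, if_neg hiy]
          have e2 : newT C t x y a b j = C.F (t x y) a b (t x j) (t y j) := by
            unfold newT; rw [if_neg hjx, if_neg hjy]
          rw [e1, e2]
          exact C.tri_w _ _ _ hf _ _ _ _ _
            (htri x y i hx hy hi hxy (Ne.symm hiy) (Ne.symm hix))
            (htri x y j hx hy hj hxy (Ne.symm hjy) (Ne.symm hjx))
            (htri x i j hx hi hj (Ne.symm hix) hij (Ne.symm hjx))
            (htri y i j hy hi hj (Ne.symm hiy) hij (Ne.symm hjy))
            (hnw i hi hix hiy) (hnw j hj hjx hjy)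

/-- The extended state. -/
def extS {T : Type} (C : LocalCert T) (n : ℕ) (s : LState C n) (x y : ℕ) (a b : ZMod 6)
    (hx : x < n) (hy : y < n) (hxy : x ≠ y) (hf : ¬ Forbidden (C.col (s.1 x y)) a b)
    (hw : ¬ ∃ w, w < n ∧ w ≠ x ∧ w ≠ y ∧ C.col (s.1 x w) = a ∧ C.col (s.1 w y) = b) :
    LState C (n + 1) := by
  refine ⟨extT C s.1 n x y a b, ?_, ?_⟩
  · intro i j hi hj hij
    by_cases h1 : i = n
    · subst h1
      have hj' : j < i := by omega
      rw [extT_new, extT_new' _ _ _ _ _ _ _ _ hj', C.flip_flip]
    · by_cases h2 : j = n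
      · subst h2
        have hi' : i < j := by omega
        rw [extT_new, extT_new' _ _ _ _ _ _ _ _ hi']
      · rw [extT_old _ _ _ _ _ _ _ _ _ (by omega) (by omega),
          extT_old _ _ _ _ _ _ _ _ _ (by omega) (by omega)]
        exact s.2.1 i j (by omega) (by omega) hij
  · intro i j k hi hj hk hij hjk hik
    have key := newT_tri C n s x y a b hx hy hxy hf hw
    by_cases h1 : k = n
    · subst h1
      have hi' : i < k := by omega
      have hj' : j < k := by omega
      rw [extT_new, extT_new, extT_old _ _ _ _ _ _ _ _ _ hi' hj']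
      exact key i j hi' hj' hij
    · have hk' : k < n := by omega
      by_cases h2 : j = n
      · subst h2
        have hi' : i < j := by omega
        rw [extT_new, extT_new' _ _ _ _ _ _ _ _ hk', extT_old _ _ _ _ _ _ _ _ _ hi' hk']
        exact C.tri_swap23 _ _ _ (key i k hi' hk' hik)
      · have hj' : j < n := by omega
        by_cases h3 : i = n
        · subst h3
          rw [extT_new' _ _ _ _ _ _ _ _ hj', extT_new' _ _ _ _ _ _ _ _ hk',
            extT_old _ _ _ _ _ _ _ _ _ hj' hk']
          have h4 := C.tri_swap23 _ _ _ (key j k hj' hk' hjk)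
          exact C.tri_swap12 _ _ _ h4 |> C.tri_swap23 _ _ _ |> fun h => by
            simpa [C.flip_flip] using C.tri_swap23 _ _ _ h
        · have hi' : i < n := by omega
          rw [extT_old _ _ _ _ _ _ _ _ _ hi' hj', extT_old _ _ _ _ _ _ _ _ _ hi' hk',
            extT_old _ _ _ _ _ _ _ _ _ hj' hk']
          exact s.2.2 i j k hi' hj' hk' hij hjk hik

/-- The states of a certificate have the one point extension property. -/
theorem stepClass_of_cert {T : Type} (C : LocalCert T) :
    StepClass' (LState C) (fun {n} (s : LState C n) i j => C.col (s.1 i j)) where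
  symm := by
    intro n s i j hi hj hij
    show C.col (s.1 i j) = C.col (s.1 j i)
    rw [s.2.1 i j hi hj hij, C.col_flip]
  no_forb := by
    intro n s i j k hi hj hk hij hjk hik
    exact C.tri_ok _ _ _ (s.2.2 i j k hi hj hk hij hjk hik)
  step := by
    intro n s x y a b hx hy hxy hf hw
    refine ⟨extS C n s x y a b hx hy hxy hf hw, ?_, ?_, ?_⟩
    · intro i j hi hj _
      show C.col (extT C s.1 n x y a b i j) = C.col (s.1 i j)
      rw [extT_old _ _ _ _ _ _ _ _ _ hi hj]
    · show C.col (extT C s.1 n x y a b x n) = a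
      rw [extT_new]
      unfold newT
      rw [if_pos rfl]
      exact C.gx_col _ _ _ hf
    · show C.col (extT C s.1 n x y a b n y) = b
      rw [extT_new' _ _ _ _ _ _ _ _ hy, C.col_flip]
      unfold newT
      rw [if_neg (Ne.symm hxy), if_pos rfl]
      exact C.gy_col _ _ _ hf

/-- A local closure certificate gives a representation. -/
theorem rep_of_cert {T : Type} (C : LocalCert T) (t0 : T) :
    ∃ (U : Type) (r : Set Atom → Set (U × U)), Nonempty U ∧ IsRepresentation U r := by
  refine rep_of_step' (stepClass_of_cert C) 2 (le_refl 2) ⟨fun i j => if i < j then t0 else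
    C.flip t0, ?_, ?_⟩
  · intro i j hi hj hij
    show (if j < i then t0 else C.flip t0) = C.flip (if i < j then t0 else C.flip t0)
    rcases lt_or_gt_of_ne hij with h | h
    · rw [if_pos h, if_neg (by omega)]
    · rw [if_pos h, if_neg (by omega), C.flip_flip]
  · intro i j k hi hj hk hij hjk hik
    omega

end Pool.Agent.RA6
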