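import Pool.Agent.RA6.Frame99c

/-!
A generic certificate theorem for MP_cf0286_al with ages, redirected requests and auxiliary
births: a local closure gives a representation.
-/

namespace Pool.Agent.RA6

/-- A local closure certificate with redirections. `Tri p q r` says that an ordered triple
`x, y, z` of vertices may have the types `p` (of `x, y`), `q` (of `x, z`) and `r` (of `y, z`).
`old t = true` says that the first vertex is older.
For a request `(a, b)` at a pair `x, y` of type `t`:
* `A t a b = some (c, d)`: first make sure that the request `(c, d)` at `x, y` is served;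
* `R t a b p q = some (false, c)`: for a further vertex `w` (`p` the type of `x, w`, `q` the type
  of `y, w`) serve the request `(a, c)` at `x, w` instead; `some (true, c)`: serve `(c, b)` at
  `w, y` instead;
* otherwise the newborn `z` gets the types `gx t a b` (of `x, z`), `gy t a b` (of `y, z`) and
  `F t a b p q` (of `w, z`). -/
structure LocalCertR (T : Type) where
  flip : T → T
  col : T → ZMod 6
  old : T → Bool
  Tri : T → T → T → Prop
  gx : T → ZMod 6 → ZMod 6 → T
  gy : T → ZMod 6 → ZMod 6 → T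
  F : T → ZMod 6 → ZMod 6 → T → T → T
  R : T → ZMod 6 → ZMod 6 → T → T → Option (Bool × ZMod 6)
  A : T → ZMod 6 → ZMod 6 → Option (ZMod 6 × ZMod 6)
  rk : T → ZMod 6 → ZMod 6 → ℕ
  flip_flip : ∀ t, flip (flip t) = t
  col_flip : ∀ t, col (flip t) = col t
  old_flip : ∀ t, old (flip t) = !old t
  tri_swap12 : ∀ p q r, Tri p q r → Tri (flip p) r q
  tri_swap23 : ∀ p q r, Tri p q r → Tri q p (flip r)
  tri_ok : ∀ p q r, Tri p q r → ¬ Forbidden (col p) (col r) (col q)
  gx_col : ∀ t a b, ¬ Forbidden (col t) a b → A t a b = none → col (gx t a b) = a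
  gy_col : ∀ t a b, ¬ Forbidden (col t) a b → A t a b = none → col (gy t a b) = b
  gx_old : ∀ t a b, ¬ Forbidden (col t) a b → A t a b = none → old (gx t a b) = true
  gy_old : ∀ t a b, ¬ Forbidden (col t) a b → A t a b = none → old (gy t a b) = true
  F_old : ∀ t a b, ¬ Forbidden (col t) a b → A t a b = none → ∀ p q, Tri t p q →
    ¬ (col p = a ∧ col q = b) → R t a b p q = none → old (F t a b p q) = true
  tri_new : ∀ t a b, ¬ Forbidden (col t) a b → A t a b = none → Tri t (gx t a b) (gy t a b)
  tri_x : ∀ t a b, ¬ Forbidden (col t) a b → A t a b = none → ∀ p q, Tri t p q →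
    ¬ (col p = a ∧ col q = b) → R t a b p q = none → Tri p (gx t a b) (F t a b p q)
  tri_y : ∀ t a b, ¬ Forbidden (col t) a b → A t a b = none → ∀ p q, Tri t p q →
    ¬ (col p = a ∧ col q = b) → R t a b p q = none → Tri q (gy t a b) (F t a b p q)
  tri_w : ∀ t a b, ¬ Forbidden (col t) a b → A t a b = none → ∀ p q p' q' u, Tri t p q →
    Tri t p' q' → Tri p p' u → Tri q q' u → ¬ (col p = a ∧ col q = b) →
    ¬ (col p' = a ∧ col q' = b) → R t a b p q = none → R t a b p' q' = none →
    Tri u (F t a b p q) (F t a b p' q')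
  red_x : ∀ t a b, ¬ Forbidden (col t) a b → ∀ p q c, Tri t p q → R t a b p q = some (false, c) →
    ¬ Forbidden (col p) a c ∧ ¬ (col t = a ∧ col q = c) ∧
    (rk p a c < rk t a b ∨ (rk p a c = rk t a b ∧ old q = false)) ∧
    ∀ p' q' v, Tri t p' q' → Tri p p' v → Tri q q' v → col p' = a → col v = c → col q' = b
  red_y : ∀ t a b, ¬ Forbidden (col t) a b → ∀ p q c, Tri t p q → R t a b p q = some (true, c) →
    ¬ Forbidden (col q) c b ∧ ¬ (col p = c ∧ col t = b) ∧
    (rk (flip q) c b < rk t a b ∨ (rk (flip q) c b = rk t a b ∧ old p = false)) ∧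
    ∀ p' q' v, Tri t p' q' → Tri p p' v → Tri q q' v → col q' = b → col v = c → col p' = a
  aux : ∀ t a b, ¬ Forbidden (col t) a b → ∀ c d, A t a b = some (c, d) →
    ¬ Forbidden (col t) c d ∧ rk t c d < rk t a b ∧
    ∀ p q, Tri t p q → col p = c → col q = d → R t a b p q ≠ none

section

variable {T : Type} (C : LocalCertR T)

/-- The states: typed complete graphs all of whose triangles are allowed; the types know the
ages. -/
def RState (n : ℕ) : Type :=
  {t : ℕ → ℕ → T // (∀ i j, i < n → j < n → i ≠ j → t j i = C.flip (t i j)) ∧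
    (∀ i j, i < n → j < n → i ≠ j → (C.old (t i j) = true ↔ i < j)) ∧
    ∀ i j k, i < n → j < n → k < n → i ≠ j → j ≠ k → i ≠ k → C.Tri (t i j) (t i k) (t j k)}

/-- The types of the newborn. -/
def rnewT (t : ℕ → ℕ → T) (x y : ℕ) (a b : ZMod 6) (w : ℕ) : T :=
  if w = x then C.gx (t x y) a b else if w = y then C.gy (t x y) a b
  else C.F (t x y) a b (t x w) (t y w)

/-- The extended typed graph. -/
def rextT (t : ℕ → ℕ → T) (n x y : ℕ) (a b : ZMod 6) (i j : ℕ) : T :=
  if j = n then rnewT C t x y a b i else if i = n then C.flip (rnewT C t x y a b j) else t i j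

theorem rextT_old (t : ℕ → ℕ → T) (n x y : ℕ) (a b : ZMod 6)
    (i j : ℕ) (hi : i < n) (hj : j < n) : rextT C t n x y a b i j = t i j := by
  unfold rextT
  rw [if_neg (by omega), if_neg (by omega)]

theorem rextT_new (t : ℕ → ℕ → T) (n x y : ℕ) (a b : ZMod 6)
    (i : ℕ) : rextT C t n x y a b i n = rnewT C t x y a b i := by
  unfold rextT
  rw [if_pos rfl]

theorem rextT_new' (t : ℕ → ℕ → T) (n x y : ℕ) (a b : ZMod 6)
    (i : ℕ) (hi : i < n) : rextT C t n x y a b n i = C.flip (rnewT C t x y a b i) := by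
  unfold rextT
  rw [if_neg (by omega), if_pos rfl]

/-- The hypotheses under which the request is served directly. -/
structure Direct (n : ℕ) (s : RState C n) (x y : ℕ) (a b : ZMod 6) : Prop where
  hx : x < n
  hy : y < n
  hxy : x ≠ y
  hf : ¬ Forbidden (C.col (s.1 x y)) a b
  hA : C.A (s.1 x y) a b = none
  hw : ∀ w, w < n → w ≠ x → w ≠ y → ¬ (C.col (s.1 x w) = a ∧ C.col (s.1 y w) = b)
  hR : ∀ w, w < n → w ≠ x → w ≠ y → C.R (s.1 x y) a b (s.1 x w) (s.1 y w) = none

variable {C}

/-- The newborn's triangles are allowed. -/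
theorem rnewT_tri {n : ℕ} {s : RState C n} {x y : ℕ} {a b : ZMod 6}
    (h : Direct C n s x y a b) (i j : ℕ) (hi : i < n) (hj : j < n) (hij : i ≠ j) :
    C.Tri (s.1 i j) (rnewT C s.1 x y a b i) (rnewT C s.1 x y a b j) := by
  obtain ⟨t, hflip, hold, htri⟩ := s
  obtain ⟨hx, hy, hxy, hf, hA, hw, hR⟩ := h
  simp only at hf hw hA hR ⊢
  have swap : ∀ i j, i < n → j < n → i ≠ j →
      C.Tri (t i j) (rnewT C t x y a b i) (rnewT C t x y a b j) →
      C.Tri (t j i) (rnewT C t x y a b j) (rnewT C t x y a b i) := by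
    intro i j h1 h2 h3 h4
    rw [hflip i j h1 h2 h3]
    exact C.tri_swap12 _ _ _ h4
  have ex : rnewT C t x y a b x = C.gx (t x y) a b := by unfold rnewT; rw [if_pos rfl]
  have ey : rnewT C t x y a b y = C.gy (t x y) a b := by
    unfold rnewT; rw [if_neg (Ne.symm hxy), if_pos rfl]
  have ew : ∀ w, w ≠ x → w ≠ y → rnewT C t x y a b w = C.F (t x y) a b (t x w) (t y w) := by
    intro w h1 h2
    unfold rnewT; rw [if_neg h1, if_neg h2]
  have hxy' : C.Tri (t x y) (rnewT C t x y a b x) (rnewT C t x y a b y) := by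
    rw [ex, ey]
    exact C.tri_new _ _ _ hf hA
  have hxw : ∀ w, w < n → w ≠ x → w ≠ y →
      C.Tri (t x w) (rnewT C t x y a b x) (rnewT C t x y a b w) := by
    intro w h1 h2 h3
    rw [ex, ew w h2 h3]
    exact C.tri_x _ _ _ hf hA _ _ (htri x y w hx hy h1 hxy (Ne.symm h3) (Ne.symm h2))
      (hw w h1 h2 h3) (hR w h1 h2 h3)
  have hyw : ∀ w, w < n → w ≠ x → w ≠ y →
      C.Tri (t y w) (rnewT C t x y a b y) (rnewT C t x y a b w) := by
    intro w h1 h2 h3
    rw [ey, ew w h2 h3]
    exact C.tri_y _ _ _ hf hA _ _ (htri x y w hx hy h1 hxy (Ne.symm h3) (Ne.symm h2))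
      (hw w h1 h2 h3) (hR w h1 h2 h3)
  by_cases hix : i = x
  · subst hix
    by_cases hjy : j = y
    · subst hjy; exact hxy'
    · exact hxw j hj (Ne.symm hij) hjy
  · by_cases hiy : i = y
    · subst hiy
      by_cases hjx : j = x
      · subst hjx; exact swap _ _ hj hi (Ne.symm hij) hxy'
      · exact hyw j hj hjx (Ne.symm hij)
    · by_cases hjx : j = x
      · subst hjx
        exact swap _ _ hj hi (Ne.symm hij) (hxw i hi hix hiy)
      · by_cases hjy : j = y
        · subst hjy
          exact swap _ _ hj hi (Ne.symm hij) (hyw i hi hix hiy)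
        · rw [ew i hix hiy, ew j hjx hjy]
          exact C.tri_w _ _ _ hf hA _ _ _ _ _
            (htri x y i hx hy hi hxy (Ne.symm hiy) (Ne.symm hix))
            (htri x y j hx hy hj hxy (Ne.symm hjy) (Ne.symm hjx))
            (htri x i j hx hi hj (Ne.symm hix) hij (Ne.symm hjx))
            (htri y i j hy hi hj (Ne.symm hiy) hij (Ne.symm hjy))
            (hw i hi hix hiy) (hw j hj hjx hjy) (hR i hi hix hiy) (hR j hj hjx hjy)

/-- The newborn is the youngest vertex. -/
theorem rnewT_old {n : ℕ} {s : RState C n} {x y : ℕ} {a b : ZMod 6}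
    (h : Direct C n s x y a b) (w : ℕ) (h1 : w < n) :
    C.old (rnewT C s.1 x y a b w) = true := by
  unfold rnewT
  split_ifs with h2 h3
  · exact C.gx_old _ _ _ h.hf h.hA
  · exact C.gy_old _ _ _ h.hf h.hA
  · exact C.F_old _ _ _ h.hf h.hA _ _
      (s.2.2.2 x y w h.hx h.hy h1 h.hxy (Ne.symm h3) (Ne.symm h2)) (h.hw w h1 h2 h3)
      (h.hR w h1 h2 h3)

theorem old_false {n : ℕ} (s : RState C n) (i j : ℕ) (hi : i < n) (hj : j < n) (hij : i < j) :
    C.old (s.1 j i) = false := by
  have h := s.2.2.1 j i hj hi (by omega)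
  by_contra hc
  have h2 : C.old (s.1 j i) = true := by
    cases hb : C.old (s.1 j i) with
    | false => exact absurd hb hc
    | true => rfl
  have := h.mp h2
  omega

theorem lt_of_old_false {n : ℕ} (s : RState C n) (i j : ℕ) (hi : i < n) (hj : j < n)
    (hij : i ≠ j) (h : C.old (s.1 i j) = false) : j < i := by
  have h1 := s.2.2.1 i j hi hj hij
  by_contra hc
  have h2 : i < j := by omega
  rw [h1.mpr h2] at h
  exact absurd h (by decide)

/-- The extended state. -/
def rextS {n : ℕ} {s : RState C n} {x y : ℕ} {a b : ZMod 6} (h : Direct C n s x y a b) :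
    RState C (n + 1) := by
  have key := rnewT_tri h
  have keyo := rnewT_old h
  refine ⟨rextT C s.1 n x y a b, ?_, ?_, ?_⟩
  · intro i j hi hj hij
    by_cases h1 : i = n
    · subst h1
      have hj' : j < i := by omega
      rw [rextT_new, rextT_new' _ _ _ _ _ _ _ _ hj', C.flip_flip]
    · by_cases h2 : j = n
      · subst h2
        have hi' : i < j := by omega
        rw [rextT_new, rextT_new' _ _ _ _ _ _ _ _ hi']
      · rw [rextT_old _ _ _ _ _ _ _ _ _ (by omega) (by omega),
          rextT_old _ _ _ _ _ _ _ _ _ (by omega) (by omega)]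
        exact s.2.1 i j (by omega) (by omega) hij
  · intro i j hi hj hij
    by_cases h1 : i = n
    · subst h1
      have hj' : j < i := by omega
      rw [rextT_new' _ _ _ _ _ _ _ _ hj', C.old_flip, keyo j hj']
      constructor
      · intro hc; exact absurd hc (by decide)
      · intro hc; omega
    · by_cases h2 : j = n
      · subst h2
        have hi' : i < j := by omega
        rw [rextT_new, keyo i hi']
        exact ⟨fun _ => hi', fun _ => rfl⟩
      · rw [rextT_old _ _ _ _ _ _ _ _ _ (by omega) (by omega)]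
        exact s.2.2.1 i j (by omega) (by omega) hij
  · intro i j k hi hj hk hij hjk hik
    by_cases h1 : k = n
    · subst h1
      have hi' : i < k := by omega
      have hj' : j < k := by omega
      rw [rextT_new, rextT_new, rextT_old _ _ _ _ _ _ _ _ _ hi' hj']
      exact key i j hi' hj' hij
    · have hk' : k < n := by omega
      by_cases h2 : j = n
      · subst h2
        have hi' : i < j := by omega
        rw [rextT_new, rextT_new' _ _ _ _ _ _ _ _ hk', rextT_old _ _ _ _ _ _ _ _ _ hi' hk']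
        exact C.tri_swap23 _ _ _ (key i k hi' hk' hik)
      · have hj' : j < n := by omega
        by_cases h3 : i = n
        · subst h3
          rw [rextT_new' _ _ _ _ _ _ _ _ hj', rextT_new' _ _ _ _ _ _ _ _ hk',
            rextT_old _ _ _ _ _ _ _ _ _ hj' hk']
          have h4 := C.tri_swap23 _ _ _ (key j k hj' hk' hjk)
          exact C.tri_swap12 _ _ _ h4 |> C.tri_swap23 _ _ _ |> fun h => by
            simpa [C.flip_flip] using C.tri_swap23 _ _ _ h
        · have hi' : i < n := by omega
          rw [rextT_old _ _ _ _ _ _ _ _ _ hi' hj', rextT_old _ _ _ _ _ _ _ _ _ hi' hk',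
            rextT_old _ _ _ _ _ _ _ _ _ hj' hk']
          exact s.2.2.2 i j k hi' hj' hk' hij hjk hik

/-- `s'` extends `s`. -/
def Ext {n m : ℕ} (s : RState C n) (s' : RState C m) : Prop :=
  n ≤ m ∧ ∀ i j, i < n → j < n → i ≠ j → s'.1 i j = s.1 i j

theorem Ext.refl {n : ℕ} (s : RState C n) : Ext s s := ⟨le_refl n, fun _ _ _ _ _ => rfl⟩

theorem Ext.trans {n m k : ℕ} {s : RState C n} {s' : RState C m} {s'' : RState C k}
    (h : Ext s s') (h' : Ext s' s'') : Ext s s'' :=
  ⟨h.1.trans h'.1, fun i j hi hj hij => by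
    rw [h'.2 i j (lt_of_lt_of_le hi h.1) (lt_of_lt_of_le hj h.1) hij, h.2 i j hi hj hij]⟩

/-- The request is served in the state. -/
def Served {n : ℕ} (s : RState C n) (x y : ℕ) (a b : ZMod 6) : Prop :=
  ∃ w, w < n ∧ w ≠ x ∧ w ≠ y ∧ C.col (s.1 x w) = a ∧ C.col (s.1 y w) = b

/-- Every request is served in an extension. -/
theorem serve (k : ℕ) : ∀ (l : ℕ) (n : ℕ) (s : RState C n) (x y : ℕ) (a b : ZMod 6),
    x < n → y < n → x ≠ y → ¬ Forbidden (C.col (s.1 x y)) a b →
    C.rk (s.1 x y) a b = k → x + y = l →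
    ∃ m, ∃ s' : RState C m, Ext s s' ∧ Served s' x y a b := by
  induction k using Nat.strong_induction_on with
  | _ k ihk =>
  intro l
  induction l using Nat.strong_induction_on with
  | _ l ihl =>
  -- the redirect step, in any state
  have red : ∀ (n : ℕ) (s : RState C n) (x y : ℕ) (a b : ZMod 6),
      x < n → y < n → x ≠ y → ¬ Forbidden (C.col (s.1 x y)) a b →
      C.rk (s.1 x y) a b = k → x + y = l →
      ∀ w, w < n → w ≠ x → w ≠ y → C.R (s.1 x y) a b (s.1 x w) (s.1 y w) ≠ none →
      ∃ m, ∃ s' : RState C m, Ext s s' ∧ Served s' x y a b := by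
    intro n s x y a b hx hy hxy hf hrk hl w hw hwx hwy hR
    have htri := s.2.2.2 x y w hx hy hw hxy (Ne.symm hwy) (Ne.symm hwx)
    have hcases : ∃ side c, C.R (s.1 x y) a b (s.1 x w) (s.1 y w) = some (side, c) := by
      cases hr : C.R (s.1 x y) a b (s.1 x w) (s.1 y w) with
      | none => exact absurd hr hR
      | some v => exact ⟨v.1, v.2, rfl⟩
    obtain ⟨side, c, hr⟩ := hcases
    cases side with
    | false =>
      obtain ⟨h1, h2, h3, h4⟩ := C.red_x _ _ _ hf _ _ _ htri hr
      have ih : ∃ m, ∃ s' : RState C m, Ext s s' ∧ Served s' x w a c := by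
        rcases h3 with h3 | ⟨h3, h3'⟩
        · exact ihk _ (by omega) _ n s x w a c hx hw (Ne.symm hwx) h1 rfl rfl
        · have hlt := lt_of_old_false s y w hy hw (Ne.symm hwy) h3'
          exact ihl (x + w) (by omega) n s x w a c hx hw (Ne.symm hwx) h1 (by omega) rfl
      obtain ⟨m, s', hext, u, hu, hux, huw, hc1, hc2⟩ := ih
      refine ⟨m, s', hext, u, hu, hux, ?_, hc1, ?_⟩
      · rintro rfl
        apply h2
        rw [hext.2 x u hx hy hxy] at hc1
        rw [hext.2 w u hw hy hwy] at hc2
        refine ⟨hc1, ?_⟩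
        rw [s.2.1 w u hw hy hwy, C.col_flip]
        exact hc2
      · have huy : u ≠ y := by
          rintro rfl
          apply h2
          rw [hext.2 x u hx hy hxy] at hc1
          rw [hext.2 w u hw hy hwy] at hc2
          refine ⟨hc1, ?_⟩
          rw [s.2.1 w u hw hy hwy, C.col_flip]
          exact hc2
        have hx' : x < m := lt_of_lt_of_le hx hext.1
        have hy' : y < m := lt_of_lt_of_le hy hext.1
        have hw' : w < m := lt_of_lt_of_le hw hext.1
        refine h4 (s'.1 x u) (s'.1 y u) (s'.1 w u) ?_ ?_ ?_ hc1 hc2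
        · rw [← hext.2 x y hx hy hxy]
          exact s'.2.2.2 x y u hx' hy' hu hxy (Ne.symm huy) (Ne.symm hux)
        · rw [← hext.2 x w hx hw (Ne.symm hwx)]
          exact s'.2.2.2 x w u hx' hw' hu (Ne.symm hwx) (Ne.symm huw) (Ne.symm hux)
        · rw [← hext.2 y w hy hw (Ne.symm hwy)]
          exact s'.2.2.2 y w u hy' hw' hu (Ne.symm hwy) (Ne.symm huw) (Ne.symm huy)
    | true =>
      obtain ⟨h1, h2, h3, h4⟩ := C.red_y _ _ _ hf _ _ _ htri hr
      have hwyt : s.1 w y = C.flip (s.1 y w) := s.2.1 y w hy hw (Ne.symm hwy)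
      have hcol : C.col (s.1 w y) = C.col (s.1 y w) := by rw [hwyt, C.col_flip]
      have h1' : ¬ Forbidden (C.col (s.1 w y)) c b := by rw [hcol]; exact h1
      have ih : ∃ m, ∃ s' : RState C m, Ext s s' ∧ Served s' w y c b := by
        rcases h3 with h3 | ⟨h3, h3'⟩
        · rw [← hwyt] at h3
          exact ihk _ (by omega) _ n s w y c b hw hy hwy h1' rfl rfl
        · have hlt := lt_of_old_false s x w hx hw (Ne.symm hwx) h3'
          rw [← hwyt] at h3
          exact ihl (w + y) (by omega) n s w y c b hw hy hwy h1' (by omega) rfl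
      obtain ⟨m, s', hext, u, hu, huw, huy, hc1, hc2⟩ := ih
      have hux : u ≠ x := by
        rintro rfl
        apply h2
        rw [hext.2 w u hw hx hwx] at hc1
        rw [hext.2 y u hy hx (Ne.symm hxy)] at hc2
        refine ⟨?_, ?_⟩
        · rw [s.2.1 w u hw hx hwx, C.col_flip]
          exact hc1
        · rw [s.2.1 y u hy hx (Ne.symm hxy), C.col_flip]
          exact hc2
      refine ⟨m, s', hext, u, hu, hux, huy, ?_, hc2⟩
      have hx' : x < m := lt_of_lt_of_le hx hext.1
      have hy' : y < m := lt_of_lt_of_le hy hext.1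
      have hw' : w < m := lt_of_lt_of_le hw hext.1
      refine h4 (s'.1 x u) (s'.1 y u) (s'.1 w u) ?_ ?_ ?_ hc2 hc1
      · rw [← hext.2 x y hx hy hxy]
        exact s'.2.2.2 x y u hx' hy' hu hxy (Ne.symm huy) (Ne.symm hux)
      · rw [← hext.2 x w hx hw (Ne.symm hwx)]
        exact s'.2.2.2 x w u hx' hw' hu (Ne.symm hwx) (Ne.symm huw) (Ne.symm hux)
      · rw [← hext.2 y w hy hw (Ne.symm hwy)]
        exact s'.2.2.2 y w u hy' hw' hu (Ne.symm hwy) (Ne.symm huw) (Ne.symm huy)
  intro n s x y a b hx hy hxy hf hrk hl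
  by_cases hs : Served s x y a b
  · exact ⟨n, s, Ext.refl s, hs⟩
  by_cases hR : ∃ w, w < n ∧ w ≠ x ∧ w ≠ y ∧ C.R (s.1 x y) a b (s.1 x w) (s.1 y w) ≠ none
  · obtain ⟨w, hw, hwx, hwy, hr⟩ := hR
    exact red n s x y a b hx hy hxy hf hrk hl w hw hwx hwy hr
  cases hA : C.A (s.1 x y) a b with
  | some v =>
    obtain ⟨h1, h2, h3⟩ := C.aux _ _ _ hf v.1 v.2 hA
    obtain ⟨m, s', hext, u, hu, hux, huy, hc1, hc2⟩ :=
      ihk _ (by omega) _ n s x y v.1 v.2 hx hy hxy h1 rfl rfl
    have hx' : x < m := lt_of_lt_of_le hx hext.1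
    have hy' : y < m := lt_of_lt_of_le hy hext.1
    have e : s'.1 x y = s.1 x y := hext.2 x y hx hy hxy
    have hr : C.R (s'.1 x y) a b (s'.1 x u) (s'.1 y u) ≠ none := by
      rw [e]
      refine h3 _ _ ?_ hc1 hc2
      rw [← e]
      exact s'.2.2.2 x y u hx' hy' hu hxy (Ne.symm huy) (Ne.symm hux)
    obtain ⟨m', s'', hext', hs''⟩ := red m s' x y a b hx' hy' hxy (by rw [e]; exact hf)
      (by rw [e]; exact hrk) hl u hu hux huy hr
    exact ⟨m', s'', hext.trans hext', hs''⟩
  | none =>
    have hD : Direct C n s x y a b := by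
      refine ⟨hx, hy, hxy, hf, hA, ?_, ?_⟩
      · intro w h1 h2 h3 h4
        exact hs ⟨w, h1, h2, h3, h4.1, h4.2⟩
      · intro w h1 h2 h3
        by_contra hc
        exact hR ⟨w, h1, h2, h3, hc⟩
    refine ⟨n + 1, rextS hD, ⟨Nat.le_succ n, ?_⟩, n, Nat.lt_succ_self n, by omega, by omega, ?_, ?_⟩
    · intro i j hi hj _
      show rextT C s.1 n x y a b i j = s.1 i j
      exact rextT_old _ _ _ _ _ _ _ _ _ hi hj
    · show C.col (rextT C s.1 n x y a b x n) = a
      rw [rextT_new]
      unfold rnewT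
      rw [if_pos rfl]
      exact C.gx_col _ _ _ hf hA
    · show C.col (rextT C s.1 n x y a b y n) = b
      rw [rextT_new]
      unfold rnewT
      rw [if_neg (Ne.symm hxy), if_pos rfl]
      exact C.gy_col _ _ _ hf hA

/-- The states of a certificate have the extension property. -/
theorem stepClass_of_certR :
    StepClass3 (RState C) (fun {n} (s : RState C n) i j => C.col (s.1 i j)) where
  symm := by
    intro n s i j hi hj hij
    show C.col (s.1 i j) = C.col (s.1 j i)
    rw [s.2.1 i j hi hj hij, C.col_flip]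
  no_forb := by
    intro n s i j k hi hj hk hij hjk hik
    exact C.tri_ok _ _ _ (s.2.2.2 i j k hi hj hk hij hjk hik)
  step := by
    intro n s x y a b hx hy hxy hf
    obtain ⟨m, s', hext, w, hw, hwx, hwy, h1, h2⟩ := serve (C := C) _ _ n s x y a b hx hy hxy hf
      rfl rfl
    refine ⟨m, hext.1, s', ?_, w, hw, hwx, hwy, h1, ?_⟩
    · intro i j hi hj hij
      show C.col (s'.1 i j) = C.col (s.1 i j)
      rw [hext.2 i j hi hj hij]
    · show C.col (s'.1 w y) = b
      rw [s'.2.1 y w (lt_of_lt_of_le hy hext.1) hw (Ne.symm hwy), C.col_flip]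
      exact h2

end

/-- A local closure certificate with redirections gives a representation. -/
theorem rep_of_certR {T : Type} (C : LocalCertR T) (t0 : T) (h0 : C.old t0 = true) :
    ∃ (U : Type) (r : Set Atom → Set (U × U)), Nonempty U ∧ IsRepresentation U r := by
  refine rep_of_step3 (stepClass_of_certR (C := C)) 2 (le_refl 2) ⟨fun i j => if i < j then t0 else
    C.flip t0, ?_, ?_, ?_⟩
  · intro i j hi hj hij
    show (if j < i then t0 else C.flip t0) = C.flip (if i < j then t0 else C.flip t0)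
    rcases lt_or_gt_of_ne hij with h | h
    · rw [if_pos h, if_neg (by omega)]
    · rw [if_pos h, if_neg (by omega), C.flip_flip]
  · intro i j hi hj hij
    show C.old (if i < j then t0 else C.flip t0) = true ↔ i < j
    rcases lt_or_gt_of_ne hij with h | h
    · rw [if_pos h]
      exact ⟨fun _ => h, fun _ => h0⟩
    · rw [if_neg (by omega), C.old_flip, h0]
      constructor
      · intro hc; exact absurd hc (by decide)
      · intro hc; omega
  · intro i j k hi hj hk hij hjk hik
    omega

end Pool.Agent.RA6
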