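import Pool.Agent.RA6.Defs99
import Pool.Agent.Helper25.RA.Frame

/-!
From a colouring of the natural numbers by the six colours to a representation.
-/

namespace Pool.Agent.RA6

open Pool.Agent.Helper25.RA

/-- A colour as an element of `ZMod 6`. -/
def toZ (a : Fin 6) : ZMod 6 := a

/-- An element of `ZMod 6` as a colour. -/
def ofZ (a : ZMod 6) : Fin 6 := a

theorem toZ_ofZ (a : ZMod 6) : toZ (ofZ a) = a := rfl

theorem bad_iff_forbidden : ∀ a b c : Fin 6, Bad a b c ↔ Forbidden (toZ a) (toZ b) (toZ c) := by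
  decide

/-- A colouring as produced by the table frame gives a representation. -/
theorem rep_of_fin {U : Type} (hU : ∃ x y : U, x ≠ y) (c : U → U → Fin 6)
    (hs : ∀ x y, x ≠ y → c x y = c y x)
    (ht : ∀ x y z, x ≠ y → y ≠ z → x ≠ z → ¬ Bad (c x y) (c y z) (c x z))
    (hw : ∀ x y, x ≠ y → ∀ t u, ¬ Bad (c x y) t u →
      ∃ w, w ≠ x ∧ w ≠ y ∧ c x w = t ∧ c w y = u) :
    ∃ r : Set Atom → Set (U × U), IsRepresentation U r := by
  refine rep_of_colouring (c := fun x y => toZ (c x y)) ⟨hU, ?_, ?_, ?_⟩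
  · intro x y hxy
    show toZ (c x y) = toZ (c y x)
    rw [hs x y hxy]
  · intro x y z h1 h2 h3 hf
    exact ht x y z h1 h2 h3 ((bad_iff_forbidden _ _ _).mpr hf)
  · intro x y hxy s t hst
    obtain ⟨w, h1, h2, h3, h4⟩ := hw x y hxy (ofZ s) (ofZ t)
      (fun hb => hst ((bad_iff_forbidden _ _ _).mp hb))
    refine ⟨w, h1, h2, ?_, ?_⟩
    · show toZ (c x w) = s
      rw [h3]; rfl
    · show toZ (c w y) = t
      rw [h4]; rfl

/-- A table in the sense of the frame theorem gives a representation. -/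
theorem rep_of_table {T : Type} [Nonempty T] {F : T → T → Fin 6} {A : T → T → Fin 6 → Prop}
    (hFA : ∀ s r, A s r (F s r))
    (hb : ∀ s r q t c, A s r t → (A r q c ∨ A q r c) → ¬ Bad t (F s q) c)
    (hcov : ∀ r r' k t u, (A r r' k ∨ A r' r k) → ¬ Bad k t u → ∃ s, A s r t ∧ A s r' u) :
    ∃ (U : Type) (r : Set Atom → Set (U × U)), IsRepresentation U r := by
  obtain ⟨c, h1, h2, h3⟩ := frame hFA hb hcov
  obtain ⟨r, hr⟩ := rep_of_fin (U := ℕ) ⟨0, 1, by decide⟩ c h1 h2 h3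
  exact ⟨ℕ, r, hr⟩

end Pool.Agent.RA6
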