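import Pool.Agent.RA6.Defs99

/-!
Representations of A_6([i,i,i+2]) on sets of any cardinality in any universe, and the edge
colouring which belongs to such a representation.
-/

namespace Pool.Agent.RA6U

open Set Pool.Agent.RA6

universe u

/-- Relational composition. -/
def relComp {U : Type u} (R S : Set (U × U)) : Set (U × U) :=
  {p | ∃ w, (p.1, w) ∈ R ∧ (w, p.2) ∈ S}

/-- Relational converse. -/
def relConv {U : Type u} (R : Set (U × U)) : Set (U × U) :=
  {p | (p.2, p.1) ∈ R}

/-- A representation of `A_6([i,i,i+2])` on the set `U`: an injective map from the algebra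
(the sets of atoms) to the binary relations on `U` which preserves the Boolean operations, with
unit `U x U`, the identity, converse (the atoms are symmetric) and composition. -/
structure IsRepresentation (U : Type u) (r : Set Atom → Set (U × U)) : Prop where
  injective : Function.Injective r
  map_univ : r Set.univ = Set.univ
  map_union : ∀ A B, r (A ∪ B) = r A ∪ r B
  map_compl : ∀ A, r Aᶜ = (r A)ᶜ
  map_one : r {none} = {p | p.1 = p.2}
  map_conv : ∀ A, r A = relConv (r A)
  map_comp : ∀ A B, r (algComp A B) = relComp (r A) (r B)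

/-- The points `y` such that the pair `(x, y)` lies in the image of the atom `a_s`. -/
def nbr {U : Type u} (r : Set Atom → Set (U × U)) (s : ZMod 6) (x : U) : Set U :=
  {y | (x, y) ∈ r {some s}}

/-- The same in terms of edge colourings of the complete graph on `U`. -/
structure IsColouring {U : Type u} (c : U → U → ZMod 6) : Prop where
  nontriv : ∃ x y : U, x ≠ y
  symm : ∀ x y, x ≠ y → c x y = c y x
  no_forb : ∀ x y z, x ≠ y → y ≠ z → x ≠ z → ¬ Forbidden (c x y) (c y z) (c x z)
  witness : ∀ x y, x ≠ y → ∀ s t, ¬ Forbidden (c x y) s t →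
    ∃ w, w ≠ x ∧ w ≠ y ∧ c x w = s ∧ c w y = t

section
variable {U : Type u} {r : Set Atom → Set (U × U)}

theorem IsRepresentation.map_empty (h : IsRepresentation U r) : r ∅ = ∅ := by
  have h1 := h.map_compl Set.univ
  rw [Set.compl_univ, h.map_univ, Set.compl_univ] at h1
  exact h1

theorem IsRepresentation.map_inter (h : IsRepresentation U r) (A B : Set Atom) :
    r (A ∩ B) = r A ∩ r B := by
  have h1 := h.map_compl (Aᶜ ∪ Bᶜ)
  rw [h.map_union, h.map_compl A, h.map_compl B] at h1
  simpa only [Set.compl_union, compl_compl] using h1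

theorem IsRepresentation.mem_iff (h : IsRepresentation U r) (A : Set Atom) (p : U × U) :
    p ∈ r A ↔ ∃ a ∈ A, p ∈ r {a} := by
  have hfin : A.Finite := Set.toFinite A
  induction A, hfin using Set.Finite.induction_on with
  | empty => rw [h.map_empty]; simp
  | @insert a s _ _ ih =>
    have e : insert a s = {a} ∪ s := rfl
    rw [e, h.map_union]
    constructor
    · rintro (hp | hp)
      · exact ⟨a, Or.inl rfl, hp⟩
      · obtain ⟨b, hb, hpb⟩ := ih.mp hp
        exact ⟨b, Or.inr hb, hpb⟩
    · rintro ⟨b, hb | hb, hpb⟩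
      · left
        have : b = a := hb
        rwa [this] at hpb
      · right
        exact ih.mpr ⟨b, hb, hpb⟩

theorem IsRepresentation.unique (h : IsRepresentation U r) {a b : Atom} {p : U × U}
    (ha : p ∈ r {a}) (hb : p ∈ r {b}) : a = b := by
  by_contra hab
  have h1 : p ∈ r ({a} ∩ {b}) := by rw [h.map_inter]; exact ⟨ha, hb⟩
  have h2 : ({a} ∩ {b} : Set Atom) = ∅ := by
    ext z
    simp only [mem_inter_iff, mem_singleton_iff, mem_empty_iff_false, iff_false, not_and]
    intro hz hz'
    exact hab (hz.symm.trans hz')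
  rw [h2, h.map_empty] at h1
  exact h1

theorem IsRepresentation.exists_colour (h : IsRepresentation U r) {x y : U} (hxy : x ≠ y) :
    ∃ s : ZMod 6, (x, y) ∈ r {some s} := by
  have h1 : (x, y) ∈ r Set.univ := by rw [h.map_univ]; trivial
  obtain ⟨a, _, ha⟩ := (h.mem_iff Set.univ (x, y)).mp h1
  cases a with
  | none =>
    rw [h.map_one] at ha
    exact absurd ha hxy
  | some s => exact ⟨s, ha⟩

theorem algComp_singleton (a b : Atom) : algComp {a} {b} = atomComp a b := by
  ext z
  simp [algComp]

/-- Every representation gives a colouring. -/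
theorem colouring_of_rep (h : IsRepresentation U r) :
    ∃ c : U → U → ZMod 6, IsColouring c ∧
      ∀ x y s, (x, y) ∈ r {some s} ↔ x ≠ y ∧ c x y = s := by
  classical
  let c : U → U → ZMod 6 := fun x y =>
    if hxy : x ≠ y then (h.exists_colour hxy).choose else 0
  have hc : ∀ x y, x ≠ y → (x, y) ∈ r {some (c x y)} := by
    intro x y hxy
    have : c x y = (h.exists_colour hxy).choose := by
      simp only [c]; rw [dif_pos hxy]
    rw [this]
    exact (h.exists_colour hxy).choose_spec
  have hne : ∀ x y s, (x, y) ∈ r {some s} → x ≠ y := by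
    intro x y s hs hxy
    have h1 : (x, y) ∈ r {none} := by rw [h.map_one]; exact hxy
    exact absurd (h.unique hs h1) (by simp)
  have hiff : ∀ x y s, (x, y) ∈ r {some s} ↔ x ≠ y ∧ c x y = s := by
    intro x y s
    constructor
    · intro hs
      have hxy := hne x y s hs
      refine ⟨hxy, ?_⟩
      have := h.unique (hc x y hxy) hs
      exact Option.some.inj this
    · rintro ⟨hxy, rfl⟩
      exact hc x y hxy
  refine ⟨c, ⟨?_, ?_, ?_, ?_⟩, hiff⟩
  · by_contra hall
    push Not at hall
    have h1 : r {none} = r Set.univ := by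
      rw [h.map_one, h.map_univ]
      ext p
      simp only [mem_setOf_eq, mem_univ, iff_true]
      exact hall p.1 p.2
    have h2 := h.injective h1
    have h3 : (some 0 : Atom) ∈ ({none} : Set Atom) := by rw [h2]; trivial
    simp at h3
  · intro x y hxy
    have h1 := hc x y hxy
    rw [h.map_conv] at h1
    have h2 : (y, x) ∈ r {some (c x y)} := h1
    exact ((hiff y x _).mp h2).2.symm
  · intro x y z hxy hyz hxz hf
    have h1 : (x, z) ∈ relComp (r {some (c x y)}) (r {some (c y z)}) :=
      ⟨y, hc x y hxy, hc y z hyz⟩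
    rw [← h.map_comp, algComp_singleton] at h1
    obtain ⟨a, ha, hpa⟩ := (h.mem_iff _ _).mp h1
    rcases ha with ⟨t, ht, hnf⟩ | ⟨hn, _⟩
    · rw [ht] at hpa
      have := ((hiff x z t).mp hpa).2
      rw [this] at hf
      exact hnf hf
    · rw [hn, h.map_one] at hpa
      exact hxz hpa
  · intro x y hxy s t hnf
    have h1 : some (c x y) ∈ atomComp (some s) (some t) := by
      left
      refine ⟨c x y, rfl, ?_⟩
      intro hf
      exact hnf (forb_swap12 _ _ _ (forb_swap23 _ _ _ hf))
    have h2 : (x, y) ∈ r (algComp {some s} {some t}) := by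
      rw [algComp_singleton]
      exact (h.mem_iff _ _).mpr ⟨_, h1, hc x y hxy⟩
    rw [h.map_comp] at h2
    obtain ⟨w, hw1, hw2⟩ := h2
    have h3 := (hiff x w s).mp hw1
    have h4 := (hiff w y t).mp hw2
    exact ⟨w, fun e => h3.1 e.symm, h4.1, h3.2, h4.2⟩

end

section
variable {U : Type u} {c : U → U → ZMod 6}

/-- The points joined to `x` by colour `s`. -/
def cn (c : U → U → ZMod 6) (s : ZMod 6) (x : U) : Set U := {y | x ≠ y ∧ c x y = s}

theorem mem_cn {s : ZMod 6} {x y : U} : y ∈ cn c s x ↔ x ≠ y ∧ c x y = s := Iff.rfl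

theorem IsColouring.mem_cn_comm (h : IsColouring c) {s : ZMod 6} {x y : U} :
    y ∈ cn c s x ↔ x ∈ cn c s y := by
  constructor
  · rintro ⟨h1, h2⟩
    exact ⟨h1.symm, by rw [← h.symm x y h1]; exact h2⟩
  · rintro ⟨h1, h2⟩
    exact ⟨h1.symm, by rw [← h.symm y x h1]; exact h2⟩

/-- Two points joined to `w` by the same colour `i` are not joined by the colour `i + 2`. -/
theorem IsColouring.ne_add_two (h : IsColouring c) {w x y : U} {i : ZMod 6} (hxy : x ≠ y)
    (hx : w ∈ cn c i x) (hy : w ∈ cn c i y) : c x y ≠ i + 2 := by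
  intro hc
  have hx1 := hx.1
  have hy1 := hy.1
  have h1 := h.no_forb x w y hx1 hy1.symm hxy
  rw [h.symm w y hy1.symm, hx.2, hy.2, hc] at h1
  exact h1 ((forb_iff _ _ _).mpr (Or.inl ⟨rfl, rfl⟩))

end

end Pool.Agent.RA6U
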