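import Pool.Agent.RA6.GenCert99

/-!
Worlds with levels, without ages, for MP_cf0286_al: every request is served by its own data
(`Serve`), so the requests can be treated one by one and up to symmetry.
-/

namespace Pool.Agent.RA6

/-- A world: types of ordered pairs with levels (0 old, 1 newest complete generation, 2 being
born), the possible types `Edge`, the possible triangles `Tri`, the promotion `pr`. -/
structure World (T : Type) where
  flip : T → T
  col : T → ZMod 6
  la : T → ℕ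
  pr : T → T
  Edge : T → Prop
  Tri : T → T → T → Prop
  flip_flip : ∀ t, flip (flip t) = t
  col_flip : ∀ t, col (flip t) = col t
  edge_flip : ∀ t, Edge t → Edge (flip t)
  edge_pr : ∀ t, Edge t → Edge (pr t)
  pr_flip : ∀ t, Edge t → pr (flip t) = flip (pr t)
  pr_col : ∀ t, Edge t → col (pr t) = col t
  pr_la : ∀ t, Edge t → la (pr t) = plev (la t)
  pr_tri : ∀ p q r, Tri p q r → Tri (pr p) (pr q) (pr r)
  tri_swap12 : ∀ p q r, Tri p q r → Tri (flip p) r q
  tri_swap23 : ∀ p q r, Tri p q r → Tri q p (flip r)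
  tri_ok : ∀ p q r, Tri p q r → ¬ Forbidden (col p) (col r) (col q)
  tri_la : ∀ p q r, Tri p q r → la (flip q) = la (flip r)

namespace World

variable {T : Type} (W : World T)

/-- Requests at pairs of this type are served now. -/
def Now (t : T) : Prop := W.la t ≤ 1 ∧ W.la (W.flip t) ≤ 1 ∧ 1 ≤ W.la t + W.la (W.flip t)

/-- The request `(a, b)` at pairs `x, y` of type `t` can be served: the newborn `z` gets the types
`gx` (of `x, z`), `gy` (of `y, z`), `F p q` (of `w, z`, where `p` is the type of `x, w` and `q` the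
type of `y, w`); if `R p q = some (false, c)`, the request `(a, c)` at `x, w` is served instead, if
`R p q = some (true, c)`, the request `(c, b)` at `w, y`; the new pair has smaller levels. -/
structure Rule (t : T) (a b : ZMod 6) where
  gx : T
  gy : T
  F : T → T → T
  R : T → T → Option (Bool × ZMod 6)
  gx_ok : W.Edge gx ∧ W.col gx = a ∧ W.la gx = W.la t ∧ W.la (W.flip gx) = 2
  gy_ok : W.Edge gy ∧ W.col gy = b ∧ W.la gy = W.la (W.flip t) ∧ W.la (W.flip gy) = 2
  tri_new : W.Tri t gx gy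
  F_ok : ∀ p q, W.Edge p → W.Edge q → W.Tri t p q → ¬ (W.col p = a ∧ W.col q = b) →
    R p q = none →
    W.Edge (F p q) ∧ W.la (F p q) = W.la (W.flip p) ∧ W.la (W.flip (F p q)) = 2 ∧
    W.Tri p gx (F p q) ∧ W.Tri q gy (F p q)
  tri_w : ∀ p q p' q' u, W.Edge p → W.Edge q → W.Edge p' → W.Edge q' → W.Edge u →
    W.Tri t p q → W.Tri t p' q' → W.Tri p p' u → W.Tri q q' u →
    ¬ (W.col p = a ∧ W.col q = b) → ¬ (W.col p' = a ∧ W.col q' = b) →
    R p q = none → R p' q' = none → W.Tri u (F p q) (F p' q')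
  red_x : ∀ p q c, W.Edge p → W.Edge q → W.Tri t p q → R p q = some (false, c) →
    ¬ Forbidden (W.col p) a c ∧ ¬ (W.col t = a ∧ W.col q = c) ∧
    W.la p + W.la (W.flip p) < W.la t + W.la (W.flip t) ∧
    ∀ p' q' v, W.Edge p' → W.Edge q' → W.Edge v → W.Tri t p' q' → W.Tri p p' v →
      W.Tri q q' v → W.col p' = a → W.col v = c → W.col q' = b
  red_y : ∀ p q c, W.Edge p → W.Edge q → W.Tri t p q → R p q = some (true, c) →
    ¬ Forbidden (W.col q) c b ∧ ¬ (W.col p = c ∧ W.col t = b) ∧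
    W.la q + W.la (W.flip q) < W.la t + W.la (W.flip t) ∧
    ∀ p' q' v, W.Edge p' → W.Edge q' → W.Edge v → W.Tri t p' q' → W.Tri p p' v →
      W.Tri q q' v → W.col q' = b → W.col v = c → W.col p' = a

/-- The request can be served. -/
def Serve (t : T) (a b : ZMod 6) : Prop := Nonempty (W.Rule t a b)

/-- The certificate of a world all of whose requests can be served. The types are the pairs of an
edge type and an age. -/
noncomputable def toGenCert
    (hs : ∀ t a b, W.Edge t → W.Now t → ¬ Forbidden (W.col t) a b → W.Serve t a b) :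
    GenCert ({t : T // W.Edge t} × Bool) := by
  classical
  let rule : ∀ t : {t : T // W.Edge t}, ∀ a b, W.Now t.1 → ¬ Forbidden (W.col t.1) a b →
    W.Rule t.1 a b := fun t a b h1 h2 => (hs t.1 a b t.2 h1 h2).some
  exact
  { flip := fun t => (⟨W.flip t.1.1, W.edge_flip _ t.1.2⟩, !t.2)
    col := fun t => W.col t.1.1
    old := fun t => t.2
    la := fun t => W.la t.1.1
    pr := fun t => (⟨W.pr t.1.1, W.edge_pr _ t.1.2⟩, t.2)
    Tri := fun p q r => W.Tri p.1.1 q.1.1 r.1.1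
    gx := fun t a b => if h : W.Now t.1.1 ∧ ¬ Forbidden (W.col t.1.1) a b then
      (⟨(rule t.1 a b h.1 h.2).gx, (rule t.1 a b h.1 h.2).gx_ok.1⟩, true) else t
    gy := fun t a b => if h : W.Now t.1.1 ∧ ¬ Forbidden (W.col t.1.1) a b then
      (⟨(rule t.1 a b h.1 h.2).gy, (rule t.1 a b h.1 h.2).gy_ok.1⟩, true) else t
    F := fun t a b p q => if h : W.Now t.1.1 ∧ ¬ Forbidden (W.col t.1.1) a b then
      (if h' : W.Edge ((rule t.1 a b h.1 h.2).F p.1.1 q.1.1) then (⟨_, h'⟩, true) else t) else t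
    R := fun t a b p q => if h : W.Now t.1.1 ∧ ¬ Forbidden (W.col t.1.1) a b then
      (rule t.1 a b h.1 h.2).R p.1.1 q.1.1 else none
    A := fun _ _ _ => none
    rk := fun t _ _ => W.la t.1.1 + W.la (W.flip t.1.1)
    flip_flip := by
      rintro ⟨⟨t, ht⟩, o⟩
      simp [W.flip_flip]
    col_flip := fun t => W.col_flip _
    old_flip := fun t => rfl
    pr_flip := by
      rintro ⟨⟨t, ht⟩, o⟩
      simp [W.pr_flip t ht]
    pr_col := fun t => W.pr_col _ t.1.2
    pr_old := fun t => rfl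
    pr_la := fun t _ => W.pr_la _ t.1.2
    pr_tri := fun p q r h => W.pr_tri _ _ _ h
    tri_swap12 := fun p q r h => W.tri_swap12 _ _ _ h
    tri_swap23 := fun p q r h => W.tri_swap23 _ _ _ h
    tri_ok := fun p q r h => W.tri_ok _ _ _ h
    gx_ok := by
      intro t a b h1 h2 h3 hf _
      have h : W.Now t.1.1 ∧ ¬ Forbidden (W.col t.1.1) a b := ⟨⟨h1, h2, h3⟩, hf⟩
      simp only [dif_pos h]
      have g := (rule t.1 a b h.1 h.2).gx_ok
      exact ⟨g.2.1, trivial, g.2.2.1, g.2.2.2⟩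
    gy_ok := by
      intro t a b h1 h2 h3 hf _
      have h : W.Now t.1.1 ∧ ¬ Forbidden (W.col t.1.1) a b := ⟨⟨h1, h2, h3⟩, hf⟩
      simp only [dif_pos h]
      have g := (rule t.1 a b h.1 h.2).gy_ok
      exact ⟨g.2.1, trivial, g.2.2.1, g.2.2.2⟩
    F_ok := by
      intro t a b h1 h2 h3 hf _ p q ht hc hR
      have h : W.Now t.1.1 ∧ ¬ Forbidden (W.col t.1.1) a b := ⟨⟨h1, h2, h3⟩, hf⟩
      simp only [dif_pos h] at hR ⊢
      have g := (rule t.1 a b h.1 h.2).F_ok _ _ p.1.2 q.1.2 ht hc hR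
      simp only [dif_pos g.1]
      exact ⟨trivial, g.2.1, g.2.2.1, g.2.2.2.1, g.2.2.2.2⟩
    tri_new := by
      intro t a b h1 h2 h3 hf _
      have h : W.Now t.1.1 ∧ ¬ Forbidden (W.col t.1.1) a b := ⟨⟨h1, h2, h3⟩, hf⟩
      simp only [dif_pos h]
      exact (rule t.1 a b h.1 h.2).tri_new
    tri_w := by
      intro t a b h1 h2 h3 hf _ p q p' q' u ht ht' hp hq hc hc' hR hR'
      have h : W.Now t.1.1 ∧ ¬ Forbidden (W.col t.1.1) a b := ⟨⟨h1, h2, h3⟩, hf⟩
      simp only [dif_pos h] at hR hR' ⊢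
      have g := (rule t.1 a b h.1 h.2).F_ok _ _ p.1.2 q.1.2 ht hc hR
      have g' := (rule t.1 a b h.1 h.2).F_ok _ _ p'.1.2 q'.1.2 ht' hc' hR'
      simp only [dif_pos g.1, dif_pos g'.1]
      exact (rule t.1 a b h.1 h.2).tri_w _ _ _ _ _ p.1.2 q.1.2 p'.1.2 q'.1.2 u.1.2 ht ht' hp hq
        hc hc' hR hR'
    red_x := by
      intro t a b h1 h2 h3 hf p q c ht hR
      have h : W.Now t.1.1 ∧ ¬ Forbidden (W.col t.1.1) a b := ⟨⟨h1, h2, h3⟩, hf⟩
      simp only [dif_pos h] at hR
      obtain ⟨g1, g2, g3, g4⟩ := (rule t.1 a b h.1 h.2).red_x _ _ c p.1.2 q.1.2 ht hR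
      refine ⟨g1, g2, ?_, Or.inr (Or.inl g3), ?_⟩
      · have h2' : W.la (W.flip t.1.1) ≤ 1 := h2
        show W.la (W.flip p.1.1) ≤ 1
        omega
      · intro p' q' v k1 k2 k3 k4 k5
        exact g4 _ _ _ p'.1.2 q'.1.2 v.1.2 k1 k2 k3 k4 k5
    red_y := by
      intro t a b h1 h2 h3 hf p q c ht hR
      have h : W.Now t.1.1 ∧ ¬ Forbidden (W.col t.1.1) a b := ⟨⟨h1, h2, h3⟩, hf⟩
      simp only [dif_pos h] at hR
      obtain ⟨g1, g2, g3, g4⟩ := (rule t.1 a b h.1 h.2).red_y _ _ c p.1.2 q.1.2 ht hR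
      refine ⟨g1, g2, ?_, Or.inr (Or.inl ?_), ?_⟩
      · have h2' : W.la (W.flip t.1.1) ≤ 1 := h2
        show W.la (W.flip q.1.1) ≤ 1
        omega
      · show W.la (W.flip q.1.1) + W.la (W.flip (W.flip q.1.1)) < _
        rw [W.flip_flip]
        omega
      · intro p' q' v k1 k2 k3 k4 k5
        exact g4 _ _ _ p'.1.2 q'.1.2 v.1.2 k1 k2 k3 k4 k5
    aux := by
      intro t a b _ _ _ _ c d h
      exact absurd h (by simp) }

/-- A world all of whose requests can be served gives a representation. -/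
theorem rep_of_world (t0 : T) (h0 : W.Edge t0) (h1 : W.la t0 = 1) (h2 : W.la (W.flip t0) = 1)
    (hs : ∀ t a b, W.Edge t → W.Now t → ¬ Forbidden (W.col t) a b → W.Serve t a b) :
    ∃ (U : Type) (r : Set Atom → Set (U × U)), Nonempty U ∧ IsRepresentation U r :=
  rep_of_genCert (W.toGenCert hs) (⟨t0, h0⟩, true) rfl h1 h2

end World

end Pool.Agent.RA6
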