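import Pool.Agent.RA6.World99

/-!
Symmetries of worlds: a request needs to be treated only up to automorphisms of the world and up
to the exchange of the two vertices.
-/

namespace Pool.Agent.RA6.World

variable {T : Type} (W : World T)

/-- Exchange of the two sides of a redirection. -/
def swapR : Option (Bool × ZMod 6) → Option (Bool × ZMod 6)
  | none => none
  | some (s, c) => some (!s, c)

theorem swapR_none (o : Option (Bool × ZMod 6)) (h : swapR o = none) : o = none := by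
  cases o with
  | none => rfl
  | some v => exact absurd h (by simp [swapR])

theorem swapR_some (o : Option (Bool × ZMod 6)) (s : Bool) (c : ZMod 6)
    (h : swapR o = some (s, c)) : o = some (!s, c) := by
  cases o with
  | none => exact absurd h (by simp [swapR])
  | some v =>
    obtain ⟨s', c'⟩ := v
    simp only [swapR, Option.some.injEq, Prod.mk.injEq] at h
    rw [← h.1, ← h.2, Bool.not_not]

theorem tri_unflip {t p q : T} (h : W.Tri (W.flip t) p q) : W.Tri t q p := by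
  have := W.tri_swap12 _ _ _ h
  rwa [W.flip_flip] at this

/-- Exchange of the two vertices of a request. -/
def Rule.swap {W : World T} {t : T} {a b : ZMod 6} (r : W.Rule t a b) :
    W.Rule (W.flip t) b a where
  gx := r.gy
  gy := r.gx
  F := fun p q => r.F q p
  R := fun p q => swapR (r.R q p)
  gx_ok := r.gy_ok
  gy_ok := by
    rw [W.flip_flip]
    exact r.gx_ok
  tri_new := W.tri_swap12 _ _ _ r.tri_new
  F_ok := by
    intro p q hp hq ht hc hR
    have ht' := W.tri_unflip ht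
    obtain ⟨g1, g2, g3, g4, g5⟩ := r.F_ok q p hq hp ht' (fun h => hc ⟨h.2, h.1⟩)
      (swapR_none _ hR)
    refine ⟨g1, ?_, g3, g5, g4⟩
    rw [g2]
    exact W.tri_la _ _ _ ht'
  tri_w := by
    intro p q p' q' u hp hq hp' hq' hu ht ht' h1 h2 hc hc' hR hR'
    exact r.tri_w q p q' p' u hq hp hq' hp' hu (W.tri_unflip ht) (W.tri_unflip ht') h2 h1
      (fun h => hc ⟨h.2, h.1⟩) (fun h => hc' ⟨h.2, h.1⟩) (swapR_none _ hR) (swapR_none _ hR')
  red_x := by
    intro p q c hp hq ht hR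
    obtain ⟨g1, g2, g3, g4⟩ := r.red_y q p c hq hp (W.tri_unflip ht) (swapR_some _ _ _ hR)
    refine ⟨fun h => g1 (forb_swap23 _ _ _ h), ?_, ?_, ?_⟩
    · rw [W.col_flip]
      exact fun h => g2 ⟨h.2, h.1⟩
    · rw [W.flip_flip]
      omega
    · intro p' q' v hp' hq' hv k1 k2 k3 k4 k5
      exact g4 q' p' v hq' hp' hv (W.tri_unflip k1) k3 k2 k4 k5
  red_y := by
    intro p q c hp hq ht hR
    obtain ⟨g1, g2, g3, g4⟩ := r.red_x q p c hq hp (W.tri_unflip ht) (swapR_some _ _ _ hR)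
    refine ⟨fun h => g1 (forb_swap23 _ _ _ h), ?_, ?_, ?_⟩
    · rw [W.col_flip]
      exact fun h => g2 ⟨h.2, h.1⟩
    · rw [W.flip_flip]
      omega
    · intro p' q' v hp' hq' hv k1 k2 k3 k4 k5
      exact g4 q' p' v hq' hp' hv (W.tri_unflip k1) k3 k2 k4 k5

theorem Serve.swap {t : T} {a b : ZMod 6} (h : W.Serve t a b) : W.Serve (W.flip t) b a :=
  ⟨h.some.swap⟩

/-- An automorphism of a world. -/
structure Aut where
  f : T → T
  g : T → T
  c : ZMod 6 → ZMod 6
  d : ZMod 6 → ZMod 6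
  fg : ∀ t, f (g t) = t
  gf : ∀ t, g (f t) = t
  cd : ∀ a, c (d a) = a
  dc : ∀ a, d (c a) = a
  f_flip : ∀ t, f (W.flip t) = W.flip (f t)
  f_col : ∀ t, W.Edge t → W.col (f t) = c (W.col t)
  f_la : ∀ t, W.la (f t) = W.la t
  f_edge : ∀ t, W.Edge t → W.Edge (f t)
  g_edge : ∀ t, W.Edge t → W.Edge (g t)
  f_tri : ∀ p q r, W.Tri p q r → W.Tri (f p) (f q) (f r)
  g_tri : ∀ p q r, W.Tri p q r → W.Tri (g p) (g q) (g r)
  d_forb : ∀ a b e, Forbidden a b e → Forbidden (d a) (d b) (d e)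

namespace Aut

variable {W} (A : W.Aut)

theorem g_flip (t : T) : A.g (W.flip t) = W.flip (A.g t) := by
  have h := A.f_flip (A.g t)
  rw [A.fg] at h
  rw [← h, A.gf]

theorem g_col (t : T) (ht : W.Edge t) : W.col (A.g t) = A.d (W.col t) := by
  have h := A.f_col (A.g t) (A.g_edge _ ht)
  rw [A.fg] at h
  rw [h, A.dc]

theorem g_la (t : T) : W.la (A.g t) = W.la t := by
  have h := A.f_la (A.g t)
  rw [A.fg] at h
  exact h.symm

/-- The image of a redirection. -/
def mapR (A : W.Aut) : Option (Bool × ZMod 6) → Option (Bool × ZMod 6)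
  | none => none
  | some (s, c) => some (s, A.c c)

theorem mapR_none (o : Option (Bool × ZMod 6)) (h : A.mapR o = none) : o = none := by
  cases o with
  | none => rfl
  | some v => exact absurd h (by simp [mapR])

theorem mapR_some (o : Option (Bool × ZMod 6)) (s : Bool) (e : ZMod 6)
    (h : A.mapR o = some (s, e)) : o = some (s, A.d e) := by
  cases o with
  | none => exact absurd h (by simp [mapR])
  | some v =>
    obtain ⟨s', e'⟩ := v
    simp only [mapR, Option.some.injEq, Prod.mk.injEq] at h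
    rw [← h.1, ← h.2, A.dc]

/-- The image of a rule. -/
def rule {t : T} {a b : ZMod 6} (ht : W.Edge t) (r : W.Rule t a b) :
    W.Rule (A.f t) (A.c a) (A.c b) where
  gx := A.f r.gx
  gy := A.f r.gy
  F := fun p q => A.f (r.F (A.g p) (A.g q))
  R := fun p q => A.mapR (r.R (A.g p) (A.g q))
  gx_ok := by
    obtain ⟨g1, g2, g3, g4⟩ := r.gx_ok
    exact ⟨A.f_edge _ g1, by rw [A.f_col _ g1, g2], by rw [A.f_la, A.f_la, g3],
      by rw [← A.f_flip, A.f_la, g4]⟩
  gy_ok := by
    obtain ⟨g1, g2, g3, g4⟩ := r.gy_ok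
    exact ⟨A.f_edge _ g1, by rw [A.f_col _ g1, g2], by rw [← A.f_flip, A.f_la, A.f_la, g3],
      by rw [← A.f_flip, A.f_la, g4]⟩
  tri_new := A.f_tri _ _ _ r.tri_new
  F_ok := by
    intro p q hp hq ht1 hc hR
    have ht' := A.g_tri _ _ _ ht1
    rw [A.gf] at ht'
    obtain ⟨g1, g2, g3, g4, g5⟩ := r.F_ok (A.g p) (A.g q) (A.g_edge _ hp) (A.g_edge _ hq) ht'
      (fun h => hc ⟨by rw [← A.fg p, A.f_col _ (A.g_edge _ hp), h.1],
        by rw [← A.fg q, A.f_col _ (A.g_edge _ hq), h.2]⟩)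
      (A.mapR_none _ hR)
    refine ⟨A.f_edge _ g1, ?_, ?_, ?_, ?_⟩
    · rw [A.f_la, g2, ← A.g_flip, A.g_la]
    · rw [← A.f_flip, A.f_la, g3]
    · have := A.f_tri _ _ _ g4
      rwa [A.fg] at this
    · have := A.f_tri _ _ _ g5
      rwa [A.fg] at this
  tri_w := by
    intro p q p' q' u hp hq hp' hq' hu ht1 ht' h1 h2 hc hc' hR hR'
    have k1 := A.g_tri _ _ _ ht1
    have k2 := A.g_tri _ _ _ ht'
    rw [A.gf] at k1 k2
    have := r.tri_w _ _ _ _ _ (A.g_edge _ hp) (A.g_edge _ hq) (A.g_edge _ hp')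
      (A.g_edge _ hq') (A.g_edge _ hu) k1 k2 (A.g_tri _ _ _ h1) (A.g_tri _ _ _ h2)
      (fun h => hc ⟨by rw [← A.fg p, A.f_col _ (A.g_edge _ hp), h.1],
        by rw [← A.fg q, A.f_col _ (A.g_edge _ hq), h.2]⟩)
      (fun h => hc' ⟨by rw [← A.fg p', A.f_col _ (A.g_edge _ hp'), h.1],
        by rw [← A.fg q', A.f_col _ (A.g_edge _ hq'), h.2]⟩)
      (A.mapR_none _ hR) (A.mapR_none _ hR')
    have h3 := A.f_tri _ _ _ this
    rwa [A.fg] at h3
  red_x := by
    intro p q e hp hq ht1 hR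
    have k1 := A.g_tri _ _ _ ht1
    rw [A.gf] at k1
    obtain ⟨g1, g2, g3, g4⟩ := r.red_x _ _ _ (A.g_edge _ hp) (A.g_edge _ hq) k1
      (A.mapR_some _ _ _ hR)
    refine ⟨?_, ?_, ?_, ?_⟩
    · intro h
      apply g1
      have := A.d_forb _ _ _ h
      rwa [A.dc, ← A.g_col _ hp] at this
    · rintro ⟨h1, h2⟩
      apply g2
      rw [A.f_col _ ht] at h1
      refine ⟨?_, by rw [A.g_col _ hq, h2]⟩
      rw [← A.dc (W.col t), h1, A.dc]
    · have e1 := A.g_la p
      have e2 : W.la (W.flip (A.g p)) = W.la (W.flip p) := by rw [← A.g_flip, A.g_la]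
      have e3 := A.f_la t
      have e4 : W.la (W.flip (A.f t)) = W.la (W.flip t) := by rw [← A.f_flip, A.f_la]
      omega
    · intro p' q' v hp' hq' hv k2 k3 k4 k5 k6
      have k2' := A.g_tri _ _ _ k2
      rw [A.gf] at k2'
      have := g4 (A.g p') (A.g q') (A.g v) (A.g_edge _ hp') (A.g_edge _ hq') (A.g_edge _ hv) k2'
        (A.g_tri _ _ _ k3) (A.g_tri _ _ _ k4) (by rw [A.g_col _ hp', k5, A.dc])
        (by rw [A.g_col _ hv, k6])
      rw [← A.fg q', A.f_col _ (A.g_edge _ hq'), this]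
  red_y := by
    intro p q e hp hq ht1 hR
    have k1 := A.g_tri _ _ _ ht1
    rw [A.gf] at k1
    obtain ⟨g1, g2, g3, g4⟩ := r.red_y _ _ _ (A.g_edge _ hp) (A.g_edge _ hq) k1
      (A.mapR_some _ _ _ hR)
    refine ⟨?_, ?_, ?_, ?_⟩
    · intro h
      apply g1
      have := A.d_forb _ _ _ h
      rwa [A.dc, ← A.g_col _ hq] at this
    · rintro ⟨h1, h2⟩
      apply g2
      rw [A.f_col _ ht] at h2
      refine ⟨by rw [A.g_col _ hp, h1], ?_⟩
      rw [← A.dc (W.col t), h2, A.dc]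
    · have e1 := A.g_la q
      have e2 : W.la (W.flip (A.g q)) = W.la (W.flip q) := by rw [← A.g_flip, A.g_la]
      have e3 := A.f_la t
      have e4 : W.la (W.flip (A.f t)) = W.la (W.flip t) := by rw [← A.f_flip, A.f_la]
      omega
    · intro p' q' v hp' hq' hv k2 k3 k4 k5 k6
      have k2' := A.g_tri _ _ _ k2
      rw [A.gf] at k2'
      have := g4 (A.g p') (A.g q') (A.g v) (A.g_edge _ hp') (A.g_edge _ hq') (A.g_edge _ hv) k2'
        (A.g_tri _ _ _ k3) (A.g_tri _ _ _ k4) (by rw [A.g_col _ hq', k5, A.dc])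
        (by rw [A.g_col _ hv, k6])
      rw [← A.fg p', A.f_col _ (A.g_edge _ hp'), this]

theorem serve {t : T} {a b : ZMod 6} (ht : W.Edge t) (h : W.Serve t a b) :
    W.Serve (A.f t) (A.c a) (A.c b) :=
  ⟨A.rule ht h.some⟩

end Aut

end Pool.Agent.RA6.World
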